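import Pool.Agent.Lib.MP_e43fce_nt_one.RunsDens

/-!
From a positive density of ancestors for the non periodic integers of one residue class to a
positive density of ancestors for every integer not divisible by 3, uniformly.
-/

set_option autoImplicit false

open Finset Filter

namespace Pool.Agent.Lib.MP_e43fce_nt.KL

open Classical in
/-- the odd `n ≤ X`, `n ≥ X / K0`, which reach `m` after `k` steps, `k` about `cs log (X / m)` -/
noncomputable def CG (cs ε : ℝ) (K0 m X : ℕ) : Finset ℕ :=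
  (Icc 1 X).filter (fun n : ℕ => X ≤ K0 * n ∧ n % 2 = 1 ∧ ∃ k : ℕ, col^[k] n = m ∧
    |(k : ℝ) - cs * Real.log ((X : ℝ) / m)| ≤ ε * Real.log ((X : ℝ) / m))

/-- two periodic points with the same image are equal -/
private theorem periodic_inj {u v p q : ℕ} (hp : 0 < p) (hq : 0 < q) (hu : col^[p] u = u)
    (hv : col^[q] v = v) (h : col u = col v) : u = v := by
  have hu' : Function.IsPeriodicPt col (p * q) u := Function.IsPeriodicPt.mul_const hu q
  have hv' : Function.IsPeriodicPt col (p * q) v := Function.IsPeriodicPt.const_mul hv p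
  have h1 : 0 < p * q := Nat.mul_pos hp hq
  obtain ⟨k, hk⟩ : ∃ k, p * q = k + 1 := ⟨p * q - 1, by omega⟩
  rw [hk] at hu' hv'
  have e1 : col^[k] (col u) = u := by
    rw [← Function.iterate_succ_apply]
    exact hu'
  have e2 : col^[k] (col v) = v := by
    rw [← Function.iterate_succ_apply]
    exact hv'
  rw [← e1, ← e2, h]

/-- an ancestor of a non periodic point is non periodic -/
theorem np_of_reach {m z k : ℕ} (hz : ∀ p : ℕ, 0 < p → col^[p] z ≠ z) (h : col^[k] m = z) :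
    ∀ p : ℕ, 0 < p → col^[p] m ≠ m := by
  intro p hp hm
  apply hz p hp
  rw [← h, ← Function.iterate_add_apply, add_comm, Function.iterate_add_apply, hm]

private theorem two_pre {a i i' y y' : ℕ} (hi : i < i')
    (hy : 3 * y + 1 = 2 ^ i * a) (hy1 : y % 2 = 1)
    (hy' : 3 * y' + 1 = 2 ^ i' * a) (hy1' : y' % 2 = 1) :
    (∀ p : ℕ, 0 < p → col^[p] y ≠ y) ∨ (∀ p : ℕ, 0 < p → col^[p] y' ≠ y') := by
  by_contra hcon
  push Not at hcon
  obtain ⟨⟨p, hp, h1⟩, ⟨q, hq, h2⟩⟩ := hcon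
  have hpow : 2 ^ i' * a = 2 ^ (i' - i - 1) * (2 ^ (i + 1) * a) := by
    rw [← mul_assoc, ← pow_add]
    congr 2
    omega
  -- `v = 2 ^ (i + 1) a` is periodic
  have hv : col^[i' - i - 1 + 1] y' = 2 ^ (i + 1) * a := by
    rw [Function.iterate_add_apply, Function.iterate_one]
    have : col y' = 2 ^ (i' - i - 1) * (2 ^ (i + 1) * a) := by
      unfold col
      rw [if_neg (by omega), hy', hpow]
    rw [this, col_iter_two_pow]
  have hv2 : col^[q] (2 ^ (i + 1) * a) = 2 ^ (i + 1) * a := by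
    rw [← hv, ← Function.iterate_add_apply, add_comm, Function.iterate_add_apply, h2]
  have hcol : col y = col (2 ^ (i + 1) * a) := by
    have e1 : col y = 2 ^ i * a := by
      unfold col
      rw [if_neg (by omega), hy]
    have e2 : col (2 ^ (i + 1) * a) = 2 ^ i * a := by
      have h3 : 2 ^ (i + 1) * a = 2 * (2 ^ i * a) := by ring
      unfold col
      rw [h3, if_pos (by omega)]
      omega
    rw [e1, e2]
  have h4 := periodic_inj hp hq h1 hv2 hcol
  have h5 : 2 ^ (i + 1) * a = 2 * (2 ^ i * a) := by ring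
  omega

/-- every integer not divisible by 3 has a small non periodic ancestor not divisible by 3 -/
theorem np_pre {a : ℕ} (ha : ¬ 3 ∣ a) : ∃ y s : ℕ, 0 < y ∧ ¬ 3 ∣ y ∧ y ≤ 64 * a ∧ s ≤ 7 ∧
    col^[s] y = a ∧ ∀ p : ℕ, 0 < p → col^[p] y ≠ y := by
  obtain ⟨i, i', hi, hii, hi', h4⟩ : ∃ i i' : ℕ, 1 ≤ i ∧ i < i' ∧ i' ≤ 6 ∧
      ((2 ^ i * a) % 9 = 4 ∧ (2 ^ i' * a) % 9 = 7 ∨ (2 ^ i * a) % 9 = 7 ∧ (2 ^ i' * a) % 9 = 4) := by
    have h9 : a % 9 = 1 ∨ a % 9 = 2 ∨ a % 9 = 4 ∨ a % 9 = 5 ∨ a % 9 = 7 ∨ a % 9 = 8 := by omega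
    rcases h9 with h | h | h | h | h | h
    · exact ⟨2, 4, by omega, by omega, by omega, by omega⟩
    · exact ⟨1, 3, by omega, by omega, by omega, by omega⟩
    · exact ⟨2, 6, by omega, by omega, by omega, by omega⟩
    · exact ⟨3, 5, by omega, by omega, by omega, by omega⟩
    · exact ⟨4, 6, by omega, by omega, by omega, by omega⟩
    · exact ⟨1, 5, by omega, by omega, by omega, by omega⟩
  have key : ∀ i : ℕ, 1 ≤ i → i ≤ 6 → ((2 ^ i * a) % 9 = 4 ∨ (2 ^ i * a) % 9 = 7) →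
      ∃ y : ℕ, 3 * y + 1 = 2 ^ i * a ∧ y % 2 = 1 ∧ 0 < y ∧ ¬ 3 ∣ y ∧ y ≤ 64 * a ∧
        col^[i + 1] y = a := by
    intro i h1 h6 h
    have h5 : 2 ^ i * a = 2 * (2 ^ (i - 1) * a) := by
      rw [← mul_assoc, ← pow_succ']
      congr 2
      omega
    have h7 : 2 ^ i * a ≤ 64 * a := by
      have : 2 ^ i ≤ 2 ^ 6 := Nat.pow_le_pow_right (by norm_num) h6
      exact Nat.mul_le_mul_right _ (by simpa using this)
    obtain ⟨y, hy⟩ : ∃ y, 3 * y + 1 = 2 ^ i * a := ⟨(2 ^ i * a) / 3, by omega⟩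
    refine ⟨y, hy, by omega, by omega, by omega, by omega, ?_⟩
    rw [Function.iterate_add_apply, Function.iterate_one]
    have : col y = 2 ^ i * a := by
      unfold col
      rw [if_neg (by omega), hy]
    rw [this, col_iter_two_pow]
  obtain ⟨y, e1, e2, e3, e4, e5, e6⟩ := key i hi (by omega) (by omega)
  obtain ⟨y', f1, f2, f3, f4, f5, f6⟩ := key i' (by omega) hi' (by omega)
  rcases two_pre hii e1 e2 f1 f2 with h | h
  · exact ⟨y, i + 1, e3, e4, e5, by omega, e6, h⟩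
  · exact ⟨y', i' + 1, f3, f4, f5, by omega, f6, h⟩

/-- every integer `a` not divisible by 3 has a non periodic ancestor of size `O(a)` in a given
residue class modulo a number, reached in a bounded number of steps -/
theorem np_anc (q r0 m1 : ℕ) (hq : 0 < q) : ∃ C1 L1 : ℕ, 0 < C1 ∧ ∀ a : ℕ, ¬ 3 ∣ a →
    ∃ m s : ℕ, m1 ≤ m ∧ m ≤ C1 * a ∧ m % q = r0 % q ∧ s ≤ L1 ∧ col^[s] m = a ∧
      ∀ p : ℕ, 0 < p → col^[p] m ≠ m := by
  obtain ⟨K, L, m0, hK, hsteer⟩ := steer_runs q r0 0 hq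
  refine ⟨K * (2 ^ (m0 + 4 ^ L * m1) * 64), L + (m0 + 4 ^ L * m1) + 7, by positivity,
    fun a ha => ?_⟩
  obtain ⟨y, s, hy0, hy3, hya, hs, hsy, hnp⟩ := np_pre ha
  set t : ℕ := m0 + 4 ^ L * m1 with ht
  have h2t : t ≤ 2 ^ t * y := by
    have h1 : t < 2 ^ t := Nat.lt_two_pow_self
    have h2 : 2 ^ t ≤ 2 ^ t * y := Nat.le_mul_of_pos_right _ hy0
    omega
  have h3 : ¬ 3 ∣ 2 ^ t * y := by
    intro h
    rcases (Nat.Prime.dvd_mul Nat.prime_three).1 h with h | h
    · have := Nat.Prime.dvd_of_dvd_pow Nat.prime_three h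
      omega
    · exact hy3 h
  obtain ⟨m, c1, c2, c3, k, hk, c4⟩ := hsteer (2 ^ t * y) (by omega) h3
  have c5 := c4 0 le_rfl
  rw [add_zero] at c5
  have hz : col^[t] (2 ^ t * y) = y := col_iter_two_pow t y
  have hmy : col^[t + k] m = y := by
    rw [Function.iterate_add_apply, c5, hz]
  refine ⟨m, s + (t + k), ?_, ?_, c3, by omega, ?_, np_of_reach hnp hmy⟩
  · have h5 := col_iter_le k c1
    rw [c5] at h5
    have h6 : 4 ^ k * m ≤ 4 ^ L * m :=
      Nat.mul_le_mul_right _ (Nat.pow_le_pow_right (by norm_num) hk)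
    have h7 : 4 ^ L * m1 ≤ 4 ^ L * m := by omega
    exact Nat.le_of_mul_le_mul_left h7 (by positivity)
  · calc m ≤ K * (2 ^ t * y) := c2
      _ ≤ K * (2 ^ t * (64 * a)) := Nat.mul_le_mul_left _ (Nat.mul_le_mul_left _ hya)
      _ = K * (2 ^ t * 64) * a := by ring
  · rw [Function.iterate_add_apply, hmy, hsy]

theorem class_to_all {cs ε c : ℝ} (hcs : 0 < cs) (hε : 0 < ε) (hc : 0 < c) {q r0 m1 K0 x0 : ℕ}
    (hq : 0 < q)
    (hcount : ∀ m : ℕ, m1 ≤ m → m % q = r0 % q → (∀ p : ℕ, 0 < p → col^[p] m ≠ m) →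
      ∀ X : ℕ, x0 * m ≤ X → c * ((X : ℝ) / m) ≤ ((CG cs ε K0 m X).card : ℝ)) :
    ∃ c' : ℝ, 0 < c' ∧ ∃ K0' x0' : ℕ, ∀ a : ℕ, ¬ 3 ∣ a → ∀ x : ℕ, x0' ≤ x →
      c' * (x : ℝ) ≤ ((DG cs (2 * ε) K0' a x).card : ℝ) := by
  classical
  obtain ⟨C1, L1, hC1, hanc⟩ := np_anc q r0 (m1 + 1) hq
  have hC1r : (0 : ℝ) < C1 := by exact_mod_cast hC1
  have hC1one : (1 : ℝ) ≤ C1 := by exact_mod_cast hC1
  -- the constant comparing `x` and `X / m`
  set D : ℝ := (8 : ℝ) * C1 * 4 ^ L1 with hD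
  have hDpos : 0 < D := by positivity
  have h4L : (1 : ℝ) ≤ 4 ^ L1 := one_le_pow₀ (by norm_num)
  have hDone : 1 ≤ D := by
    rw [hD]
    nlinarith
  have hlogD : 0 ≤ Real.log D := Real.log_nonneg hDone
  refine ⟨c / (8 * C1), by positivity, 7 * K0, ?_⟩
  set E0 : ℝ := (1 / ε) * (cs * Real.log D + (L1 + 1) + ε * Real.log D) with hE0
  obtain ⟨X0, hX0⟩ := exists_nat_ge (max (Real.exp E0) ((8 : ℝ) * C1 * (x0 + K0 + 1)))
  refine ⟨X0, fun a ha x hx => ?_⟩
  obtain ⟨m, s, hm1, hma, hmq, hs, hsm, hnp⟩ := hanc a ha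
  have hapos : 0 < a := Nat.pos_of_ne_zero (by rintro rfl; exact ha (dvd_zero 3))
  have har : (0 : ℝ) < a := by exact_mod_cast hapos
  have hmpos : 0 < m := by omega
  have hmr : (0 : ℝ) < m := by exact_mod_cast hmpos
  have hxX : (X0 : ℝ) ≤ x := by exact_mod_cast hx
  have hxE : Real.exp E0 ≤ x := (le_max_left _ _).trans (hX0.trans hxX)
  have hxC : (8 : ℝ) * C1 * (x0 + K0 + 1) ≤ x := (le_max_right _ _).trans (hX0.trans hxX)
  have hxCn : 8 * C1 * (x0 + K0 + 1) ≤ x := by exact_mod_cast hxC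
  have hx0 : (0 : ℝ) < x := lt_of_lt_of_le (Real.exp_pos _) hxE
  have hlogx : E0 ≤ Real.log x := by rwa [Real.le_log_iff_exp_le hx0]
  -- `X = a x / 4`
  set X : ℕ := a * x / 4 with hX
  have hX4 : 4 * X ≤ a * x := Nat.mul_div_le _ _
  have hX4' : a * x < 4 * (X + 1) := Nat.lt_mul_div_succ _ (by norm_num)
  have hax : 8 ≤ a * x := by
    have h1 : 8 ≤ x := by
      have : 8 * 1 ≤ 8 * (C1 * (x0 + K0 + 1)) := Nat.mul_le_mul_left _ (by
        have : 0 < C1 * (x0 + K0 + 1) := by positivity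
        omega)
      have h2 : 8 * (C1 * (x0 + K0 + 1)) = 8 * C1 * (x0 + K0 + 1) := by ring
      omega
    calc 8 ≤ x := h1
      _ ≤ a * x := Nat.le_mul_of_pos_left _ hapos
  have hX7 : a * x ≤ 7 * X := by omega
  have hbig : 8 * ((x0 + K0 + 1) * m) ≤ a * x := by
    calc 8 * ((x0 + K0 + 1) * m) ≤ 8 * ((x0 + K0 + 1) * (C1 * a)) :=
          Nat.mul_le_mul_left _ (Nat.mul_le_mul_left _ hma)
      _ = a * (8 * C1 * (x0 + K0 + 1)) := by ring
      _ ≤ a * x := Nat.mul_le_mul_left _ hxCn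
  have hXm : (x0 + K0 + 1) * m ≤ X := by omega
  have hXx0 : x0 * m ≤ X := by
    have : (x0 + K0 + 1) * m = x0 * m + (K0 * m + m) := by ring
    omega
  have hXK0 : K0 * m < X := by
    have : (x0 + K0 + 1) * m = x0 * m + (K0 * m + m) := by ring
    omega
  have hXpos : 0 < X := by omega
  have hXr : (0 : ℝ) < X := by exact_mod_cast hXpos
  have hcnt := hcount m (by omega) hmq hnp X hXx0
  set ρ : ℝ := (X : ℝ) / m with hρ
  have hρpos : 0 < ρ := by positivity
  -- comparison of `x` and `ρ`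
  have ham : (a : ℝ) ≤ 4 ^ L1 * m := by
    have h5 := col_iter_le s hmpos
    rw [hsm] at h5
    have h6 : 4 ^ s * m ≤ 4 ^ L1 * m :=
      Nat.mul_le_mul_right _ (Nat.pow_le_pow_right (by norm_num) hs)
    exact_mod_cast h5.trans h6
  have hmar : (m : ℝ) ≤ C1 * a := by exact_mod_cast hma
  have hX7r : (a : ℝ) * x ≤ 7 * X := by exact_mod_cast hX7
  have hX4r : (4 : ℝ) * X ≤ a * x := by exact_mod_cast hX4
  have hxρ : (x : ℝ) ≤ 7 * C1 * ρ := by
    rw [hρ, mul_div_assoc', le_div_iff₀ hmr]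
    have h1 : (x : ℝ) * m ≤ x * (C1 * a) := mul_le_mul_of_nonneg_left hmar hx0.le
    have h2 : (C1 : ℝ) * (a * x) ≤ C1 * (7 * X) := mul_le_mul_of_nonneg_left hX7r hC1r.le
    linarith
  have hxρD : (x : ℝ) ≤ D * ρ := by
    refine hxρ.trans (mul_le_mul_of_nonneg_right ?_ hρpos.le)
    rw [hD]
    have : (8 : ℝ) * C1 * 1 ≤ 8 * C1 * 4 ^ L1 := mul_le_mul_of_nonneg_left h4L (by positivity)
    linarith
  have hρx : ρ ≤ D * x := by
    rw [hρ, div_le_iff₀ hmr]
    have h1 : (a : ℝ) * x ≤ 4 ^ L1 * m * x := mul_le_mul_of_nonneg_right ham hx0.le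
    have h2 : (4 : ℝ) ^ L1 * m * x ≤ D * x * m := by
      have : (4 : ℝ) ^ L1 ≤ D := by
        rw [hD]
        nlinarith [mul_pos hC1r (lt_of_lt_of_le one_pos h4L)]
      nlinarith [mul_nonneg hmr.le hx0.le]
    nlinarith
  have hlog1 : Real.log x ≤ Real.log D + Real.log ρ := by
    have := Real.log_le_log hx0 hxρD
    rwa [Real.log_mul hDpos.ne' hρpos.ne'] at this
  have hlog2 : Real.log ρ ≤ Real.log D + Real.log x := by
    have := Real.log_le_log hρpos hρx
    rwa [Real.log_mul hDpos.ne' hx0.ne'] at this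
  have hE0' : cs * Real.log D + (L1 + 1) + ε * Real.log D ≤ ε * Real.log x := by
    have h1 : ε * E0 = cs * Real.log D + (L1 + 1) + ε * Real.log D := by
      rw [hE0]
      field_simp
    rw [← h1]
    exact mul_le_mul_of_nonneg_left hlogx hε.le
  -- the first hitting time of `a` from `m`
  have hmeet : ∃ t : ℕ, col^[t] m = a := ⟨s, hsm⟩
  obtain ⟨t, ht1, ht2, ht3⟩ : ∃ t : ℕ, t ≤ s ∧ col^[t] m = a ∧ ∀ i' < t, col^[i'] m ≠ a :=
    ⟨Nat.find hmeet, Nat.find_min' hmeet hsm, Nat.find_spec hmeet,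
      fun i' hi' => Nat.find_min hmeet hi'⟩
  -- the map `n ↦ 3 n + 1` on multiples of 3
  set f : ℕ → ℕ := fun n => if 3 ∣ n then 3 * n + 1 else n with hf
  have hmaps : ∀ n ∈ CG cs ε K0 m X, f n ∈ DG cs (2 * ε) (7 * K0) a x := by
    intro n hn
    unfold CG at hn
    rw [mem_filter, mem_Icc] at hn
    obtain ⟨⟨hn1, hnX⟩, hK0n, hodd, k, hk, hkε⟩ := hn
    obtain ⟨hk1, hk2⟩ := abs_le.1 hkε
    have hnm : n ≠ m := by
      rintro rfl
      omega
    have hk0 : 0 < k := by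
      rcases Nat.eq_zero_or_pos k with h | h
      · subst h
        exact absurd hk hnm
      · exact h
    -- a general step: any `n'` which is `n` or `col n`
    have gen : ∀ n' k' : ℕ, 1 ≤ n' → n ≤ n' → n' ≤ 4 * n → ¬ 3 ∣ n' → k' ≤ k → k ≤ k' + 1 →
        col^[k'] n' = m → n' ∈ DG cs (2 * ε) (7 * K0) a x := by
      intro n' k' g1 g2 g3 g4 g5 g6 g7
      unfold DG
      rw [mem_filter, mem_Icc]
      refine ⟨⟨g1, ?_⟩, ?_, g4, t + k', ?_, ?_, ?_⟩
      · calc n' ≤ 4 * n := g3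
          _ ≤ 4 * X := Nat.mul_le_mul_left _ hnX
          _ ≤ a * x := hX4
      · calc a * x ≤ 7 * X := hX7
          _ ≤ 7 * (K0 * n) := Nat.mul_le_mul_left _ hK0n
          _ ≤ 7 * (K0 * n') := Nat.mul_le_mul_left _ (Nat.mul_le_mul_left _ g2)
          _ = 7 * K0 * n' := by ring
      · rw [Function.iterate_add_apply, g7, ht2]
      · intro i' hi' hcon
        by_cases hik : i' < k'
        · -- then `m` would be periodic
          apply hnp (k' - i' + t) (by omega)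
          have h5 : col^[k' - i'] a = m := by
            rw [← hcon, ← Function.iterate_add_apply, Nat.sub_add_cancel hik.le, g7]
          rw [Function.iterate_add_apply, ht2, h5]
        · have e1 : i' = (i' - k') + k' := by omega
          rw [e1, Function.iterate_add_apply, g7] at hcon
          exact ht3 _ (by omega) hcon
      · have b1 : (t : ℝ) ≤ L1 := by exact_mod_cast ht1.trans hs
        have b0 : (0 : ℝ) ≤ t := Nat.cast_nonneg _
        have b2 : (k' : ℝ) ≤ k := by exact_mod_cast g5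
        have b3 : (k : ℝ) ≤ k' + 1 := by exact_mod_cast g6
        have b4 : cs * Real.log ρ ≤ cs * (Real.log D + Real.log x) :=
          mul_le_mul_of_nonneg_left hlog2 hcs.le
        have b5 : cs * Real.log x ≤ cs * (Real.log D + Real.log ρ) :=
          mul_le_mul_of_nonneg_left hlog1 hcs.le
        have b6 : ε * Real.log ρ ≤ ε * (Real.log D + Real.log x) :=
          mul_le_mul_of_nonneg_left hlog2 hε.le
        rw [abs_le]
        push_cast
        constructor <;> linarith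
    by_cases h3 : 3 ∣ n
    · have hfn : f n = 3 * n + 1 := by
        simp only [hf, if_pos h3]
      rw [hfn]
      have hcn : col n = 3 * n + 1 := by
        unfold col
        rw [if_neg (by omega)]
      refine gen (3 * n + 1) (k - 1) (by omega) (by omega) (by omega) (by omega) (by omega)
        (by omega) ?_
      rw [← hcn, ← Function.iterate_succ_apply, Nat.succ_eq_add_one, Nat.sub_add_cancel hk0, hk]
    · have hfn : f n = n := by
        simp only [hf, if_neg h3]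
      rw [hfn]
      exact gen n k hn1 le_rfl (by omega) h3 le_rfl (by omega) hk
  have hinj : Set.InjOn f (CG cs ε K0 m X : Set ℕ) := by
    intro n hn n' hn' hnn
    have o1 : n % 2 = 1 := by
      have := mem_coe.1 hn
      unfold CG at this
      exact (mem_filter.1 this).2.2.1
    have o2 : n' % 2 = 1 := by
      have := mem_coe.1 hn'
      unfold CG at this
      exact (mem_filter.1 this).2.2.1
    simp only [hf] at hnn
    split_ifs at hnn <;> omega
  have hcard : (CG cs ε K0 m X).card ≤ (DG cs (2 * ε) (7 * K0) a x).card :=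
    card_le_card_of_injOn f hmaps hinj
  have hcardr : ((CG cs ε K0 m X).card : ℝ) ≤ ((DG cs (2 * ε) (7 * K0) a x).card : ℝ) := by
    exact_mod_cast hcard
  refine le_trans ?_ (hcnt.trans hcardr)
  rw [div_mul_eq_mul_div, div_le_iff₀ (by positivity)]
  have h1 : c * (x : ℝ) ≤ c * (7 * C1 * ρ) := mul_le_mul_of_nonneg_left hxρ hc.le
  have h2 : 0 ≤ c * (C1 * ρ) := by positivity
  linarith

end Pool.Agent.Lib.MP_e43fce_nt.KL
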