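import Pool.Agent.Lib.MP_e43fce_nt_one.Defs

/-!
Definitions for the sharp version (total stopping time asymptotic to (3 / log (4/3)) log n).
-/

set_option autoImplicit false

open Finset

namespace Pool.Agent.Lib.MP_e43fce_nt_one

/-- block version of `Gw`: the weight `Ω w` is given to each word `w` of `L` letters -/
noncomputable def Bw (A L : ℕ) (Ω : List ℕ → ℝ) : ℕ → ℤ → ℝ
  | 0, _ => 1
  | n + 1, v => ∑ w ∈ lw A L, if adm v w then Ω w * Bw A L Ω n (te v w) else 0

/-- excess of the sum of a block of `L` letters over `2 L` -/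
noncomputable def exc (L : ℕ) (w : List ℕ) : ℝ := max ((w.sum : ℝ) - 2 * L) 0

/-- block weights: `(3^L/2^s)^γ`, a factor `exp (-τ)` for each Collatz step, a penalty for high sums -/
noncomputable def OB (γ τ t : ℝ) (L : ℕ) (w : List ℕ) : ℝ :=
  (3 ^ L / 2 ^ w.sum : ℝ) ^ γ * Real.exp (-(τ * ((w.sum : ℝ) + L))) * Real.exp (-(t * exc L w))

/-- the expected number of Collatz steps per unit of `log n` -/
noncomputable def cstar : ℝ := 3 / Real.log (4 / 3)

/-- block words: lists of `n` blocks of `L` letters in `[1, A]` -/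
def bws (A L : ℕ) : ℕ → Finset (List (List ℕ))
  | 0 => {[]}
  | n + 1 => (lw A L ×ˢ bws A L n).image (fun p : List ℕ × List (List ℕ) => p.1 :: p.2)

/-- total excess of a block word -/
noncomputable def texc (L : ℕ) (u : List (List ℕ)) : ℝ := (u.map (exc L)).sum

end Pool.Agent.Lib.MP_e43fce_nt_one
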