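import Pool.Agent.Lib.MP_e43fce_nt_one.BinomLocal

/-!
The sum over the lengths `K` in the count of the nodes below `X`.
-/

set_option autoImplicit false

open Finset

namespace Pool.Agent.Lib.MP_e43fce_nt_one

/-- `log 3 / log 2` -/
noncomputable def theta : ℝ := Real.log 3 / Real.log 2

theorem theta_lt : theta < 65 / 41 := by
  unfold theta
  have h2 : 0 < Real.log 2 := Real.log_pos (by norm_num)
  rw [div_lt_div_iff₀ h2 (by norm_num)]
  have h : Real.log ((3 : ℝ) ^ 41) < Real.log ((2 : ℝ) ^ 65) :=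
    Real.log_lt_log (by positivity) (by norm_num)
  rw [Real.log_pow, Real.log_pow] at h
  push_cast at h
  linarith

theorem lt_theta : 84 / 53 < theta := by
  unfold theta
  have h2 : 0 < Real.log 2 := Real.log_pos (by norm_num)
  rw [div_lt_div_iff₀ (by norm_num) h2]
  have h : Real.log ((2 : ℝ) ^ 84) < Real.log ((3 : ℝ) ^ 53) :=
    Real.log_lt_log (by positivity) (by norm_num)
  rw [Real.log_pow, Real.log_pow] at h
  push_cast at h
  linarith

theorem ksum {κ : ℝ} (h0 : 0 < κ) (h1 : κ ≤ 1 / 100) (ρ : ℕ → ℕ → ℝ) (hρ0 : ∀ j α, 0 ≤ ρ j α)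
    (hρ1 : ∀ j α : ℕ, 1 ≤ j → |(α : ℝ) - 2 * j| ≤ Real.sqrt j / 8 →
      1 / (8 * Real.sqrt j) ≤ ρ j α) : ∃ I0 : ℕ, ∀ I : ℕ, I0 ≤ I → ∀ Λ : ℝ,
    9 / 20 * I ≤ Λ → Λ ≤ 23 / 50 * I → ∀ Ap : ℕ, |(Ap : ℝ) - 2 * I| ≤ κ * I → ∀ AX : ℕ → ℕ,
    (∀ K : ℕ, Λ + K * theta - 1 < AX K ∧ (AX K : ℝ) ≤ Λ + K * theta) →
    1 / 32 ≤ ∑ K ∈ (Icc (I + 1) (57 * I / 50)).filter
      (fun K : ℕ => |(AX K : ℝ) - 2 * K| ≤ 2 * κ * I), ρ (K - I) (AX K - Ap) := by
  obtain ⟨I0, hI0⟩ := exists_nat_ge (max ((2000 : ℝ) ^ 2) ((1 / κ) ^ 2))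
  refine ⟨I0, fun I hI Λ hΛ1 hΛ2 Ap hAp AX hAX => ?_⟩
  have hIr : (I0 : ℝ) ≤ I := by exact_mod_cast hI
  have hI1 : (2000 : ℝ) ^ 2 ≤ I := (le_max_left _ _).trans (hI0.trans hIr)
  have hI2 : (1 / κ) ^ 2 ≤ (I : ℝ) := (le_max_right _ _).trans (hI0.trans hIr)
  have hIpos : (0 : ℝ) < I := by linarith
  set s : ℝ := Real.sqrt I with hs
  have hs1 : 2000 ≤ s := Real.le_sqrt_of_sq_le hI1
  have hs2 : 1 / κ ≤ s := Real.le_sqrt_of_sq_le hI2
  have hs2' : 1 ≤ κ * s := by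
    rw [div_le_iff₀ h0] at hs2
    linarith
  have hss : s * s = I := Real.mul_self_sqrt hIpos.le
  have hspos : 0 < s := by linarith
  have hθ1 := lt_theta
  have hθ2 := theta_lt
  set μ : ℝ := 2 - theta with hμ
  have hμ1 : 17 / 41 < μ := by rw [hμ]; linarith
  have hμ2 : μ < 22 / 53 := by rw [hμ]; linarith
  have hμpos : 0 < μ := by linarith
  obtain ⟨hAp1, hAp2⟩ := abs_le.1 hAp
  have hκI : κ * I ≤ 1 / 100 * I := mul_le_mul_of_nonneg_right h1 hIpos.le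
  -- the centre
  set K0 : ℝ := (Λ + 2 * I - Ap) / μ with hK0
  have hK0μ : μ * K0 = Λ + 2 * I - Ap := by
    rw [hK0]
    field_simp
  have hμI1 : 17 / 41 * I ≤ μ * I := mul_le_mul_of_nonneg_right hμ1.le hIpos.le
  have hμI2 : μ * I ≤ 22 / 53 * I := mul_le_mul_of_nonneg_right hμ2.le hIpos.le
  have hK0a : 53 / 50 * I ≤ K0 := by
    rw [hK0, le_div_iff₀ hμpos]
    linarith
  have hK0b : K0 ≤ 567 / 500 * I := by
    rw [hK0, div_le_iff₀ hμpos]
    linarith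
  set r : ℝ := 3 / 50 * s with hr
  have hrI : r ≤ 1 / 1000 * I := by
    have q5 : 2000 * s ≤ s * s := mul_le_mul_of_nonneg_right hs1 hspos.le
    rw [hr, ← hss]
    linarith
  have hr0 : 0 < r := by rw [hr]; linarith
  set S : Finset ℕ := Icc ⌈K0 - r⌉₊ ⌊K0 + r⌋₊ with hS
  have hSmem : ∀ K ∈ S, K0 - r ≤ (K : ℝ) ∧ (K : ℝ) ≤ K0 + r := by
    intro K hK
    rw [hS, mem_Icc] at hK
    exact ⟨Nat.ceil_le.1 hK.1, (Nat.le_floor_iff (by linarith)).1 hK.2⟩
  have hcard : 1 / 10 * s ≤ (S.card : ℝ) := by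
    rw [hS, Nat.card_Icc]
    have h3 : (⌈K0 - r⌉₊ : ℝ) < K0 - r + 1 := Nat.ceil_lt_add_one (by linarith)
    have h4 : K0 + r < (⌊K0 + r⌋₊ : ℝ) + 1 := Nat.lt_floor_add_one _
    have h5 : ⌈K0 - r⌉₊ ≤ ⌊K0 + r⌋₊ + 1 := by
      have : (⌈K0 - r⌉₊ : ℝ) ≤ (⌊K0 + r⌋₊ : ℝ) + 1 := by linarith
      exact_mod_cast this
    rw [Nat.cast_sub h5]
    push_cast
    linarith
  have hsub : S ⊆ (Icc (I + 1) (57 * I / 50)).filter
      (fun K : ℕ => |(AX K : ℝ) - 2 * K| ≤ 2 * κ * I) := by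
    intro K hK
    obtain ⟨k1, k2⟩ := hSmem K hK
    obtain ⟨a1, a2⟩ := hAX K
    rw [mem_filter, mem_Icc]
    have e1 : Λ + K * theta - 2 * K = μ * (K0 - K) - 2 * I + Ap := by
      rw [mul_sub, hK0μ, hμ]
      ring
    refine ⟨⟨?_, ?_⟩, ?_⟩
    · have : (I : ℝ) + 1 ≤ K := by linarith
      exact_mod_cast this
    · rw [Nat.le_div_iff_mul_le (by norm_num)]
      have : (K : ℝ) * 50 ≤ 57 * I := by linarith
      exact_mod_cast this
    · have hμr : μ * r ≤ 1 / 2 * r := mul_le_mul_of_nonneg_right (by linarith) hr0.le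
      have h6 : μ * (K0 - K) ≤ 1 / 2 * r := by
        have : μ * (K0 - K) ≤ μ * r := mul_le_mul_of_nonneg_left (by linarith) hμpos.le
        linarith
      have h7 : -(1 / 2 * r) ≤ μ * (K0 - K) := by
        have : μ * (-r) ≤ μ * (K0 - K) := mul_le_mul_of_nonneg_left (by linarith) hμpos.le
        linarith
      have h8 : 1 / 2 * r + 1 ≤ κ * I := by
        have q3 : κ * I = (κ * s) * s := by rw [← hss]; ring
        have q4 : 1 * s ≤ (κ * s) * s := mul_le_mul_of_nonneg_right hs2' hspos.le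
        rw [hr, q3]
        linarith
      rw [abs_le]
      constructor <;> linarith
  have hterm : ∀ K ∈ S, 5 / (16 * s) ≤ ρ (K - I) (AX K - Ap) := by
    intro K hK
    obtain ⟨k1, k2⟩ := hSmem K hK
    obtain ⟨a1, a2⟩ := hAX K
    have e1 : Λ + K * theta = μ * (K0 - K) + 2 * (K - I) + Ap := by
      rw [mul_sub, hK0μ, hμ]
      ring
    have hKI : I + 1 ≤ K := by
      have : (I : ℝ) + 1 ≤ K := by linarith
      exact_mod_cast this
    have hcast : ((K - I : ℕ) : ℝ) = K - I := by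
      rw [Nat.cast_sub (by omega)]
    have hμr : μ * r ≤ 22 / 53 * r := mul_le_mul_of_nonneg_right hμ2.le hr0.le
    have h6 : μ * (K0 - K) ≤ 22 / 53 * r := by
      have : μ * (K0 - K) ≤ μ * r := mul_le_mul_of_nonneg_left (by linarith) hμpos.le
      linarith
    have h7 : -(22 / 53 * r) ≤ μ * (K0 - K) := by
      have : μ * (-r) ≤ μ * (K0 - K) := mul_le_mul_of_nonneg_left (by linarith) hμpos.le
      linarith
    have hApAX : Ap ≤ AX K := by
      have : (Ap : ℝ) ≤ AX K := by linarith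
      exact_mod_cast this
    have hcast2 : ((AX K - Ap : ℕ) : ℝ) = AX K - Ap := by
      rw [Nat.cast_sub hApAX]
    -- `√(K - I)`
    set v : ℝ := Real.sqrt ((K - I : ℕ) : ℝ) with hv
    have q1 : ((2 : ℝ) / 5) ^ 2 = 4 / 25 := by norm_num
    have q2 : ((121 : ℝ) / 500) ^ 2 = 14641 / 250000 := by norm_num
    have hv1 : v ≤ 2 / 5 * s := by
      rw [hv, Real.sqrt_le_left (by positivity), hcast, mul_pow, sq s, hss, q1]
      linarith
    have hv2 : 121 / 500 * s ≤ v := by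
      rw [hv]
      apply Real.le_sqrt_of_sq_le
      rw [hcast, mul_pow, sq s, hss, q2]
      linarith
    have hvpos : 0 < v := by linarith
    have hv' : Real.sqrt ((K : ℝ) - I) = v := by rw [hv, hcast]
    have hlow := hρ1 (K - I) (AX K - Ap) (by omega) (by
      rw [hcast2, hcast, hv', abs_le]
      constructor <;> linarith)
    refine le_trans ?_ hlow
    rw [← hv, div_le_div_iff₀ (by positivity) (by positivity)]
    linarith
  calc (1 : ℝ) / 32 = (1 / 10 * s) * (5 / (16 * s)) := by field_simp; norm_num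
    _ ≤ S.card * (5 / (16 * s)) := mul_le_mul_of_nonneg_right hcard (by positivity)
    _ = ∑ _K ∈ S, 5 / (16 * s) := by rw [sum_const, nsmul_eq_mul]
    _ ≤ ∑ K ∈ S, ρ (K - I) (AX K - Ap) := sum_le_sum hterm
    _ ≤ _ := sum_le_sum_of_subset_of_nonneg hsub (fun K _ _ => hρ0 _ _)

end Pool.Agent.Lib.MP_e43fce_nt_one
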