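import Mathlib

/-!
A local lower bound for the law of a sum of `j` geometric letters:
`C(α - 1, j - 1) / 2 ^ α ≥ 1 / (8 √j)` if `|α - 2 j| ≤ √j / 8`.
-/

set_option autoImplicit false

namespace Pool.Agent.Lib.MP_e43fce_nt_one

/-- `C(2 k, k) / 4 ^ k ≥ 1 / (2 √k)` -/
private theorem central (k : ℕ) (hk : 1 ≤ k) :
    (1 : ℝ) ≤ (((2 * k).choose k : ℕ) : ℝ) ^ 2 / (16 : ℝ) ^ k * (4 * k) := by
  induction k, hk using Nat.le_induction with
  | base => norm_num [Nat.choose]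
  | succ k hk ih =>
    have h1 := Nat.succ_mul_centralBinom_succ k
    have h2 : ((k : ℝ) + 1) * (((2 * (k + 1)).choose (k + 1) : ℕ) : ℝ) =
        2 * (2 * k + 1) * (((2 * k).choose k : ℕ) : ℝ) := by
      have h3 : (k + 1) * ((2 * (k + 1)).choose (k + 1)) = 2 * (2 * k + 1) * ((2 * k).choose k) := by
        simpa [Nat.centralBinom_eq_two_mul_choose] using h1
      exact_mod_cast h3
    have hk0 : (0 : ℝ) < k := by exact_mod_cast hk
    have hk1 : (0 : ℝ) < (k : ℝ) + 1 := by linarith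
    set a : ℝ := (((2 * k).choose k : ℕ) : ℝ) with ha
    set b : ℝ := (((2 * (k + 1)).choose (k + 1) : ℕ) : ℝ) with hb
    have hb' : b = 2 * (2 * k + 1) * a / (k + 1) := by
      rw [eq_div_iff hk1.ne']
      linarith
    have h16 : (0 : ℝ) < 16 ^ k := by positivity
    have e1 : b ^ 2 / (16 : ℝ) ^ (k + 1) * (4 * ((k + 1 : ℕ) : ℝ)) =
        (a ^ 2 / 16 ^ k * (4 * k)) * ((2 * k + 1) ^ 2 / (4 * k * (k + 1))) := by
      rw [hb', pow_succ]
      push_cast
      field_simp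
      ring
    rw [e1]
    have h5 : (1 : ℝ) ≤ (2 * k + 1) ^ 2 / (4 * k * (k + 1)) := by
      rw [le_div_iff₀ (by positivity)]
      nlinarith
    calc (1 : ℝ) = 1 * 1 := by ring
      _ ≤ _ := mul_le_mul ih h5 zero_le_one (by positivity)

/-- law of the sum of `j` letters -/
noncomputable def rhoL (j α : ℕ) : ℝ := (((α - 1).choose (j - 1) : ℕ) : ℝ) / 2 ^ α

theorem rhoL_nonneg (j α : ℕ) : 0 ≤ rhoL j α := by
  unfold rhoL
  positivity

private theorem rho_central (j : ℕ) (hj : 1 ≤ j) : 1 / (4 * Real.sqrt j) ≤ rhoL j (2 * j - 1) := by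
  have hjr : (0 : ℝ) < j := by exact_mod_cast hj
  have hsq : 0 < Real.sqrt j := Real.sqrt_pos.2 hjr
  rcases Nat.eq_or_lt_of_le hj with h | h
  · subst h
    unfold rhoL
    norm_num
  · obtain ⟨k, rfl⟩ : ∃ k, j = k + 1 := ⟨j - 1, by omega⟩
    have hk : 1 ≤ k := by omega
    have hc := central k hk
    have e : rhoL (k + 1) (2 * (k + 1) - 1) = (((2 * k).choose k : ℕ) : ℝ) / 4 ^ k / 2 := by
      unfold rhoL
      have e1 : 2 * (k + 1) - 1 = 2 * k + 1 := by omega
      rw [e1]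
      simp only [Nat.add_sub_cancel]
      rw [pow_succ, pow_mul]
      norm_num
      rw [div_div]
    rw [e]
    set a : ℝ := (((2 * k).choose k : ℕ) : ℝ) / 4 ^ k with ha
    have ha0 : 0 ≤ a := by positivity
    have ha2 : 1 ≤ a ^ 2 * (4 * k) := by
      rw [ha, div_pow, ← pow_mul, mul_comm k 2, pow_mul]
      norm_num
      convert hc using 2
    have hk0 : (0 : ℝ) ≤ k := Nat.cast_nonneg _
    have h3 : 1 ≤ (a * (2 * Real.sqrt ((k + 1 : ℕ) : ℝ))) ^ 2 := by
      rw [mul_pow, mul_pow, Real.sq_sqrt (by positivity)]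
      push_cast
      nlinarith [sq_nonneg a]
    have h4 : 1 ≤ a * (2 * Real.sqrt ((k + 1 : ℕ) : ℝ)) := by
      have h5 : 0 ≤ a * (2 * Real.sqrt ((k + 1 : ℕ) : ℝ)) := by positivity
      nlinarith
    rw [div_le_iff₀ (by positivity)]
    linarith

/-- one step up -/
private theorem rho_succ (j α : ℕ) (hj : 1 ≤ j) (hα : j ≤ α) :
    rhoL j (α + 1) * (2 * ((α : ℝ) - j + 1)) = rhoL j α * α := by
  have h1 : (α - 1).succ.choose (j - 1) * (α - 1 + 1 - (j - 1)) = (α - 1).succ * (α - 1).choose (j - 1) := by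
    have h3 := Nat.choose_mul_succ_eq (α - 1) (j - 1)
    rw [Nat.succ_eq_add_one]
    linarith
  have e1 : (α - 1).succ = α := by omega
  rw [e1] at h1
  have e2 : α - 1 + 1 - (j - 1) = α - j + 1 := by omega
  rw [e2] at h1
  have h2 : ((α.choose (j - 1) : ℕ) : ℝ) * ((α : ℝ) - j + 1) =
      α * (((α - 1).choose (j - 1) : ℕ) : ℝ) := by
    have h3 : ((α.choose (j - 1) * (α - j + 1) : ℕ) : ℝ) = ((α * (α - 1).choose (j - 1) : ℕ) : ℝ) := by
      exact_mod_cast h1
    push_cast [Nat.cast_sub hα] at h3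
    exact h3
  unfold rhoL
  rw [Nat.add_sub_cancel, pow_succ]
  field_simp
  linarith

private theorem up (j : ℕ) (hj : 1 ≤ j) : ∀ d : ℕ, (d : ℝ) ^ 2 ≤ 2 * j →
    rhoL j (2 * j - 1) * (1 - (d : ℝ) ^ 2 / (2 * j)) ≤ rhoL j (2 * j - 1 + d) := by
  intro d
  induction d with
  | zero => intro _; simp
  | succ d ih =>
    intro hd
    have hjr : (0 : ℝ) < j := by exact_mod_cast hj
    have hd0 : (0 : ℝ) ≤ d := Nat.cast_nonneg _
    push_cast at hd
    have hd' : (d : ℝ) ^ 2 ≤ 2 * j := by nlinarith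
    have h1 := ih hd'
    have h2 := rho_succ j (2 * j - 1 + d) hj (by omega)
    have e1 : ((2 * j - 1 + d : ℕ) : ℝ) = 2 * j - 1 + d := by
      rw [Nat.cast_add, Nat.cast_sub (by omega)]
      push_cast
      ring
    rw [e1] at h2
    have e2 : 2 * j - 1 + (d + 1) = 2 * j - 1 + d + 1 := by ring
    rw [e2]
    set R := rhoL j (2 * j - 1 + d + 1) with hR
    set P := rhoL j (2 * j - 1 + d) with hP
    set Q := rhoL j (2 * j - 1) with hQ
    have hQ0 : 0 ≤ Q := rhoL_nonneg _ _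
    have hP0 : 0 ≤ P := rhoL_nonneg _ _
    -- `R = P (1 - (d + 1) / (2 (j + d)))`
    have h3 : R * (2 * ((j : ℝ) + d)) = P * (2 * j - 1 + d) := by
      linear_combination h2
    have h4 : P * (1 - ((d : ℝ) + 1) / (2 * j)) ≤ R := by
      have h5 : P * (1 - ((d : ℝ) + 1) / (2 * j)) * (2 * (j + d)) ≤ P * (2 * j - 1 + d) := by
        have h6 : (1 - ((d : ℝ) + 1) / (2 * j)) * (2 * (j + d)) ≤ 2 * j - 1 + d := by
          have h7 : ((d : ℝ) + 1) / (2 * j) * (2 * (j + d)) = (d + 1) + (d + 1) * d / j := by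
            field_simp
          have h8 : 0 ≤ ((d : ℝ) + 1) * d / j := by positivity
          rw [sub_mul, h7]
          linarith
        rw [mul_assoc]
        exact mul_le_mul_of_nonneg_left h6 hP0
      rw [← h3] at h5
      exact le_of_mul_le_mul_right h5 (by positivity)
    refine le_trans ?_ h4
    push_cast
    have h9 : ((d : ℝ) + 1) / (2 * j) ≤ 1 := by
      rw [div_le_one (by positivity)]
      nlinarith
    have h10 : Q * (1 - (d : ℝ) ^ 2 / (2 * j)) * (1 - ((d : ℝ) + 1) / (2 * j)) ≤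
        P * (1 - ((d : ℝ) + 1) / (2 * j)) :=
      mul_le_mul_of_nonneg_right h1 (by linarith)
    refine le_trans ?_ h10
    rw [mul_assoc]
    apply mul_le_mul_of_nonneg_left _ hQ0
    have h11 : 0 ≤ (d : ℝ) ^ 2 / (2 * j) * (((d : ℝ) + 1) / (2 * j)) := by positivity
    have h12 : ((d : ℝ) + 1) ^ 2 / (2 * j) = (d : ℝ) ^ 2 / (2 * j) + ((d : ℝ) + 1) / (2 * j) +
        d / (2 * j) := by ring
    have h13 : 0 ≤ (d : ℝ) / (2 * j) := by positivity
    rw [h12]
    linarith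

private theorem down (j : ℕ) (hj : 1 ≤ j) : ∀ d : ℕ, (d : ℝ) ^ 2 ≤ 2 * j → d + 1 ≤ j →
    rhoL j (2 * j - 1) * (1 - (d : ℝ) ^ 2 / (2 * j)) ≤ rhoL j (2 * j - 1 - d) := by
  intro d
  induction d with
  | zero => intro _ _; simp
  | succ d ih =>
    intro hd hdj
    have hjr : (0 : ℝ) < j := by exact_mod_cast hj
    have hd0 : (0 : ℝ) ≤ d := Nat.cast_nonneg _
    push_cast at hd
    have hd' : (d : ℝ) ^ 2 ≤ 2 * j := by nlinarith
    have h1 := ih hd' (by omega)
    have h2 := rho_succ j (2 * j - 1 - (d + 1)) hj (by omega)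
    have e1 : ((2 * j - 1 - (d + 1) : ℕ) : ℝ) = 2 * j - 2 - d := by
      rw [Nat.cast_sub (by omega), Nat.cast_sub (by omega)]
      push_cast
      ring
    have e2 : 2 * j - 1 - (d + 1) + 1 = 2 * j - 1 - d := by omega
    rw [e1, e2] at h2
    set R := rhoL j (2 * j - 1 - (d + 1)) with hR
    set P := rhoL j (2 * j - 1 - d) with hP
    set Q := rhoL j (2 * j - 1) with hQ
    have hQ0 : 0 ≤ Q := rhoL_nonneg _ _
    have hP0 : 0 ≤ P := rhoL_nonneg _ _
    have hdj' : (d : ℝ) + 2 ≤ j := by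
      have : d + 2 ≤ j := by omega
      exact_mod_cast this
    -- `R = P (2 (j - 1 - d)) / (2 j - 2 - d)`
    have h3 : R * (2 * (j : ℝ) - 2 - d) = P * (2 * ((j : ℝ) - 1 - d)) := by
      linear_combination -h2
    have hpos : 0 < 2 * (j : ℝ) - 2 - d := by linarith
    have h4 : P * (1 - (d : ℝ) / j) ≤ R := by
      have h5 : P * (1 - (d : ℝ) / j) * (2 * (j : ℝ) - 2 - d) ≤ P * (2 * ((j : ℝ) - 1 - d)) := by
        have h6 : (1 - (d : ℝ) / j) * (2 * (j : ℝ) - 2 - d) ≤ 2 * ((j : ℝ) - 1 - d) := by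
          have h7 : (d : ℝ) / j * (2 * (j : ℝ) - 2 - d) = d + d * ((j : ℝ) - 2 - d) / j := by
            field_simp
            ring
          have h8 : 0 ≤ (d : ℝ) * ((j : ℝ) - 2 - d) / j := by
            apply div_nonneg _ hjr.le
            exact mul_nonneg hd0 (by linarith)
          rw [sub_mul, h7]
          linarith
        rw [mul_assoc]
        exact mul_le_mul_of_nonneg_left h6 hP0
      rw [← h3] at h5
      exact le_of_mul_le_mul_right h5 hpos
    refine le_trans ?_ h4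
    push_cast
    have h9 : (d : ℝ) / j ≤ 1 := by
      rw [div_le_one hjr]
      linarith
    have h10 : Q * (1 - (d : ℝ) ^ 2 / (2 * j)) * (1 - (d : ℝ) / j) ≤ P * (1 - (d : ℝ) / j) :=
      mul_le_mul_of_nonneg_right h1 (by linarith)
    refine le_trans ?_ h10
    rw [mul_assoc]
    apply mul_le_mul_of_nonneg_left _ hQ0
    have h11 : 0 ≤ (d : ℝ) ^ 2 / (2 * j) * ((d : ℝ) / j) := by positivity
    have h12 : ((d : ℝ) + 1) ^ 2 / (2 * j) = (d : ℝ) ^ 2 / (2 * j) + (d : ℝ) / j +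
        1 / (2 * j) := by
      field_simp
      ring
    have h13 : 0 ≤ (1 : ℝ) / (2 * j) := by positivity
    rw [h12]
    linarith

theorem rho_lower {j α : ℕ} (hj : 1 ≤ j) (h : |(α : ℝ) - 2 * j| ≤ Real.sqrt j / 8) :
    1 / (8 * Real.sqrt j) ≤ rhoL j α := by
  have hjr : (1 : ℝ) ≤ j := by exact_mod_cast hj
  have hsq1 : 1 ≤ Real.sqrt j := Real.one_le_sqrt.2 hjr
  have hsq : Real.sqrt j * Real.sqrt j = j := Real.mul_self_sqrt (by linarith)
  obtain ⟨h1, h2⟩ := abs_le.1 h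
  have hc := rho_central j hj
  have hcpos : 0 < 1 / (4 * Real.sqrt j) := by positivity
  have hfin : ∀ d : ℕ, (d : ℝ) ^ 2 ≤ j →
      rhoL j (2 * j - 1) * (1 - (d : ℝ) ^ 2 / (2 * j)) ≤ rhoL j α →
      1 / (8 * Real.sqrt j) ≤ rhoL j α := by
    intro d hd hle
    refine le_trans ?_ hle
    have h3 : (1 : ℝ) / 2 ≤ 1 - (d : ℝ) ^ 2 / (2 * j) := by
      have : (d : ℝ) ^ 2 / (2 * j) ≤ 1 / 2 := by
        rw [div_le_iff₀ (by positivity)]
        linarith
      linarith
    calc 1 / (8 * Real.sqrt j) = 1 / (4 * Real.sqrt j) * (1 / 2) := by field_simp; norm_num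
      _ ≤ rhoL j (2 * j - 1) * (1 / 2) := mul_le_mul_of_nonneg_right hc (by norm_num)
      _ ≤ _ := mul_le_mul_of_nonneg_left h3 (rhoL_nonneg _ _)
  rcases Nat.lt_or_ge α (2 * j - 1) with hlt | hge
  · -- below the centre
    obtain ⟨d, hd⟩ : ∃ d, α = 2 * j - 1 - d ∧ d ≤ 2 * j - 1 := ⟨2 * j - 1 - α, by omega, by omega⟩
    obtain ⟨hd1, hd2⟩ := hd
    have hdr : (d : ℝ) = 2 * j - 1 - α := by
      have : d + α + 1 = 2 * j := by omega
      have h' : ((d + α + 1 : ℕ) : ℝ) = ((2 * j : ℕ) : ℝ) := by exact_mod_cast this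
      push_cast at h'
      linarith
    have hdle : (d : ℝ) ≤ Real.sqrt j / 8 := by rw [hdr]; linarith
    have hd0 : (0 : ℝ) ≤ d := Nat.cast_nonneg _
    have hdsq : (d : ℝ) ^ 2 ≤ j := by nlinarith
    have hdj : d + 1 ≤ j := by
      by_contra hcon
      have h5 : (j : ℝ) ≤ d := by
        have : j ≤ d := by omega
        exact_mod_cast this
      have h6 : (d : ℝ) ≤ j / 8 := by nlinarith
      linarith
    apply hfin d hdsq
    rw [hd1]
    exact down j hj d (by linarith) hdj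
  · obtain ⟨d, rfl⟩ : ∃ d, α = 2 * j - 1 + d := ⟨α - (2 * j - 1), by omega⟩
    have hdr : ((2 * j - 1 + d : ℕ) : ℝ) = 2 * j - 1 + d := by
      rw [Nat.cast_add, Nat.cast_sub (by omega)]
      push_cast
      ring
    rw [hdr] at h2
    have hd0 : (0 : ℝ) ≤ d := Nat.cast_nonneg _
    have hdsq : (d : ℝ) ^ 2 ≤ j := by
      rcases Nat.lt_or_ge d 2 with hd2 | hd2
      · have : (d : ℝ) ≤ 1 := by
          have : d ≤ 1 := by omega
          exact_mod_cast this
        nlinarith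
      · have hd2' : (2 : ℝ) ≤ d := by exact_mod_cast hd2
        have h5 : (d : ℝ) ≤ Real.sqrt j / 8 + 1 := by linarith
        have h6 : (d : ℝ) ≤ Real.sqrt j := by linarith
        nlinarith
    apply hfin d hdsq
    exact up j hj d (by linarith)

end Pool.Agent.Lib.MP_e43fce_nt_one
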