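import Pool.Agent.Lib.MP_e43fce_nt_one.K2
/-! MP_e43fce_nt, KL1, INV part (f): the inverse theorem. -/
open Finset

namespace KLOne

theorem chi_cpow {n : ℕ} {j K : ℕ} (hK : 1 ≤ K) (hn : j + K ≤ n) {q : ZMod (3 ^ n) → ℝ} (hq : IsPmf q) (r : ℕ) :
    chi j (j + K) (cpow q r) ≤ 3 ^ K * (1 - Gd j q / (3 ^ K) ^ 2) ^ r := by
  have h0 : 0 ≤ 1 - Gd j q / (3 ^ K) ^ 2 := by
    have h1 := Gd_le_one j hq
    have h2 : (1 : ℝ) ≤ (3 ^ K) ^ 2 := one_le_pow₀ (one_le_pow₀ (by norm_num))
    have h3 : Gd j q / (3 ^ K) ^ 2 ≤ 1 := by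
      rw [div_le_one (by positivity)]
      linarith
    linarith
  induction r with
  | zero => rw [pow_zero, mul_one]; exact chi_dirac hn
  | succ r ih =>
    have h := contraction hK hn hq (isPmf_cpow hq r)
    rw [conv_comm] at h
    refine h.trans ?_
    calc (1 - Gd j q / (3 ^ K) ^ 2) * chi j (j + K) (cpow q r)
        ≤ (1 - Gd j q / (3 ^ K) ^ 2) * (3 ^ K * (1 - Gd j q / (3 ^ K) ^ 2) ^ r) :=
          mul_le_mul_of_nonneg_left ih h0
      _ = _ := by rw [pow_succ]; ring

/-- gain over three blocks -/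
theorem gain_three {k W : ℕ} {p q : ZMod (3 ^ (k * W)) → ℝ} (hp : IsPmf p) (hq : IsPmf q) (hW : 1 ≤ W) {θ η : ℝ} {r : ℕ}
    {i j : ℕ} (hi : i + 3 ≤ k) (h1 : i * W ≤ j) (h2 : j < (i + 1) * W)
    (hθ : θ ≤ D ((i + 1) * W) p - D ((i + 2) * W) p)
    (hη : 3 ^ (2 * W) * (1 - Gd j q / (3 ^ (2 * W)) ^ 2) ^ r ≤ η) :
    θ - η ≤ (D (i * W) p - D ((i + 3) * W) p) - (D (i * W) (conv p (cpow q r)) - D ((i + 3) * W) (conv p (cpow q r))) := by
  have hS := isPmf_cpow hq r
  have e1 : (i + 1) * W = i * W + W := by ring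
  have e2 : (i + 2) * W = i * W + 2 * W := by ring
  have e3 : (i + 3) * W = i * W + 3 * W := by ring
  have hn : (i + 3) * W ≤ k * W := Nat.mul_le_mul_right W hi
  have a1 := D_conv_le (a := i * W) (b := j) h1 hp hS
  have a2 := D_conv_le (a := j + 2 * W) (b := (i + 3) * W) (by omega) hp hS
  have a3 := D_conv_le' (a := j) (b := j + 2 * W) (by omega) hp hS
  have a4 := D_sub_le_chi (a := j) (b := j + 2 * W) (by omega) hS
  have a5 := chi_cpow (j := j) (K := 2 * W) (by omega) (by omega) hq r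
  have a6 := D_anti (a := j) (b := (i + 1) * W) (by omega) hp
  have a7 := D_anti (a := (i + 2) * W) (b := j + 2 * W) (by omega) hp
  linarith

/-- the inverse theorem -/
theorem inv (c : ℝ) (hc : 0 < c) :
    ∃ ε : ℝ, 0 < ε ∧ ∀ θ : ℝ, 0 < θ → ∀ W : ℕ, 1 ≤ W → ∃ τ : ℝ, 0 < τ ∧ ∃ k0 : ℕ, ∀ k : ℕ, k0 ≤ k →
      ∀ p q : ZMod (3 ^ (k * W)) → ℝ, IsPmf p → IsPmf q → c * (k * W : ℕ) ≤ H q →
      (((Finset.range k).filter (fun j => D (j * W) p - D ((j + 1) * W) p < θ * W)).card : ℝ)
        ≤ ε * k → H p + τ * (k * W : ℕ) ≤ H (conv p q) := by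
  refine ⟨c / 8, by positivity, fun θ hθ W hW => ?_⟩
  have hW' : (0 : ℝ) < W := by exact_mod_cast hW
  -- the number of convolutions
  set ρ : ℝ := min (c ^ 2 / 12) 1 with hρ
  have hρ0 : 0 < ρ := lt_min (by positivity) one_pos
  have hρ1 : ρ ≤ 1 := min_le_right _ _
  set M : ℝ := 3 ^ (2 * W) with hM
  have hM1 : 1 ≤ M := one_le_pow₀ (by norm_num)
  have hx0 : 0 ≤ 1 - ρ / M ^ 2 := by
    have : ρ / M ^ 2 ≤ 1 := by
      rw [div_le_one (by positivity)]
      have : (1 : ℝ) ≤ M ^ 2 := one_le_pow₀ hM1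
      linarith
    linarith
  have hx1 : 1 - ρ / M ^ 2 < 1 := by
    have : 0 < ρ / M ^ 2 := by positivity
    linarith
  obtain ⟨r0, hr0⟩ := exists_pow_lt_of_lt_one (show 0 < θ * W / 2 / M by positivity) hx1
  set r := r0 + 1 with hr
  have hr1 : M * (1 - ρ / M ^ 2) ^ r ≤ θ * W / 2 := by
    have h1 : (1 - ρ / M ^ 2) ^ r ≤ (1 - ρ / M ^ 2) ^ r0 := pow_le_pow_of_le_one hx0 hx1.le (Nat.le_succ r0)
    have h2 : (1 - ρ / M ^ 2) ^ r ≤ θ * W / 2 / M := h1.trans hr0.le
    rw [le_div_iff₀ (by positivity)] at h2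
    linarith
  refine ⟨c * θ / (96 * r), by positivity, ⌈48 / c⌉₊ + 1, fun k hk p q hp hq hH hbad => ?_⟩
  have hk1 : 48 / c ≤ k := (Nat.le_ceil _).trans (by exact_mod_cast (Nat.le_succ _).trans hk)
  have hk1' : 48 ≤ c * k := by rw [div_le_iff₀ hc] at hk1; linarith
  have hk0 : 1 ≤ k := (Nat.le_add_left 1 _).trans hk
  -- branching digits
  set J := (Finset.range (k * W)).filter (fun j => c ^ 2 / 12 ≤ Gd j q) with hJ
  have hJc : c / 4 * (k * W : ℕ) ≤ J.card := card_branch hq hc hH
  -- blocks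
  set J' := J.image (fun j => j / W) with hJ'
  have hJJ' : J.card ≤ W * J'.card := by
    have h := Finset.card_le_mul_card_image (f := fun j => j / W) J W (by
      intro b hb
      calc (J.filter (fun j => j / W = b)).card ≤ ((Finset.range W).image (fun t => b * W + t)).card := by
            refine Finset.card_le_card (fun j hj => ?_)
            rw [Finset.mem_filter] at hj
            rw [Finset.mem_image]
            refine ⟨j % W, Finset.mem_range.2 (Nat.mod_lt _ (by omega)), ?_⟩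
            rw [← hj.2]
            exact Nat.div_add_mod' j W
        _ ≤ _ := Finset.card_image_le.trans (by rw [Finset.card_range]))
    exact h
  set Bad := (Finset.range k).filter (fun j => D (j * W) p - D ((j + 1) * W) p < θ * W) with hBad
  set Good := J'.filter (fun i => i + 3 ≤ k ∧ i + 1 ∉ Bad) with hGood
  have hcard : J'.card ≤ Good.card + (Bad.card + 2) := by
    have hsub : J' ⊆ Good ∪ (Bad.image (fun j => j - 1) ∪ {k - 2, k - 1}) := by
      intro i hi
      rw [Finset.mem_union, Finset.mem_union]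
      by_cases h1 : i + 3 ≤ k
      · by_cases h2 : i + 1 ∈ Bad
        · right; left
          exact Finset.mem_image.2 ⟨i + 1, h2, rfl⟩
        · left
          exact Finset.mem_filter.2 ⟨hi, h1, h2⟩
      · right; right
        rw [hJ', Finset.mem_image] at hi
        obtain ⟨j, hj, hji⟩ := hi
        rw [hJ, Finset.mem_filter, Finset.mem_range] at hj
        have : i < k := by rw [← hji]; exact Nat.div_lt_of_lt_mul (by rw [mul_comm]; exact hj.1)
        simp only [Finset.mem_insert, Finset.mem_singleton]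
        omega
    refine (Finset.card_le_card hsub).trans ((Finset.card_union_le _ _).trans ?_)
    refine Nat.add_le_add_left ((Finset.card_union_le _ _).trans ?_) _
    exact Nat.add_le_add Finset.card_image_le Finset.card_le_two
  -- gains
  set S := cpow q r with hS
  have hSP : IsPmf S := isPmf_cpow hq r
  set g : ℕ → ℝ := fun j => (D (j * W) p - D ((j + 1) * W) p) - (D (j * W) (conv p S) - D ((j + 1) * W) (conv p S)) with hg
  have hg0 : ∀ j, 0 ≤ g j := by
    intro j
    have := D_conv_le (a := j * W) (b := (j + 1) * W) (Nat.mul_le_mul_right W (Nat.le_succ j)) hp hSP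
    simp only [hg]
    linarith
  have hgsum : ∑ j ∈ Finset.range k, g j = H (conv p S) - H p := by
    simp only [hg]
    rw [Finset.sum_sub_distrib, Finset.sum_range_sub' (fun j => D (j * W) p),
      Finset.sum_range_sub' (fun j => D (j * W) (conv p S)), zero_mul, D_zero hp, D_zero (hp.conv hSP),
      D_top le_rfl, D_top le_rfl]
    ring
  have hgood : ∀ i ∈ Good, θ * W / 2 ≤ g i + g (i + 1) + g (i + 2) := by
    intro i hi
    rw [hGood, Finset.mem_filter, hJ', Finset.mem_image] at hi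
    obtain ⟨⟨j, hj, hji⟩, h3, h4⟩ := hi
    rw [hJ, Finset.mem_filter, Finset.mem_range] at hj
    have hb1 : i * W ≤ j := by rw [← hji]; exact Nat.div_mul_le_self j W
    have hb2 : j < (i + 1) * W := by
      rw [← hji, add_mul, one_mul]; exact Nat.lt_div_mul_add (by omega)
    have hθ' : θ * W ≤ D ((i + 1) * W) p - D ((i + 2) * W) p := by
      by_contra hcon
      push Not at hcon
      exact h4 (Finset.mem_filter.2 ⟨Finset.mem_range.2 (by omega), hcon⟩)
    have hη : 3 ^ (2 * W) * (1 - Gd j q / (3 ^ (2 * W)) ^ 2) ^ r ≤ θ * W / 2 := by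
      refine le_trans ?_ hr1
      rw [← hM]
      have h5 : ρ ≤ Gd j q := (min_le_left _ _).trans hj.2
      have h6 : 0 ≤ 1 - Gd j q / M ^ 2 := by
        have h7 := Gd_le_one j hq
        have h8 : Gd j q / M ^ 2 ≤ 1 := by
          rw [div_le_one (by positivity)]
          have : (1 : ℝ) ≤ M ^ 2 := one_le_pow₀ hM1
          linarith
        linarith
      have h7 : 1 - Gd j q / M ^ 2 ≤ 1 - ρ / M ^ 2 := by
        have : ρ / M ^ 2 ≤ Gd j q / M ^ 2 := div_le_div_of_nonneg_right h5 (by positivity)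
        linarith
      exact mul_le_mul_of_nonneg_left (pow_le_pow_left₀ h6 h7 r) (by positivity)
    have := gain_three hp hq hW h3 hb1 hb2 hθ' hη
    simp only [hg]
    have e : (i + 2 + 1) = i + 3 := rfl
    have e' : (i + 1 + 1) = i + 2 := rfl
    rw [e, e']
    linarith
  have hsum3 : (Good.card : ℝ) * (θ * W / 2) ≤ 3 * (H (conv p S) - H p) := by
    have hsub : ∀ d ≤ 2, ∑ i ∈ Good, g (i + d) ≤ ∑ j ∈ Finset.range k, g j := by
      intro d hd
      have hinj : Set.InjOn (fun i => i + d) (Good : Set ℕ) := fun a _ b _ h => Nat.add_right_cancel h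
      rw [← Finset.sum_image (f := g) hinj]
      refine Finset.sum_le_sum_of_subset_of_nonneg (fun x hx => ?_) (fun _ _ _ => hg0 _)
      rw [Finset.mem_image] at hx
      obtain ⟨i, hi, rfl⟩ := hx
      have := (Finset.mem_filter.1 hi).2.1
      exact Finset.mem_range.2 (by omega)
    have h1 := Finset.sum_le_sum hgood
    rw [Finset.sum_const, nsmul_eq_mul, Finset.sum_add_distrib, Finset.sum_add_distrib] at h1
    have h2 := hsub 0 (by omega)
    have h3 := hsub 1 (by omega)
    have h4 := hsub 2 (by omega)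
    simp only [add_zero] at h2
    rw [hgsum] at h2 h3 h4
    linarith
  -- count of good blocks
  have hGc : c / 16 * k ≤ Good.card := by
    have h1 : (J.card : ℝ) ≤ W * J'.card := by exact_mod_cast hJJ'
    have h2 : (J'.card : ℝ) ≤ Good.card + (Bad.card + 2) := by exact_mod_cast hcard
    have h3 : c / 4 * k ≤ J'.card := by
      push_cast at hJc
      have : W * (c / 4 * k) ≤ W * (J'.card : ℝ) := by
        calc W * (c / 4 * k) = c / 4 * (k * W) := by ring
          _ ≤ _ := hJc.trans h1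
      exact le_of_mul_le_mul_left this hW'
    linarith
  have hkv := kv hp hq r
  rw [← hS] at hkv
  have hr' : (0 : ℝ) < r := by exact_mod_cast Nat.succ_pos r0
  have h1 : c / 16 * k * (θ * W / 2) ≤ 3 * (r * (H (conv p q) - H p)) := by
    calc c / 16 * k * (θ * W / 2) ≤ (Good.card : ℝ) * (θ * W / 2) :=
          mul_le_mul_of_nonneg_right hGc (by positivity)
      _ ≤ 3 * (H (conv p S) - H p) := hsum3
      _ ≤ 3 * (r * (H (conv p q) - H p)) := by linarith
  have h2 : c * θ / (96 * r) * (k * W : ℕ) ≤ H (conv p q) - H p := by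
    push_cast
    rw [div_mul_eq_mul_div, div_le_iff₀ (by positivity)]
    nlinarith
  linarith

end KLOne
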