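import Pool.Agent.Lib.MP_e43fce_nt_one.Defs
import Pool.Agent.Lib.MP_e43fce_nt_one.K3

/-! Bridge between the definitions of `Defs` and those of `K1`-`K3`. -/

set_option autoImplicit false

open Finset

namespace Pool.Agent.Lib.MP_e43fce_nt_one

section
set_option linter.unusedSectionVars false
variable {G : Type} [Fintype G] [AddCommGroup G]

theorem isPmf_iff (p : G → ℝ) : IsPmf p ↔ KLOne.IsPmf p :=
  ⟨fun h => ⟨h.1, h.2⟩, fun h => ⟨h.1, h.2⟩⟩

theorem ent_eq (p : G → ℝ) : ent p = KLOne.H p := by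
  unfold ent KLOne.H Real.negMulLog
  rw [← Finset.sum_neg_distrib]
  exact Finset.sum_congr rfl (fun x _ => by ring)

theorem conv_eq (p q : G → ℝ) : conv p q = KLOne.conv p q := rfl

theorem dlt_eq [DecidableEq G] : (dlt : G → ℝ) = KLOne.dirac0 := by
  funext x
  unfold dlt KLOne.dirac0
  split_ifs <;> rfl

theorem cpow_eq [DecidableEq G] (q : G → ℝ) (r : ℕ) : cpow q r = KLOne.cpow q r := by
  induction r with
  | zero => exact dlt_eq
  | succ r ih =>
    rw [cpow, KLOne.cpow, ih, conv_eq, KLOne.conv_comm]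
end

/-- multiples of `3 ^ a` -/
theorem dvd_val_iff {n a : ℕ} (h : a ≤ n) (x : ZMod (3 ^ n)) :
    3 ^ a ∣ x.val ↔ ∃ y : ZMod (3 ^ n), x = 3 ^ a * y := by
  constructor
  · rintro ⟨k, hk⟩
    refine ⟨(k : ZMod (3 ^ n)), ?_⟩
    rw [← ZMod.natCast_zmod_val x, hk]
    push_cast
    rfl
  · rintro ⟨y, hy⟩
    have e : x = ((3 ^ a * y.val : ℕ) : ZMod (3 ^ n)) := by
      push_cast
      rw [ZMod.natCast_zmod_val, hy]
    rw [e, ZMod.val_natCast]
    rw [Nat.dvd_mod_iff (pow_dvd_pow 3 h)]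
    exact dvd_mul_right _ _

theorem card_multiples {n a : ℕ} (h : a ≤ n) :
    ((Finset.univ : Finset (ZMod (3 ^ n))).filter (fun x => 3 ^ a ∣ x.val)).card = 3 ^ (n - a) := by
  have hpow : 3 ^ n = 3 ^ a * 3 ^ (n - a) := by rw [← pow_add]; congr 1; omega
  rw [← Finset.card_range (3 ^ (n - a))]
  refine Finset.card_bij' (fun x _ => x.val / 3 ^ a) (fun k _ => ((3 ^ a * k : ℕ) : ZMod (3 ^ n))) ?_ ?_ ?_ ?_
  · intro x _
    rw [Finset.mem_range, Nat.div_lt_iff_lt_mul (by positivity), mul_comm, ← hpow]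
    exact ZMod.val_lt x
  · intro k hk
    rw [Finset.mem_range] at hk
    rw [Finset.mem_filter]
    refine ⟨Finset.mem_univ _, ?_⟩
    rw [ZMod.val_natCast, Nat.mod_eq_of_lt (by rw [hpow]; exact Nat.mul_lt_mul_of_pos_left hk (by positivity))]
    exact dvd_mul_right _ _
  · intro x hx
    rw [Finset.mem_filter] at hx
    rw [Nat.mul_div_cancel' hx.2, ZMod.natCast_zmod_val]
  · intro k hk
    rw [Finset.mem_range] at hk
    rw [ZMod.val_natCast, Nat.mod_eq_of_lt (by rw [hpow]; exact Nat.mul_lt_mul_of_pos_left hk (by positivity)),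
      Nat.mul_div_cancel_left _ (by positivity)]

theorem un_eq {n a : ℕ} (h : a ≤ n) : un n a = KLOne.unif n a := by
  set f : ZMod (3 ^ n) → ℝ := KLOne.unif n a with hf
  have hinv : ∀ x y, f (x + 3 ^ a * y) = f x := fun x y => KLOne.avg_add a _ x y
  have hsum : ∑ x, f x = 1 := (KLOne.isPmf_unif (n := n) a).2
  have hsupp : ∀ x, ¬ 3 ^ a ∣ x.val → f x = 0 := by
    intro x hx
    rw [hf]
    unfold KLOne.unif KLOne.avg
    rw [Finset.sum_eq_zero, zero_div]
    intro y _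
    unfold KLOne.dirac0
    rw [if_neg]
    intro h0
    apply hx
    rw [dvd_val_iff h]
    refine ⟨-y, ?_⟩
    rw [mul_neg]
    exact eq_neg_of_add_eq_zero_left h0
  have hon : ∀ x, 3 ^ a ∣ x.val → f x = f 0 := by
    intro x hx
    obtain ⟨y, hy⟩ := (dvd_val_iff h x).1 hx
    rw [hy, ← zero_add (3 ^ a * y), hinv]
  have hval : f 0 = (3 : ℝ) ^ a / 3 ^ n := by
    have h1 : ∑ x, f x = ∑ x ∈ (Finset.univ : Finset (ZMod (3 ^ n))).filter (fun x => 3 ^ a ∣ x.val), f 0 := by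
      rw [Finset.sum_filter]
      refine Finset.sum_congr rfl (fun x _ => ?_)
      split_ifs with hx
      · exact hon x hx
      · exact hsupp x hx
    rw [Finset.sum_const, card_multiples h, nsmul_eq_mul, hsum] at h1
    have hpow : (3 : ℝ) ^ n = 3 ^ a * 3 ^ (n - a) := by rw [← pow_add]; congr 1; omega
    rw [hpow]
    push_cast at h1
    field_simp
    linarith
  funext x
  unfold un
  split_ifs with hx
  · rw [hon x hx, hval]
  · rw [hsupp x hx]

theorem conv_un_eq {n a : ℕ} (h : a ≤ n) (f : ZMod (3 ^ n) → ℝ) : conv f (un n a) = KLOne.avg a f := by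
  rw [un_eq h, conv_eq, KLOne.conv_unif]

theorem D_eq {n a : ℕ} (h : a ≤ n) (p : ZMod (3 ^ n) → ℝ) : D n a p = KLOne.D a p := by
  unfold D KLOne.D
  rw [conv_un_eq h, ent_eq]

end Pool.Agent.Lib.MP_e43fce_nt_one
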