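import Pool.Agent.Lib.MP_e43fce_nt_one.Defs

/-!
Module T02: letters, nodes, shifts.
-/

set_option autoImplicit false

open Finset

namespace Pool.Agent.Lib.MP_e43fce_nt_one

theorem T02_four_pow (k : ℕ) : (4 : ℤ) ^ k % 3 = 1 := by
  induction k with
  | zero => norm_num
  | succ k ih => rw [pow_succ]; omega

theorem three_bt (j : ℕ) : 3 * bt j = 2 ^ (j + 1) - eps j - 6 := by
  unfold bt
  apply Int.mul_ediv_cancel'
  unfold eps
  rcases Nat.even_or_odd' j with ⟨k, hk | hk⟩
  · have h1 : j % 2 = 0 := by omega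
    rw [if_pos h1, hk]
    have h2 : (2 : ℤ) ^ (2 * k + 1) = 2 * 4 ^ k := by
      rw [pow_succ, pow_mul]
      norm_num
      ring
    rw [h2]
    have := T02_four_pow k
    omega
  · have h1 : ¬ j % 2 = 0 := by omega
    rw [if_neg h1, hk]
    have h2 : (2 : ℤ) ^ (2 * k + 1 + 1) = 4 * 4 ^ k := by
      rw [pow_succ, pow_succ, pow_mul]
      norm_num
      ring
    rw [h2]
    have := T02_four_pow k
    omega

theorem three_cv {v : ℤ} {j : ℕ} (h : adm1 v j) : 3 * cv v j = 2 ^ j * v + bt j := by
  unfold cv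
  exact Int.mul_ediv_cancel' h

/-- node form of one step -/
theorem node_cv {v : ℤ} {j : ℕ} (h : adm1 v j) :
    3 * (2 + 3 * cv v j) = 2 ^ j * (2 + 3 * v) - eps j := by
  have h1 := three_cv h
  have h2 := three_bt j
  rw [pow_succ] at h2
  linear_combination 3 * h1 + h2

theorem te_eq {v : ℤ} {w : List ℕ} (h : adm v w) :
    3 ^ w.length * (2 + 3 * te v w) = 2 ^ w.sum * (2 + 3 * v) - Nw w := by
  induction w generalizing v with
  | nil => simp [te, Nw]
  | cons j w ih =>
    obtain ⟨h1, h2⟩ := h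
    have h3 := ih h2
    have h4 := node_cv h1
    simp only [te, Nw, List.length_cons, List.sum_cons]
    rw [pow_succ, pow_add]
    linear_combination 3 * h3 + 2 ^ w.sum * h4

theorem T02_adm1_shift (v z : ℤ) (n j : ℕ) : adm1 (v + 3 ^ (n + 1) * z) j ↔ adm1 v j := by
  unfold adm1
  have : (2 : ℤ) ^ j * (v + 3 ^ (n + 1) * z) + bt j =
      (2 ^ j * v + bt j) + 3 * (3 ^ n * (2 ^ j * z)) := by ring
  rw [this]
  exact dvd_add_left (Dvd.intro _ rfl)

theorem T02_cv_shift (v z : ℤ) (n j : ℕ) :
    cv (v + 3 ^ (n + 1) * z) j = cv v j + 3 ^ n * (2 ^ j * z) := by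
  unfold cv
  have : (2 : ℤ) ^ j * (v + 3 ^ (n + 1) * z) + bt j =
      (2 ^ j * v + bt j) + 3 * (3 ^ n * (2 ^ j * z)) := by ring
  rw [this, Int.add_mul_ediv_left _ _ (by norm_num)]

theorem adm_shift (v z : ℤ) (w : List ℕ) : adm (v + 3 ^ w.length * z) w ↔ adm v w := by
  induction w generalizing v z with
  | nil => simp [adm]
  | cons j w ih =>
    simp only [adm, List.length_cons]
    rw [T02_adm1_shift, T02_cv_shift, ih]

theorem te_shift {v : ℤ} {w : List ℕ} (h : adm v w) (z : ℤ) :
    te (v + 3 ^ w.length * z) w = te v w + 2 ^ w.sum * z := by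
  induction w generalizing v z with
  | nil => simp [te]
  | cons j w ih =>
    obtain ⟨h1, h2⟩ := h
    simp only [te, List.length_cons, List.sum_cons]
    rw [T02_cv_shift, ih h2]
    ring

theorem adm_append (v : ℤ) (u w : List ℕ) : adm v (u ++ w) ↔ adm v u ∧ adm (te v u) w := by
  induction u generalizing v with
  | nil => simp [adm, te]
  | cons j u ih =>
    simp only [List.cons_append, adm, te]
    rw [ih, and_assoc]

theorem te_append (v : ℤ) (u w : List ℕ) : te v (u ++ w) = te (te v u) w := by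
  induction u generalizing v with
  | nil => simp [te]
  | cons j u ih =>
    simp only [List.cons_append, te]
    rw [ih]

/-- each node has at least two admissible letters `≤ 6` -/
theorem two_letters (v : ℤ) : ∃ i j : ℕ, 1 ≤ i ∧ i ≤ 6 ∧ 1 ≤ j ∧ j ≤ 6 ∧ i ≠ j ∧ adm1 v i ∧
    adm1 v j := by
  have b1 : bt 1 = -1 := by norm_num [bt, eps]
  have b2 : bt 2 = 0 := by norm_num [bt, eps]
  have b3 : bt 3 = 3 := by norm_num [bt, eps]
  have b4 : bt 4 = 8 := by norm_num [bt, eps]
  have b5 : bt 5 = 19 := by norm_num [bt, eps]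
  have b6 : bt 6 = 40 := by norm_num [bt, eps]
  have h3 : v % 3 = 0 ∨ v % 3 = 1 ∨ v % 3 = 2 := by omega
  rcases h3 with h | h | h
  · refine ⟨2, 3, by norm_num, by norm_num, by norm_num, by norm_num, by norm_num, ?_, ?_⟩
    · unfold adm1
      rw [b2]
      norm_num
      omega
    · unfold adm1
      rw [b3]
      norm_num
      omega
  · refine ⟨4, 5, by norm_num, by norm_num, by norm_num, by norm_num, by norm_num, ?_, ?_⟩
    · unfold adm1
      rw [b4]
      norm_num
      omega
    · unfold adm1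
      rw [b5]
      norm_num
      omega
  · refine ⟨1, 6, by norm_num, by norm_num, by norm_num, by norm_num, by norm_num, ?_, ?_⟩
    · unfold adm1
      rw [b1]
      norm_num
      omega
    · unfold adm1
      rw [b6]
      norm_num
      omega

end Pool.Agent.Lib.MP_e43fce_nt_one
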