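import Pool.Agent.Lib.MP_e43fce_nt_one.Defs
import Pool.Agent.Lib.MP_e43fce_nt_one.T02

/-!
Module C01.
One admissible letter `j` costs exactly `j + 1` Collatz steps: for odd `j` the node `y` is odd and
`3 y + 1 = 2 ^ j s`, for even `j` the node is `y = 2 t` with `3 t + 1 = 2 ^ (j - 1) s`.
-/

set_option autoImplicit false

open Finset

namespace Pool.Agent.Lib.MP_e43fce_nt_one

private theorem C01_halve (k s : ℕ) : col^[k] (2 ^ k * s) = s := by
  induction k with
  | zero => simp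
  | succ k ih =>
    rw [Function.iterate_succ_apply]
    have e : col (2 ^ (k + 1) * s) = 2 ^ k * s := by
      unfold col
      have h1 : 2 ^ (k + 1) * s = 2 * (2 ^ k * s) := by ring
      rw [h1, if_pos (by omega)]
      omega
    rw [e, ih]

theorem col_node {v : ℤ} (hv : 0 ≤ v) {j : ℕ} (hj : 1 ≤ j) (h : adm1 v j) :
    0 ≤ cv v j ∧ col^[j + 1] (2 + 3 * cv v j).toNat = (2 + 3 * v).toNat := by
  have hn := node_cv h
  obtain ⟨i, rfl⟩ : ∃ i, j = i + 1 := ⟨j - 1, by omega⟩
  obtain ⟨s, hs⟩ : ∃ s : ℕ, 2 + 3 * v = (s : ℤ) := ⟨(2 + 3 * v).toNat, by omega⟩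
  have hs2 : 2 ≤ s := by omega
  have hpow : (1 : ℤ) ≤ 2 ^ i := by
    have := Nat.one_le_two_pow (n := i)
    exact_mod_cast this
  have hbig : (4 : ℤ) ≤ 2 ^ (i + 1) * (2 + 3 * v) := by
    rw [pow_succ]
    nlinarith
  have heps : eps (i + 1) ≤ 2 := by unfold eps; split_ifs <;> norm_num
  have hcv : 0 ≤ cv v (i + 1) := by omega
  refine ⟨hcv, ?_⟩
  obtain ⟨y, hy⟩ : ∃ y : ℕ, 2 + 3 * cv v (i + 1) = (y : ℤ) :=
    ⟨(2 + 3 * cv v (i + 1)).toNat, by omega⟩
  rw [hs, hy, Int.toNat_natCast, Int.toNat_natCast]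
  rw [hs, hy] at hn
  by_cases hpar : (i + 1) % 2 = 0
  · -- even letter
    have he : eps (i + 1) = 2 := by unfold eps; rw [if_pos hpar]
    rw [he] at hn
    obtain ⟨k, rfl⟩ : ∃ k, i = k + 1 := ⟨i - 1, by omega⟩
    have hn' : 3 * y + 2 = 4 * (2 ^ k * s) := by
      have e : (2 : ℤ) ^ (k + 1 + 1) * (s : ℤ) = 4 * (2 ^ k * s) := by ring
      rw [e] at hn
      have : (3 * y + 2 : ℤ) = 4 * (2 ^ k * s) := by linarith
      exact_mod_cast this
    obtain ⟨t, ht⟩ : ∃ t, y = 2 * t := ⟨y / 2, by omega⟩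
    subst ht
    have h3 : 3 * t + 1 = 2 * (2 ^ k * s) := by omega
    rw [Function.iterate_succ_apply]
    have e1 : col (2 * t) = t := by
      unfold col
      rw [if_pos (by omega)]
      omega
    rw [e1, Function.iterate_succ_apply]
    have e2 : col t = 2 ^ (k + 1) * s := by
      unfold col
      rw [if_neg (by omega), h3]
      ring
    rw [e2, C01_halve]
  · have he : eps (i + 1) = 1 := by unfold eps; rw [if_neg hpar]
    rw [he] at hn
    have hn' : 3 * y + 1 = 2 * (2 ^ i * s) := by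
      have e : (2 : ℤ) ^ (i + 1) * (s : ℤ) = 2 * (2 ^ i * s) := by ring
      rw [e] at hn
      have : (3 * y + 1 : ℤ) = 2 * (2 ^ i * s) := by linarith
      exact_mod_cast this
    rw [Function.iterate_succ_apply]
    have e2 : col y = 2 ^ (i + 1) * s := by
      unfold col
      rw [if_neg (by omega), hn']
      ring
    rw [e2, C01_halve]

theorem col_word {v : ℤ} (hv : 0 ≤ v) {w : List ℕ} (hw : ∀ j ∈ w, 1 ≤ j) (h : adm v w) :
    0 ≤ te v w ∧ col^[w.sum + w.length] (2 + 3 * te v w).toNat = (2 + 3 * v).toNat := by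
  induction w generalizing v with
  | nil => exact ⟨hv, rfl⟩
  | cons j w ih =>
    obtain ⟨h1, h2⟩ := h
    obtain ⟨c1, c2⟩ := col_node hv (hw j (by simp)) h1
    obtain ⟨d1, d2⟩ := ih c1 (fun i hi => hw i (by simp [hi])) h2
    refine ⟨d1, ?_⟩
    have e : (j :: w).sum + (j :: w).length = (j + 1) + (w.sum + w.length) := by
      simp only [List.sum_cons, List.length_cons]
      ring
    rw [e, Function.iterate_add_apply]
    change col^[j + 1] (col^[w.sum + w.length] (2 + 3 * te (cv v j) w).toNat) = _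
    rw [d2, c2]

end Pool.Agent.Lib.MP_e43fce_nt_one
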