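import Pool.Agent.Lib.MP_e43fce_nt_one.Defs

/-!
Module T01.
Inductions; sum over image of injective cons. prod_wt: Real.mul_rpow etc.
-/

set_option autoImplicit false

open Finset

namespace Pool.Agent.Lib.MP_e43fce_nt_one

theorem mem_lw {A n : ℕ} {w : List ℕ} : w ∈ lw A n ↔ w.length = n ∧ ∀ j ∈ w, 1 ≤ j ∧ j ≤ A := by
  induction n generalizing w with
  | zero =>
    unfold lw
    rw [Finset.mem_singleton, List.length_eq_zero_iff]
    constructor
    · rintro rfl
      exact ⟨rfl, fun j hj => absurd hj List.not_mem_nil⟩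
    · exact fun h => h.1
  | succ n ih =>
    unfold lw
    rw [Finset.mem_image]
    constructor
    · rintro ⟨p, hp, rfl⟩
      rw [Finset.mem_product, Finset.mem_Icc] at hp
      obtain ⟨h1, h2⟩ := ih.1 hp.2
      refine ⟨by rw [List.length_cons, h1], fun j hj => ?_⟩
      rcases List.mem_cons.1 hj with rfl | hj
      · exact hp.1
      · exact h2 j hj
    · rintro ⟨h1, h2⟩
      cases w with
      | nil => simp at h1
      | cons i w =>
        refine ⟨(i, w), ?_, rfl⟩
        rw [Finset.mem_product, Finset.mem_Icc]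
        exact ⟨h2 i List.mem_cons_self,
          ih.2 ⟨by simpa using h1, fun j hj => h2 j (List.mem_cons_of_mem _ hj)⟩⟩

theorem sum_lw_zero (A : ℕ) (f : List ℕ → ℝ) : ∑ w ∈ lw A 0, f w = f [] := by
  unfold lw
  rw [Finset.sum_singleton]

theorem sum_lw_succ (A n : ℕ) (f : List ℕ → ℝ) :
    ∑ w ∈ lw A (n + 1), f w = ∑ j ∈ Icc 1 A, ∑ w ∈ lw A n, f (j :: w) := by
  have h : lw A (n + 1) =
    (Icc 1 A ×ˢ lw A n).image (fun p : ℕ × List ℕ => p.1 :: p.2) := rfl
  rw [h, Finset.sum_image, Finset.sum_product]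
  rintro ⟨i, w⟩ - ⟨i', w'⟩ - hh
  have h2 := List.cons.inj hh
  exact Prod.ext h2.1 h2.2

theorem sum_lw_add (A m n : ℕ) (f : List ℕ → ℝ) :
    ∑ w ∈ lw A (m + n), f w = ∑ u ∈ lw A m, ∑ w ∈ lw A n, f (u ++ w) := by
  induction m generalizing f with
  | zero =>
    rw [Nat.zero_add, sum_lw_zero]
    rfl
  | succ m ih =>
    rw [show m + 1 + n = (m + n) + 1 by omega, sum_lw_succ, sum_lw_succ]
    apply Finset.sum_congr rfl
    intro i _
    exact ih (fun w => f (i :: w))

theorem adm_cons (v : ℤ) (j : ℕ) (w : List ℕ) :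
    adm v (j :: w) ↔ adm1 v j ∧ adm (cv v j) w := Iff.rfl

theorem Gw_eq (A : ℕ) (ω : ℕ → ℝ) (n : ℕ) (v : ℤ) :
    Gw A ω n v = ∑ w ∈ lw A n, if adm v w then (w.map ω).prod else 0 := by
  induction n generalizing v with
  | zero =>
    rw [sum_lw_zero]
    rw [if_pos (show adm v [] from trivial)]
    simp [Gw]
  | succ n ih =>
    rw [sum_lw_succ]
    simp only [Gw]
    apply Finset.sum_congr rfl
    intro j _
    by_cases h : adm1 v j
    · rw [if_pos h, ih, Finset.mul_sum]
      apply Finset.sum_congr rfl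
      intro w _
      by_cases h2 : adm (cv v j) w
      · rw [if_pos h2, if_pos ((adm_cons v j w).2 ⟨h, h2⟩), List.map_cons, List.prod_cons]
      · rw [if_neg h2, if_neg (fun h3 => h2 ((adm_cons v j w).1 h3).2), mul_zero]
    · rw [if_neg h]
      symm
      apply Finset.sum_eq_zero
      intro w _
      rw [if_neg (fun h3 => h ((adm_cons v j w).1 h3).1)]

theorem Gw_add (A : ℕ) (ω : ℕ → ℝ) (m n : ℕ) (v : ℤ) : Gw A ω (m + n) v =
    ∑ w ∈ lw A m, if adm v w then (w.map ω).prod * Gw A ω n (te v w) else 0 := by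
  induction m generalizing v with
  | zero =>
    rw [sum_lw_zero, if_pos (show adm v [] from trivial), Nat.zero_add]
    simp [te]
  | succ m ih =>
    rw [show m + 1 + n = (m + n) + 1 by omega, sum_lw_succ]
    simp only [Gw]
    apply Finset.sum_congr rfl
    intro j _
    by_cases h : adm1 v j
    · rw [if_pos h, ih, Finset.mul_sum]
      apply Finset.sum_congr rfl
      intro w _
      by_cases h2 : adm (cv v j) w
      · rw [if_pos h2, if_pos ((adm_cons v j w).2 ⟨h, h2⟩), List.map_cons, List.prod_cons]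
        simp only [te]
        ring
      · rw [if_neg h2, if_neg (fun h3 => h2 ((adm_cons v j w).1 h3).2), mul_zero]
    · rw [if_neg h]
      symm
      apply Finset.sum_eq_zero
      intro w _
      rw [if_neg (fun h3 => h ((adm_cons v j w).1 h3).1)]

theorem prod_w1 (w : List ℕ) :
    (w.map (fun j => (3 : ℝ) / 2 ^ j)).prod = 3 ^ w.length / 2 ^ w.sum := by
  induction w with
  | nil => simp
  | cons j w ih =>
    rw [List.map_cons, List.prod_cons, ih, List.length_cons, List.sum_cons, pow_succ', pow_add]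
    field_simp

theorem prod_wt (γ : ℝ) (w : List ℕ) :
    (w.map (wt γ)).prod = (3 ^ w.length / 2 ^ w.sum : ℝ) ^ γ := by
  induction w with
  | nil => simp
  | cons j w ih =>
    rw [List.map_cons, List.prod_cons, ih]
    unfold wt
    rw [← Real.mul_rpow (by positivity) (by positivity)]
    congr 1
    rw [List.length_cons, List.sum_cons, pow_succ', pow_add]
    field_simp

end Pool.Agent.Lib.MP_e43fce_nt_one
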