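import Pool.Agent.Lib.MP_e43fce_nt_one.Defs
import Pool.Agent.Lib.MP_e43fce_nt_one.T02

/-!
Module T04.
Nw (j::w) = 2^(w.sum) eps j + 3 Nw w. Better to peel the LAST letter: Nw (w ++ [j]) = 2^j Nw w +
3^|w| eps j (prove it). v_2: eps j odd/even decides parity of the last letter; then 2^j Nw w = Nw
- 3^n eps j, and Nw w (w nonempty) has v_2 in {0,1}, so j is one of two consecutive numbers,
parity decides; w empty: sum decides. node_inj (v>=0, so start node 2+3v>0): peel the last letter: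
node y = te v (w++[j]): 3 y_node = 2^j s - eps j with s = node of te v w; y odd iff j odd; if w,
w' nonempty their nodes s, s' are odd or 2 mod 4 and 2^j s = 2^j' s' with j = j' mod 2 forces j =
j', s = s'; if w = w' = [] then s = s' > 0 so 2^j = 2^j'.
-/

set_option autoImplicit false

open Finset

namespace Pool.Agent.Lib.MP_e43fce_nt_one

theorem T04_append (w : List ℕ) (j : ℕ) :
    Nw (w ++ [j]) = 2 ^ j * Nw w + 3 ^ w.length * eps j := by
  induction w with
  | nil => simp [Nw]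
  | cons i w ih =>
    have h1 : Nw (i :: w ++ [j]) = 2 ^ (w ++ [j]).sum * eps i + 3 * Nw (w ++ [j]) := rfl
    have h2 : Nw (i :: w) = 2 ^ w.sum * eps i + 3 * Nw w := rfl
    rw [h1, h2, ih, List.sum_append, List.sum_singleton, List.length_cons]
    ring

theorem T04_eps (j : ℕ) : (j % 2 = 0 ∧ eps j = 2) ∨ (j % 2 = 1 ∧ eps j = 1) := by
  unfold eps
  rcases Nat.mod_two_eq_zero_or_one j with h | h
  · left; exact ⟨h, by rw [if_pos h]⟩
  · right; exact ⟨h, by rw [if_neg (by omega)]⟩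

theorem T04_pow_even {j : ℕ} (hj : 1 ≤ j) : ∃ k : ℤ, (2 : ℤ) ^ j = 2 * k := by
  obtain ⟨i, rfl⟩ : ∃ i, j = i + 1 := ⟨j - 1, by omega⟩
  exact ⟨2 ^ i, by rw [pow_succ]; ring⟩

theorem T04_pow_four {j : ℕ} (hj : 2 ≤ j) : ∃ k : ℤ, (2 : ℤ) ^ j = 4 * k := by
  obtain ⟨i, rfl⟩ : ∃ i, j = i + 2 := ⟨j - 2, by omega⟩
  exact ⟨2 ^ i, by rw [pow_add]; ring⟩

theorem T04_three_odd (n : ℕ) : ∃ k : ℤ, (3 : ℤ) ^ n = 2 * k + 1 := by
  have h : Odd ((3 : ℤ) ^ n) := Odd.pow (by decide)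
  exact h

/-- the last letter decides the parity -/
theorem T04_step {x y : ℤ} {i j : ℕ} {c : ℤ} (hi : 1 ≤ i) (hj : 1 ≤ j) (hc : ∃ k : ℤ, c = 2 * k + 1)
    (h : 2 ^ i * x + c * eps i = 2 ^ j * y + c * eps j) (hx : ¬ (4 : ℤ) ∣ x) (hy : ¬ (4 : ℤ) ∣ y) :
    i = j ∧ x = y := by
  obtain ⟨k, rfl⟩ := hc
  obtain ⟨p, hp⟩ := T04_pow_even hi
  obtain ⟨q, hq⟩ := T04_pow_even hj
  have hpar : i % 2 = j % 2 ∧ eps i = eps j := by
    rcases T04_eps i with ⟨h1, h2⟩ | ⟨h1, h2⟩ <;> rcases T04_eps j with ⟨h3, h4⟩ | ⟨h3, h4⟩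
    · exact ⟨by omega, by rw [h2, h4]⟩
    · exfalso
      rw [h2, h4, hp, hq] at h
      have h5 : 2 * (p * x + (2 * k + 1)) = 2 * (q * y + k) + 1 := by linear_combination h
      omega
    · exfalso
      rw [h2, h4, hp, hq] at h
      have h5 : 2 * (p * x + k) + 1 = 2 * (q * y + (2 * k + 1)) := by linear_combination h
      omega
    · exact ⟨by omega, by rw [h2, h4]⟩
  obtain ⟨h1, h2⟩ := hpar
  rw [h2] at h
  have h3 : (2 : ℤ) ^ i * x = 2 ^ j * y := by linarith
  have hlt : ∀ (a b : ℕ) (u w : ℤ), a % 2 = b % 2 → (2 : ℤ) ^ a * u = 2 ^ b * w → a < b →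
      (4 : ℤ) ∣ u := by
    intro a b u w hab he hl
    obtain ⟨e, rfl⟩ : ∃ e, b = a + 2 + e := ⟨b - a - 2, by omega⟩
    have h4 : (2 : ℤ) ^ a * u = 2 ^ a * (4 * (2 ^ e * w)) := by
      rw [he, pow_add, pow_add]; ring
    have h5 := mul_left_cancel₀ (pow_ne_zero a (two_ne_zero' ℤ)) h4
    exact ⟨_, h5⟩
  rcases lt_trichotomy i j with h4 | h4 | h4
  · exact absurd (hlt i j x y h1 h3 h4) hx
  · subst h4
    exact ⟨rfl, mul_left_cancel₀ (pow_ne_zero i (two_ne_zero' ℤ)) h3⟩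
  · exact absurd (hlt j i y x h1.symm h3.symm h4) hy

/-- for a nonempty word the constant is not divisible by four -/
theorem T04_not_four {w : List ℕ} {j : ℕ} (hj : 1 ≤ j) : ¬ (4 : ℤ) ∣ Nw (w ++ [j]) := by
  rw [T04_append]
  obtain ⟨k, hk⟩ := T04_three_odd w.length
  rw [hk]
  rcases T04_eps j with ⟨h1, h2⟩ | ⟨h1, h2⟩
  · obtain ⟨q, hq⟩ := T04_pow_four (show 2 ≤ j by omega)
    rw [h2, hq]
    rintro ⟨z, hz⟩
    have : 4 * (q * Nw w + k - z) + 2 = 0 := by linear_combination hz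
    omega
  · obtain ⟨q, hq⟩ := T04_pow_even hj
    rw [h2, hq]
    rintro ⟨z, hz⟩
    have : 2 * (q * Nw w + k - 2 * z) + 1 = 0 := by linear_combination hz
    omega

theorem T04_split {w : List ℕ} {n : ℕ} (h : w.length = n + 1) :
    ∃ u : List ℕ, ∃ j : ℕ, w = u ++ [j] ∧ u.length = n := by
  rcases List.eq_nil_or_concat w with rfl | ⟨u, j, rfl⟩
  · simp at h
  · refine ⟨u, j, by simp, ?_⟩
    simpa using h

theorem T04_inj (n : ℕ) : ∀ (w w' : List ℕ), (∀ j ∈ w, 1 ≤ j) → (∀ j ∈ w', 1 ≤ j) →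
    w.length = n → w'.length = n → w.sum = w'.sum → Nw w = Nw w' → w = w' := by
  induction n with
  | zero =>
    intro w w' _ _ h1 h2 _ _
    rw [List.length_eq_zero_iff.mp h1, List.length_eq_zero_iff.mp h2]
  | succ n ih =>
    intro w w' hw hw' h1 h2 hs hN
    obtain ⟨u, j, rfl, hu⟩ := T04_split h1
    obtain ⟨u', j', rfl, hu'⟩ := T04_split h2
    have hj : 1 ≤ j := hw j (by simp)
    have hj' : 1 ≤ j' := hw' j' (by simp)
    have hwu : ∀ i ∈ u, 1 ≤ i := fun i hi => hw i (by simp [hi])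
    have hwu' : ∀ i ∈ u', 1 ≤ i := fun i hi => hw' i (by simp [hi])
    rw [List.sum_append, List.sum_append, List.sum_singleton, List.sum_singleton] at hs
    rcases Nat.eq_zero_or_pos n with rfl | hn
    · rw [List.length_eq_zero_iff.mp hu, List.length_eq_zero_iff.mp hu'] at hs ⊢
      simp only [List.sum_nil, zero_add] at hs
      rw [hs]
    · rw [T04_append, T04_append, hu, hu'] at hN
      obtain ⟨m, rfl⟩ : ∃ m, n = m + 1 := ⟨n - 1, by omega⟩
      obtain ⟨t, i, rfl, ht⟩ := T04_split hu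
      obtain ⟨t', i', rfl, ht'⟩ := T04_split hu'
      have hi : 1 ≤ i := hwu i (by simp)
      have hi' : 1 ≤ i' := hwu' i' (by simp)
      obtain ⟨e1, e2⟩ := T04_step hj hj' (T04_three_odd _) hN (T04_not_four hi) (T04_not_four hi')
      rw [e1] at hs
      have e3 := ih _ _ hwu hwu' hu hu' (by omega) e2
      rw [e1, e3]

theorem Nw_inj {w w' : List ℕ} (hw : ∀ j ∈ w, 1 ≤ j) (hw' : ∀ j ∈ w', 1 ≤ j)
    (hl : w.length = w'.length) (hs : w.sum = w'.sum) (hN : Nw w = Nw w') : w = w' :=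
  T04_inj w.length w w' hw hw' rfl hl.symm hs hN

theorem Nw_nonneg (w : List ℕ) : 0 ≤ Nw w := by
  induction w with
  | nil => exact le_rfl
  | cons i w ih =>
    have h2 : Nw (i :: w) = 2 ^ w.sum * eps i + 3 * Nw w := rfl
    rw [h2]
    have h3 : 0 ≤ eps i := by
      rcases T04_eps i with ⟨_, h⟩ | ⟨_, h⟩ <;> rw [h] <;> norm_num
    positivity

theorem T04_last {v : ℤ} {w : List ℕ} {j : ℕ} (h : adm v (w ++ [j])) :
    adm v w ∧ adm1 (te v w) j ∧
      3 * (2 + 3 * te v (w ++ [j])) = 2 ^ j * (2 + 3 * te v w) - eps j := by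
  rw [adm_append] at h
  obtain ⟨h1, h2, -⟩ := h
  refine ⟨h1, h2, ?_⟩
  rw [te_append]
  exact node_cv h2

/-- the end node of a nonempty word is not divisible by four -/
theorem T04_node_four {v : ℤ} {w : List ℕ} {j : ℕ} (hj : 1 ≤ j) (h : adm v (w ++ [j])) :
    ¬ (4 : ℤ) ∣ 2 + 3 * te v (w ++ [j]) := by
  obtain ⟨-, -, h1⟩ := T04_last h
  rintro ⟨z, hz⟩
  rw [hz] at h1
  rcases T04_eps j with ⟨h3, h2⟩ | ⟨h3, h2⟩
  · obtain ⟨q, hq⟩ := T04_pow_four (show 2 ≤ j by omega)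
    rw [h2, hq] at h1
    have : 4 * (q * (2 + 3 * te v w) - 3 * z) = 2 := by linear_combination -h1
    omega
  · obtain ⟨q, hq⟩ := T04_pow_even hj
    rw [h2, hq] at h1
    have : 2 * (q * (2 + 3 * te v w) - 6 * z) = 1 := by linear_combination -h1
    omega

theorem T04_node_inj {v : ℤ} (hv : 0 ≤ v) (n : ℕ) : ∀ (w w' : List ℕ), (∀ j ∈ w, 1 ≤ j) →
    (∀ j ∈ w', 1 ≤ j) → w.length = n → w'.length = n → adm v w → adm v w' →
    te v w = te v w' → w = w' := by
  induction n with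
  | zero =>
    intro w w' _ _ h1 h2 _ _ _
    rw [List.length_eq_zero_iff.mp h1, List.length_eq_zero_iff.mp h2]
  | succ n ih =>
    intro w w' hw hw' h1 h2 ha ha' ht
    obtain ⟨u, j, rfl, hu⟩ := T04_split h1
    obtain ⟨u', j', rfl, hu'⟩ := T04_split h2
    have hj : 1 ≤ j := hw j (by simp)
    have hj' : 1 ≤ j' := hw' j' (by simp)
    have hwu : ∀ i ∈ u, 1 ≤ i := fun i hi => hw i (by simp [hi])
    have hwu' : ∀ i ∈ u', 1 ≤ i := fun i hi => hw' i (by simp [hi])
    obtain ⟨a1, -, a3⟩ := T04_last ha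
    obtain ⟨b1, -, b3⟩ := T04_last ha'
    rw [ht] at a3
    have hN : 2 ^ j * (2 + 3 * te v u) + (-1) * eps j =
        2 ^ j' * (2 + 3 * te v u') + (-1) * eps j' := by linarith
    rcases Nat.eq_zero_or_pos n with rfl | hn
    · have e1 := List.length_eq_zero_iff.mp hu
      have e2 := List.length_eq_zero_iff.mp hu'
      subst e1 e2
      -- the start node is positive: compare the powers
      have hN' : (2 : ℤ) ^ j * (2 + 3 * v) + (-1) * eps j =
        2 ^ j' * (2 + 3 * v) + (-1) * eps j' := hN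
      have heps : eps j = eps j' := by
        obtain ⟨p, hp⟩ := T04_pow_even hj
        obtain ⟨q, hq⟩ := T04_pow_even hj'
        rw [hp, hq] at hN'
        rcases T04_eps j with ⟨_, h2⟩ | ⟨_, h2⟩ <;> rcases T04_eps j' with ⟨_, h4⟩ | ⟨_, h4⟩
        · rw [h2, h4]
        · exfalso
          rw [h2, h4] at hN'
          have : 2 * (p * (2 + 3 * v) - q * (2 + 3 * v)) = 1 := by linear_combination hN'
          omega
        · exfalso
          rw [h2, h4] at hN'
          have : 2 * (p * (2 + 3 * v) - q * (2 + 3 * v)) = -1 := by linear_combination hN'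
          omega
        · rw [h2, h4]
      rw [heps] at hN'
      have h5 : (2 : ℤ) ^ j = 2 ^ j' := by
        apply mul_right_cancel₀ (show (2 + 3 * v) ≠ 0 by omega)
        linarith
      have h6 : j = j' := by
        have h7 : (2 : ℕ) ^ j = 2 ^ j' := by exact_mod_cast h5
        exact Nat.pow_right_injective le_rfl h7
      rw [h6]
    · obtain ⟨m, rfl⟩ : ∃ m, n = m + 1 := ⟨n - 1, by omega⟩
      obtain ⟨t, i, rfl, ht1⟩ := T04_split hu
      obtain ⟨t', i', rfl, ht2⟩ := T04_split hu'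
      have hi : 1 ≤ i := hwu i (by simp)
      have hi' : 1 ≤ i' := hwu' i' (by simp)
      obtain ⟨e1, e2⟩ := T04_step hj hj' ⟨-1, by ring⟩ hN (T04_node_four hi a1)
        (T04_node_four hi' b1)
      have e3 := ih _ _ hwu hwu' hu hu' a1 b1 (by linarith)
      rw [e1, e3]

/-- two words of equal length with the same end node (the start node is positive) are equal -/
theorem node_inj {v : ℤ} (hv : 0 ≤ v) {w w' : List ℕ} (hw : ∀ j ∈ w, 1 ≤ j)
    (hw' : ∀ j ∈ w', 1 ≤ j) (hl : w.length = w'.length) (h1 : adm v w) (h2 : adm v w')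
    (h : te v w = te v w') : w = w' :=
  T04_node_inj hv w.length w w' hw hw' rfl hl.symm h1 h2 h

end Pool.Agent.Lib.MP_e43fce_nt_one
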