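import Pool.Agent.Lib.MP_e43fce_nt_one.Defs
import Pool.Agent.Lib.MP_e43fce_nt_one.C01
import Pool.Agent.Lib.MP_e43fce_nt_one.T01
import Pool.Agent.Lib.MP_e43fce_nt_one.T04

/-!
Module C02.
Counting the nodes of the backward tree.  For a node `v ≥ 0` and a level `t` let `U t v` be the sum
of `node ^ (-γ)` over the admissible words made of `t` blocks of `m` letters all of whose `t + 1`
nodes are `≤ x / K`, and `R t v` the same with the last node in `(x / K, x]`; `K = 2 ^ (A m)`.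
-/

set_option autoImplicit false

open Finset

namespace Pool.Agent.Lib.MP_e43fce_nt_one

/-- the node as a real number -/
noncomputable def C02_nd (v : ℤ) : ℝ := ((2 + 3 * v : ℤ) : ℝ)

open Classical in
/-- weighted number of block descendants; all nodes but the last one are `≤ x / K`, the last one
satisfies `P` -/
noncomputable def C02_V (A m : ℕ) (γ : ℝ) (x : ℕ) (P : ℤ → Prop) : ℕ → ℤ → ℝ
  | 0, v => if P v then (C02_nd v) ^ (-γ) else 0
  | t + 1, v => if 2 ^ (A * m) * (2 + 3 * v) ≤ (x : ℤ) then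
      ∑ u ∈ lw A m, (if adm v u then C02_V A m γ x P t (te v u) else 0) else 0

private theorem nd_pos {v : ℤ} (hv : 0 ≤ v) : 0 < C02_nd v := by
  unfold C02_nd
  have : (0 : ℤ) < 2 + 3 * v := by omega
  exact_mod_cast this

private theorem one_le_nd {v : ℤ} (hv : 0 ≤ v) : 1 ≤ C02_nd v := by
  unfold C02_nd
  have : (1 : ℤ) ≤ 2 + 3 * v := by omega
  exact_mod_cast this

private theorem te_nonneg {v : ℤ} (hv : 0 ≤ v) {A n : ℕ} {w : List ℕ} (hw : w ∈ lw A n)
    (h : adm v w) : 0 ≤ te v w :=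
  (col_word hv (fun j hj => ((mem_lw.1 hw).2 j hj).1) h).1

private theorem sum_le_of_mem {A n : ℕ} {w : List ℕ} (hw : w ∈ lw A n) : w.sum ≤ A * n := by
  obtain ⟨h1, h2⟩ := mem_lw.1 hw
  have := List.sum_le_card_nsmul w A (fun j hj => (h2 j hj).2)
  rw [h1, smul_eq_mul] at this
  rwa [mul_comm]

/-- the node after a word of length `n` is at most `2 ^ sum / 3 ^ n` times the node -/
private theorem nd_te_le {v : ℤ} {A n : ℕ} {w : List ℕ} (hw : w ∈ lw A n) (h : adm v w) :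
    3 ^ n * C02_nd (te v w) ≤ 2 ^ w.sum * C02_nd v := by
  have h1 := te_eq h
  have h2 := Nw_nonneg w
  have h3 : (3 : ℤ) ^ n * (2 + 3 * te v w) ≤ 2 ^ w.sum * (2 + 3 * v) := by
    rw [(mem_lw.1 hw).1] at h1
    linarith
  unfold C02_nd
  exact_mod_cast h3

private theorem node_le {v : ℤ} (hv : 0 ≤ v) {A n : ℕ} {w : List ℕ} (hw : w ∈ lw A n)
    (h : adm v w) : 2 + 3 * te v w ≤ 2 ^ (A * n) * (2 + 3 * v) := by
  have h1 := te_eq h
  have h2 := Nw_nonneg w
  have h0 := te_nonneg hv hw h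
  have h3 : (3 : ℤ) ^ n * (2 + 3 * te v w) ≤ 2 ^ w.sum * (2 + 3 * v) := by
    rw [(mem_lw.1 hw).1] at h1
    linarith
  have h4 : (1 : ℤ) ≤ 3 ^ n := by
    have := Nat.one_le_pow n 3 (by norm_num)
    exact_mod_cast this
  have h5 : (2 : ℤ) ^ w.sum ≤ 2 ^ (A * n) := by
    have := Nat.pow_le_pow_right (n := 2) (by norm_num) (sum_le_of_mem hw)
    exact_mod_cast this
  have h6 : (0 : ℤ) ≤ 2 + 3 * te v w := by omega
  have h7 : (0 : ℤ) ≤ 2 + 3 * v := by omega
  calc 2 + 3 * te v w ≤ 3 ^ n * (2 + 3 * te v w) := by nlinarith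
    _ ≤ 2 ^ w.sum * (2 + 3 * v) := h3
    _ ≤ 2 ^ (A * n) * (2 + 3 * v) := mul_le_mul_of_nonneg_right h5 h7

/-- one block doubles the weight -/
private theorem block {γ : ℝ} (h0 : 0 < γ) {A m : ℕ} (h : ∀ v : ℤ, 2 ≤ Fg A γ m v) {v : ℤ}
    (hv : 0 ≤ v) : 2 * (C02_nd v) ^ (-γ) ≤
      ∑ u ∈ lw A m, (if adm v u then (C02_nd (te v u)) ^ (-γ) else 0) := by
  have h1 := h v
  unfold Fg at h1
  rw [Gw_eq] at h1
  have hp := nd_pos hv
  have hq : 0 < (C02_nd v) ^ (-γ) := Real.rpow_pos_of_pos hp _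
  calc 2 * (C02_nd v) ^ (-γ)
      ≤ (∑ w ∈ lw A m, if adm v w then (w.map (wt γ)).prod else 0) * (C02_nd v) ^ (-γ) :=
        mul_le_mul_of_nonneg_right h1 hq.le
    _ = ∑ w ∈ lw A m, (if adm v w then (w.map (wt γ)).prod * (C02_nd v) ^ (-γ) else 0) := by
        rw [sum_mul]
        apply sum_congr rfl
        intro w _
        split_ifs <;> simp
    _ ≤ _ := by
        apply sum_le_sum
        intro w hw
        split_ifs with ha
        · rw [prod_wt, (mem_lw.1 hw).1]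
          have ht := nd_pos (te_nonneg hv hw ha)
          have hle := nd_te_le hw ha
          have e1 : (3 ^ m / 2 ^ w.sum : ℝ) ^ γ * (C02_nd v) ^ (-γ) =
              (2 ^ w.sum * C02_nd v / 3 ^ m) ^ (-γ) := by
            rw [Real.rpow_neg hp.le, Real.rpow_neg (by positivity), ← div_eq_mul_inv,
              ← Real.div_rpow (by positivity) hp.le, ← Real.inv_rpow (by positivity)]
            congr 1
            field_simp
          rw [e1]
          apply Real.rpow_le_rpow_of_nonpos ht _ (by linarith)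
          rw [le_div_iff₀ (by positivity)]
          linarith
        · exact le_rfl

open Classical in
private theorem grow {γ : ℝ} (h0 : 0 < γ) {A m : ℕ} (h : ∀ v : ℤ, 2 ≤ Fg A γ m v) (x : ℕ) :
    ∀ (t : ℕ) (v : ℤ), 0 ≤ v → 2 + 3 * v ≤ (x : ℤ) → 2 ^ t * (C02_nd v) ^ (-γ) ≤
      C02_V A m γ x (fun v => 2 ^ (A * m) * (2 + 3 * v) ≤ (x : ℤ)) t v +
      ∑ i ∈ range (t + 1), 2 ^ (t - i) *
        C02_V A m γ x (fun v => 2 + 3 * v ≤ (x : ℤ) ∧ ¬ 2 ^ (A * m) * (2 + 3 * v) ≤ (x : ℤ)) i v := by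
  intro t
  induction t with
  | zero =>
    intro v hv hx
    simp only [C02_V, zero_add, sum_range_one, pow_zero, one_mul]
    by_cases hK : 2 ^ (A * m) * (2 + 3 * v) ≤ (x : ℤ)
    · simp [hK]
    · simp [hK, hx]
  | succ t ih =>
    intro v hv hx
    rw [sum_range_succ']
    by_cases hK : 2 ^ (A * m) * (2 + 3 * v) ≤ (x : ℤ)
    · have e0 : C02_V A m γ x (fun v => 2 + 3 * v ≤ (x : ℤ) ∧
          ¬ 2 ^ (A * m) * (2 + 3 * v) ≤ (x : ℤ)) 0 v = 0 := by
        simp [C02_V, hK]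
      rw [e0, mul_zero, add_zero]
      have e1 : ∀ i ∈ range (t + 1), (2 : ℝ) ^ (t + 1 - (i + 1)) *
          C02_V A m γ x (fun v => 2 + 3 * v ≤ (x : ℤ) ∧
            ¬ 2 ^ (A * m) * (2 + 3 * v) ≤ (x : ℤ)) (i + 1) v =
          ∑ u ∈ lw A m, (if adm v u then (2 : ℝ) ^ (t - i) *
            C02_V A m γ x (fun v => 2 + 3 * v ≤ (x : ℤ) ∧
            ¬ 2 ^ (A * m) * (2 + 3 * v) ≤ (x : ℤ)) i (te v u) else 0) := by
        intro i _
        have e2 : t + 1 - (i + 1) = t - i := by omega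
        rw [e2]
        simp only [C02_V]
        rw [if_pos hK, mul_sum]
        apply sum_congr rfl
        intro u _
        split_ifs <;> simp
      rw [sum_congr rfl e1, sum_comm]
      have e3 : C02_V A m γ x (fun v => 2 ^ (A * m) * (2 + 3 * v) ≤ (x : ℤ)) (t + 1) v =
          ∑ u ∈ lw A m, (if adm v u then
            C02_V A m γ x (fun v => 2 ^ (A * m) * (2 + 3 * v) ≤ (x : ℤ)) t (te v u) else 0) := by
        simp only [C02_V]
        rw [if_pos hK]
      rw [e3, ← sum_add_distrib]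
      calc 2 ^ (t + 1) * (C02_nd v) ^ (-γ) = 2 ^ t * (2 * (C02_nd v) ^ (-γ)) := by ring
        _ ≤ 2 ^ t * ∑ u ∈ lw A m, (if adm v u then (C02_nd (te v u)) ^ (-γ) else 0) :=
            mul_le_mul_of_nonneg_left (block h0 h hv) (by positivity)
        _ ≤ _ := by
            rw [mul_sum]
            apply sum_le_sum
            intro u hu
            by_cases ha : adm v u
            · simp only [ha, if_true]
              exact ih (te v u) (te_nonneg hv hu ha) ((node_le hv hu ha).trans hK)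
            · simp [ha]
    · have e0 : C02_V A m γ x (fun v => 2 + 3 * v ≤ (x : ℤ) ∧
          ¬ 2 ^ (A * m) * (2 + 3 * v) ≤ (x : ℤ)) 0 v = (C02_nd v) ^ (-γ) := by
        simp [C02_V, hK, hx]
      have e1 : ∀ i ∈ range (t + 1), (2 : ℝ) ^ (t + 1 - (i + 1)) *
          C02_V A m γ x (fun v => 2 + 3 * v ≤ (x : ℤ) ∧
            ¬ 2 ^ (A * m) * (2 + 3 * v) ≤ (x : ℤ)) (i + 1) v = 0 := by
        intro i _
        simp only [C02_V]
        rw [if_neg hK, mul_zero]
      have e3 : C02_V A m γ x (fun v => 2 ^ (A * m) * (2 + 3 * v) ≤ (x : ℤ)) (t + 1) v = 0 := by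
        simp only [C02_V]
        rw [if_neg hK]
      rw [e0, sum_eq_zero e1, e3]
      simp

open Classical in
private theorem V_le {γ : ℝ} {A m : ℕ} (x : ℕ) (P : ℤ → Prop) :
    ∀ (t : ℕ) (v : ℤ), 0 ≤ v → C02_V A m γ x P t v ≤
      ∑ w ∈ lw A (t * m), (if adm v w ∧ P (te v w) then (C02_nd (te v w)) ^ (-γ) else 0) := by
  intro t
  induction t with
  | zero =>
    intro v hv
    rw [zero_mul, sum_lw_zero]
    simp only [C02_V, adm, te, true_and]
    exact le_rfl
  | succ t ih =>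
    intro v hv
    have hnn : ∀ (n : ℕ) (w : List ℕ), w ∈ lw A n →
        0 ≤ (if adm v w ∧ P (te v w) then (C02_nd (te v w)) ^ (-γ) else 0) := by
      intro n w hw
      split_ifs with h
      · exact (Real.rpow_pos_of_pos (nd_pos (te_nonneg hv hw h.1)) _).le
      · exact le_rfl
    have e : (t + 1) * m = m + t * m := by ring
    rw [e]
    simp only [C02_V]
    by_cases hK : 2 ^ (A * m) * (2 + 3 * v) ≤ (x : ℤ)
    · rw [if_pos hK, sum_lw_add]
      apply sum_le_sum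
      intro u hu
      by_cases ha : adm v u
      · rw [if_pos ha]
        refine (ih (te v u) (te_nonneg hv hu ha)).trans (le_of_eq ?_)
        apply sum_congr rfl
        intro w _
        simp [te_append, adm_append, ha]
      · rw [if_neg ha]
        apply sum_nonneg
        intro w _
        simp [adm_append, ha]
    · rw [if_neg hK]
      exact sum_nonneg (fun w hw => hnn _ w hw)

open Classical in
private theorem sum_le_card {γ : ℝ} {A n : ℕ} (P : ℤ → Prop) {v : ℤ} (hv : 0 ≤ v) (T : Finset ℕ)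
    {B : ℝ} (hB : 0 ≤ B)
    (hT : ∀ w ∈ lw A n, adm v w → P (te v w) → (2 + 3 * te v w).toNat ∈ T)
    (hPB : ∀ u : ℤ, 0 ≤ u → P u → (C02_nd u) ^ (-γ) ≤ B) :
    ∑ w ∈ lw A n, (if adm v w ∧ P (te v w) then (C02_nd (te v w)) ^ (-γ) else 0) ≤
      T.card * B := by
  rw [← sum_filter]
  calc ∑ w ∈ (lw A n).filter (fun w => adm v w ∧ P (te v w)), (C02_nd (te v w)) ^ (-γ)
      ≤ ∑ _w ∈ (lw A n).filter (fun w => adm v w ∧ P (te v w)), B := by
        apply sum_le_sum
        intro w hw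
        obtain ⟨h1, h2, h3⟩ := mem_filter.1 hw
        exact hPB _ (te_nonneg hv h1 h2) h3
    _ = ((lw A n).filter (fun w => adm v w ∧ P (te v w))).card * B := by
        rw [sum_const, nsmul_eq_mul]
    _ ≤ _ := by
        apply mul_le_mul_of_nonneg_right _ hB
        apply Nat.cast_le.2
        apply card_le_card_of_injOn (fun w => (2 + 3 * te v w).toNat)
        · intro w hw
          obtain ⟨h1, h2, h3⟩ := mem_filter.1 hw
          exact hT w h1 h2 h3
        · intro w hw w' hw' hww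
          obtain ⟨h1, h2, h3⟩ := mem_filter.1 hw
          obtain ⟨h1', h2', h3'⟩ := mem_filter.1 hw'
          have k1 := te_nonneg hv h1 h2
          have k2 := te_nonneg hv h1' h2'
          have k3 : te v w = te v w' := by
            have : (2 + 3 * te v w).toNat = (2 + 3 * te v w').toNat := hww
            omega
          exact node_inj hv (fun j hj => ((mem_lw.1 h1).2 j hj).1)
            (fun j hj => ((mem_lw.1 h1').2 j hj).1)
            ((mem_lw.1 h1).1.trans (mem_lw.1 h1').1.symm) h2 h2' k3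

open Classical in
theorem count {γ : ℝ} (h0 : 0 < γ) {A m : ℕ} (hA : 1 ≤ A) (hm : 1 ≤ m)
    (h : ∀ v : ℤ, 2 ≤ Fg A γ m v) : ∃ C : ℝ, 0 < C ∧ ∀ b : ℕ, b % 3 = 2 → ∃ c : ℝ, 0 < c ∧
      ∃ X : ℕ, ∀ x : ℕ, X ≤ x → c * (x : ℝ) ^ γ ≤
        (((Icc 1 x).filter (fun n => n % 3 = 2 ∧ ∃ k : ℕ, (k : ℝ) ≤ C * Real.log x ∧
          col^[k] n = b)).card : ℝ) := by
  have hlog2 : 0 < Real.log 2 := Real.log_pos (by norm_num)
  refine ⟨((A : ℝ) + 1) * m * (2 / Real.log 2 + 1), by positivity, ?_⟩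
  intro b hb
  obtain ⟨v, hv, hbv⟩ : ∃ v : ℤ, 0 ≤ v ∧ 2 + 3 * v = (b : ℤ) := ⟨((b / 3 : ℕ) : ℤ), by omega,
    by omega⟩
  have hb0 : (0 : ℝ) < b := by
    have : 0 < b := by omega
    exact_mod_cast this
  have hnd : C02_nd v = b := by
    unfold C02_nd
    rw [hbv]
    norm_cast
  set K : ℝ := 2 ^ (A * m) with hK
  have hKpos : 0 < K := by positivity
  refine ⟨(b : ℝ) ^ (-γ) / 4 / K ^ γ, by positivity, ?_⟩
  obtain ⟨X, hX⟩ := exists_nat_gt (max 3 (max (b : ℝ) (2 * (b : ℝ) ^ γ)))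
  refine ⟨X, fun x hx => ?_⟩
  have hxX : (X : ℝ) ≤ x := by exact_mod_cast hx
  have hx3 : (3 : ℝ) < x := lt_of_lt_of_le (lt_of_le_of_lt (le_max_left _ _) hX) hxX
  have hxb : (b : ℝ) < x := lt_of_lt_of_le (lt_of_le_of_lt
    ((le_max_left _ _).trans (le_max_right _ _)) hX) hxX
  have hx2 : 2 * (b : ℝ) ^ γ < x := lt_of_lt_of_le (lt_of_le_of_lt
    ((le_max_right _ _).trans (le_max_right _ _)) hX) hxX
  have hx0 : (0 : ℝ) < x := by linarith
  have hlogx : 1 ≤ Real.log x := by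
    rw [Real.le_log_iff_exp_le hx0]
    have := Real.exp_one_lt_d9
    linarith
  set t : ℕ := ⌈2 * Real.log x / Real.log 2⌉₊ with ht
  have ht1 : 2 * Real.log x / Real.log 2 ≤ t := Nat.le_ceil _
  have ht2 : (t : ℝ) < 2 * Real.log x / Real.log 2 + 1 := Nat.ceil_lt_add_one (by positivity)
  have hpow : (x : ℝ) ^ 2 ≤ 2 ^ t := by
    rw [← Real.log_le_log_iff (by positivity) (by positivity), Real.log_pow, Real.log_pow]
    rw [div_le_iff₀ hlog2] at ht1
    exact_mod_cast ht1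
  have hbx : 2 + 3 * v ≤ (x : ℤ) := by
    rw [hbv]
    have : (b : ℝ) ≤ x := hxb.le
    exact_mod_cast this
  have hgrow := grow h0 h x t v hv hbx
  rw [hnd] at hgrow
  set q : ℝ := (b : ℝ) ^ (-γ) with hq
  have hqpos : 0 < q := Real.rpow_pos_of_pos hb0 _
  -- the hits
  set T : Finset ℕ := (Icc 1 x).filter (fun n => n % 3 = 2 ∧ ∃ k : ℕ,
    (k : ℝ) ≤ ((A : ℝ) + 1) * m * (2 / Real.log 2 + 1) * Real.log x ∧ col^[k] n = b) with hT
  -- upper bound for `U`
  have hU : C02_V A m γ x (fun v => 2 ^ (A * m) * (2 + 3 * v) ≤ (x : ℤ)) t v ≤ x := by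
    refine (V_le (γ := γ) (A := A) (m := m) x
      (fun v : ℤ => 2 ^ (A * m) * (2 + 3 * v) ≤ (x : ℤ)) t v hv).trans ?_
    refine (sum_le_card (γ := γ) (A := A) (n := t * m) (B := 1)
      (fun v : ℤ => 2 ^ (A * m) * (2 + 3 * v) ≤ (x : ℤ)) hv (Icc 1 x) zero_le_one ?_ ?_).trans ?_
    · intro w hw ha hP
      have h1 := te_nonneg hv hw ha
      have h2 : (1 : ℤ) ≤ 2 ^ (A * m) := by
        have := Nat.one_le_two_pow (n := A * m)
        exact_mod_cast this
      have h3 : 2 + 3 * te v w ≤ (x : ℤ) := by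
        have hP' : 2 ^ (A * m) * (2 + 3 * te v w) ≤ (x : ℤ) := hP
        nlinarith
      rw [mem_Icc]
      omega
    · intro u hu _
      exact Real.rpow_le_one_of_one_le_of_nonpos (one_le_nd hu) (by linarith)
    · simp
  -- upper bound for `R`
  have hR : ∀ i ∈ range (t + 1), C02_V A m γ x (fun v => 2 + 3 * v ≤ (x : ℤ) ∧
      ¬ 2 ^ (A * m) * (2 + 3 * v) ≤ (x : ℤ)) i v ≤ T.card * ((x : ℝ) / K) ^ (-γ) := by
    intro i hi
    refine (V_le (γ := γ) (A := A) (m := m) x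
      (fun v : ℤ => 2 + 3 * v ≤ (x : ℤ) ∧ ¬ 2 ^ (A * m) * (2 + 3 * v) ≤ (x : ℤ)) i v hv).trans ?_
    refine sum_le_card (γ := γ) (A := A) (n := i * m) (B := ((x : ℝ) / K) ^ (-γ))
      (fun v : ℤ => 2 + 3 * v ≤ (x : ℤ) ∧ ¬ 2 ^ (A * m) * (2 + 3 * v) ≤ (x : ℤ)) hv T
      (by positivity) ?_ ?_
    · intro w hw ha hP
      have h1 := te_nonneg hv hw ha
      obtain ⟨hP1, hP2⟩ : 2 + 3 * te v w ≤ (x : ℤ) ∧ _ := hP
      rw [hT, mem_filter, mem_Icc]
      obtain ⟨g1, g2⟩ := col_word hv (fun j hj => ((mem_lw.1 hw).2 j hj).1) ha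
      refine ⟨by omega, by omega, w.sum + w.length, ?_, ?_⟩
      · have s1 := sum_le_of_mem hw
        have s2 := (mem_lw.1 hw).1
        have s3 : i ≤ t := by
          have := mem_range.1 hi
          omega
        have s4 : w.sum + w.length ≤ (A + 1) * m * t := by
          rw [s2]
          calc w.sum + i * m ≤ A * (i * m) + i * m := by omega
            _ = (A + 1) * m * i := by ring
            _ ≤ (A + 1) * m * t := Nat.mul_le_mul_left _ s3
        have s5 : ((w.sum + w.length : ℕ) : ℝ) ≤ ((A : ℝ) + 1) * m * t := by exact_mod_cast s4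
        refine s5.trans ?_
        rw [mul_assoc (((A : ℝ) + 1) * m)]
        apply mul_le_mul_of_nonneg_left _ (by positivity)
        calc (t : ℝ) ≤ 2 * Real.log x / Real.log 2 + 1 := ht2.le
          _ ≤ 2 * Real.log x / Real.log 2 + Real.log x := by linarith
          _ = (2 / Real.log 2 + 1) * Real.log x := by ring
      · rw [g2, hbv]
        simp
    · intro u hu hP
      obtain ⟨hP1, hP2⟩ : 2 + 3 * u ≤ (x : ℤ) ∧ ¬ 2 ^ (A * m) * (2 + 3 * u) ≤ (x : ℤ) := hP
      apply Real.rpow_le_rpow_of_nonpos (by positivity) _ (by linarith)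
      rw [div_le_iff₀ hKpos]
      have h5 : (x : ℤ) ≤ (2 + 3 * u) * 2 ^ (A * m) := by
        have := (not_le.1 hP2).le
        linarith
      rw [hK]
      unfold C02_nd
      exact_mod_cast h5
  -- combine
  have hsum : ∑ i ∈ range (t + 1), (2 : ℝ) ^ (t - i) *
        C02_V A m γ x (fun v => 2 + 3 * v ≤ (x : ℤ) ∧ ¬ 2 ^ (A * m) * (2 + 3 * v) ≤ (x : ℤ)) i v ≤
      2 ^ (t + 1) * (T.card * ((x : ℝ) / K) ^ (-γ)) := by
    calc _ ≤ ∑ i ∈ range (t + 1), (2 : ℝ) ^ (t - i) * (T.card * ((x : ℝ) / K) ^ (-γ)) :=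
          sum_le_sum (fun i hi => mul_le_mul_of_nonneg_left (hR i hi) (by positivity))
      _ = (∑ i ∈ range (t + 1), (2 : ℝ) ^ (t - i)) * (T.card * ((x : ℝ) / K) ^ (-γ)) := by
          rw [sum_mul]
      _ ≤ _ := by
          apply mul_le_mul_of_nonneg_right _ (by positivity)
          have e : ∑ i ∈ range (t + 1), (2 : ℝ) ^ (t - i) = ∑ i ∈ range (t + 1), (2 : ℝ) ^ i := by
            have := sum_range_reflect (fun i => (2 : ℝ) ^ i) (t + 1)
            simpa using this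
          rw [e, geom_sum_eq (by norm_num)]
          norm_num
  have hfin : 2 ^ t * q ≤ x + 2 ^ (t + 1) * (T.card * ((x : ℝ) / K) ^ (-γ)) := by linarith
  have hsmall : (x : ℝ) ≤ 2 ^ t * (q / 2) := by
    have e1 : (b : ℝ) ^ γ * q = 1 := by
      rw [hq, ← Real.rpow_add hb0]
      simp
    have e2 : 1 ≤ x * (q / 2) := by
      calc (1 : ℝ) = (2 * (b : ℝ) ^ γ) * (q / 2) := by linear_combination -e1
        _ ≤ x * (q / 2) := mul_le_mul_of_nonneg_right hx2.le (by positivity)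
    calc (x : ℝ) = x * 1 := by ring
      _ ≤ x * (x * (q / 2)) := mul_le_mul_of_nonneg_left e2 hx0.le
      _ = x ^ 2 * (q / 2) := by ring
      _ ≤ 2 ^ t * (q / 2) := mul_le_mul_of_nonneg_right hpow (by positivity)
  have hq4 : q / 4 ≤ T.card * ((x : ℝ) / K) ^ (-γ) := by
    have h2t : (0 : ℝ) < 2 ^ t := by positivity
    have : 2 ^ t * (q / 4) ≤ 2 ^ t * (T.card * ((x : ℝ) / K) ^ (-γ)) := by
      rw [pow_succ] at hfin
      nlinarith
    exact le_of_mul_le_mul_left this h2t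
  calc q / 4 / K ^ γ * (x : ℝ) ^ γ = q / 4 * ((x : ℝ) / K) ^ γ := by
        rw [Real.div_rpow hx0.le hKpos.le]
        ring
    _ ≤ (T.card * ((x : ℝ) / K) ^ (-γ)) * ((x : ℝ) / K) ^ γ :=
        mul_le_mul_of_nonneg_right hq4 (by positivity)
    _ = T.card := by
        rw [mul_assoc, ← Real.rpow_add (by positivity)]
        simp

end Pool.Agent.Lib.MP_e43fce_nt_one
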