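import Pool.Agent.Lib.MP_e43fce_nt_one.Defs
import Pool.Agent.Lib.MP_e43fce_nt_one.Bridge

/-! Module E14: the inverse theorem. -/

set_option autoImplicit false

open Finset

namespace Pool.Agent.Lib.MP_e43fce_nt_one

theorem INV : ∀ c : ℝ, 0 < c → ∃ ε : ℝ, 0 < ε ∧ ∀ θ : ℝ, 0 < θ → ∀ W : ℕ, 1 ≤ W →
    ∃ τ : ℝ, 0 < τ ∧ ∃ k0 : ℕ, ∀ k n : ℕ, k0 ≤ k → n = k * W → ∀ p q : ZMod (3 ^ n) → ℝ,
      IsPmf p → IsPmf q → c * n ≤ ent q →
      (((range k).filter (fun j => D n (j * W) p - D n ((j + 1) * W) p < θ * W)).card : ℝ)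
        ≤ ε * k →
      ent p + τ * n ≤ ent (conv p q) := by
  intro c hc
  obtain ⟨ε, hε, h1⟩ := KLOne.inv c hc
  refine ⟨ε, hε, fun θ hθ W hW => ?_⟩
  obtain ⟨τ, hτ, k0, h2⟩ := h1 θ hθ W hW
  refine ⟨τ, hτ, k0, ?_⟩
  intro k n hk hn p q hp hq hq2 hbad
  subst hn
  have h3 := h2 k hk p q ((isPmf_iff _).1 hp) ((isPmf_iff _).1 hq) (by rw [← ent_eq]; exact hq2) (by
    refine le_trans (le_of_eq ?_) hbad
    congr 2
    refine Finset.filter_congr (fun j hj => ?_)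
    have hj' : j + 1 ≤ k := Finset.mem_range.1 hj
    rw [D_eq (Nat.mul_le_mul_right W (Nat.le_of_succ_le hj')), D_eq (Nat.mul_le_mul_right W hj')])
  rw [ent_eq, ent_eq, conv_eq]
  exact h3

end Pool.Agent.Lib.MP_e43fce_nt_one
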