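import Pool.Agent.Lib.MP_e43fce_nt_one.Defs

/-!
Module E15.
m = mass of A >= 1-eta. Entropy on A: sum_{x in A} negMulLog(p x) <= m log|A| + negMulLog m
(concavity/Jensen: Real.concaveOn_negMulLog or log-sum), same on the complement with 1-m <= eta
and |A^c| <= |G|; negMulLog m + negMulLog(1-m) <= log 2 (binary entropy,
Real.binEntropy_le_log_two). Careful if the complement is empty (then 1-m = 0).
-/

set_option autoImplicit false

open Finset

namespace Pool.Agent.Lib.MP_e43fce_nt_one

/-- entropy restricted to a set of at most `N` elements -/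
theorem part_ent {G : Type} [Fintype G] {p : G → ℝ} (hp : ∀ x, 0 ≤ p x) (A : Finset G)
    {m N : ℝ} (hm : ∑ x ∈ A, p x = m) (hN : (A.card : ℝ) ≤ N) (hN1 : 1 ≤ N) :
    ∑ x ∈ A, Real.negMulLog (p x) ≤ m * Real.log N + Real.negMulLog m := by
  have hm0 : 0 ≤ m := by rw [← hm]; exact sum_nonneg fun x _ => hp x
  rcases eq_or_lt_of_le hm0 with h0 | h0
  · have hz : ∀ x ∈ A, p x = 0 := by
      rw [← h0] at hm
      exact (sum_eq_zero_iff_of_nonneg fun x _ => hp x).1 hm
    rw [← h0]
    simp only [zero_mul, Real.negMulLog_zero, add_zero]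
    apply le_of_eq
    apply sum_eq_zero
    intro x hx
    rw [hz x hx, Real.negMulLog_zero]
  · have hNpos : 0 < N := by linarith
    -- pointwise: -p log p ≤ p log (N / m) + m / N - p
    have key : ∀ x ∈ A, Real.negMulLog (p x) ≤ p x * Real.log (N / m) + (m / N - p x) := by
      intro x _
      rcases eq_or_lt_of_le (hp x) with h1 | h1
      · rw [← h1]
        simp only [Real.negMulLog_zero, zero_mul, zero_add, sub_zero]
        positivity
      · have h2 : Real.log (m / (N * p x)) ≤ m / (N * p x) - 1 :=
          Real.log_le_sub_one_of_pos (by positivity)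
        have h3 : Real.log (m / (N * p x)) = - Real.log (p x) - Real.log (N / m) := by
          rw [Real.log_div h0.ne' (by positivity), Real.log_mul hNpos.ne' h1.ne',
            Real.log_div hNpos.ne' h0.ne']
          ring
        rw [h3] at h2
        have h4 := mul_le_mul_of_nonneg_left h2 h1.le
        have h5 : p x * (m / (N * p x) - 1) = m / N - p x := by
          field_simp
        rw [h5] at h4
        rw [Real.negMulLog]
        nlinarith [h4]
    have h6 := sum_le_sum key
    rw [sum_add_distrib, ← sum_mul, sum_sub_distrib, sum_const, hm, nsmul_eq_mul] at h6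
    have h7 : (A.card : ℝ) * (m / N) ≤ m := by
      rw [mul_div_assoc', div_le_iff₀ hNpos]
      nlinarith
    have h8 : m * Real.log (N / m) = m * Real.log N + Real.negMulLog m := by
      rw [Real.log_div hNpos.ne' h0.ne', Real.negMulLog]
      ring
    linarith

theorem near_support {G : Type} [Fintype G] {p : G → ℝ} (hp : IsPmf p) (A : Finset G)
    (hA : 1 ≤ A.card) {η : ℝ} (hη : 0 ≤ η) (h : 1 - η ≤ ∑ x ∈ A, p x) :
    ent p ≤ Real.log A.card + η * Real.log (Fintype.card G) + Real.log 2 := by
  classical
  set m := ∑ x ∈ A, p x with hm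
  set m' := ∑ x ∈ Aᶜ, p x with hm'
  have hsum : m + m' = 1 := by rw [hm, hm', sum_add_sum_compl, hp.sum_one]
  have hm0 : 0 ≤ m := sum_nonneg fun x _ => hp.nonneg x
  have hm'0 : 0 ≤ m' := sum_nonneg fun x _ => hp.nonneg x
  have hA1 : (1 : ℝ) ≤ A.card := by exact_mod_cast hA
  have hG1 : (1 : ℝ) ≤ Fintype.card G := by
    have : A.card ≤ Fintype.card G := card_le_univ A
    exact_mod_cast hA.trans this
  have e1 := part_ent hp.nonneg A hm.symm le_rfl hA1
  have e2 := part_ent (N := (Fintype.card G : ℝ)) hp.nonneg Aᶜ hm'.symm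
    (by exact_mod_cast card_le_univ _) hG1
  have e3 : ent p = ∑ x ∈ A, Real.negMulLog (p x) + ∑ x ∈ Aᶜ, Real.negMulLog (p x) := by
    rw [ent, sum_add_sum_compl]
  have e4 : Real.negMulLog m + Real.negMulLog m' ≤ Real.log 2 := by
    have hb := Real.binEntropy_le_log_two (p := m)
    rw [Real.binEntropy_eq_negMulLog_add_negMulLog_one_sub] at hb
    have : m' = 1 - m := by linarith
    rw [this]
    exact hb
  have e5 : m * Real.log A.card ≤ Real.log A.card := by
    have := Real.log_nonneg hA1
    nlinarith
  have e6 : m' * Real.log (Fintype.card G) ≤ η * Real.log (Fintype.card G) := by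
    have := Real.log_nonneg hG1
    have h7 : m' ≤ η := by linarith
    exact mul_le_mul_of_nonneg_right h7 this
  linarith

end Pool.Agent.Lib.MP_e43fce_nt_one
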