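import Pool.Agent.Lib.MP_e43fce_nt_one.Defs

/-!
Module L01.
Induction; the map (i,w) -> i::w is injective (Finset.sum_image).
-/

set_option autoImplicit false

open Finset

namespace Pool.Agent.Lib.MP_e43fce_nt_one

variable {ι : Type} [Fintype ι] [DecidableEq ι]

theorem mem_words {n : ℕ} {w : List ι} : w ∈ words ι n ↔ w.length = n := by
  induction n generalizing w with
  | zero =>
    unfold words
    rw [Finset.mem_singleton, List.length_eq_zero_iff]
  | succ n ih =>
    unfold words
    rw [Finset.mem_image]
    constructor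
    · rintro ⟨p, hp, rfl⟩
      rw [Finset.mem_product] at hp
      rw [List.length_cons, ih.1 hp.2]
    · intro h
      cases w with
      | nil => simp at h
      | cons i w =>
        refine ⟨(i, w), ?_, rfl⟩
        rw [Finset.mem_product]
        exact ⟨Finset.mem_univ i, ih.2 (by simpa using h)⟩

theorem sum_words_zero (f : List ι → ℝ) : ∑ w ∈ words ι 0, f w = f [] := by
  unfold words
  rw [Finset.sum_singleton]

theorem sum_words_succ (n : ℕ) (f : List ι → ℝ) :
    ∑ w ∈ words ι (n + 1), f w = ∑ i, ∑ w ∈ words ι n, f (i :: w) := by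
  have h : words ι (n + 1) =
    (univ ×ˢ words ι n).image (fun p : ι × List ι => p.1 :: p.2) := rfl
  rw [h, Finset.sum_image, Finset.sum_product]
  rintro ⟨i, w⟩ - ⟨i', w'⟩ - hh
  have h2 := List.cons.inj hh
  exact Prod.ext h2.1 h2.2

theorem sum_words_add (m n : ℕ) (f : List ι → ℝ) :
    ∑ w ∈ words ι (m + n), f w = ∑ u ∈ words ι m, ∑ w ∈ words ι n, f (u ++ w) := by
  induction m generalizing f with
  | zero =>
    rw [Nat.zero_add, sum_words_zero]
    rfl
  | succ m ih =>
    rw [show m + 1 + n = (m + n) + 1 by omega, sum_words_succ, sum_words_succ]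
    apply Finset.sum_congr rfl
    intro i _
    exact ih (fun w => f (i :: w))

omit [Fintype ι] [DecidableEq ι] in
theorem bW_append (b : ι → ℕ) (u w : List ι) : bW b (u ++ w) = bW b u + bW b w := by
  induction u with
  | nil => simp [bW]
  | cons i u ih =>
    have h1 : bW b (i :: (u ++ w)) = b i + bW b (u ++ w) := rfl
    have h2 : bW b (i :: u) = b i + bW b u := rfl
    rw [List.cons_append, h1, h2, ih, Nat.add_assoc]

omit [Fintype ι] [DecidableEq ι] in
theorem bW_le {b : ι → ℕ} {B : ℕ} (hb : ∀ i, b i ≤ B) (w : List ι) : bW b w ≤ B * w.length := by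
  induction w with
  | nil => simp [bW]
  | cons i w ih =>
    have h1 : bW b (i :: w) = b i + bW b w := rfl
    rw [h1, List.length_cons, Nat.mul_succ]
    have := hb i
    omega

end Pool.Agent.Lib.MP_e43fce_nt_one
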