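import Pool.Agent.Lib.MP_e43fce_nt_one.Defs
import Pool.Agent.Lib.MP_e43fce_nt_one.L01

/-!
Module L02.
Inductions on the word. PW_shift/tW_shift: for i::w, v' = v + 3^(L(|w|+1)) z: P v' i = P v i by
P_per; if P v i <> 0 then 3^L | 2^b v + beta and ch v' i = ch v i + 3^(L|w|) (2^b z).
-/

set_option autoImplicit false

open Finset

namespace Pool.Agent.Lib.MP_e43fce_nt_one

namespace Sys
variable {ι : Type} [Fintype ι] [DecidableEq ι] (S : Sys ι)

theorem PW_append (v : ℤ) (u w : List ι) : S.PW v (u ++ w) = S.PW v u * S.PW (S.tW v u) w := by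
  induction u generalizing v with
  | nil => simp [PW, tW]
  | cons i u ih =>
    rw [List.cons_append]
    simp only [PW, tW]
    rw [ih]
    ring

theorem tW_append (v : ℤ) (u w : List ι) : S.tW v (u ++ w) = S.tW (S.tW v u) w := by
  induction u generalizing v with
  | nil => simp [tW]
  | cons i u ih =>
    rw [List.cons_append]
    simp only [tW]
    rw [ih]

theorem bw_append (u w : List ι) : S.bw (u ++ w) = S.bw u + S.bw w := bW_append S.b u w

theorem bw_le (w : List ι) : S.bw w ≤ S.B * w.length := bW_le S.hb w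

theorem PW_nonneg (v : ℤ) (w : List ι) : 0 ≤ S.PW v w := by
  induction w generalizing v with
  | nil => simp [PW]
  | cons i w ih =>
    simp only [PW]
    exact mul_nonneg (S.P_nonneg v i) (ih _)

theorem sum_PW (n : ℕ) (v : ℤ) : ∑ w ∈ words ι n, S.PW v w = 1 := by
  induction n generalizing v with
  | zero => rw [sum_words_zero]; rfl
  | succ n ih =>
    rw [sum_words_succ]
    simp only [PW]
    simp_rw [← Finset.mul_sum, ih, mul_one]
    exact S.P_sum v

theorem PW_le (v : ℤ) (w : List ι) : S.PW v w ≤ (1 - S.c) ^ w.length := by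
  induction w generalizing v with
  | nil => simp [PW]
  | cons i w ih =>
    simp only [PW]
    rw [List.length_cons, pow_succ']
    exact mul_le_mul (S.P_le v i) (ih _) (S.PW_nonneg _ _) (by linarith [S.hc1])

theorem sys_ch_mul {v : ℤ} {i : ι} (h : S.P v i ≠ 0) :
    3 ^ S.L * S.ch v i = 2 ^ (S.b i) * v + S.β i := by
  unfold ch
  exact Int.mul_ediv_cancel' (S.P_dvd v i h)

theorem tW_eq {v : ℤ} {w : List ι} (h : S.PW v w ≠ 0) :
    3 ^ (S.L * w.length) * S.tW v w = 2 ^ (S.bw w) * v + βW S.L S.b S.β w := by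
  induction w generalizing v with
  | nil => simp [tW, bw, bW, βW]
  | cons i w ih =>
    simp only [PW] at h
    have h1 : S.P v i ≠ 0 := left_ne_zero_of_mul h
    have h2 := ih (right_ne_zero_of_mul h)
    have h3 := S.sys_ch_mul h1
    simp only [tW, List.length_cons, βW]
    have h4 : S.bw (i :: w) = S.b i + S.bw w := rfl
    have h5 : bW S.b w = S.bw w := rfl
    rw [h4, h5, Nat.mul_succ, pow_add, pow_add]
    calc (3 : ℤ) ^ (S.L * w.length) * 3 ^ S.L * S.tW (S.ch v i) w
        = 3 ^ S.L * (3 ^ (S.L * w.length) * S.tW (S.ch v i) w) := by ring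
      _ = 3 ^ S.L * (2 ^ S.bw w * S.ch v i + βW S.L S.b S.β w) := by rw [h2]
      _ = 2 ^ S.bw w * (3 ^ S.L * S.ch v i) + 3 ^ S.L * βW S.L S.b S.β w := by ring
      _ = 2 ^ S.bw w * (2 ^ (S.b i) * v + S.β i) + 3 ^ S.L * βW S.L S.b S.β w := by rw [h3]
      _ = 2 ^ S.b i * 2 ^ S.bw w * v + (2 ^ S.bw w * S.β i + 3 ^ S.L * βW S.L S.b S.β w) := by ring

theorem sys_ch_shift {v : ℤ} {i : ι} (h : S.P v i ≠ 0) (k : ℕ) (z : ℤ) :
    S.ch (v + 3 ^ (S.L * (k + 1)) * z) i = S.ch v i + 3 ^ (S.L * k) * (2 ^ (S.b i) * z) := by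
  obtain ⟨t, ht⟩ := S.P_dvd v i h
  have h3 : (3 : ℤ) ^ S.L ≠ 0 := by positivity
  unfold ch
  have e1 : (2 : ℤ) ^ S.b i * (v + 3 ^ (S.L * (k + 1)) * z) + S.β i =
      3 ^ S.L * (t + 3 ^ (S.L * k) * (2 ^ (S.b i) * z)) := by
    rw [Nat.mul_succ, pow_add]
    linear_combination ht
  rw [e1, ht, Int.mul_ediv_cancel_left _ h3, Int.mul_ediv_cancel_left _ h3]

theorem sys_P_shift (v : ℤ) (i : ι) (k : ℕ) (z : ℤ) :
    S.P (v + 3 ^ (S.L * (k + 1)) * z) i = S.P v i := by
  have h := S.P_per i v (3 ^ (S.L * k) * z)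
  rw [Nat.mul_succ, pow_add]
  rw [show v + 3 ^ (S.L * k) * 3 ^ S.L * z = v + 3 ^ S.L * (3 ^ (S.L * k) * z) by ring]
  exact h

theorem PW_shift (v z : ℤ) (w : List ι) :
    S.PW (v + 3 ^ (S.L * w.length) * z) w = S.PW v w := by
  induction w generalizing v z with
  | nil => rfl
  | cons i w ih =>
    simp only [PW, List.length_cons]
    rw [S.sys_P_shift]
    by_cases h : S.P v i = 0
    · rw [h, zero_mul, zero_mul]
    · rw [S.sys_ch_shift h, ih]

theorem tW_shift {v : ℤ} {w : List ι} (h : S.PW v w ≠ 0) (z : ℤ) :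
    S.tW (v + 3 ^ (S.L * w.length) * z) w = S.tW v w + 2 ^ (S.bw w) * z := by
  induction w generalizing v z with
  | nil => simp [tW, bw, bW]
  | cons i w ih =>
    simp only [PW] at h
    have h1 : S.P v i ≠ 0 := left_ne_zero_of_mul h
    simp only [tW, List.length_cons]
    rw [S.sys_ch_shift h1, ih (right_ne_zero_of_mul h)]
    have h4 : S.bw (i :: w) = S.b i + S.bw w := rfl
    rw [h4, pow_add]
    ring

end Sys

end Pool.Agent.Lib.MP_e43fce_nt_one
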