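import Pool.Agent.Lib.MP_e43fce_nt_one.Defs

/-!
Module L04: averages of periodic functions.
-/

set_option autoImplicit false

open Finset

namespace Pool.Agent.Lib.MP_e43fce_nt_one

theorem Per_val {m : ℕ} {f : ℤ → ℝ} (hf : Per m f) (c : ℤ) :
    f (((c : ZMod (3 ^ m))).val : ℤ) = f c := by
  have h1 : (((c : ZMod (3 ^ m))).val : ℤ) = c % ((3 ^ m : ℕ) : ℤ) := ZMod.val_intCast c
  rw [h1]
  have h2 := hf (c % ((3 ^ m : ℕ) : ℤ)) (c / ((3 ^ m : ℕ) : ℤ))
  rw [← h2]
  congr 1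
  have h3 := Int.emod_add_mul_ediv c ((3 ^ m : ℕ) : ℤ)
  push_cast at h3 ⊢
  exact h3

theorem Per.mono {m n : ℕ} (hmn : m ≤ n) {f : ℤ → ℝ} (hf : Per m f) : Per n f := by
  intro v z
  obtain ⟨k, rfl⟩ := Nat.exists_eq_add_of_le hmn
  have := hf v (3 ^ k * z)
  rw [← this, pow_add, mul_assoc]

theorem Av_affine {m : ℕ} {f : ℤ → ℝ} (hf : Per m f) (t : ℤ) (b : ℕ) :
    Av m (fun z => f (t + 2 ^ b * z)) = Av m f := by
  unfold Av
  congr 1
  have hu : IsUnit ((2 : ZMod (3 ^ m)) ^ b) := by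
    apply IsUnit.pow
    have : IsUnit (((2 : ℕ) : ZMod (3 ^ m))) := by
      rw [ZMod.isUnit_iff_coprime]
      exact Nat.Coprime.pow_right m (by norm_num)
    simpa using this
  have hbij : Function.Bijective (fun x : ZMod (3 ^ m) => (t : ZMod (3 ^ m)) + 2 ^ b * x) := by
    rw [Finite.injective_iff_bijective.symm]
    intro x y hxy
    have : (2 : ZMod (3 ^ m)) ^ b * x = 2 ^ b * y := add_left_cancel hxy
    exact hu.mul_left_cancel this
  rw [← hbij.sum_comp (fun x : ZMod (3 ^ m) => f (x.val : ℤ))]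
  refine Finset.sum_congr rfl (fun x _ => ?_)
  have h1 := Per_val hf (t + 2 ^ b * (x.val : ℤ))
  show f (t + 2 ^ b * (x.val : ℤ)) = _
  rw [← h1]
  congr 3
  push_cast
  rw [ZMod.natCast_zmod_val]

theorem Av_split {m n : ℕ} {f : ℤ → ℝ} (hf : Per (m + n) f) :
    Av (m + n) f = Av m (fun v => Av n (fun z => f (v + 3 ^ m * z))) := by
  unfold Av
  have hcard : Fintype.card (ZMod (3 ^ m) × ZMod (3 ^ n)) = Fintype.card (ZMod (3 ^ (m + n))) := by
    rw [Fintype.card_prod, ZMod.card, ZMod.card, ZMod.card, pow_add]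
  have hlt : ∀ p : ZMod (3 ^ m) × ZMod (3 ^ n), p.1.val + 3 ^ m * p.2.val < 3 ^ (m + n) := by
    intro p
    have h1 := ZMod.val_lt p.1
    have h2 := ZMod.val_lt p.2
    calc p.1.val + 3 ^ m * p.2.val < 3 ^ m + 3 ^ m * p.2.val := by omega
      _ = 3 ^ m * (p.2.val + 1) := by ring
      _ ≤ 3 ^ m * 3 ^ n := Nat.mul_le_mul_left _ h2
      _ = 3 ^ (m + n) := (pow_add 3 m n).symm
  have hbij : Function.Bijective (fun p : ZMod (3 ^ m) × ZMod (3 ^ n) =>
      ((p.1.val + 3 ^ m * p.2.val : ℕ) : ZMod (3 ^ (m + n)))) := by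
    rw [Fintype.bijective_iff_injective_and_card]
    refine ⟨?_, hcard⟩
    intro p q hpq
    have h1 : p.1.val + 3 ^ m * p.2.val = q.1.val + 3 ^ m * q.2.val := by
      have := congrArg ZMod.val hpq
      simp only [] at this
      rwa [ZMod.val_natCast_of_lt (hlt p), ZMod.val_natCast_of_lt (hlt q)] at this
    have hp := ZMod.val_lt p.1
    have hq := ZMod.val_lt q.1
    have h2 : p.1.val = q.1.val := by
      have := congrArg (fun t => t % 3 ^ m) h1
      simpa [Nat.add_mul_mod_self_left, Nat.mod_eq_of_lt hp, Nat.mod_eq_of_lt hq] using this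
    have h3 : p.2.val = q.2.val := by
      rw [h2] at h1
      have h4 : 3 ^ m * p.2.val = 3 ^ m * q.2.val := by omega
      exact Nat.eq_of_mul_eq_mul_left (by positivity) h4
    exact Prod.ext (ZMod.val_injective _ h2) (ZMod.val_injective _ h3)
  rw [← hbij.sum_comp (fun x : ZMod (3 ^ (m + n)) => f (x.val : ℤ))]
  have h6 : (3 : ℝ) ^ (m + n) = 3 ^ n * 3 ^ m := by rw [pow_add, mul_comm]
  rw [Fintype.sum_prod_type, h6, ← Finset.sum_div, div_div]
  congr 1
  refine Finset.sum_congr rfl (fun x _ => Finset.sum_congr rfl (fun z _ => ?_))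
  have h5 : ((x.val + 3 ^ m * z.val : ℕ) : ZMod (3 ^ (m + n))).val = x.val + 3 ^ m * z.val :=
    ZMod.val_natCast_of_lt (hlt (x, z))
  show f (((((x.val + 3 ^ m * z.val : ℕ) : ZMod (3 ^ (m + n))).val : ℕ)) : ℤ) = _
  rw [h5]
  push_cast
  rfl

theorem Av_const (m : ℕ) (c : ℝ) : Av m (fun _ => c) = c := by
  unfold Av
  rw [Finset.sum_const, Finset.card_univ, ZMod.card, nsmul_eq_mul]
  push_cast
  field_simp

theorem Av_mono {m : ℕ} {f g : ℤ → ℝ} (h : ∀ v, f v ≤ g v) : Av m f ≤ Av m g := by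
  unfold Av
  exact div_le_div_of_nonneg_right (Finset.sum_le_sum (fun x _ => h _)) (by positivity)

theorem Av_add (m : ℕ) (f g : ℤ → ℝ) : Av m (fun v => f v + g v) = Av m f + Av m g := by
  unfold Av
  rw [Finset.sum_add_distrib, add_div]

theorem Av_mul_left (m : ℕ) (c : ℝ) (f : ℤ → ℝ) : Av m (fun v => c * f v) = c * Av m f := by
  unfold Av
  rw [← Finset.mul_sum, mul_div_assoc]

theorem Av_sum {α : Type} (s : Finset α) (m : ℕ) (f : α → ℤ → ℝ) :
    Av m (fun v => ∑ a ∈ s, f a v) = ∑ a ∈ s, Av m (f a) := by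
  unfold Av
  rw [Finset.sum_comm, Finset.sum_div]

/-- averages of a `3 ^ m`-periodic function over a longer period -/
theorem Av_of_per {m n : ℕ} (hmn : m ≤ n) {f : ℤ → ℝ} (hf : Per m f) : Av n f = Av m f := by
  obtain ⟨k, rfl⟩ := Nat.exists_eq_add_of_le hmn
  rw [Av_split (hf.mono hmn)]
  congr 1
  funext v
  have : (fun z => f (v + 3 ^ m * z)) = fun _ => f v := by
    funext z
    exact hf v z
  rw [this, Av_const]

end Pool.Agent.Lib.MP_e43fce_nt_one
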