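import Pool.Agent.Lib.MP_e43fce_nt_one.Defs
import Pool.Agent.Lib.MP_e43fce_nt_one.L02
import Pool.Agent.Lib.MP_e43fce_nt_one.L04

/-!
Module L03: the cocycle identity for the linear functional.
-/

set_option autoImplicit false

open Finset

namespace Pool.Agent.Lib.MP_e43fce_nt_one

namespace Sys
variable {ι : Type} [Fintype ι] [DecidableEq ι] (S : Sys ι)

theorem psi_shift (v : ℤ) (k : ℕ) (z : ℤ) :
    S.ψ (v + 3 ^ (S.L * (k + 1)) * z) = S.ψ v := by
  have h := S.ψ_per v (3 ^ (S.L * k) * z)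
  rw [Nat.mul_succ, pow_add]
  rw [show v + 3 ^ (S.L * k) * 3 ^ S.L * z = v + 3 ^ S.L * (3 ^ (S.L * k) * z) by ring]
  exact h

theorem Psi_per (n : ℕ) : Per (S.L * n) (S.Psi n) := by
  induction n with
  | zero => intro v z; rfl
  | succ n ih =>
    intro v z
    simp only [Psi]
    rw [S.psi_shift]
    congr 1
    refine Finset.sum_congr rfl (fun i _ => ?_)
    rw [S.sys_P_shift]
    by_cases h : S.P v i = 0
    · rw [h, zero_mul, zero_mul]
    · rw [S.sys_ch_shift h, ih]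

theorem Psi_cocycle (N n : ℕ) (v z : ℤ) :
    S.Psi (N + n) (v + 3 ^ (S.L * N) * z) =
      S.Psi N v + ∑ w ∈ words ι N, S.PW v w * S.Psi n (S.tW v w + 2 ^ (S.bw w) * z) := by
  induction N generalizing v z with
  | zero =>
    rw [sum_words_zero, Nat.zero_add]
    simp [PW, tW, bw, bW, Psi]
  | succ N ih =>
    rw [show N + 1 + n = (N + n) + 1 by omega, sum_words_succ]
    simp only [Psi]
    rw [S.psi_shift, add_assoc, ← Finset.sum_add_distrib]
    congr 1
    refine Finset.sum_congr rfl (fun i _ => ?_)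
    rw [S.sys_P_shift]
    by_cases h : S.P v i = 0
    · have h0 : ∑ w ∈ words ι N, S.PW v (i :: w) *
          S.Psi n (S.tW v (i :: w) + 2 ^ (S.bw (i :: w)) * z) = 0 := by
        refine Finset.sum_eq_zero (fun w _ => ?_)
        simp only [PW]
        rw [h, zero_mul, zero_mul]
      rw [h0, h]
      simp
    · rw [S.sys_ch_shift h, ih, mul_add, Finset.mul_sum]
      congr 1
      refine Finset.sum_congr rfl (fun w _ => ?_)
      simp only [PW, tW]
      have h4 : S.bw (i :: w) = S.b i + S.bw w := rfl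
      rw [h4, pow_add, mul_assoc]
      congr 3
      ring

theorem loss_per (n : ℕ) : Per (S.L * n) (S.loss n) := by
  intro v z
  unfold loss
  rw [S.Psi_per n v z]

theorem rl_eq (N n : ℕ) (v z : ℤ) : S.rl N n v z =
    ∑ w ∈ words ι N, S.PW v w * S.loss n (S.tW v w + 2 ^ (S.bw w) * z) := by
  unfold rl loss
  rw [S.Psi_cocycle]
  simp only [mul_sub]
  rw [Finset.sum_sub_distrib, ← Finset.sum_mul, S.sum_PW]
  ring

theorem rl_per (N n : ℕ) (v : ℤ) : Per (S.L * n) (S.rl N n v) := by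
  intro z y
  unfold rl
  congr 2
  have h := S.Psi_per (N + n) (v + 3 ^ (S.L * N) * z) y
  rw [← h]
  congr 1
  rw [Nat.mul_add, pow_add]
  ring

theorem rl_add (N m n : ℕ) (v z y : ℤ) : S.rl N (m + n) v (z + 3 ^ (S.L * m) * y) =
    S.rl N m v z + S.rl (N + m) n (v + 3 ^ (S.L * N) * z) y := by
  unfold rl
  have h : v + 3 ^ (S.L * N) * (z + 3 ^ (S.L * m) * y) =
      v + 3 ^ (S.L * N) * z + 3 ^ (S.L * (N + m)) * y := by
    rw [Nat.mul_add, pow_add]
    ring
  rw [h, ← Nat.add_assoc]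
  push_cast
  ring

theorem loss_bound {C0 : ℝ} (h : ∀ v, |S.psibar - S.ψ v| ≤ C0) (n : ℕ) (v : ℤ) :
    |S.loss n v| ≤ C0 * n := by
  induction n generalizing v with
  | zero => simp [loss, Psi]
  | succ n ih =>
    have h1 : S.loss (n + 1) v = (S.psibar - S.ψ v) + ∑ i, S.P v i * S.loss n (S.ch v i) := by
      unfold loss
      simp only [Psi, mul_sub]
      rw [Finset.sum_sub_distrib, ← Finset.sum_mul, S.P_sum]
      push_cast
      ring
    rw [h1]
    have h2 : |∑ i, S.P v i * S.loss n (S.ch v i)| ≤ C0 * n := by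
      calc |∑ i, S.P v i * S.loss n (S.ch v i)|
          ≤ ∑ i, |S.P v i * S.loss n (S.ch v i)| := Finset.abs_sum_le_sum_abs _ _
        _ ≤ ∑ i, S.P v i * (C0 * n) := by
            refine Finset.sum_le_sum (fun i _ => ?_)
            rw [abs_mul, abs_of_nonneg (S.P_nonneg v i)]
            exact mul_le_mul_of_nonneg_left (ih _) (S.P_nonneg v i)
        _ = C0 * n := by rw [← Finset.sum_mul, S.P_sum, one_mul]
    calc |(S.psibar - S.ψ v) + ∑ i, S.P v i * S.loss n (S.ch v i)|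
        ≤ |S.psibar - S.ψ v| + |∑ i, S.P v i * S.loss n (S.ch v i)| := abs_add_le _ _
      _ ≤ C0 + C0 * n := add_le_add (h v) h2
      _ = C0 * ((n + 1 : ℕ) : ℝ) := by push_cast; ring

theorem rl_bound {C0 : ℝ} (h : ∀ v, |S.psibar - S.ψ v| ≤ C0) (N n : ℕ) (v z : ℤ) :
    |S.rl N n v z| ≤ C0 * n := by
  rw [S.rl_eq]
  calc |∑ w ∈ words ι N, S.PW v w * S.loss n (S.tW v w + 2 ^ (S.bw w) * z)|
      ≤ ∑ w ∈ words ι N, |S.PW v w * S.loss n (S.tW v w + 2 ^ (S.bw w) * z)| :=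
        Finset.abs_sum_le_sum_abs _ _
    _ ≤ ∑ w ∈ words ι N, S.PW v w * (C0 * n) := by
        refine Finset.sum_le_sum (fun w _ => ?_)
        rw [abs_mul, abs_of_nonneg (S.PW_nonneg v w)]
        exact mul_le_mul_of_nonneg_left (S.loss_bound h n _) (S.PW_nonneg v w)
    _ = C0 * n := by rw [← Finset.sum_mul, S.sum_PW, one_mul]

theorem exists_C0 : ∃ C0 : ℝ, 0 < C0 ∧ ∀ v, |S.psibar - S.ψ v| ≤ C0 := by
  refine ⟨1 + ∑ x : ZMod (3 ^ S.L), |S.psibar - S.ψ (x.val : ℤ)|, ?_, ?_⟩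
  · have : 0 ≤ ∑ x : ZMod (3 ^ S.L), |S.psibar - S.ψ (x.val : ℤ)| :=
      Finset.sum_nonneg (fun x _ => abs_nonneg _)
    linarith
  · intro v
    have h1 := Per_val S.ψ_per v
    have h2 : |S.psibar - S.ψ (((v : ZMod (3 ^ S.L)).val : ℤ))| ≤
        ∑ x : ZMod (3 ^ S.L), |S.psibar - S.ψ (x.val : ℤ)| :=
      Finset.single_le_sum (f := fun x : ZMod (3 ^ S.L) => |S.psibar - S.ψ (x.val : ℤ)|)
        (fun x _ => abs_nonneg _) (Finset.mem_univ (v : ZMod (3 ^ S.L)))
    rw [h1] at h2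
    linarith

end Sys

end Pool.Agent.Lib.MP_e43fce_nt_one
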