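import Pool.Agent.Lib.MP_e43fce_nt_one.Defs
import Pool.Agent.Lib.MP_e43fce_nt_one.L03

/-!
Module L05: the partition function.
-/

set_option autoImplicit false

open Finset

namespace Pool.Agent.Lib.MP_e43fce_nt_one

/-- `exp x ≤ x + exp (x ^ 2)` -/
theorem exp_le_add_exp_sq (x : ℝ) : Real.exp x ≤ x + Real.exp (x ^ 2) := by
  have h1 : x ^ 2 + 1 ≤ Real.exp (x ^ 2) := Real.add_one_le_exp (x ^ 2)
  rcases le_or_gt x 1 with hx | hx
  · rcases le_or_gt (-1) x with hx2 | hx2
    · have h2 := Real.abs_exp_sub_one_sub_id_le (x := x) (abs_le.2 ⟨hx2, hx⟩)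
      have h3 := (abs_le.1 h2).2
      linarith
    · have h2 : Real.exp x ≤ 1 := Real.exp_le_one_iff.2 (by linarith)
      nlinarith
  · have h2 : Real.exp x ≤ Real.exp (x ^ 2) := Real.exp_le_exp.2 (by nlinarith)
    linarith

namespace Sys
variable {ι : Type} [Fintype ι] [DecidableEq ι] (S : Sys ι)

theorem jensen (lam : ℝ) (N n : ℕ) (v : ℤ) :
    Av (S.L * n) (fun z => Real.exp (lam * S.rl N n v z)) ≤ S.Z lam n := by
  have h1 : ∀ z : ℤ, Real.exp (lam * S.rl N n v z) ≤
      ∑ w ∈ words ι N, S.PW v w * Real.exp (lam * S.loss n (S.tW v w + 2 ^ (S.bw w) * z)) := by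
    intro z
    rw [S.rl_eq, Finset.mul_sum]
    have h2 : ∑ w ∈ words ι N, lam * (S.PW v w * S.loss n (S.tW v w + 2 ^ (S.bw w) * z)) =
        ∑ w ∈ words ι N, S.PW v w • (lam * S.loss n (S.tW v w + 2 ^ (S.bw w) * z)) := by
      refine Finset.sum_congr rfl (fun w _ => ?_)
      rw [smul_eq_mul]
      ring
    rw [h2]
    have h3 := convexOn_exp.map_sum_le (t := words ι N) (w := fun w => S.PW v w)
      (p := fun w => lam * S.loss n (S.tW v w + 2 ^ (S.bw w) * z))
      (fun w _ => S.PW_nonneg v w) (S.sum_PW N v) (fun w _ => Set.mem_univ _)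
    simpa only [smul_eq_mul] using h3
  refine (Av_mono h1).trans ?_
  rw [Av_sum]
  have h4 : ∀ w ∈ words ι N, Av (S.L * n) (fun z => S.PW v w *
      Real.exp (lam * S.loss n (S.tW v w + 2 ^ (S.bw w) * z))) = S.PW v w * S.Z lam n := by
    intro w _
    rw [Av_mul_left]
    congr 1
    unfold Z
    have hper : Per (S.L * n) (fun v => Real.exp (lam * S.loss n v)) := by
      intro v z
      simp only []
      rw [S.loss_per n v z]
    exact Av_affine hper (S.tW v w) (S.bw w)
  rw [Finset.sum_congr rfl h4, ← Finset.sum_mul, S.sum_PW, one_mul]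

theorem Z_pos (lam : ℝ) (n : ℕ) : 0 < S.Z lam n := by
  unfold Z Av
  apply div_pos _ (by positivity)
  exact Finset.sum_pos (fun x _ => Real.exp_pos _) Finset.univ_nonempty

theorem Z_add (lam : ℝ) (m n : ℕ) : S.Z lam (m + n) ≤ S.Z lam m * S.Z lam n := by
  have hper : Per (S.L * m + S.L * n) (fun v => Real.exp (lam * S.loss (m + n) v)) := by
    intro v z
    simp only []
    have h := S.loss_per (m + n) v z
    rw [Nat.mul_add] at h
    rw [h]
  have h1 : S.Z lam (m + n) = Av (S.L * m) (fun v => Av (S.L * n) (fun z =>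
      Real.exp (lam * S.loss (m + n) (v + 3 ^ (S.L * m) * z)))) := by
    unfold Z
    rw [Nat.mul_add, Av_split hper]
  have h2 : ∀ v z : ℤ, S.loss (m + n) (v + 3 ^ (S.L * m) * z) = S.loss m v + S.rl m n v z := by
    intro v z
    unfold loss rl
    push_cast
    ring
  rw [h1]
  have h3 : ∀ v : ℤ, Av (S.L * n) (fun z =>
      Real.exp (lam * S.loss (m + n) (v + 3 ^ (S.L * m) * z))) ≤
      S.Z lam n * Real.exp (lam * S.loss m v) := by
    intro v
    have h4 : (fun z => Real.exp (lam * S.loss (m + n) (v + 3 ^ (S.L * m) * z))) =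
        fun z => Real.exp (lam * S.loss m v) * Real.exp (lam * S.rl m n v z) := by
      funext z
      rw [h2, mul_add, Real.exp_add]
    rw [h4, Av_mul_left, mul_comm]
    exact mul_le_mul_of_nonneg_right (S.jensen lam m n v) (Real.exp_pos _).le
  refine (Av_mono h3).trans ?_
  rw [Av_mul_left, mul_comm]
  exact le_of_eq rfl

theorem Z_small {C0 : ℝ} (h : ∀ v, |S.psibar - S.ψ v| ≤ C0) (lam : ℝ) (n : ℕ) :
    S.Z lam n ≤ Real.exp (C0 ^ 2 * lam ^ 2 * n) := by
  have hone : S.Z lam 1 ≤ Real.exp (C0 ^ 2 * lam ^ 2) := by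
    have h1 : ∀ v, S.loss 1 v = S.psibar - S.ψ v := by
      intro v
      simp [loss, Psi]
    have h2 : ∀ v, Real.exp (lam * S.loss 1 v) ≤
        (lam * S.psibar + Real.exp (C0 ^ 2 * lam ^ 2)) + (-lam) * S.ψ v := by
      intro v
      rw [h1]
      have h3 := exp_le_add_exp_sq (lam * (S.psibar - S.ψ v))
      have h4 : (lam * (S.psibar - S.ψ v)) ^ 2 ≤ C0 ^ 2 * lam ^ 2 := by
        rw [mul_pow, mul_comm]
        apply mul_le_mul_of_nonneg_right _ (sq_nonneg _)
        rw [← sq_abs]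
        exact pow_le_pow_left₀ (abs_nonneg _) (h v) 2
      have h5 := Real.exp_le_exp.2 h4
      linarith
    have h6 : S.Z lam 1 = Av S.L (fun v => Real.exp (lam * S.loss 1 v)) := by
      unfold Z
      rw [Nat.mul_one]
    rw [h6]
    refine (Av_mono h2).trans ?_
    rw [Av_add, Av_const, Av_mul_left]
    have h7 : Av S.L S.ψ = S.psibar := rfl
    rw [h7]
    linarith
  induction n with
  | zero =>
    have h0 : S.Z lam 0 = 1 := by
      unfold Z
      have : (fun v => Real.exp (lam * S.loss 0 v)) = fun _ => (1 : ℝ) := by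
        funext v
        simp [loss, Psi]
      rw [this, Av_const]
    rw [h0]
    simp
  | succ n ih =>
    refine (S.Z_add lam n 1).trans ?_
    calc S.Z lam n * S.Z lam 1 ≤ Real.exp (C0 ^ 2 * lam ^ 2 * n) * Real.exp (C0 ^ 2 * lam ^ 2) :=
          mul_le_mul ih hone (S.Z_pos lam 1).le (Real.exp_pos _).le
      _ = Real.exp (C0 ^ 2 * lam ^ 2 * ((n + 1 : ℕ) : ℝ)) := by
          rw [← Real.exp_add]
          congr 1
          push_cast
          ring

end Sys

end Pool.Agent.Lib.MP_e43fce_nt_one
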