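import Pool.Agent.Lib.MP_e43fce_nt_one.Defs
import Pool.Agent.Lib.MP_e43fce_nt_one.L05

/-!
Module L06.
Subadditive.lim for u n = log Z n (Mathlib: Subadditive.tendsto_lim needs BddBelow of u n / n: u n
>= -|lam| C0 n by loss_bound + exists_C0). Lambda = lim; Subadditive.lim_le_div for n>=1; n = 0: Z
0 = 1.
-/

set_option autoImplicit false

open Finset

namespace Pool.Agent.Lib.MP_e43fce_nt_one

namespace Sys
variable {ι : Type} [Fintype ι] [DecidableEq ι] (S : Sys ι)

theorem fekete (lam : ℝ) : ∃ Λ : ℝ, (∀ n : ℕ, Real.exp (Λ * n) ≤ S.Z lam n) ∧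
    ∀ δ : ℝ, 0 < δ → ∃ n0 : ℕ, ∀ n : ℕ, n0 ≤ n → S.Z lam n ≤ Real.exp ((Λ + δ) * n) := by
  obtain ⟨C0, hC0, hC⟩ := S.exists_C0
  have hsub : Subadditive (fun n => Real.log (S.Z lam n)) := by
    intro m n
    show Real.log (S.Z lam (m + n)) ≤ Real.log (S.Z lam m) + Real.log (S.Z lam n)
    rw [← Real.log_mul (S.Z_pos lam m).ne' (S.Z_pos lam n).ne']
    exact Real.log_le_log (S.Z_pos lam _) (S.Z_add lam m n)
  have hlow : ∀ n : ℕ, -(|lam| * C0) * n ≤ Real.log (S.Z lam n) := by
    intro n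
    rw [Real.le_log_iff_exp_le (S.Z_pos lam n)]
    have h1 : Real.exp (-(|lam| * C0) * n) =
        Av (S.L * n) (fun _ => Real.exp (-(|lam| * C0) * n)) := (Av_const _ _).symm
    rw [h1]
    refine Av_mono fun v => Real.exp_le_exp.2 ?_
    have h2 : |lam * S.loss n v| ≤ |lam| * (C0 * n) := by
      rw [abs_mul]
      exact mul_le_mul_of_nonneg_left (S.loss_bound hC n v) (abs_nonneg _)
    have h3 := neg_le_of_abs_le h2
    linarith
  have hbdd : BddBelow (Set.range fun n : ℕ => Real.log (S.Z lam n) / n) := by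
    refine ⟨-(|lam| * C0), ?_⟩
    rintro x ⟨n, rfl⟩
    rcases Nat.eq_zero_or_pos n with h0 | h0
    · subst h0
      simp only [Nat.cast_zero, div_zero]
      have : 0 ≤ |lam| * C0 := by positivity
      linarith
    · show -(|lam| * C0) ≤ Real.log (S.Z lam n) / n
      rw [le_div_iff₀ (by exact_mod_cast h0)]
      exact hlow n
  refine ⟨hsub.lim, ?_, ?_⟩
  · intro n
    rcases Nat.eq_zero_or_pos n with h0 | h0
    · subst h0
      have h1 : S.Z lam 0 = 1 := by
        unfold Z
        have h2 : (fun v => Real.exp (lam * S.loss 0 v)) = fun _ => (1 : ℝ) := by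
          funext v
          simp [loss, Psi]
        rw [h2, Av_const]
      rw [h1]
      simp
    · rw [← Real.le_log_iff_exp_le (S.Z_pos lam n)]
      have h1 := hsub.lim_le_div hbdd h0.ne'
      rwa [le_div_iff₀ (by exact_mod_cast h0)] at h1
  · intro δ hδ
    have h1 := hsub.tendsto_lim hbdd
    have h2 := h1.eventually_lt_const (show hsub.lim < hsub.lim + δ by linarith)
    obtain ⟨n0, hn0⟩ := Filter.eventually_atTop.1 h2
    refine ⟨max n0 1, fun n hn => ?_⟩
    have h3 := hn0 n ((le_max_left _ _).trans hn)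
    have h4 : 1 ≤ n := (le_max_right _ _).trans hn
    rw [← Real.log_le_iff_le_exp (S.Z_pos lam n)]
    have h5 : (0 : ℝ) < n := by exact_mod_cast h4
    rw [div_lt_iff₀ h5] at h3
    exact h3.le

end Sys

end Pool.Agent.Lib.MP_e43fce_nt_one
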