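import Pool.Agent.Lib.MP_e43fce_nt_one.Defs
import Pool.Agent.Lib.MP_e43fce_nt_one.L05

/-!
Module L07.
lam = (L log 3 + 1)/psibar. For n: v with Psi n v <= 0: loss n v >= psibar n; the average over
3^(Ln) residues (Per_val, loss_per) is at least 3^(-Ln) exp(lam psibar n) = exp n.
-/

set_option autoImplicit false

open Finset

namespace Pool.Agent.Lib.MP_e43fce_nt_one

namespace Sys
variable {ι : Type} [Fintype ι] [DecidableEq ι] (S : Sys ι)

theorem pressure (hψ : 0 < S.psibar) (hbad : ∀ n, ∃ v, S.Psi n v ≤ 0) :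
    ∃ lam : ℝ, 0 < lam ∧ ∀ n : ℕ, Real.exp n ≤ S.Z lam n := by
  have hlog3 : 0 < Real.log 3 := Real.log_pos (by norm_num)
  have hnum : 0 < (S.L : ℝ) * Real.log 3 + 1 := by positivity
  refine ⟨((S.L : ℝ) * Real.log 3 + 1) / S.psibar, div_pos hnum hψ, fun n => ?_⟩
  set lam : ℝ := ((S.L : ℝ) * Real.log 3 + 1) / S.psibar with hlam
  have hlam0 : 0 < lam := div_pos hnum hψ
  obtain ⟨v, hv⟩ := hbad n
  have hloss : S.psibar * n ≤ S.loss n v := by
    unfold loss
    linarith
  have hper := S.loss_per n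
  have h1 : Real.exp (lam * S.loss n v) ≤
      ∑ x : ZMod (3 ^ (S.L * n)), Real.exp (lam * S.loss n (x.val : ℤ)) := by
    have h2 := Finset.single_le_sum (f := fun x : ZMod (3 ^ (S.L * n)) =>
      Real.exp (lam * S.loss n (x.val : ℤ))) (fun x _ => (Real.exp_pos _).le)
      (Finset.mem_univ ((v : ZMod (3 ^ (S.L * n)))))
    have h3 := Per_val hper v
    simp only [h3] at h2
    exact h2
  have h3pos : (0 : ℝ) < 3 ^ (S.L * n) := by positivity
  unfold Z Av
  rw [le_div_iff₀ h3pos]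
  refine le_trans ?_ h1
  have h4 : (3 : ℝ) ^ (S.L * n) = Real.exp ((S.L * n : ℕ) * Real.log 3) := by
    rw [Real.exp_nat_mul, Real.exp_log (by norm_num)]
  rw [h4, ← Real.exp_add]
  refine Real.exp_le_exp.2 ?_
  have h5 : lam * (S.psibar * n) ≤ lam * S.loss n v := mul_le_mul_of_nonneg_left hloss hlam0.le
  refine le_trans ?_ h5
  have h6 : lam * (S.psibar * n) = ((S.L : ℝ) * Real.log 3 + 1) * n := by
    rw [hlam, ← mul_assoc, div_mul_cancel₀ _ hψ.ne']
  rw [h6]
  push_cast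
  linarith

end Sys

end Pool.Agent.Lib.MP_e43fce_nt_one
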