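import Pool.Agent.Lib.MP_e43fce_nt_one.Defs
import Pool.Agent.Lib.MP_e43fce_nt_one.L05

/-!
Module L08.
By contradiction: if Av(...) < exp((Lambda-delta)d) for all i>=1, v then Z((m+1)d) <= Z(md)
exp((Lambda-delta)d) for m>=1 (proof of Z_add with the better bound), so Z(md) <= Z(d)
exp((Lambda-delta)d(m-1)), contradiction with exp(Lambda m d) <= Z(md) for m large.
-/

set_option autoImplicit false

open Finset

namespace Pool.Agent.Lib.MP_e43fce_nt_one

namespace Sys
variable {ι : Type} [Fintype ι] [DecidableEq ι] (S : Sys ι)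

theorem Z_split (lam : ℝ) (m n : ℕ) : S.Z lam (m + n) =
    Av (S.L * m) (fun v => Real.exp (lam * S.loss m v) *
      Av (S.L * n) (fun z => Real.exp (lam * S.rl m n v z))) := by
  have hper : Per (S.L * m + S.L * n) (fun v => Real.exp (lam * S.loss (m + n) v)) := by
    intro v z
    have h := S.loss_per (m + n) v z
    rw [Nat.mul_add] at h
    show Real.exp (lam * S.loss (m + n) (v + 3 ^ (S.L * m + S.L * n) * z)) = _
    rw [h]
  unfold Z
  rw [Nat.mul_add, Av_split hper]
  congr 1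
  funext v
  rw [← Av_mul_left]
  congr 1
  funext z
  rw [← Real.exp_add]
  congr 1
  unfold loss rl
  push_cast
  ring

theorem exists_prefix {lam Λ : ℝ} (h : ∀ n : ℕ, Real.exp (Λ * n) ≤ S.Z lam n) {δ : ℝ}
    (hδ : 0 < δ) {d : ℕ} (hd : 1 ≤ d) : ∃ i : ℕ, 1 ≤ i ∧ ∃ v : ℤ, Real.exp ((Λ - δ) * d) ≤
      Av (S.L * d) (fun z => Real.exp (lam * S.rl (i * d) d v z)) := by
  by_contra hcon
  push Not at hcon
  set E : ℝ := Real.exp ((Λ - δ) * d) with hE
  have hstep : ∀ i : ℕ, 1 ≤ i → S.Z lam ((i + 1) * d) ≤ S.Z lam (i * d) * E := by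
    intro i hi
    rw [Nat.add_mul, Nat.one_mul, Z_split]
    have h1 : S.Z lam (i * d) * E =
        Av (S.L * (i * d)) (fun v => Real.exp (lam * S.loss (i * d) v) * E) := by
      unfold Z
      rw [mul_comm, ← Av_mul_left]
      congr 1
      funext v
      rw [mul_comm]
    rw [h1]
    exact Av_mono fun v => mul_le_mul_of_nonneg_left (hcon i hi v).le (Real.exp_pos _).le
  have hind : ∀ m : ℕ, S.Z lam ((m + 1) * d) ≤ S.Z lam d * E ^ m := by
    intro m
    induction m with
    | zero => simp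
    | succ m ih =>
      refine (hstep (m + 1) (by omega)).trans ?_
      rw [pow_succ, ← mul_assoc]
      exact mul_le_mul_of_nonneg_right ih (Real.exp_pos _).le
  have hd' : (0 : ℝ) < d := by exact_mod_cast hd
  obtain ⟨m, hm⟩ := exists_nat_gt ((Real.log (S.Z lam d) - Λ * d) / (δ * d))
  rw [div_lt_iff₀ (by positivity)] at hm
  have h1 := (h ((m + 1) * d)).trans (hind m)
  have h2 : S.Z lam d * E ^ m = Real.exp (Real.log (S.Z lam d) + m * ((Λ - δ) * d)) := by
    rw [Real.exp_add, Real.exp_log (S.Z_pos lam d), Real.exp_nat_mul]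
  rw [h2, Real.exp_le_exp] at h1
  push_cast at h1
  nlinarith

end Sys

end Pool.Agent.Lib.MP_e43fce_nt_one
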