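import Pool.Agent.Lib.MP_e43fce_nt_one.Defs
import Pool.Agent.Lib.MP_e43fce_nt_one.L05

/-!
Module L09.
Bijection x -> t+2^b x (as in Av_affine): the average of exp(lam loss(t+2^b x)) equals Z; Markov.
-/

set_option autoImplicit false

open Finset

namespace Pool.Agent.Lib.MP_e43fce_nt_one

namespace Sys
variable {ι : Type} [Fintype ι] [DecidableEq ι] (S : Sys ι)

open Classical in
/-- Markov for the loss -/
theorem card_loss_le {lam : ℝ} (hlam : 0 < lam) (n : ℕ) (t : ℤ) (b : ℕ) (s : ℝ) :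
    ((univ.filter (fun x : ZMod (3 ^ (S.L * n)) =>
      s ≤ S.loss n (t + 2 ^ b * (x.val : ℤ)))).card : ℝ) ≤
      3 ^ (S.L * n) * (Real.exp (-(lam * s)) * S.Z lam n) := by
  have hper : Per (S.L * n) (fun v => Real.exp (lam * S.loss n v)) := by
    intro v z
    show Real.exp (lam * S.loss n (v + 3 ^ (S.L * n) * z)) = _
    rw [S.loss_per n v z]
  have h3pos : (0 : ℝ) < 3 ^ (S.L * n) := by positivity
  have h1 := Av_affine hper t b
  have h2 : ∑ x : ZMod (3 ^ (S.L * n)), Real.exp (lam * S.loss n (t + 2 ^ b * (x.val : ℤ))) =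
      3 ^ (S.L * n) * S.Z lam n := by
    have h3 : S.Z lam n = Av (S.L * n) (fun z => Real.exp (lam * S.loss n (t + 2 ^ b * z))) :=
      h1.symm
    rw [h3]
    unfold Av
    rw [mul_div_cancel₀ _ h3pos.ne']
  have h4 : 3 ^ (S.L * n) * (Real.exp (-(lam * s)) * S.Z lam n) =
      ∑ x : ZMod (3 ^ (S.L * n)), Real.exp (lam * (S.loss n (t + 2 ^ b * (x.val : ℤ)) - s)) := by
    have h5 : ∀ x : ZMod (3 ^ (S.L * n)),
        Real.exp (lam * (S.loss n (t + 2 ^ b * (x.val : ℤ)) - s)) =
        Real.exp (-(lam * s)) * Real.exp (lam * S.loss n (t + 2 ^ b * (x.val : ℤ))) := by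
      intro x
      rw [← Real.exp_add]
      congr 1
      ring
    rw [Finset.sum_congr rfl fun x _ => h5 x, ← Finset.mul_sum, h2]
    ring
  rw [h4, Finset.card_filter]
  push_cast
  refine Finset.sum_le_sum fun x _ => ?_
  split_ifs with hx
  · refine Real.one_le_exp ?_
    exact mul_nonneg hlam.le (by linarith)
  · exact (Real.exp_pos _).le

end Sys

end Pool.Agent.Lib.MP_e43fce_nt_one
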