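import Pool.Agent.Lib.MP_e43fce_nt_one.Defs

/-!
Module L10.
Bins kappa = delta*i, i integer in [floor(-C/delta), floor(C/delta)], at most 2C/delta+2 of them;
exp(lam l x) <= exp(lam(kappa+delta)d) on a bin; pigeonhole (Finset.exists_le_of_sum_le / sum over
the image).
-/

set_option autoImplicit false

open Finset

namespace Pool.Agent.Lib.MP_e43fce_nt_one

open Classical in
theorem binning {X : Type} [Fintype X] [Nonempty X] (l : X → ℝ) {C lam δ d E : ℝ} (hC : 0 < C)
    (hlam : 0 < lam) (hδ : 0 < δ) (hd : 0 < d) (hl : ∀ x, |l x| ≤ C * d)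
    (havg : E ≤ (∑ x, Real.exp (lam * l x)) / Fintype.card X) : ∃ κ : ℝ,
      E ≤ (2 * C / δ + 2) * (((univ.filter (fun x => κ * d ≤ l x ∧ l x < (κ + δ) * d)).card : ℝ) /
        Fintype.card X * Real.exp (lam * (κ + δ) * d)) := by
  have hn : (0 : ℝ) < Fintype.card X := by exact_mod_cast Fintype.card_pos
  -- the bin index
  let i : X → ℤ := fun x => ⌊l x / (δ * d)⌋
  let I : Finset ℤ := Icc ⌊-(C / δ)⌋ ⌊C / δ⌋
  have hδd : 0 < δ * d := by positivity
  have hi : ∀ x, i x ∈ I := by
    intro x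
    have h1 := abs_le.1 (hl x)
    rw [Finset.mem_Icc]
    constructor
    · apply Int.floor_le_floor
      rw [le_div_iff₀ hδd]
      have : -(C / δ) * (δ * d) = - (C * d) := by field_simp
      rw [this]; exact h1.1
    · apply Int.floor_le_floor
      rw [div_le_iff₀ hδd]
      have : C / δ * (δ * d) = C * d := by field_simp
      rw [this]; exact h1.2
  have hIcard : (I.card : ℝ) ≤ 2 * C / δ + 2 := by
    have h0 : (0:ℝ) ≤ C / δ := by positivity
    have h1 : ⌊-(C / δ)⌋ ≤ ⌊C / δ⌋ := Int.floor_le_floor (by linarith)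
    rw [Int.card_Icc]
    have h2 : (((⌊C / δ⌋ + 1 - ⌊-(C / δ)⌋).toNat : ℤ) : ℝ) = ((⌊C / δ⌋ + 1 - ⌊-(C / δ)⌋ : ℤ) : ℝ) := by
      rw [Int.toNat_of_nonneg (by omega)]
    have h3 : (((⌊C / δ⌋ + 1 - ⌊-(C / δ)⌋).toNat : ℕ) : ℝ) = ((⌊C / δ⌋ + 1 - ⌊-(C / δ)⌋ : ℤ) : ℝ) := by
      rw [← h2]; norm_cast
    rw [h3]
    push_cast
    have h4 := Int.floor_le (C / δ)
    have h5 := Int.lt_floor_add_one (-(C / δ))
    have h6 : 2 * C / δ = 2 * (C / δ) := by ring
    rw [h6]
    linarith
  let g : ℤ → ℝ := fun k => ((univ.filter (fun x => (δ * k) * d ≤ l x ∧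
    l x < (δ * k + δ) * d)).card : ℝ) / Fintype.card X * Real.exp (lam * (δ * k + δ) * d)
  have hsum : E ≤ ∑ k ∈ I, g k := by
    refine havg.trans ?_
    rw [div_le_iff₀ hn, ← sum_fiberwise_of_maps_to (fun x _ => hi x), sum_mul]
    apply sum_le_sum
    intro k _
    have h1 : ∀ x ∈ univ.filter (fun x => i x = k), Real.exp (lam * l x) ≤
        Real.exp (lam * (δ * k + δ) * d) := by
      intro x hx
      rw [mem_filter] at hx
      apply Real.exp_le_exp.2
      have h2 := Int.lt_floor_add_one (l x / (δ * d))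
      rw [div_lt_iff₀ hδd] at h2
      have h3 : (⌊l x / (δ * d)⌋ : ℝ) = k := by exact_mod_cast hx.2
      rw [h3] at h2
      have h4 : (((k : ℝ) + 1) * (δ * d)) = (δ * k + δ) * d := by ring
      rw [h4] at h2
      rw [mul_assoc]
      exact mul_le_mul_of_nonneg_left h2.le hlam.le
    have h2 := sum_le_card_nsmul _ _ _ h1
    rw [nsmul_eq_mul] at h2
    refine h2.trans ?_
    have h3 : (univ.filter (fun x => i x = k)).card ≤
        (univ.filter (fun x => (δ * k) * d ≤ l x ∧ l x < (δ * k + δ) * d)).card := by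
      apply card_le_card
      intro x hx
      rw [mem_filter] at hx ⊢
      refine ⟨mem_univ _, ?_, ?_⟩
      · have h2 := Int.floor_le (l x / (δ * d))
        rw [le_div_iff₀ hδd] at h2
        have h3 : (⌊l x / (δ * d)⌋ : ℝ) = k := by exact_mod_cast hx.2
        rw [h3] at h2
        linarith
      · have h2 := Int.lt_floor_add_one (l x / (δ * d))
        rw [div_lt_iff₀ hδd] at h2
        have h3 : (⌊l x / (δ * d)⌋ : ℝ) = k := by exact_mod_cast hx.2
        rw [h3] at h2
        linarith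
    have h4 : g k * Fintype.card X = ((univ.filter (fun x => (δ * k) * d ≤ l x ∧
      l x < (δ * k + δ) * d)).card : ℝ) * Real.exp (lam * (δ * k + δ) * d) := by
      simp only [g]
      field_simp
    rw [h4]
    apply mul_le_mul_of_nonneg_right _ (Real.exp_pos _).le
    exact_mod_cast h3
  -- pigeonhole
  have hg0 : ∀ k, 0 ≤ g k := by
    intro k
    simp only [g]
    positivity
  have hIne : I.Nonempty := ⟨i (Classical.arbitrary X), hi _⟩
  obtain ⟨k, hk, hmax⟩ := exists_max_image I g hIne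
  refine ⟨δ * k, ?_⟩
  have h1 : ∑ k ∈ I, g k ≤ I.card * g k := by
    have := sum_le_card_nsmul I g (g k) hmax
    rwa [nsmul_eq_mul] at this
  have h2 : (I.card : ℝ) * g k ≤ (2 * C / δ + 2) * g k := mul_le_mul_of_nonneg_right hIcard (hg0 k)
  exact hsum.trans (h1.trans h2)

end Pool.Agent.Lib.MP_e43fce_nt_one
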