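import Pool.Agent.Lib.MP_e43fce_nt_one.Defs

/-!
Module L11.
Under the product measure (w,x): E[f] >= kappa d. ((kappa+eta)d - f)^+ = (kappa+eta)d - f +
(f-(kappa+eta)d)^+ and (f-(kappa+eta)d)^+ <= C d 1[f >= (kappa+eta) d], probability <= e. So
E[(..)^+] <= eta d + C d e <= 2 eta d; Markov at level (eta + sqrt eta) d; 2 eta/(eta+sqrt eta) <=
2 sqrt eta.
-/

set_option autoImplicit false

open Finset

namespace Pool.Agent.Lib.MP_e43fce_nt_one

open Classical in
theorem most_pairs {X W : Type} (S0 : Finset X) (Ws : Finset W) (P : W → ℝ) (f : W → X → ℝ)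
    {C d κ η e : ℝ} (hP : ∀ w, 0 ≤ P w) (hP1 : ∑ w ∈ Ws, P w = 1) (hd : 0 < d) (hC : 0 < C)
    (hκ : 0 ≤ κ) (hη : 0 < η) (hf : ∀ w x, |f w x| ≤ C * d) (hS0 : S0.Nonempty)
    (hmean : ∀ x ∈ S0, κ * d ≤ ∑ w ∈ Ws, P w * f w x)
    (hfew : ∀ w ∈ Ws, ((S0.filter (fun x => (κ + η) * d ≤ f w x)).card : ℝ) ≤ e * S0.card)
    (he : C * e ≤ η) :
    ∑ w ∈ Ws, P w * (((S0.filter (fun x => f w x < (κ - Real.sqrt η) * d)).card : ℝ) / S0.card) ≤
      2 * Real.sqrt η := by
  have hs : (0 : ℝ) < S0.card := by exact_mod_cast hS0.card_pos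
  set r := Real.sqrt η with hr
  have hr0 : 0 < r := Real.sqrt_pos.2 hη
  have hr2 : r * r = η := Real.mul_self_sqrt hη.le
  -- pointwise: (η + r) d 1[f < (κ - r) d] ≤ (κ + η) d - f + C d 1[f ≥ (κ + η) d]
  have key : ∀ w x, (η + r) * d * (if f w x < (κ - r) * d then (1 : ℝ) else 0) ≤
      (κ + η) * d - f w x + C * d * (if (κ + η) * d ≤ f w x then (1 : ℝ) else 0) := by
    intro w x
    have h1 := (abs_le.1 (hf w x)).2
    split_ifs with h2 h3 h3
    · nlinarith
    · nlinarith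
    · nlinarith [mul_nonneg (add_nonneg hκ hη.le) hd.le]
    · push Not at h3
      linarith
  have hsum : ∀ w ∈ Ws, (η + r) * d * ((S0.filter (fun x => f w x < (κ - r) * d)).card : ℝ) ≤
      ((κ + η) * d + C * d * e) * S0.card - ∑ x ∈ S0, f w x := by
    intro w hw
    have h1 := sum_le_sum fun x (_ : x ∈ S0) => key w x
    simp only [sum_add_distrib, sum_sub_distrib, ← mul_sum, sum_const, nsmul_eq_mul,
      sum_boole] at h1
    have h2 := mul_le_mul_of_nonneg_left (hfew w hw) (mul_pos hC hd).le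
    nlinarith
  have hsum2 : ∑ w ∈ Ws, P w * ((η + r) * d *
      ((S0.filter (fun x => f w x < (κ - r) * d)).card : ℝ)) ≤
      ((κ + η) * d + C * d * e) * S0.card - ∑ x ∈ S0, ∑ w ∈ Ws, P w * f w x := by
    have h1 := sum_le_sum fun w hw => mul_le_mul_of_nonneg_left (hsum w hw) (hP w)
    refine h1.trans (le_of_eq ?_)
    simp only [mul_sub, sum_sub_distrib]
    rw [← sum_mul, hP1, one_mul, sum_comm]
    congr 1
    exact sum_congr rfl fun x _ => mul_sum _ _ _
  have h3 : (S0.card : ℝ) * (κ * d) ≤ ∑ x ∈ S0, ∑ w ∈ Ws, P w * f w x := by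
    have := card_nsmul_le_sum S0 _ _ hmean
    rwa [nsmul_eq_mul] at this
  have h4 : (η + r) * d * ∑ w ∈ Ws, P w * (((S0.filter (fun x => f w x < (κ - r) * d)).card : ℝ)
      / S0.card) ≤ 2 * η * d := by
    have e1 : (η + r) * d * ∑ w ∈ Ws, P w * (((S0.filter
        (fun x => f w x < (κ - r) * d)).card : ℝ) / S0.card) =
        (∑ w ∈ Ws, P w * ((η + r) * d *
      ((S0.filter (fun x => f w x < (κ - r) * d)).card : ℝ))) / S0.card := by
      rw [mul_sum, sum_div]
      exact sum_congr rfl fun w _ => by ring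
    rw [e1, div_le_iff₀ hs]
    have h5 : C * d * e ≤ η * d := by nlinarith
    have h6 := mul_le_mul_of_nonneg_right h5 hs.le
    nlinarith
  have h7 : (η + r) * d * (2 * r) ≥ 2 * η * d := by
    rw [← hr2]
    nlinarith [mul_pos hr0 hd, mul_pos (mul_pos hr0 hr0) hd, mul_pos (mul_pos (mul_pos hr0 hr0) hr0) hd]
  have h8 : 0 < (η + r) * d := by positivity
  exact le_of_mul_le_mul_left (h4.trans h7) h8

end Pool.Agent.Lib.MP_e43fce_nt_one
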