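import Pool.Agent.Lib.MP_e43fce_nt_one.Defs
import Pool.Agent.Lib.MP_e43fce_nt_one.L02

/-!
Module L12.
Split words N = (N-m)+m (sum_words_add, PW_append). Averaging over u (weights PW v u, sum 1): some
u with PW v u > 0 and sum_w PW (tW v u) w fail(u++w) <= phi. Then split w by bw w in [0, B m]
(bw_le): mass mu_b, sum 1; if every b with mu_b >= 1/(2(Bm+1)) had fail_b > 2 phi mu_b, then phi
>= sum > 2 phi * (mass of big b >= 1/2), contradiction (phi >= 0).
-/

set_option autoImplicit false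

open Finset

namespace Pool.Agent.Lib.MP_e43fce_nt_one

namespace Sys
variable {ι : Type} [Fintype ι] [DecidableEq ι] (S : Sys ι)

/-- choice of the ancestor and of the exponent -/
theorem ancestor {N m : ℕ} (hmN : m ≤ N) (v : ℤ) (fail : List ι → ℝ) (hf0 : ∀ w, 0 ≤ fail w)
    {φ : ℝ} (hφ : ∑ w ∈ words ι N, S.PW v w * fail w ≤ φ) :
    ∃ u ∈ words ι (N - m), ∃ bs : ℕ,
      1 / (2 * (S.B * m + 1) : ℝ) ≤
        ∑ w ∈ (words ι m).filter (fun w => S.bw w = bs), S.PW (S.tW v u) w ∧
      ∑ w ∈ (words ι m).filter (fun w => S.bw w = bs), S.PW (S.tW v u) w * fail (u ++ w) ≤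
        2 * φ * ∑ w ∈ (words ι m).filter (fun w => S.bw w = bs), S.PW (S.tW v u) w := by
  classical
  have hφ0 : 0 ≤ φ :=
    le_trans (Finset.sum_nonneg fun w _ => mul_nonneg (S.PW_nonneg v w) (hf0 w)) hφ
  set g : List ι → ℝ := fun u => ∑ w ∈ words ι m, S.PW (S.tW v u) w * fail (u ++ w) with hg
  have h1 : ∑ u ∈ words ι (N - m), S.PW v u * g u ≤ φ := by
    refine le_trans (le_of_eq ?_) hφ
    have hN : (N - m) + m = N := by omega
    have h2 : ∑ w ∈ words ι N, S.PW v w * fail w =
        ∑ u ∈ words ι (N - m), ∑ w ∈ words ι m, S.PW v (u ++ w) * fail (u ++ w) := by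
      rw [← sum_words_add (N - m) m (fun w => S.PW v w * fail w), hN]
    rw [h2]
    refine Finset.sum_congr rfl fun u _ => ?_
    rw [hg, Finset.mul_sum]
    refine Finset.sum_congr rfl fun w _ => ?_
    rw [S.PW_append, mul_assoc]
  obtain ⟨u, hu, hgu⟩ : ∃ u ∈ words ι (N - m), g u ≤ φ := by
    by_contra hcon
    push Not at hcon
    have hs : ∑ u ∈ words ι (N - m), S.PW v u * (g u - φ) ≤ 0 := by
      have : ∑ u ∈ words ι (N - m), S.PW v u * (g u - φ) =
          (∑ u ∈ words ι (N - m), S.PW v u * g u) - φ := by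
        simp only [mul_sub, Finset.sum_sub_distrib, ← Finset.sum_mul, S.sum_PW, one_mul]
      linarith
    have hnn : ∀ u ∈ words ι (N - m), 0 ≤ S.PW v u * (g u - φ) := fun u hu =>
      mul_nonneg (S.PW_nonneg v u) (by have := hcon u hu; linarith)
    have hz := (Finset.sum_eq_zero_iff_of_nonneg hnn).1
      (le_antisymm hs (Finset.sum_nonneg hnn))
    have h0 : ∑ u ∈ words ι (N - m), S.PW v u = 0 := Finset.sum_eq_zero fun u hu => by
      rcases mul_eq_zero.1 (hz u hu) with h | h
      · exact h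
      · have := hcon u hu
        linarith
    rw [S.sum_PW] at h0
    norm_num at h0
  refine ⟨u, hu, ?_⟩
  have hfib : ∀ F : List ι → ℝ, ∑ b ∈ Finset.range (S.B * m + 1),
      ∑ w ∈ (words ι m).filter (fun w => S.bw w = b), F w = ∑ w ∈ words ι m, F w := by
    intro F
    refine Finset.sum_fiberwise_of_maps_to (fun w hw => ?_) F
    rw [Finset.mem_range]
    have := S.bw_le w
    rw [mem_words.1 hw] at this
    omega
  by_contra hcon
  push Not at hcon
  set T : ℝ := 1 / (2 * (S.B * m + 1) : ℝ) with hT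
  have hBm : (0 : ℝ) < S.B * m + 1 := by positivity
  have hTpos : 0 < T := by rw [hT]; positivity
  set μ : ℕ → ℝ := fun b => ∑ w ∈ (words ι m).filter (fun w => S.bw w = b),
    S.PW (S.tW v u) w with hμ
  set fb : ℕ → ℝ := fun b => ∑ w ∈ (words ι m).filter (fun w => S.bw w = b),
    S.PW (S.tW v u) w * fail (u ++ w) with hfb
  have hμs : ∑ b ∈ Finset.range (S.B * m + 1), μ b = 1 := by
    rw [hμ, hfib, S.sum_PW]
  have hfs : ∑ b ∈ Finset.range (S.B * m + 1), fb b = g u := by
    rw [hfb, hfib]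
  have hfnn : ∀ b, 0 ≤ fb b := fun b => Finset.sum_nonneg fun w _ =>
    mul_nonneg (S.PW_nonneg _ _) (hf0 _)
  have hle : ∀ b ∈ Finset.range (S.B * m + 1), 2 * φ * (μ b - T) ≤ fb b := by
    intro b _
    rcases lt_or_ge (μ b) T with h | h
    · have h3 : 2 * φ * (μ b - T) ≤ 0 :=
        mul_nonpos_of_nonneg_of_nonpos (by positivity) (by linarith)
      linarith [hfnn b]
    · have h3 := hcon b h
      have h4 : 2 * φ * (μ b - T) ≤ 2 * φ * μ b :=
        mul_le_mul_of_nonneg_left (by linarith) (by positivity)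
      have h5 : 2 * φ * μ b < fb b := h3
      linarith
  obtain ⟨b0, hb0, hb0T⟩ : ∃ b ∈ Finset.range (S.B * m + 1), T ≤ μ b := by
    by_contra hc
    push Not at hc
    have h3 : ∑ b ∈ Finset.range (S.B * m + 1), μ b ≤
        ∑ b ∈ Finset.range (S.B * m + 1), T :=
      Finset.sum_le_sum fun b hb => (hc b hb).le
    rw [hμs, Finset.sum_const, Finset.card_range, nsmul_eq_mul, hT] at h3
    push_cast at h3
    have h4 : ((S.B : ℝ) * m + 1) * (1 / (2 * (S.B * m + 1))) = 1 / 2 := by
      field_simp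
    rw [h4] at h3
    norm_num at h3
  have hlt : ∑ b ∈ Finset.range (S.B * m + 1), 2 * φ * (μ b - T) <
      ∑ b ∈ Finset.range (S.B * m + 1), fb b := by
    refine Finset.sum_lt_sum hle ⟨b0, hb0, ?_⟩
    have h3 : 2 * φ * μ b0 < fb b0 := hcon b0 hb0T
    have h4 : 2 * φ * (μ b0 - T) ≤ 2 * φ * μ b0 :=
      mul_le_mul_of_nonneg_left (by linarith) (by positivity)
    linarith
  have hsum : ∑ b ∈ Finset.range (S.B * m + 1), 2 * φ * (μ b - T) = φ := by
    rw [← Finset.mul_sum, Finset.sum_sub_distrib, hμs, Finset.sum_const, Finset.card_range,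
      nsmul_eq_mul, hT]
    push_cast
    field_simp
    ring
  rw [hsum, hfs] at hlt
  linarith

end Sys

end Pool.Agent.Lib.MP_e43fce_nt_one
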