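import Pool.Agent.Lib.MP_e43fce_nt_one.Defs
import Pool.Agent.Lib.MP_e43fce_nt_one.L02

/-!
Module L13.
tW_eq: 3^(Lm)(t_u - t_w) = beta_u - beta_w. If t_u = t_w mod 3^(Ld): either beta equal -> u = w by
S.sep, or |beta_u - beta_w| >= 3^(L(m+d)). But |beta_w| <= bmax * m * max(3^L, 2^B)^m (induction;
bmax = max |beta_i|, or any bound), 2^(Bm) <= 2^d, m <= d: 2 bmax m max(3^(Lm), 2^d) < 3^(L(m+d))
for d large.
-/

set_option autoImplicit false

open Finset

namespace Pool.Agent.Lib.MP_e43fce_nt_one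

namespace Sys
variable {ι : Type} [Fintype ι] [DecidableEq ι] (S : Sys ι)

theorem abs_βW_le {K : ℕ} (hK : ∀ i, |S.β i| ≤ (K : ℤ)) (w : List ι) :
    |βW S.L S.b S.β w| ≤ K * w.length * (3 ^ S.L * 2 ^ S.B) ^ w.length := by
  induction w with
  | nil => simp [βW]
  | cons i w ih =>
    have hM1 : (1 : ℤ) ≤ 3 ^ S.L * 2 ^ S.B := by
      have h1 : (1 : ℤ) ≤ 3 ^ S.L := one_le_pow₀ (by norm_num)
      have h2 : (1 : ℤ) ≤ 2 ^ S.B := one_le_pow₀ (by norm_num)
      nlinarith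
    set M : ℤ := 3 ^ S.L * 2 ^ S.B with hM
    have hMp : (1 : ℤ) ≤ M ^ w.length := one_le_pow₀ hM1
    have hb : bW S.b w ≤ S.B * w.length := bW_le S.hb w
    have h2 : (2 : ℤ) ^ bW S.b w ≤ M ^ w.length := by
      calc (2 : ℤ) ^ bW S.b w ≤ 2 ^ (S.B * w.length) := pow_le_pow_right₀ (by norm_num) hb
        _ = (2 ^ S.B) ^ w.length := by rw [pow_mul]
        _ ≤ M ^ w.length := by
          refine pow_le_pow_left₀ (by positivity) ?_ _
          rw [hM]
          have h1 : (1 : ℤ) ≤ 3 ^ S.L := one_le_pow₀ (by norm_num)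
          have h2 : (0 : ℤ) ≤ 2 ^ S.B := by positivity
          nlinarith
    have h3 : (3 : ℤ) ^ S.L ≤ M := by
      rw [hM]
      have h1 : (0 : ℤ) ≤ 3 ^ S.L := by positivity
      have h2 : (1 : ℤ) ≤ 2 ^ S.B := one_le_pow₀ (by norm_num)
      nlinarith
    have hKnn : (0 : ℤ) ≤ K := by positivity
    show |2 ^ (bW S.b w) * S.β i + 3 ^ S.L * βW S.L S.b S.β w| ≤ _
    have h4 : |(2 : ℤ) ^ (bW S.b w) * S.β i| ≤ M ^ w.length * K := by
      rw [abs_mul, abs_of_nonneg (by positivity : (0 : ℤ) ≤ 2 ^ bW S.b w)]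
      exact mul_le_mul h2 (hK i) (abs_nonneg _) (by positivity)
    have h5 : |(3 : ℤ) ^ S.L * βW S.L S.b S.β w| ≤ M * (K * w.length * M ^ w.length) := by
      rw [abs_mul, abs_of_nonneg (by positivity : (0 : ℤ) ≤ 3 ^ S.L)]
      exact mul_le_mul h3 ih (abs_nonneg _) (by linarith)
    have h6 : M ^ w.length * K ≤ M * M ^ w.length * K := by
      have : M ^ w.length ≤ M * M ^ w.length := le_mul_of_one_le_left (by positivity) hM1
      exact mul_le_mul_of_nonneg_right this hKnn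
    calc |2 ^ (bW S.b w) * S.β i + 3 ^ S.L * βW S.L S.b S.β w| ≤ _ := abs_add_le _ _
      _ ≤ M ^ w.length * K + M * (K * w.length * M ^ w.length) := add_le_add h4 h5
      _ ≤ M * M ^ w.length * K + M * (K * w.length * M ^ w.length) := by linarith
      _ = K * ((i :: w).length : ℕ) * M ^ (i :: w).length := by
        rw [List.length_cons, pow_succ]
        push_cast
        ring

theorem exists_growth (K : ℕ) : ∃ d0 : ℕ, ∀ d : ℕ, d0 ≤ d → (2 * K * d * 2 ^ d : ℤ) < 3 ^ d := by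
  have h := tendsto_self_mul_const_pow_of_lt_one (r := (2 : ℝ) / 3) (by norm_num) (by norm_num)
  have h2 : ∀ᶠ n : ℕ in Filter.atTop, (n : ℝ) * (2 / 3) ^ n < 1 / (2 * K + 1) :=
    h.eventually (gt_mem_nhds (by positivity))
  obtain ⟨d0, hd0⟩ := Filter.eventually_atTop.1 h2
  refine ⟨d0, fun d hd => ?_⟩
  have h3 := hd0 d hd
  have h4 : ((2 * K * d * 2 ^ d : ℤ) : ℝ) < ((3 ^ d : ℤ) : ℝ) := by
    push_cast
    rw [div_pow, lt_div_iff₀ (by positivity)] at h3
    have h5 : (d : ℝ) * (2 ^ d / 3 ^ d) * (2 * K + 1) * 3 ^ d < 1 * 3 ^ d :=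
      mul_lt_mul_of_pos_right h3 (by positivity)
    have h6 : (d : ℝ) * (2 ^ d / 3 ^ d) * (2 * K + 1) * 3 ^ d = d * 2 ^ d * (2 * K + 1) := by
      field_simp
    rw [h6, one_mul] at h5
    have h7 : (0 : ℝ) ≤ d * 2 ^ d := by positivity
    nlinarith
  exact_mod_cast h4

/-- distinct words with equal exponent have distinct end points modulo `3 ^ (L d)` -/
theorem distinct_ends : ∃ d0 : ℕ, ∀ d : ℕ, d0 ≤ d → ∀ (x : ℤ) (u w : List ι),
    u.length = d / S.B → w.length = d / S.B → S.bw u = S.bw w → S.PW x u ≠ 0 → S.PW x w ≠ 0 →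
    ((S.tW x u : ℤ) : ZMod (3 ^ (S.L * d))) = ((S.tW x w : ℤ) : ZMod (3 ^ (S.L * d))) → u = w := by
  classical
  set K : ℕ := ∑ i, (S.β i).natAbs with hKdef
  have hK : ∀ i, |S.β i| ≤ (K : ℤ) := by
    intro i
    rw [← Int.natCast_natAbs]
    exact_mod_cast Finset.single_le_sum (f := fun i => (S.β i).natAbs)
      (fun _ _ => Nat.zero_le _) (Finset.mem_univ i)
  obtain ⟨d0, hd0⟩ := exists_growth K
  refine ⟨d0, fun d hd x u w hu hw hb hPu hPw hmod => ?_⟩
  have hgrow := hd0 d hd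
  set m := d / S.B with hm
  have hBm : S.B * m ≤ d := Nat.mul_div_le d S.B
  have hmd : m ≤ d := Nat.div_le_self d S.B
  have e1 := S.tW_eq hPu
  have e2 := S.tW_eq hPw
  rw [hu] at e1
  rw [hw, ← hb] at e2
  have e3 : (3 : ℤ) ^ (S.L * m) * (S.tW x w - S.tW x u) =
      βW S.L S.b S.β w - βW S.L S.b S.β u := by
    linear_combination e2 - e1
  have hdvd : (3 : ℤ) ^ (S.L * d) ∣ S.tW x w - S.tW x u := by
    have := (ZMod.intCast_eq_intCast_iff_dvd_sub _ _ _).1 hmod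
    exact_mod_cast this
  have hdvd2 : (3 : ℤ) ^ (S.L * m) * 3 ^ (S.L * d) ∣ βW S.L S.b S.β w - βW S.L S.b S.β u := by
    rw [← e3]
    exact mul_dvd_mul_left _ hdvd
  have hbound : ∀ y : List ι, y.length = m →
      |βW S.L S.b S.β y| ≤ K * m * ((3 : ℤ) ^ (S.L * m) * 2 ^ d) := by
    intro y hy
    refine le_trans (S.abs_βW_le hK y) ?_
    rw [hy, mul_pow, ← pow_mul, ← pow_mul]
    refine mul_le_mul_of_nonneg_left ?_ (by positivity)
    exact mul_le_mul_of_nonneg_left (pow_le_pow_right₀ (by norm_num) hBm) (by positivity)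
  have hlt : |βW S.L S.b S.β w - βW S.L S.b S.β u| < 3 ^ (S.L * m) * 3 ^ (S.L * d) := by
    calc |βW S.L S.b S.β w - βW S.L S.b S.β u| ≤ |βW S.L S.b S.β w| + |βW S.L S.b S.β u| :=
          abs_sub _ _
      _ ≤ K * m * ((3 : ℤ) ^ (S.L * m) * 2 ^ d) + K * m * ((3 : ℤ) ^ (S.L * m) * 2 ^ d) :=
          add_le_add (hbound w hw) (hbound u hu)
      _ = 3 ^ (S.L * m) * (2 * K * m * 2 ^ d) := by ring
      _ ≤ 3 ^ (S.L * m) * (2 * K * d * 2 ^ d) := by
          have hmd' : (m : ℤ) ≤ d := by exact_mod_cast hmd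
          have : (2 * K * m * 2 ^ d : ℤ) ≤ 2 * K * d * 2 ^ d := by
            have h1 : (0 : ℤ) ≤ 2 * K := by positivity
            have h2 : (0 : ℤ) ≤ 2 ^ d := by positivity
            exact mul_le_mul_of_nonneg_right (mul_le_mul_of_nonneg_left hmd' h1) h2
          exact mul_le_mul_of_nonneg_left this (by positivity)
      _ < 3 ^ (S.L * m) * 3 ^ d := mul_lt_mul_of_pos_left hgrow (by positivity)
      _ ≤ 3 ^ (S.L * m) * 3 ^ (S.L * d) := by
          refine mul_le_mul_of_nonneg_left (pow_le_pow_right₀ (by norm_num) ?_) (by positivity)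
          exact Nat.le_mul_of_pos_left d S.hL
  have hzero := Int.eq_zero_of_abs_lt_dvd hdvd2 hlt
  exact S.sep u w (by rw [hu, hw]) hb (by linarith)

end Sys

end Pool.Agent.Lib.MP_e43fce_nt_one
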