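import Pool.Agent.Lib.MP_e43fce_nt_one.Defs
import Pool.Agent.Lib.MP_e43fce_nt_one.Bridge

/-! Module E02: algebra of convolutions. -/

set_option autoImplicit false

open Finset

namespace Pool.Agent.Lib.MP_e43fce_nt_one

variable {G : Type} [Fintype G] [AddCommGroup G]

theorem conv_comm (p q : G → ℝ) : conv p q = conv q p := KLOne.conv_comm p q
theorem conv_assoc (p q r : G → ℝ) : conv (conv p q) r = conv p (conv q r) := KLOne.conv_assoc p q r
theorem conv_dlt (p : G → ℝ) : conv p dlt = p := by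
  classical
  rw [dlt_eq]
  exact KLOne.conv_dirac0 p
theorem isPmf_dlt : IsPmf (dlt : G → ℝ) := by
  classical
  rw [dlt_eq]
  exact (isPmf_iff _).2 KLOne.isPmf_dirac0
theorem sum_conv_mul (p q φ : G → ℝ) :
    ∑ x, conv p q x * φ x = ∑ y, ∑ z, p y * q z * φ (y + z) := by
  unfold conv
  simp_rw [Finset.sum_mul]
  rw [Finset.sum_comm]
  refine Finset.sum_congr rfl (fun x _ => ?_)
  rw [← Equiv.sum_comp (Equiv.addLeft x) (fun s => p x * q (s - x) * φ s)]
  refine Finset.sum_congr rfl (fun y _ => ?_)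
  simp only [Equiv.coe_addLeft, add_sub_cancel_left]
theorem sum_conv (p q : G → ℝ) : ∑ x, conv p q x = (∑ x, p x) * ∑ x, q x := by
  have h := sum_conv_mul p q (fun _ => 1)
  simp only [mul_one] at h
  rw [h, Finset.sum_mul]
  refine Finset.sum_congr rfl (fun x _ => ?_)
  rw [Finset.mul_sum]
theorem IsPmf.conv {p q : G → ℝ} (hp : IsPmf p) (hq : IsPmf q) : IsPmf (conv p q) :=
  (isPmf_iff _).2 (((isPmf_iff _).1 hp).conv ((isPmf_iff _).1 hq))
theorem IsPmf.cpow {p : G → ℝ} (hp : IsPmf p) (r : ℕ) : IsPmf (cpow p r) := by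
  classical
  rw [cpow_eq]
  exact (isPmf_iff _).2 (KLOne.isPmf_cpow ((isPmf_iff _).1 hp) r)

end Pool.Agent.Lib.MP_e43fce_nt_one
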