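import Pool.Agent.Lib.MP_e43fce_nt_one.Defs
import Pool.Agent.Lib.MP_e43fce_nt_one.E02

/-! Module E05: the uniform measures on the multiples of `3 ^ a`. -/

set_option autoImplicit false

open Finset

namespace Pool.Agent.Lib.MP_e43fce_nt_one

theorem un_pmf {n a : ℕ} (h : a ≤ n) : IsPmf (un n a) := by
  rw [un_eq h]
  exact (isPmf_iff _).2 (KLOne.isPmf_unif a)
theorem un_conv {n a b : ℕ} (hab : a ≤ b) (hb : b ≤ n) : conv (un n a) (un n b) = un n a := by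
  rw [conv_un_eq hb, un_eq (hab.trans hb), KLOne.unif, KLOne.avg_avg hab]
theorem un_top (n : ℕ) : un n n = dlt := by
  rw [un_eq le_rfl, KLOne.unif, KLOne.avg_top le_rfl, dlt_eq]
theorem conv_un_zero {n : ℕ} {p : ZMod (3 ^ n) → ℝ} (hp : IsPmf p) :
    conv p (un n 0) = fun _ => 1 / (3 : ℝ) ^ n := by
  rw [conv_un_eq (Nat.zero_le n)]
  funext x
  rw [KLOne.avg_zero, hp.2]
theorem inv_conv_un {n a : ℕ} (h : a ≤ n) (f : ZMod (3 ^ n) → ℝ) : Inv n a (conv f (un n a)) := by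
  rw [conv_un_eq h]
  exact KLOne.avg_add a f
theorem sum_conv_un_mul {n a : ℕ} (h : a ≤ n) (f φ : ZMod (3 ^ n) → ℝ) (hφ : Inv n a φ) :
    ∑ x, conv f (un n a) x * φ x = ∑ x, f x * φ x := by
  rw [conv_un_eq h]
  exact KLOne.sum_avg_mul_inv hφ
theorem conv_un_of_inv {n a : ℕ} (h : a ≤ n) (f : ZMod (3 ^ n) → ℝ) (hf : Inv n a f) :
    conv f (un n a) = f := by
  rw [conv_un_eq h]
  exact KLOne.avg_inv hf
theorem Inv.mono {n a b : ℕ} (hab : a ≤ b) {f : ZMod (3 ^ n) → ℝ} (hf : Inv n a f) : Inv n b f :=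
  KLOne.inv_mono hab hf

end Pool.Agent.Lib.MP_e43fce_nt_one
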