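import Pool.Agent.Lib.MP_e43fce_nt_one.Defs
import Pool.Agent.Lib.MP_e43fce_nt_one.E05

/-! Module E07. -/

set_option autoImplicit false

open Finset

namespace Pool.Agent.Lib.MP_e43fce_nt_one

theorem D_zero {n : ℕ} {p : ZMod (3 ^ n) → ℝ} (hp : IsPmf p) : D n 0 p = n * Real.log 3 := by
  rw [D_eq (Nat.zero_le n), KLOne.D_zero ((isPmf_iff _).1 hp)]
theorem D_top {n : ℕ} (p : ZMod (3 ^ n) → ℝ) : D n n p = ent p := by
  rw [D_eq le_rfl, KLOne.D_top le_rfl, ent_eq]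
theorem D_conv_le {n a b : ℕ} (hab : a ≤ b) (hb : b ≤ n) {p q : ZMod (3 ^ n) → ℝ}
    (hp : IsPmf p) (hq : IsPmf q) :
    D n a (conv p q) - D n b (conv p q) ≤ D n a p - D n b p := by
  rw [D_eq (hab.trans hb), D_eq hb, D_eq (hab.trans hb), D_eq hb]
  exact KLOne.D_conv_le hab ((isPmf_iff _).1 hp) ((isPmf_iff _).1 hq)

end Pool.Agent.Lib.MP_e43fce_nt_one
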