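import Pool.Agent.Lib.MP_e43fce_nt_one.Defs
import Pool.Agent.Lib.MP_e43fce_nt_one.E05

/-! Module E08. -/

set_option autoImplicit false

open Finset

namespace Pool.Agent.Lib.MP_e43fce_nt_one

/-- absolute continuity -/
theorem conv_un_zero_of_zero {n a b : ℕ} (hab : a ≤ b) (hb : b ≤ n) {p : ZMod (3 ^ n) → ℝ}
    (hp : IsPmf p) (x : ZMod (3 ^ n)) (h : conv p (un n a) x = 0) : conv p (un n b) x = 0 := by
  rw [conv_un_eq (hab.trans hb)] at h
  rw [conv_un_eq hb]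
  exact KLOne.avg_eq_zero hab hp.1 h
theorem D_diff_KL {n a b : ℕ} (hab : a ≤ b) (hb : b ≤ n) {p : ZMod (3 ^ n) → ℝ} (hp : IsPmf p) :
    D n a p - D n b p =
      ∑ x, conv p (un n b) x * Real.log (conv p (un n b) x / conv p (un n a) x) := by
  rw [D_eq (hab.trans hb), D_eq hb, KLOne.D_sub hab]
  refine Finset.sum_congr rfl (fun x _ => ?_)
  rw [conv_un_eq hb, conv_un_eq (hab.trans hb)]
  rcases eq_or_ne (KLOne.avg b p x) 0 with h | h
  · rw [h, zero_mul, zero_mul]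
  · rw [Real.log_div h (fun h0 => h (KLOne.avg_eq_zero hab hp.1 h0))]
theorem D_anti {n a b : ℕ} (hab : a ≤ b) (hb : b ≤ n) {p : ZMod (3 ^ n) → ℝ} (hp : IsPmf p) :
    D n b p ≤ D n a p := by
  rw [D_eq (hab.trans hb), D_eq hb]
  exact KLOne.D_anti hab ((isPmf_iff _).1 hp)

end Pool.Agent.Lib.MP_e43fce_nt_one
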