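import Pool.Agent.Lib.MP_e43fce_nt_one.Defs
import Pool.Agent.Lib.MP_e43fce_nt_one.E08

/-! Module E16: the Gibbs inequality for a block of digits. -/

set_option autoImplicit false

open Finset

namespace Pool.Agent.Lib.MP_e43fce_nt_one

theorem gibbs_block {n a b : ℕ} (hab : a ≤ b) (hb : b ≤ n) {p : ZMod (3 ^ n) → ℝ} (hp : IsPmf p)
    (F : ZMod (3 ^ n) → ℝ) (hF : Inv n b F) (Zm : ℝ)
    (hZ : ∀ x, conv (fun x => Real.exp (F x)) (un n a) x ≤ Zm) :
    ∑ x, p x * F x ≤ Real.log Zm + (D n a p - D n b p) := by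
  have hZ0 : 0 < Zm := by
    refine lt_of_lt_of_le ?_ (hZ 0)
    rw [conv_un_eq (hab.trans hb)]
    unfold KLOne.avg
    refine div_pos (Finset.sum_pos (fun y _ => Real.exp_pos _) Finset.univ_nonempty) (by positivity)
  have h := KLOne.gibbs (n := n) hab (p := p) (g := F) ((isPmf_iff _).1 hp) (Z := Real.log Zm) hF (fun x => by
    rw [Real.exp_log hZ0]
    have := hZ x
    rw [conv_un_eq (hab.trans hb)] at this
    exact this)
  rw [← D_eq (hab.trans hb), ← D_eq hb] at h
  linarith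

end Pool.Agent.Lib.MP_e43fce_nt_one
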