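import Pool.Agent.Lib.MP_e43fce_nt_one.Defs

/-!
Module E17.
uS is the uniform measure on A. min_ent: ent p = sum p(-log p) >= h sum p.
-/

set_option autoImplicit false

open Finset

namespace Pool.Agent.Lib.MP_e43fce_nt_one

theorem sum_uS {G : Type} [Fintype G] (A : Finset G) (f : G → ℝ) :
    ∑ x, uS A x * f x = (∑ x ∈ A, f x) / A.card := by
  classical
  unfold uS
  simp only [ite_mul, zero_mul]
  rw [← sum_filter]
  have : (univ.filter (fun x => x ∈ A)) = A := by ext x; simp
  rw [this, sum_div]
  exact sum_congr rfl fun x _ => by ring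

theorem uS_pmf {G : Type} [Fintype G] {A : Finset G} (hA : A.Nonempty) : IsPmf (uS A) := by
  classical
  constructor
  · intro x
    unfold uS
    split_ifs <;> positivity
  · have := sum_uS A (fun _ => (1 : ℝ))
    simp only [mul_one, sum_const, nsmul_eq_mul] at this
    rw [this]
    have : (A.card : ℝ) ≠ 0 := by exact_mod_cast hA.card_pos.ne'
    field_simp

theorem ent_uS {G : Type} [Fintype G] {A : Finset G} (hA : A.Nonempty) :
    ent (uS A) = Real.log A.card := by
  classical
  have hc : (A.card : ℝ) ≠ 0 := by exact_mod_cast hA.card_pos.ne'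
  have h1 : ∀ x, Real.negMulLog (uS A x) = uS A x * Real.log A.card := by
    intro x
    unfold uS
    split_ifs
    · rw [Real.negMulLog, one_div, Real.log_inv]; ring
    · simp
  rw [ent, sum_congr rfl fun x _ => h1 x, ← sum_mul, (uS_pmf hA).sum_one, one_mul]

theorem min_ent {G : Type} [Fintype G] {p : G → ℝ} (hp : IsPmf p) {h : ℝ}
    (hh : ∀ x, p x ≤ Real.exp (-h)) : h ≤ ent p := by
  have key : ∀ x, p x * h ≤ Real.negMulLog (p x) := by
    intro x
    rcases eq_or_lt_of_le (hp.nonneg x) with h1 | h1
    · rw [← h1]; simp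
    · have h2 : Real.log (p x) ≤ -h := by
        rw [Real.log_le_iff_le_exp h1]
        exact hh x
      rw [Real.negMulLog]
      nlinarith
  have := sum_le_sum fun x (_ : x ∈ univ) => key x
  rw [← sum_mul, hp.sum_one, one_mul] at this
  exact this

end Pool.Agent.Lib.MP_e43fce_nt_one
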