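import Pool.Agent.Lib.MP_e43fce_nt_one.Defs
import Pool.Agent.Lib.MP_e43fce_nt_one.L04
import Pool.Agent.Lib.MP_e43fce_nt_one.E05

/-!
Module L04b: smoothing with the uniform measure of a subgroup is an average.
-/

set_option autoImplicit false

open Finset

namespace Pool.Agent.Lib.MP_e43fce_nt_one

theorem dvd_val_sub_iff {n a : ℕ} (h : a ≤ n) (x y : ZMod (3 ^ n)) :
    3 ^ a ∣ (x - y).val ↔ (3 : ℤ) ^ a ∣ (x.val : ℤ) - y.val := by
  have h1 : (((x.val : ℤ) - y.val : ℤ) : ZMod (3 ^ n)) = x - y := by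
    push_cast
    rw [ZMod.natCast_zmod_val, ZMod.natCast_zmod_val]
  have h2 : (((x - y).val : ℕ) : ℤ) = ((x.val : ℤ) - y.val) % ((3 ^ n : ℕ) : ℤ) := by
    rw [← h1]
    exact ZMod.val_intCast _
  have h3 : (3 : ℤ) ^ a ∣ ((3 ^ n : ℕ) : ℤ) := by
    push_cast
    exact pow_dvd_pow 3 h
  have h4 : 3 ^ a ∣ (x - y).val ↔ (3 : ℤ) ^ a ∣ (((x - y).val : ℕ) : ℤ) := by
    rw [← Int.natCast_dvd_natCast]
    push_cast
    rfl
  rw [h4, h2, Int.emod_def, dvd_sub_left (h3.mul_right _)]

/-- link between smoothing and averages -/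
theorem conv_un_Av {n a b : ℕ} (hab : a ≤ b) (hb : b ≤ n) (f : ℤ → ℝ) (hf : Per b f)
    (x : ZMod (3 ^ n)) : conv (fun x : ZMod (3 ^ n) => f (x.val : ℤ)) (un n a) x =
      Av (b - a) (fun y => f ((x.val : ℤ) + 3 ^ a * y)) := by
  classical
  have han : a ≤ n := hab.trans hb
  -- the function `F`
  set F : ℤ → ℝ := fun w => if (3 : ℤ) ^ a ∣ (x.val : ℤ) - w then f w else 0 with hF
  have hFper : Per n F := by
    intro v z
    simp only [hF]
    have e1 : ((3 : ℤ) ^ a ∣ (x.val : ℤ) - (v + 3 ^ n * z)) ↔ (3 : ℤ) ^ a ∣ (x.val : ℤ) - v := by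
      rw [show (x.val : ℤ) - (v + 3 ^ n * z) = (x.val : ℤ) - v - 3 ^ n * z by ring]
      exact dvd_sub_left ((pow_dvd_pow 3 han).mul_right z)
    rw [hf.mono hb v z]
    simp only [e1]
  have h1 : conv (fun x : ZMod (3 ^ n) => f (x.val : ℤ)) (un n a) x = 3 ^ a * Av n F := by
    unfold conv Av
    rw [← mul_div_assoc, Finset.mul_sum, Finset.sum_div]
    refine Finset.sum_congr rfl (fun y _ => ?_)
    unfold un
    simp only [hF, dvd_val_sub_iff han x y]
    split_ifs
    · ring
    · simp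
  set g : ℤ → ℝ := fun z => f (((x.val : ZMod (3 ^ a)).val : ℤ) + 3 ^ a * z) with hg
  have hgper : Per (b - a) g := by
    intro v z
    simp only [hg]
    have := hf (((x.val : ZMod (3 ^ a)).val : ℤ) + 3 ^ a * v) z
    rw [← this]
    congr 1
    have e2 : (3 : ℤ) ^ b = 3 ^ a * 3 ^ (b - a) := by rw [← pow_add]; congr 1; omega
    rw [e2]
    ring
  have h2 : Av n F = (3 ^ a)⁻¹ * Av (n - a) g := by
    have e3 : n = a + (n - a) := by omega
    have e4 : Av n F = Av (a + (n - a)) F := by rw [← e3]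
    rw [e4, Av_split (by rw [← e3]; exact hFper)]
    unfold Av
    beta_reduce
    rw [Finset.sum_eq_single ((x.val : ZMod (3 ^ a)))]
    · rw [div_eq_inv_mul]
      congr 2
      refine Finset.sum_congr rfl (fun z _ => ?_)
      simp only [hF, hg]
      rw [if_pos]
      have e5 : (((x.val : ZMod (3 ^ a)).val : ℕ) : ℤ) = (x.val : ℤ) % ((3 ^ a : ℕ) : ℤ) := by
        rw [ZMod.val_natCast]
        push_cast
        rfl
      rw [e5, Int.emod_def]
      push_cast
      exact ⟨(x.val : ℤ) / 3 ^ a - z.val, by ring⟩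
    · intro v _ hv
      rw [Finset.sum_eq_zero, zero_div]
      intro z _
      simp only [hF]
      rw [if_neg]
      intro hd
      apply hv
      have e6 : (3 : ℤ) ^ a ∣ (x.val : ℤ) - v.val := by
        have := (dvd_sub_left ((dvd_refl ((3 : ℤ) ^ a)).mul_right (z.val : ℤ))).1
          (show (3 : ℤ) ^ a ∣ (x.val : ℤ) - v.val - 3 ^ a * z.val by
            rw [show (x.val : ℤ) - v.val - 3 ^ a * z.val =
              (x.val : ℤ) - (v.val + 3 ^ a * z.val) by ring]
            exact hd)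
        exact this
      have e7 := (ZMod.intCast_eq_intCast_iff_dvd_sub (v.val : ℤ) (x.val : ℤ) (3 ^ a)).2
        (by push_cast; exact e6)
      push_cast at e7
      rw [ZMod.natCast_zmod_val] at e7
      exact e7
    · intro h
      exact absurd (Finset.mem_univ _) h
  have h3 : Av (b - a) (fun y => f ((x.val : ℤ) + 3 ^ a * y)) = Av (b - a) g := by
    rw [← Av_affine hgper ((x.val : ℤ) / 3 ^ a) 0]
    congr 1
    funext z
    simp only [hg]
    congr 1
    have e5 : (((x.val : ZMod (3 ^ a)).val : ℕ) : ℤ) = (x.val : ℤ) % ((3 ^ a : ℕ) : ℤ) := by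
      rw [ZMod.val_natCast]
      push_cast
      rfl
    rw [e5, Int.emod_def]
    push_cast
    ring
  rw [h1, h2, h3, ← mul_assoc, mul_inv_cancel₀ (by positivity), one_mul]
  exact Av_of_per (by omega) hgper

end Pool.Agent.Lib.MP_e43fce_nt_one
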