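import Pool.Agent.Lib.MP_e43fce_nt_one.Defs
import Pool.Agent.Lib.MP_e43fce_nt_one.L04b
import Pool.Agent.Lib.MP_e43fce_nt_one.L05
import Pool.Agent.Lib.MP_e43fce_nt_one.E07
import Pool.Agent.Lib.MP_e43fce_nt_one.E16
import Pool.Agent.Lib.MP_e43fce_nt_one.E17

/-!
Module L15.
Blueprint (R6). X = uS S0. l_j(z) := rl N ((j+1)T) v z - rl N (jT) v z (function on Z, period
3^(L(j+1)T)); sum_j l_j = rl N d v z. Gibbs (E16) with a = jLT, b = (j+1)LT, F = lam l_j (x.val):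
conv (exp F) (un a) x = Av (LT) (y -> exp(lam rl (N+jT) T (v+3^(LN) x.val) y)) <= Z lam T by L04b,
rl_add, jensen. So lam E l_j <= log Z_lam(T) + def_j, def_j = D_j - D_{j+1}; the same with lam' =
Lambda/(4 lam C0^2) and Z_small. Telescoping: sum def_j = D_0 - D_n = Ld log 3 - log|S0|. Counting
as in (R6).
-/

set_option autoImplicit false

open Finset

namespace Pool.Agent.Lib.MP_e43fce_nt_one

namespace Sys
variable {ι : Type} [Fintype ι] [DecidableEq ι] (S : Sys ι)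

/-- value of a periodic function at a shifted residue -/
private lemma per_shift {n b : ℕ} (hb : b ≤ n) {f : ℤ → ℝ} (hf : Per b f)
    (x y : ZMod (3 ^ n)) : f (((x + 3 ^ b * y : ZMod (3 ^ n)).val : ℕ) : ℤ) = f (x.val : ℤ) := by
  have h1 := Per_val (hf.mono hb) ((x.val : ℤ) + 3 ^ b * (y.val : ℤ))
  have h2 : (((x.val : ℤ) + 3 ^ b * (y.val : ℤ) : ℤ) : ZMod (3 ^ n)) = x + 3 ^ b * y := by
    push_cast
    rw [ZMod.natCast_zmod_val, ZMod.natCast_zmod_val]
  rw [h2] at h1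
  rw [h1, hf]

/-- increments of the relative loss -/
private lemma inc_eq (N j T : ℕ) (v z y : ℤ) :
    S.rl N ((j + 1) * T) v (z + 3 ^ (j * (S.L * T)) * y) -
      S.rl N (j * T) v (z + 3 ^ (j * (S.L * T)) * y) =
    S.rl (N + j * T) T (v + 3 ^ (S.L * N) * z) y := by
  have e : j * (S.L * T) = S.L * (j * T) := by ring
  rw [e]
  have h1 := S.rl_add N (j * T) T v z y
  have h2 := S.rl_per N (j * T) v z y
  have e2 : (j + 1) * T = j * T + T := by ring
  rw [e2, h1, h2]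
  ring

private lemma inc_per (N j T : ℕ) (v : ℤ) : Per ((j + 1) * (S.L * T))
    (fun z => S.rl N ((j + 1) * T) v z - S.rl N (j * T) v z) := by
  intro z y
  have e : (j + 1) * (S.L * T) = S.L * ((j + 1) * T) := by ring
  have h1 := S.rl_per N ((j + 1) * T) v
  have h2 : Per (S.L * ((j + 1) * T)) (S.rl N (j * T) v) :=
    (S.rl_per N (j * T) v).mono (Nat.mul_le_mul_left _ (Nat.mul_le_mul_right _ (by omega)))
  simp only [e]
  rw [h1, h2]

/-- Gibbs for one block -/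
private lemma block (lam : ℝ) {n N j T : ℕ} (hn : (j + 1) * (S.L * T) ≤ n) (v : ℤ)
    {X : ZMod (3 ^ n) → ℝ} (hX : IsPmf X) :
    lam * ∑ x, X x * (S.rl N ((j + 1) * T) v (x.val : ℤ) - S.rl N (j * T) v (x.val : ℤ)) ≤
      Real.log (S.Z lam T) + (D n (j * (S.L * T)) X - D n ((j + 1) * (S.L * T)) X) := by
  have hab : j * (S.L * T) ≤ (j + 1) * (S.L * T) := Nat.mul_le_mul_right _ (by omega)
  have hper := S.inc_per N j T v
  have hF : Inv n ((j + 1) * (S.L * T)) (fun x : ZMod (3 ^ n) =>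
      lam * (S.rl N ((j + 1) * T) v (x.val : ℤ) - S.rl N (j * T) v (x.val : ℤ))) := by
    intro x y
    have h1 : S.rl N ((j + 1) * T) v
          (((x + 3 ^ ((j + 1) * (S.L * T)) * y : ZMod (3 ^ n)).val : ℕ) : ℤ) -
        S.rl N (j * T) v (((x + 3 ^ ((j + 1) * (S.L * T)) * y : ZMod (3 ^ n)).val : ℕ) : ℤ) =
        S.rl N ((j + 1) * T) v (x.val : ℤ) - S.rl N (j * T) v (x.val : ℤ) :=
      per_shift hn hper x y
    show lam * _ = lam * _
    rw [h1]
  have hg := gibbs_block hab hn hX _ hF (S.Z lam T) ?_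
  · refine le_trans (le_of_eq ?_) hg
    rw [Finset.mul_sum]
    apply Finset.sum_congr rfl
    intro x _
    ring
  · intro x
    have hper' : Per ((j + 1) * (S.L * T)) (fun z => Real.exp (lam *
        (S.rl N ((j + 1) * T) v z - S.rl N (j * T) v z))) := by
      intro z y
      have h1 : S.rl N ((j + 1) * T) v (z + 3 ^ ((j + 1) * (S.L * T)) * y) -
          S.rl N (j * T) v (z + 3 ^ ((j + 1) * (S.L * T)) * y) =
          S.rl N ((j + 1) * T) v z - S.rl N (j * T) v z := hper z y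
      show Real.exp (lam * (S.rl N ((j + 1) * T) v (z + 3 ^ ((j + 1) * (S.L * T)) * y) -
          S.rl N (j * T) v (z + 3 ^ ((j + 1) * (S.L * T)) * y))) = _
      rw [h1]
    rw [conv_un_Av hab hn _ hper' x]
    have e1 : (j + 1) * (S.L * T) - j * (S.L * T) = S.L * T := by
      rw [Nat.add_mul, one_mul, Nat.add_sub_cancel_left]
    rw [e1]
    simp only [S.inc_eq]
    exact S.jensen lam (N + j * T) T _

/-- deficits of the near-extremal set -/
theorem deficits {C0 : ℝ} (hC0 : 0 < C0) (h0 : ∀ v, |S.psibar - S.ψ v| ≤ C0) {lam Λ δ δ1 κ : ℝ}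
    (hlam : 0 < lam) (hΛ : 0 < Λ) (hδ : 0 < δ) (hδ1 : 0 < δ1) {T k d N : ℕ} (hT : 1 ≤ T)
    (hk : 1 ≤ k) (hd : d = k * T) (hZ : S.Z lam T ≤ Real.exp ((Λ + δ1) * T)) (v : ℤ)
    (S0 : Finset (ZMod (3 ^ (S.L * d)))) (hS0 : S0.Nonempty)
    (hl : ∀ x ∈ S0, κ * d ≤ S.rl N d v (x.val : ℤ))
    (hcard : S.L * d * Real.log 3 + (Λ - 2 * δ) * d - lam * (κ + δ) * d ≤ Real.log S0.card) :
    (((range k).filter (fun j =>
      D (S.L * d) (j * (S.L * T)) (uS S0) - D (S.L * d) ((j + 1) * (S.L * T)) (uS S0) <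
        Λ ^ 2 / (8 * lam ^ 2 * C0 ^ 2) * T)).card : ℝ) ≤
      4 * (δ1 + (lam + 2) * δ) / Λ * k := by
  have hX : IsPmf (uS S0) := uS_pmf hS0
  have hnk : S.L * d = k * (S.L * T) := by rw [hd]; ring
  -- the two sequences
  obtain ⟨E, hE⟩ : ∃ E : ℕ → ℝ, ∀ j, E j = ∑ x : ZMod (3 ^ (S.L * d)), uS S0 x *
      (S.rl N ((j + 1) * T) v (x.val : ℤ) - S.rl N (j * T) v (x.val : ℤ)) := ⟨_, fun _ => rfl⟩
  obtain ⟨df, hdf⟩ : ∃ df : ℕ → ℝ, ∀ j, df j = D (S.L * d) (j * (S.L * T)) (uS S0) -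
      D (S.L * d) ((j + 1) * (S.L * T)) (uS S0) := ⟨_, fun _ => rfl⟩
  have hblock : ∀ l : ℝ, ∀ j ∈ range k, l * E j ≤ Real.log (S.Z l T) + df j := by
    intro l j hj
    rw [hE, hdf]
    refine S.block l ?_ v hX
    rw [hnk]
    exact Nat.mul_le_mul_right _ (Finset.mem_range.mp hj)
  have hdf0 : ∀ j ∈ range k, 0 ≤ df j := by
    intro j hj
    have h1 := hblock 0 j hj
    have h2 := S.Z_small h0 0 T
    have h3 := S.Z_pos 0 T
    have h4 : Real.log (S.Z 0 T) ≤ 0 := by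
      apply Real.log_nonpos h3.le
      simpa using h2
    linarith
  -- telescoping
  have hsumE : κ * d ≤ ∑ j ∈ range k, E j := by
    have e1 : ∑ j ∈ range k, E j = ∑ x : ZMod (3 ^ (S.L * d)), uS S0 x *
        S.rl N d v (x.val : ℤ) := by
      simp only [hE]
      rw [Finset.sum_comm]
      apply Finset.sum_congr rfl
      intro x _
      rw [← Finset.mul_sum, Finset.sum_range_sub (fun j => S.rl N (j * T) v (x.val : ℤ)), ← hd]
      have h5 := S.rl_bound h0 N 0 v (x.val : ℤ)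
      simp only [Nat.cast_zero, mul_zero, abs_nonpos_iff] at h5
      rw [zero_mul, h5, sub_zero]
    rw [e1, sum_uS]
    have hc : (0 : ℝ) < S0.card := by exact_mod_cast hS0.card_pos
    rw [le_div_iff₀ hc]
    calc κ * d * S0.card = ∑ x ∈ S0, κ * d := by rw [Finset.sum_const, nsmul_eq_mul]; ring
      _ ≤ _ := Finset.sum_le_sum hl
  have hsumdf : ∑ j ∈ range k, df j = S.L * d * Real.log 3 - Real.log S0.card := by
    simp only [hdf]
    rw [Finset.sum_range_sub' (fun j => D (S.L * d) (j * (S.L * T)) (uS S0)), ← hnk, D_top,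
      ent_uS hS0, zero_mul, D_zero hX]
    push_cast
    ring
  -- g
  have hT0 : (0 : ℝ) < T := by exact_mod_cast hT
  have hlogZ : Real.log (S.Z lam T) ≤ (Λ + δ1) * T := by
    rw [← Real.log_exp ((Λ + δ1) * T)]
    exact Real.log_le_log (S.Z_pos lam T) hZ
  have hlogZ' : ∀ l : ℝ, Real.log (S.Z l T) ≤ C0 ^ 2 * l ^ 2 * T := by
    intro l
    rw [← Real.log_exp (C0 ^ 2 * l ^ 2 * T)]
    exact Real.log_le_log (S.Z_pos l T) (S.Z_small h0 l T)
  have hg1 : ∀ j ∈ range k, lam * E j - df j ≤ (Λ + δ1) * T := by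
    intro j hj
    have := hblock lam j hj
    linarith
  have hg2 : ∀ j ∈ range k, df j < Λ ^ 2 / (8 * lam ^ 2 * C0 ^ 2) * T →
      lam * E j - df j ≤ 3 / 4 * Λ * T := by
    intro j hj hlt
    by_contra hcon
    push Not at hcon
    have h1 := hdf0 j hj
    have h2 : 3 / 4 * Λ * T < lam * E j := by linarith
    have h3 := hblock (Λ / (4 * lam * C0 ^ 2)) j hj
    have h4 := hlogZ' (Λ / (4 * lam * C0 ^ 2))
    have h5 : Λ / (4 * lam * C0 ^ 2) * E j - C0 ^ 2 * (Λ / (4 * lam * C0 ^ 2)) ^ 2 * T ≤ df j := by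
      linarith
    have h6 : Λ / (4 * lam * C0 ^ 2) * E j = Λ / (4 * lam ^ 2 * C0 ^ 2) * (lam * E j) := by
      field_simp
    have h7 : Λ / (4 * lam ^ 2 * C0 ^ 2) * (3 / 4 * Λ * T) ≤
        Λ / (4 * lam ^ 2 * C0 ^ 2) * (lam * E j) :=
      mul_le_mul_of_nonneg_left h2.le (by positivity)
    have h8 : Λ / (4 * lam ^ 2 * C0 ^ 2) * (3 / 4 * Λ * T) -
        C0 ^ 2 * (Λ / (4 * lam * C0 ^ 2)) ^ 2 * T = Λ ^ 2 / (8 * lam ^ 2 * C0 ^ 2) * T := by
      field_simp
      ring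
    linarith
  -- counting
  set Bad := (range k).filter (fun j => D (S.L * d) (j * (S.L * T)) (uS S0) -
    D (S.L * d) ((j + 1) * (S.L * T)) (uS S0) < Λ ^ 2 / (8 * lam ^ 2 * C0 ^ 2) * T) with hBad
  have hbound : ∀ j ∈ range k, lam * E j - df j ≤
      (Λ + δ1) * T - (if j ∈ Bad then Λ / 4 * T else 0) := by
    intro j hj
    split_ifs with hb
    · have h1 : df j < Λ ^ 2 / (8 * lam ^ 2 * C0 ^ 2) * T := by
        rw [hdf]; exact (Finset.mem_filter.mp hb).2
      have h2 := hg2 j hj h1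
      nlinarith [mul_pos hδ1 hT0]
    · have := hg1 j hj
      linarith
  have hsum := Finset.sum_le_sum hbound
  rw [Finset.sum_sub_distrib, Finset.sum_sub_distrib, ← Finset.mul_sum, hsumdf, Finset.sum_const,
    Finset.card_range, nsmul_eq_mul, Finset.sum_ite_mem,
    Finset.inter_eq_right.mpr (Finset.filter_subset _ _), Finset.sum_const, nsmul_eq_mul] at hsum
  have hdk : (d : ℝ) = k * T := by rw [hd]; push_cast; ring
  have h9 : lam * (κ * d) ≤ lam * ∑ j ∈ range k, E j := mul_le_mul_of_nonneg_left hsumE hlam.le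
  have h10 : (Bad.card : ℝ) * (Λ / 4 * T) ≤ (δ1 + (lam + 2) * δ) * (k * T) := by
    have h11 : (Bad.card : ℝ) * (Λ / 4 * T) ≤ k * ((Λ + δ1) * T) -
        (lam * (κ * d) - (S.L * d * Real.log 3 - Real.log S0.card)) := by linarith
    have h12 : (Λ - (lam + 2) * δ) * d ≤
        lam * (κ * d) - (S.L * d * Real.log 3 - Real.log S0.card) := by nlinarith [hcard]
    have h13 : (Λ - (lam + 2) * δ) * d = (Λ - (lam + 2) * δ) * (k * T) := by rw [hdk]
    nlinarith
  have h14 : (Bad.card : ℝ) * Λ ≤ 4 * (δ1 + (lam + 2) * δ) * k := by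
    have h15 : ((Bad.card : ℝ) * Λ) * T ≤ (4 * (δ1 + (lam + 2) * δ) * k) * T := by nlinarith
    exact le_of_mul_le_mul_right h15 hT0
  rw [div_mul_eq_mul_div, le_div_iff₀ hΛ]
  exact h14

end Sys

end Pool.Agent.Lib.MP_e43fce_nt_one
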