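import Pool.Agent.Lib.MP_e43fce_nt_one.Defs
import Pool.Agent.Lib.MP_e43fce_nt_one.E14
import Pool.Agent.Lib.MP_e43fce_nt_one.E15
import Pool.Agent.Lib.MP_e43fce_nt_one.L06
import Pool.Agent.Lib.MP_e43fce_nt_one.L07
import Pool.Agent.Lib.MP_e43fce_nt_one.L08
import Pool.Agent.Lib.MP_e43fce_nt_one.L09
import Pool.Agent.Lib.MP_e43fce_nt_one.L10
import Pool.Agent.Lib.MP_e43fce_nt_one.L11
import Pool.Agent.Lib.MP_e43fce_nt_one.L12
import Pool.Agent.Lib.MP_e43fce_nt_one.L13
import Pool.Agent.Lib.MP_e43fce_nt_one.L14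
import Pool.Agent.Lib.MP_e43fce_nt_one.L15

/-!
Module L16. Assembly of Theorem R.
-/

set_option autoImplicit false

open Finset

namespace Pool.Agent.Lib.MP_e43fce_nt_one

namespace Sys
variable {ι : Type} [Fintype ι] [DecidableEq ι] (S : Sys ι)

/-- entropy of the population: elementary asymptotics -/
theorem L16_entropy_size {B : ℕ} (hB : 1 ≤ B) {cc : ℝ} (hcc : 0 < cc) :
    ∃ d1 : ℕ, ∀ d : ℕ, d1 ≤ d →
      cc / (2 * B) * d ≤ ((d / B : ℕ) : ℝ) * cc - Real.log (2 * (B * ((d / B : ℕ) : ℝ) + 1)) := by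
  have h1 : Filter.Tendsto (fun x : ℝ => Real.log x / x) Filter.atTop (nhds 0) := by
    have := Real.isLittleO_log_id_atTop.tendsto_div_nhds_zero
    simpa using this
  have hBr : (1 : ℝ) ≤ B := by exact_mod_cast hB
  have hε : (0 : ℝ) < cc / (16 * B) := by positivity
  have h2 := (h1.eventually (gt_mem_nhds hε)).and (Filter.eventually_ge_atTop (1 : ℝ))
  obtain ⟨X, hX⟩ := Filter.eventually_atTop.1 h2
  obtain ⟨d1, hd1⟩ := exists_nat_ge (max X (max 1 (4 * (B : ℝ))))
  refine ⟨d1, fun d hd => ?_⟩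
  have hdr : (d1 : ℝ) ≤ d := by exact_mod_cast hd
  have hdX : X ≤ d := le_trans (le_trans (le_max_left _ _) hd1) hdr
  have hd1' : (1 : ℝ) ≤ d := le_trans (le_trans ((le_max_left _ _).trans (le_max_right _ _)) hd1) hdr
  have hd4 : 4 * (B : ℝ) ≤ d :=
    le_trans (le_trans ((le_max_right _ _).trans (le_max_right _ _)) hd1) hdr
  set m := d / B with hm
  have hmle : (B : ℝ) * m ≤ d := by
    have : B * m ≤ d := Nat.mul_div_le d B
    exact_mod_cast this
  have hmge : (d : ℝ) ≤ B * (m + 1) := by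
    have : d < B * (m + 1) := Nat.lt_mul_div_succ d (by omega)
    have h3 : (d : ℝ) < B * (m + 1) := by exact_mod_cast this
    exact h3.le
  have hm0 : (0 : ℝ) ≤ m := Nat.cast_nonneg m
  -- log (2 (B m + 1)) ≤ log (4 d) ≤ ...
  have hx : X ≤ 4 * (d : ℝ) := by linarith
  have h4 := (hX (4 * d) hx).1
  have h4d : (0 : ℝ) < 4 * d := by linarith
  rw [div_lt_iff₀ h4d] at h4
  have hlog : Real.log (2 * (B * (m : ℝ) + 1)) ≤ Real.log (4 * d) := by
    apply Real.log_le_log (by positivity)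
    linarith
  have e1 : cc / (16 * B) * (4 * d) = cc / (4 * B) * d := by field_simp; ring
  rw [e1] at h4
  have hm2 : (d : ℝ) / B - 1 ≤ m := by
    rw [sub_le_iff_le_add, div_le_iff₀ (by linarith)]
    linarith
  have hm3 : ((d : ℝ) / B - 1) * cc ≤ m * cc := mul_le_mul_of_nonneg_right hm2 hcc.le
  have hm4 : cc ≤ cc / (4 * B) * d := by
    rw [div_mul_eq_mul_div, le_div_iff₀ (by linarith)]
    exact mul_le_mul_of_nonneg_left hd4 hcc.le
  have e2 : (d : ℝ) / B * cc = cc / (2 * B) * d + cc / (4 * B) * d + cc / (4 * B) * d := by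
    field_simp; ring
  nlinarith

/-- elementary: exponential growth beats constants -/
theorem L16_exp_size {δ K : ℝ} (hδ : 0 < δ) : ∃ d2 : ℕ, ∀ d : ℕ, d2 ≤ d → K ≤ Real.exp (δ * d) := by
  obtain ⟨d2, hd2⟩ := exists_nat_ge (K / δ)
  refine ⟨d2, fun d hd => ?_⟩
  have h1 : K / δ ≤ d := hd2.trans (by exact_mod_cast hd)
  rw [div_le_iff₀ hδ] at h1
  have h2 := Real.add_one_le_exp (δ * d)
  linarith

/-- choice of the small constants -/
theorem L16_consts {lam Λ ε τ R : ℝ} (hlam : 0 < lam) (hΛ : 0 < Λ) (hε : 0 < ε) (hτ : 0 < τ)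
    (hR : 0 ≤ R) : ∃ s δ : ℝ, 0 < s ∧ s ≤ 1 / 8 ∧ 0 < δ ∧ lam * s ^ 2 = (lam + 4) * δ ∧
      (lam + 2) * δ ≤ Λ ∧ 4 * (ε * Λ / 8 + (lam + 2) * δ) / Λ ≤ ε ∧
      (4 + lam) * δ + lam * s + 4 * s * R < τ := by
  obtain ⟨s, hs0, h1, h2, h3, h4⟩ : ∃ s : ℝ, 0 < s ∧ s ≤ 1 / 8 ∧ s * (lam + 2) ≤ Λ ∧
      s * (8 * (lam + 2)) ≤ ε * Λ ∧ s * (2 * lam + 4 * R + 1) < τ := by
    refine ⟨min (min (1 / 8) (Λ / (lam + 2))) (min (ε * Λ / (8 * (lam + 2)))
      (τ / (2 * (2 * lam + 4 * R + 1)))), ?_, ?_, ?_, ?_, ?_⟩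
    · apply lt_min (lt_min (by norm_num) (by positivity)) (lt_min (by positivity) (by positivity))
    · exact (min_le_left _ _).trans (min_le_left _ _)
    · have h := (min_le_left (min (1 / 8 : ℝ) (Λ / (lam + 2))) (min (ε * Λ / (8 * (lam + 2)))
        (τ / (2 * (2 * lam + 4 * R + 1))))).trans (min_le_right _ _)
      rwa [le_div_iff₀ (by positivity)] at h
    · have h := (min_le_right (min (1 / 8 : ℝ) (Λ / (lam + 2))) (min (ε * Λ / (8 * (lam + 2)))
        (τ / (2 * (2 * lam + 4 * R + 1))))).trans (min_le_left _ _)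
      rwa [le_div_iff₀ (by positivity)] at h
    · have h := (min_le_right (min (1 / 8 : ℝ) (Λ / (lam + 2))) (min (ε * Λ / (8 * (lam + 2)))
        (τ / (2 * (2 * lam + 4 * R + 1))))).trans (min_le_right _ _)
      rw [le_div_iff₀ (by positivity)] at h
      linarith
  have hδ : lam * s ^ 2 / (lam + 4) ≤ s := by
    rw [div_le_iff₀ (by positivity)]
    have : s ^ 2 ≤ s := by nlinarith
    nlinarith
  have hδ0 : 0 < lam * s ^ 2 / (lam + 4) := by positivity
  refine ⟨s, lam * s ^ 2 / (lam + 4), hs0, h1, hδ0, by field_simp, ?_, ?_, ?_⟩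
  · nlinarith
  · rw [div_le_iff₀ hΛ]
    nlinarith
  · have e : (4 + lam) * (lam * s ^ 2 / (lam + 4)) = lam * s ^ 2 := by
      field_simp
      ring
    rw [e]
    have hss : s ^ 2 ≤ s := by nlinarith
    have : lam * s ^ 2 ≤ lam * s := mul_le_mul_of_nonneg_left hss hlam.le
    nlinarith

open Classical in
/-- Theorem R -/
theorem thmR (hψ : 0 < S.psibar) : ∃ n : ℕ, ∀ v : ℤ, 0 < S.Psi n v := by
  by_contra hcon
  push Not at hcon
  obtain ⟨lam, hlam, hE⟩ := S.pressure hψ hcon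
  obtain ⟨Λ, hΛ1, hΛ2⟩ := S.fekete lam
  obtain ⟨C0, hC0, h0⟩ := S.exists_C0
  -- the pressure is positive
  have hΛ : 0 < Λ := by
    obtain ⟨n0, hn0⟩ := hΛ2 (1 / 2) (by norm_num)
    have h1 := (hE (max n0 1)).trans (hn0 (max n0 1) (le_max_left _ _))
    rw [Real.exp_le_exp] at h1
    have h2 : (0 : ℝ) < ((max n0 1 : ℕ) : ℝ) := by
      have : 0 < max n0 1 := by simp
      exact_mod_cast this
    nlinarith
  have hLpos : (0 : ℝ) < S.L := by exact_mod_cast S.hL
  have hBr : (1 : ℝ) ≤ S.B := by exact_mod_cast S.hB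
  have hc1 : 0 < 1 - S.c := by linarith [S.hc1]
  set cc : ℝ := - Real.log (1 - S.c) with hcc
  have hccpos : 0 < cc := by
    have := Real.log_neg hc1 (by linarith [S.hc])
    rw [hcc]; linarith
  set c2 : ℝ := cc / (2 * S.B) with hc2
  have hc2pos : 0 < c2 := by positivity
  obtain ⟨ε, hε, hINV⟩ := INV (c2 / S.L) (by positivity)
  set θ0 : ℝ := Λ ^ 2 / (8 * lam ^ 2 * C0 ^ 2) with hθ0
  have hθ0pos : 0 < θ0 := by positivity
  obtain ⟨n1, hn1⟩ := hΛ2 (ε * Λ / 8) (by positivity)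
  obtain ⟨T, hT1, hTZ⟩ : ∃ T : ℕ, 1 ≤ T ∧ S.Z lam T ≤ Real.exp ((Λ + ε * Λ / 8) * T) :=
    ⟨max n1 1, le_max_right _ _, hn1 _ (le_max_left _ _)⟩
  obtain ⟨τ, hτ, k0, hτk⟩ := hINV (θ0 / S.L) (by positivity) (S.L * T)
    (Nat.mul_pos S.hL hT1)
  have hlog3 : 0 < Real.log 3 := Real.log_pos (by norm_num)
  obtain ⟨s, δ, hs, hs8, hδ, hsδ, hδΛ, hδε, hfin⟩ :=
    L16_consts (τ := τ * S.L) (R := S.L * Real.log 3) hlam hΛ hε (by positivity) (by positivity)
  -- thresholds
  obtain ⟨n2, hn2⟩ := hΛ2 δ hδ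
  obtain ⟨n3, hn3⟩ := L16_exp_size (K := 2 * C0 / δ + 2) hδ
  obtain ⟨n4, hn4⟩ := L16_exp_size (K := C0 / s ^ 2) hδ
  obtain ⟨n5, hn5⟩ := L16_entropy_size S.hB hccpos
  obtain ⟨n6, hn6⟩ := exists_nat_ge (Real.log 2 / δ)
  obtain ⟨n7, hn7⟩ := S.distinct_ends
  set k : ℕ := n2 + n3 + n4 + n5 + n6 + n7 + k0 + 1 with hk
  set d : ℕ := k * T with hd
  have hkd : k ≤ d := Nat.le_mul_of_pos_right k hT1
  have hk1 : 1 ≤ k := by omega
  have hd1 : 1 ≤ d := hk1.trans hkd
  have hdr : (0 : ℝ) < d := by exact_mod_cast hd1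
  have hZd := hn2 d (by omega)
  have hbins := hn3 d (by omega)
  have hsmall := hn4 d (by omega)
  have hsize := hn5 d (by omega)
  have hlog2 : Real.log 2 ≤ δ * d := by
    have h1 : (n6 : ℝ) ≤ d := by
      have : n6 ≤ d := by omega
      exact_mod_cast this
    have h2 := hn6.trans h1
    rw [div_le_iff₀ hδ] at h2
    linarith
  have hdist := hn7 d (by omega)
  -- the prefix
  obtain ⟨i, hi, v, hv⟩ := S.exists_prefix hΛ1 hδ hd1
  set N : ℕ := i * d with hN
  have hNd : d ≤ N := Nat.le_mul_of_pos_left d hi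
  have hcardG : (Fintype.card (ZMod (3 ^ (S.L * d))) : ℝ) = 3 ^ (S.L * d) := by
    rw [ZMod.card]; push_cast; rfl
  have : Nonempty (ZMod (3 ^ (S.L * d))) := ⟨0⟩
  have h3pos : (0 : ℝ) < 3 ^ (S.L * d) := by positivity
  obtain ⟨κ, hκ⟩ := binning (X := ZMod (3 ^ (S.L * d)))
    (fun x => S.rl N d v (x.val : ℤ)) (E := Real.exp ((Λ - δ) * d)) hC0 hlam hδ hdr
    (fun x => S.rl_bound h0 N d v _) (by rw [hcardG]; exact hv)
  rw [hcardG] at hκ
  set S0 : Finset (ZMod (3 ^ (S.L * d))) := univ.filter (fun x => κ * d ≤ S.rl N d v (x.val : ℤ) ∧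
    S.rl N d v (x.val : ℤ) < (κ + δ) * d) with hS0
  have hstar : Real.exp ((Λ - 2 * δ) * d) ≤
      (S0.card : ℝ) / 3 ^ (S.L * d) * Real.exp (lam * (κ + δ) * d) := by
    have h1 : 0 ≤ (S0.card : ℝ) / 3 ^ (S.L * d) * Real.exp (lam * (κ + δ) * d) := by positivity
    have h2 := hκ.trans (mul_le_mul_of_nonneg_right hbins h1)
    have h3 : Real.exp ((Λ - δ) * d) = Real.exp (δ * d) * Real.exp ((Λ - 2 * δ) * d) := by
      rw [← Real.exp_add]; congr 1; ring
    rw [h3] at h2
    exact le_of_mul_le_mul_left h2 (Real.exp_pos _)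
  have hS0card : (0 : ℝ) < S0.card := by
    rcases (Nat.cast_nonneg (α := ℝ) S0.card).eq_or_lt with h | h
    · rw [← h] at hstar
      simp only [zero_div, zero_mul] at hstar
      exact absurd (Real.exp_pos _) (not_lt.2 hstar)
    · exact h
  have hS0ne : S0.Nonempty := by
    rw [← Finset.card_pos]; exact_mod_cast hS0card
  have hlogstar : (Λ - 2 * δ) * d ≤
      Real.log S0.card - S.L * d * Real.log 3 + lam * (κ + δ) * d := by
    have h1 := Real.log_le_log (Real.exp_pos _) hstar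
    rw [Real.log_exp, Real.log_mul (by positivity) (Real.exp_pos _).ne', Real.log_exp,
      Real.log_div hS0card.ne' h3pos.ne', Real.log_pow] at h1
    push_cast at h1
    exact h1
  have hcard : S.L * d * Real.log 3 + (Λ - 2 * δ) * d - lam * (κ + δ) * d ≤
      Real.log S0.card := by linarith
  have hlogS0 : Real.log S0.card ≤ S.L * d * Real.log 3 := by
    have h1 : (S0.card : ℝ) ≤ 3 ^ (S.L * d) := by
      rw [← hcardG]
      exact_mod_cast Finset.card_le_univ S0
    have h2 := Real.log_le_log hS0card h1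
    rw [Real.log_pow] at h2
    push_cast at h2
    exact h2
  have hκ0 : 0 ≤ κ := by
    have h1 : (Λ - 2 * δ) * d ≤ lam * (κ + δ) * d := by linarith
    have h2 : Λ - 2 * δ ≤ lam * (κ + δ) := le_of_mul_le_mul_right h1 hdr
    have h3 : 0 ≤ lam * κ := by nlinarith
    exact nonneg_of_mul_nonneg_right h3 hlam
  -- few bad points for each word
  set η : ℝ := s ^ 2 with hη
  have hηpos : 0 < η := by positivity
  have hsq : Real.sqrt η = s := by rw [hη, Real.sqrt_sq hs.le]
  have hfew : ∀ w ∈ words ι N, ((S0.filter (fun x => (κ + η) * d ≤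
      S.loss d (S.tW v w + 2 ^ (S.bw w) * (x.val : ℤ)))).card : ℝ) ≤
      Real.exp (-(δ * d)) * S0.card := by
    intro w _
    have h1 := S.card_loss_le hlam d (S.tW v w) (S.bw w) ((κ + η) * d)
    have h2 : ((S0.filter (fun x => (κ + η) * d ≤
        S.loss d (S.tW v w + 2 ^ (S.bw w) * (x.val : ℤ)))).card : ℝ) ≤
        ((univ.filter (fun x : ZMod (3 ^ (S.L * d)) => (κ + η) * d ≤
        S.loss d (S.tW v w + 2 ^ (S.bw w) * (x.val : ℤ)))).card : ℝ) := by
      exact_mod_cast Finset.card_le_card (Finset.filter_subset_filter _ (Finset.subset_univ _))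
    refine (h2.trans h1).trans ?_
    have h3 : (3 : ℝ) ^ (S.L * d) * (Real.exp (-(lam * ((κ + η) * d))) * S.Z lam d) ≤
        3 ^ (S.L * d) * (Real.exp (-(lam * ((κ + η) * d))) * Real.exp ((Λ + δ) * d)) := by
      gcongr
    refine h3.trans ?_
    have h4 : Real.exp (-(lam * ((κ + η) * d))) * Real.exp ((Λ + δ) * d) =
        Real.exp (-(δ * d)) * (Real.exp ((Λ - 2 * δ) * d) * Real.exp (-(lam * (κ + δ) * d))) := by
      rw [← Real.exp_add, ← Real.exp_add, ← Real.exp_add]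
      congr 1
      have : lam * η = (lam + 4) * δ := hsδ
      linear_combination (-(d : ℝ)) * this
    rw [h4]
    have h5 : Real.exp ((Λ - 2 * δ) * d) * Real.exp (-(lam * (κ + δ) * d)) ≤
        (S0.card : ℝ) / 3 ^ (S.L * d) := by
      have h6 := mul_le_mul_of_nonneg_right hstar (Real.exp_pos (-(lam * (κ + δ) * d))).le
      refine h6.trans (le_of_eq ?_)
      rw [mul_assoc, ← Real.exp_add]
      rw [add_neg_cancel, Real.exp_zero, mul_one]
    calc (3 : ℝ) ^ (S.L * d) * (Real.exp (-(δ * d)) *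
          (Real.exp ((Λ - 2 * δ) * d) * Real.exp (-(lam * (κ + δ) * d)))) ≤
          3 ^ (S.L * d) * (Real.exp (-(δ * d)) * ((S0.card : ℝ) / 3 ^ (S.L * d))) := by gcongr
      _ = Real.exp (-(δ * d)) * S0.card := by field_simp
  have hmost := most_pairs S0 (words ι N) (fun w => S.PW v w)
    (fun w (x : ZMod (3 ^ (S.L * d))) => S.loss d (S.tW v w + 2 ^ (S.bw w) * (x.val : ℤ)))
    (C := C0) (d := d) (κ := κ) (η := η) (e := Real.exp (-(δ * d)))
    (fun w => S.PW_nonneg v w) (S.sum_PW N v) hdr hC0 hκ0 hηpos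
    (fun w x => S.loss_bound h0 d _) hS0ne (by
      intro x hx
      have h1 := (Finset.mem_filter.1 hx).2.1
      rw [S.rl_eq] at h1
      exact h1) hfew (by
      rw [Real.exp_neg, ← div_eq_mul_inv, div_le_iff₀ (Real.exp_pos _)]
      rw [div_le_iff₀ (by positivity)] at hsmall
      rw [hη]
      linarith)
  rw [hsq] at hmost
  -- the near-extremal set
  set A : Finset (ZMod (3 ^ (S.L * d))) :=
    univ.filter (fun x => (κ - s) * d ≤ S.loss d (x.val : ℤ)) with hA
  have hAcard : (A.card : ℝ) ≤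
      3 ^ (S.L * d) * (Real.exp (-(lam * ((κ - s) * d))) * Real.exp ((Λ + δ) * d)) := by
    have h1 := S.card_loss_le hlam d 0 0 ((κ - s) * d)
    simp only [pow_zero, one_mul, zero_add] at h1
    refine h1.trans ?_
    gcongr
  -- ancestor
  set m : ℕ := d / S.B with hm
  have hmN : m ≤ N := (Nat.div_le_self _ _).trans hNd
  set fail : List ι → ℝ := fun w => ((S0.filter (fun x : ZMod (3 ^ (S.L * d)) =>
    S.loss d (S.tW v w + 2 ^ (S.bw w) * (x.val : ℤ)) < (κ - s) * d)).card : ℝ) / S0.card with hfaild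
  obtain ⟨u, hu, bs, hmass, hfailu⟩ := S.ancestor (m := m) hmN v fail
    (fun w => by rw [hfaild]; positivity) (φ := 2 * s) hmost
  have hulen : u.length = N - m := mem_words.1 hu
  -- translation of the failure
  have htrans : ∀ w ∈ (words ι m).filter (fun w => S.bw w = bs),
      fail (u ++ w) = ((S0.filter (fun z : ZMod (3 ^ (S.L * d)) =>
        ((S.tW (S.tW v u) w : ℤ) : ZMod (3 ^ (S.L * d))) + 2 ^ (S.bw u + bs) * z ∉ A)).card : ℝ) /
          S0.card := by
    intro w hw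
    rw [Finset.mem_filter] at hw
    rw [hfaild]
    simp only
    congr 2
    apply congrArg Finset.card
    apply Finset.filter_congr
    intro z _
    rw [hA, Finset.mem_filter, S.tW_append, S.bw_append, hw.2]
    simp only [Finset.mem_univ, true_and, not_le]
    have h1 := Per_val (S.loss_per d) (S.tW (S.tW v u) w + 2 ^ (S.bw u + bs) * (z.val : ℤ))
    have h2 : (((S.tW (S.tW v u) w + 2 ^ (S.bw u + bs) * (z.val : ℤ) : ℤ)) :
        ZMod (3 ^ (S.L * d))) =
        ((S.tW (S.tW v u) w : ℤ) : ZMod (3 ^ (S.L * d))) + 2 ^ (S.bw u + bs) * z := by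
      push_cast
      rw [ZMod.natCast_zmod_val]
    rw [h2] at h1
    rw [h1]
  have hμ0 : (0 : ℝ) < 1 / (2 * (S.B * m + 1)) := by positivity
  obtain ⟨q, A', hq, hqle, hA'card, hA'mass⟩ := S.exists_Y (m := m) (S.tW v u) (S.bw u) bs S0 A
    hS0ne (φ := 4 * s) hμ0 hmass
    (fun u' w' hu' hw' hb hPu hPw he => hdist (S.tW v u) u' w' hu' hw' hb hPu hPw he) (by
      have h1 : ∑ w ∈ (words ι m).filter (fun w => S.bw w = bs), S.PW (S.tW v u) w *
          (((S0.filter (fun z : ZMod (3 ^ (S.L * d)) =>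
            ((S.tW (S.tW v u) w : ℤ) : ZMod (3 ^ (S.L * d))) +
              2 ^ (S.bw u + bs) * z ∉ A)).card : ℝ) / S0.card) =
          ∑ w ∈ (words ι m).filter (fun w => S.bw w = bs),
            S.PW (S.tW v u) w * fail (u ++ w) :=
        Finset.sum_congr rfl (fun w hw => by rw [htrans w hw])
      rw [h1]
      refine hfailu.trans (le_of_eq ?_)
      ring)
  -- entropy of Y
  have hqent : c2 * d ≤ ent q := by
    apply min_ent hq
    intro y
    refine (hqle y).trans ?_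
    have h1 : (1 - S.c) ^ m / (1 / (2 * ((S.B : ℝ) * m + 1))) =
        Real.exp (-(m * cc - Real.log (2 * (S.B * (m : ℝ) + 1)))) := by
      have h2 : (1 - S.c) ^ m = Real.exp (-(m * cc)) := by
        rw [hcc, mul_neg, neg_neg, mul_comm, Real.exp_mul, Real.exp_log hc1, Real.rpow_natCast]
      have h3 : (0 : ℝ) < 2 * (S.B * (m : ℝ) + 1) := by positivity
      have h5 : -(m * cc - Real.log (2 * (S.B * (m : ℝ) + 1))) =
          -(m * cc) + Real.log (2 * (S.B * (m : ℝ) + 1)) := by ring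
      rw [h5, Real.exp_add, Real.exp_log h3, h2, one_div, div_inv_eq_mul]
    rw [h1, Real.exp_le_exp]
    have h4 : c2 * d ≤ m * cc - Real.log (2 * (S.B * (m : ℝ) + 1)) := hsize
    linarith
  -- support bound
  have hX : IsPmf (uS S0) := uS_pmf hS0ne
  have hXY : IsPmf (conv (uS S0) q) := hX.conv hq
  have hA'pos : 1 ≤ A'.card := by
    rw [Nat.one_le_iff_ne_zero]
    intro h0
    rw [Finset.card_eq_zero] at h0
    rw [h0, Finset.sum_empty] at hA'mass
    linarith
  have hns := near_support hXY A' hA'pos (η := 4 * s) (by positivity) hA'mass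
  have hApos : (0 : ℝ) < A.card := by
    rw [hA'card] at hA'pos
    exact_mod_cast hA'pos
  have hlogA : Real.log A'.card ≤ Real.log S0.card + ((3 + lam) * δ + lam * s) * d := by
    rw [hA'card]
    have h1 := Real.log_le_log hApos hAcard
    rw [Real.log_mul (by positivity) (by positivity), Real.log_pow, ← Real.exp_add,
      Real.log_exp] at h1
    push_cast at h1
    nlinarith
  have hlogG : Real.log (Fintype.card (ZMod (3 ^ (S.L * d)))) = S.L * d * Real.log 3 := by
    rw [hcardG, Real.log_pow]; push_cast; ring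
  rw [hlogG] at hns
  -- deficits
  have hdef := S.deficits hC0 h0 (Λ := Λ) (δ := δ) (δ1 := ε * Λ / 8) (κ := κ) (N := N) hlam hΛ hδ
    (by positivity) hT1 hk1 hd hTZ v S0 hS0ne (fun x hx => (Finset.mem_filter.1 hx).2.1) hcard
  have hkr : (0 : ℝ) < k := by exact_mod_cast hk1
  have hdef2 := hdef.trans (mul_le_mul_of_nonneg_right hδε hkr.le)
  have hWT : θ0 / S.L * ((S.L * T : ℕ) : ℝ) = θ0 * T := by
    push_cast; field_simp
  have hfinal := hτk k (S.L * d) (by omega) (by rw [hd]; ring) (uS S0) q hX hq (by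
    push_cast
    have : c2 / S.L * (S.L * (d : ℝ)) = c2 * d := by field_simp
    rw [this]
    exact hqent) (by
    rw [hWT]
    exact hdef2)
  rw [ent_uS hS0ne] at hfinal
  push_cast at hfinal
  have h1 : τ * (S.L * (d : ℝ)) ≤
      ((3 + lam) * δ + lam * s) * d + 4 * s * (S.L * d * Real.log 3) + δ * d := by linarith
  have h2 : τ * S.L * d ≤ ((4 + lam) * δ + lam * s + 4 * s * (S.L * Real.log 3)) * d := by
    nlinarith
  have h3 := le_of_mul_le_mul_right h2 hdr
  linarith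

end Sys

end Pool.Agent.Lib.MP_e43fce_nt_one
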