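import Pool.Agent.Lib.MP_e43fce_nt_one.Defs
import Pool.Agent.Lib.MP_e43fce_nt_one.T01
import Pool.Agent.Lib.MP_e43fce_nt_one.T02
import Pool.Agent.Lib.MP_e43fce_nt_one.L04

/-!
Module T02b: periodicity and cocycle of the weighted numbers of descendants.
-/

set_option autoImplicit false

open Finset

namespace Pool.Agent.Lib.MP_e43fce_nt_one

theorem Gw_per (A : ℕ) (ω : ℕ → ℝ) (n : ℕ) : Per n (Gw A ω n) := by
  induction n with
  | zero => intro v z; simp [Gw]
  | succ n ih =>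
    intro v z
    simp only [Gw]
    apply Finset.sum_congr rfl
    intro j _
    rw [T02_cv_shift, ih]
    by_cases h : adm1 v j
    · rw [if_pos h, if_pos ((T02_adm1_shift v z n j).2 h)]
    · rw [if_neg h, if_neg (fun hc => h ((T02_adm1_shift v z n j).1 hc))]

theorem Gw_cocycle (A : ℕ) (ω : ℕ → ℝ) (m n : ℕ) (v z : ℤ) : Gw A ω (m + n) (v + 3 ^ m * z) =
    ∑ w ∈ lw A m, if adm v w then (w.map ω).prod * Gw A ω n (te v w + 2 ^ w.sum * z) else 0 := by
  rw [Gw_add]
  apply Finset.sum_congr rfl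
  intro w hw
  have hl : w.length = m := (mem_lw.1 hw).1
  subst hl
  by_cases h : adm v w
  · rw [if_pos h, if_pos ((adm_shift v z w).2 h), te_shift h]
  · rw [if_neg h, if_neg (fun hc => h ((adm_shift v z w).1 hc))]

theorem Mn_one_ge {A : ℕ} (hA : 6 ≤ A) (v : ℤ) : 1 / 4 ≤ Mn A 1 v := by
  have b2 : bt 2 = 0 := by norm_num [bt, eps]
  have b4 : bt 4 = 8 := by norm_num [bt, eps]
  have b1 : bt 1 = -1 := by norm_num [bt, eps]
  have b5 : bt 5 = 19 := by norm_num [bt, eps]
  have hM : Mn A 1 v = ∑ j ∈ Icc 1 A, if adm1 v j then (3 : ℝ) / 2 ^ j else 0 := by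
    simp [Mn, Gw]
  rw [hM]
  have hnn : ∀ j ∈ Icc 1 A, (0 : ℝ) ≤ if adm1 v j then (3 : ℝ) / 2 ^ j else 0 := by
    intro j _
    split_ifs
    · positivity
    · exact le_rfl
  have h3 : v % 3 = 0 ∨ v % 3 = 1 ∨ v % 3 = 2 := by omega
  rcases h3 with h | h | h
  · have ha : adm1 v 2 := by
      unfold adm1
      rw [b2]
      norm_num
      omega
    refine le_trans ?_ (Finset.single_le_sum hnn (Finset.mem_Icc.2 ⟨by norm_num, by omega⟩ :
      2 ∈ Icc 1 A))
    rw [if_pos ha]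
    norm_num
  · have ha : adm1 v 4 := by
      unfold adm1
      rw [b4]
      norm_num
      omega
    have hb : adm1 v 5 := by
      unfold adm1
      rw [b5]
      norm_num
      omega
    have hsub : ({4, 5} : Finset ℕ) ⊆ Icc 1 A := by
      intro x hx
      rw [Finset.mem_insert, Finset.mem_singleton] at hx
      rw [Finset.mem_Icc]
      omega
    refine le_trans ?_ (Finset.sum_le_sum_of_subset_of_nonneg hsub (fun j hj _ => hnn j hj))
    rw [Finset.sum_pair (by norm_num), if_pos ha, if_pos hb]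
    norm_num
  · have ha : adm1 v 1 := by
      unfold adm1
      rw [b1]
      norm_num
      omega
    refine le_trans ?_ (Finset.single_le_sum hnn (Finset.mem_Icc.2 ⟨by norm_num, by omega⟩ :
      1 ∈ Icc 1 A))
    rw [if_pos ha]
    norm_num

/-- one more step loses at most a factor `4` -/
theorem Mn_succ_ge {A : ℕ} (hA : 6 ≤ A) (n : ℕ) (v : ℤ) : 1 / 4 * Mn A n v ≤ Mn A (n + 1) v := by
  unfold Mn
  rw [Gw_add, Gw_eq, Finset.mul_sum]
  apply Finset.sum_le_sum
  intro w _
  split_ifs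
  · have h1 : (0 : ℝ) ≤ (w.map (fun j => (3 : ℝ) / 2 ^ j)).prod := by
      rw [prod_w1]
      positivity
    have h2 := Mn_one_ge hA (te v w)
    unfold Mn at h2
    nlinarith
  · simp

theorem Mn_ge {A : ℕ} (hA : 6 ≤ A) (n : ℕ) (v : ℤ) : (1 / 4 : ℝ) ^ n ≤ Mn A n v := by
  induction n with
  | zero => simp [Mn, Gw]
  | succ n ih =>
    rw [pow_succ]
    have := Mn_succ_ge hA n v
    linarith

theorem Mn_pos {A : ℕ} (hA : 6 ≤ A) (n : ℕ) (v : ℤ) : 0 < Mn A n v :=
  lt_of_lt_of_le (by positivity) (Mn_ge hA n v)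

end Pool.Agent.Lib.MP_e43fce_nt_one
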