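import Pool.Agent.Lib.MP_e43fce_nt_one.Defs
import Pool.Agent.Lib.MP_e43fce_nt_one.T01
import Pool.Agent.Lib.MP_e43fce_nt_one.T02
import Pool.Agent.Lib.MP_e43fce_nt_one.T04

/-!
Module T05.
typ_count: the words counted have Nw = 2^b(2+3v) mod 3^k (te_eq), distinct Nw (Nw_inj), all in [0,
K 2^b]: an interval of that length contains at most K 2^b/3^k + 1 integers of a class mod 3^k.
typ_sum: group by b = w.sum in [17k/10, Kk] (at most Kk+1 values), each b contributes (K
2^b/3^k+1) 3^k/2^b = K + 3^k/2^b <= K+1 since 2^b >= 3^k when 10 b >= 17 k (2^17 >= 3^10).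
-/

set_option autoImplicit false

open Finset

namespace Pool.Agent.Lib.MP_e43fce_nt_one

theorem T05_eq_of_div {x y c q : ℤ} (hq : 0 < q) (hx : q ∣ c - x) (hy : q ∣ c - y)
    (h : x / q = y / q) : x = y := by
  have h1 : q ∣ x - y := by
    have := dvd_sub hy hx
    rwa [show c - y - (c - x) = x - y by ring] at this
  have h2 := Int.emod_emod_of_dvd x (dvd_refl q)
  have h3 : x % q = y % q := (Int.emod_emod_of_dvd x (dvd_refl q)).symm.trans
    ((Int.ModEq.symm (Int.modEq_iff_dvd.mpr h1) : x ≡ y [ZMOD q]) ▸ h2)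
  rw [← Int.mul_ediv_add_emod x q, ← Int.mul_ediv_add_emod y q, h, h3]

theorem typ_count (A K k b : ℕ) (v : ℤ) :
    ((((lw A k).filter (fun w => adm v w ∧ w.sum = b ∧ Nw w ≤ K * 2 ^ b)).card : ℕ) : ℝ) ≤
      K * 2 ^ b / 3 ^ k + 1 := by
  have hcard : ((lw A k).filter (fun w => adm v w ∧ w.sum = b ∧ Nw w ≤ K * 2 ^ b)).card ≤
      (range (K * 2 ^ b / 3 ^ k + 1)).card := by
    refine card_le_card_of_injOn (fun w => (Nw w / 3 ^ k).toNat) ?_ ?_
    · intro w hw
      rw [mem_coe, mem_filter] at hw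
      obtain ⟨-, -, -, h3⟩ := hw
      rw [mem_coe, mem_range, Nat.lt_succ_iff]
      have h4 : Nw w / 3 ^ k ≤ (K * 2 ^ b : ℤ) / 3 ^ k := Int.ediv_le_ediv (by positivity) h3
      have h5 : ((K * 2 ^ b / 3 ^ k : ℕ) : ℤ) = (K * 2 ^ b : ℤ) / 3 ^ k := by push_cast; rfl
      rw [← h5] at h4
      exact Int.toNat_le.mpr h4
    · intro w hw w' hw' h
      rw [mem_coe, mem_filter, mem_lw] at hw hw'
      obtain ⟨⟨l1, l2⟩, a1, s1, -⟩ := hw
      obtain ⟨⟨l1', l2'⟩, a1', s1', -⟩ := hw'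
      have hn := Nw_nonneg w
      have hn' := Nw_nonneg w'
      have h6 : Nw w / 3 ^ k = Nw w' / 3 ^ k := by
        have h7 : 0 ≤ Nw w / 3 ^ k := Int.ediv_nonneg hn (by positivity)
        have h8 : 0 ≤ Nw w' / 3 ^ k := Int.ediv_nonneg hn' (by positivity)
        have h9 : (Nw w / 3 ^ k).toNat = (Nw w' / 3 ^ k).toNat := h
        omega
      have e1 := te_eq a1
      have e2 := te_eq a1'
      rw [l1, s1] at e1
      rw [l1', s1'] at e2
      refine Nw_inj (fun j hj => (l2 j hj).1) (fun j hj => (l2' j hj).1) (by rw [l1, l1'])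
        (by rw [s1, s1']) ?_
      exact T05_eq_of_div (q := 3 ^ k) (c := 2 ^ b * (2 + 3 * v)) (by positivity)
        ⟨_, e1.symm⟩ ⟨_, e2.symm⟩ h6
  rw [card_range] at hcard
  calc ((((lw A k).filter (fun w => adm v w ∧ w.sum = b ∧ Nw w ≤ K * 2 ^ b)).card : ℕ) : ℝ)
      ≤ ((K * 2 ^ b / 3 ^ k + 1 : ℕ) : ℝ) := by exact_mod_cast hcard
    _ = ((K * 2 ^ b / 3 ^ k : ℕ) : ℝ) + 1 := by push_cast; ring
    _ ≤ ((K * 2 ^ b : ℕ) : ℝ) / ((3 ^ k : ℕ) : ℝ) + 1 := by gcongr; exact Nat.cast_div_le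
    _ = K * 2 ^ b / 3 ^ k + 1 := by push_cast; ring

theorem T05_pow {k b : ℕ} (h : 17 * k ≤ 10 * b) : (3 : ℝ) ^ k ≤ 2 ^ b := by
  have h1 : ((3 : ℝ) ^ k) ^ 10 ≤ (2 ^ b) ^ 10 := by
    rw [← pow_mul, ← pow_mul, mul_comm k 10, mul_comm b 10, pow_mul]
    calc ((3 : ℝ) ^ 10) ^ k ≤ (2 ^ 17) ^ k := by gcongr; norm_num
      _ = 2 ^ (17 * k) := by rw [← pow_mul]
      _ ≤ 2 ^ (10 * b) := pow_le_pow_right₀ (by norm_num) h
  exact le_of_pow_le_pow_left₀ (by norm_num) (by positivity) h1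

theorem typ_sum (A K k : ℕ) (v : ℤ) :
    ∑ w ∈ (lw A k).filter (fun w => typ K k w), (if adm v w then (3 ^ k / 2 ^ w.sum : ℝ) else 0) ≤
      (K * k + 1) * (K + 1) := by
  have hmaps : ∀ w ∈ (lw A k).filter (fun w => typ K k w), w.sum ∈ range (K * k + 1) := by
    intro w hw
    rw [mem_filter] at hw
    rw [mem_range]
    exact Nat.lt_succ_of_le hw.2.2.1
  rw [← sum_fiberwise_of_maps_to hmaps]
  have hb : ∀ b ∈ range (K * k + 1),
      ∑ w ∈ ((lw A k).filter (fun w => typ K k w)).filter (fun w => w.sum = b),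
        (if adm v w then (3 ^ k / 2 ^ w.sum : ℝ) else 0) ≤ (K : ℝ) + 1 := by
    intro b _
    by_cases h17 : 17 * k ≤ 10 * b
    · have h1 : ∑ w ∈ ((lw A k).filter (fun w => typ K k w)).filter (fun w => w.sum = b),
          (if adm v w then (3 ^ k / 2 ^ w.sum : ℝ) else 0) ≤
          ∑ w ∈ (lw A k).filter (fun w => adm v w ∧ w.sum = b ∧ Nw w ≤ K * 2 ^ b),
            (3 ^ k / 2 ^ b : ℝ) := by
        rw [← sum_filter]
        calc _ = ∑ w ∈ (((lw A k).filter (fun w => typ K k w)).filter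
              (fun w => w.sum = b)).filter (fun w => adm v w), (3 ^ k / 2 ^ b : ℝ) := by
              refine sum_congr rfl fun w hw => ?_
              rw [mem_filter, mem_filter] at hw
              rw [hw.1.2]
          _ ≤ _ := by
              refine sum_le_sum_of_subset_of_nonneg ?_ fun _ _ _ => by positivity
              intro w hw
              rw [mem_filter, mem_filter, mem_filter] at hw
              obtain ⟨⟨⟨h1, h2⟩, h3⟩, h4⟩ := hw
              rw [mem_filter]
              refine ⟨h1, h4, h3, ?_⟩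
              have h5 := h2.2.2
              rwa [h3] at h5
      refine h1.trans ?_
      rw [sum_const, nsmul_eq_mul]
      have h2 := typ_count A K k b v
      have h3 := T05_pow h17
      calc _ ≤ ((K : ℝ) * 2 ^ b / 3 ^ k + 1) * (3 ^ k / 2 ^ b) :=
            mul_le_mul_of_nonneg_right h2 (by positivity)
        _ = K + 3 ^ k / 2 ^ b := by field_simp
        _ ≤ K + 1 := by
            have : (3 : ℝ) ^ k / 2 ^ b ≤ 1 := by
              rw [div_le_one (by positivity)]; exact h3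
            linarith
    · have h0 : ((lw A k).filter (fun w => typ K k w)).filter (fun w => w.sum = b) = ∅ := by
        rw [filter_eq_empty_iff]
        intro w hw h
        rw [mem_filter] at hw
        apply h17
        have h5 := hw.2.1
        rwa [h] at h5
      rw [h0, sum_empty]
      positivity
  calc _ ≤ ∑ b ∈ range (K * k + 1), ((K : ℝ) + 1) := sum_le_sum hb
    _ = (K * k + 1) * (K + 1) := by
      rw [sum_const, card_range, nsmul_eq_mul]; push_cast; ring

end Pool.Agent.Lib.MP_e43fce_nt_one
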