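import Pool.Agent.Lib.MP_e43fce_nt_one.Defs
import Pool.Agent.Lib.MP_e43fce_nt_one.T01

/-!
Module T06a: Chernoff and Markov bounds for the total exponent of a word.
-/

set_option autoImplicit false

open Finset

namespace Pool.Agent.Lib.MP_e43fce_nt_one

theorem T06a_gen (A n : ℕ) (q : ℝ) :
    ∑ w ∈ lw A n, q ^ w.sum = (∑ j ∈ Icc 1 A, q ^ j) ^ n := by
  induction n with
  | zero => rw [sum_lw_zero]; simp
  | succ n ih =>
    rw [sum_lw_succ, pow_succ, ← ih, mul_comm, Finset.sum_mul_sum]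
    apply Finset.sum_congr rfl
    intro j _
    apply Finset.sum_congr rfl
    intro w _
    rw [List.sum_cons, pow_add]

theorem T06a_geo (A : ℕ) : ∑ j ∈ Icc 1 A, (7 / 17 : ℝ) ^ j = 7 / 10 * (1 - (7 / 17) ^ A) := by
  induction A with
  | zero => simp
  | succ A ih =>
    rw [Finset.sum_Icc_succ_top (by omega), ih, pow_succ]
    ring

theorem T06a_geo_le (A : ℕ) : ∑ j ∈ Icc 1 A, (7 / 17 : ℝ) ^ j ≤ 7 / 10 := by
  rw [T06a_geo]
  have : (0 : ℝ) ≤ (7 / 17) ^ A := by positivity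
  linarith

theorem low_mass (A k : ℕ) :
    ∑ w ∈ (lw A k).filter (fun w => 10 * w.sum < 17 * k), (1 / 2 ^ w.sum : ℝ) ≤
      (39 / 40 : ℝ) ^ k := by
  set c : ℝ := (17 / 14 : ℝ) ^ ((17 : ℝ) / 10) with hc
  have hc0 : 0 < c := by positivity
  have hc10 : c ^ 10 = (17 / 14 : ℝ) ^ 17 := by
    rw [hc, ← Real.rpow_natCast, ← Real.rpow_mul (by norm_num), ← Real.rpow_natCast]
    norm_num
  have hcle : 7 / 10 * c ≤ 39 / 40 := by
    by_contra hcon
    push Not at hcon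
    have h1 : (39 / 40 : ℝ) ^ 10 < (7 / 10 * c) ^ 10 :=
      pow_lt_pow_left₀ hcon (by norm_num) (by norm_num)
    rw [mul_pow, hc10] at h1
    norm_num at h1
  have hone : ∀ w : List ℕ, 10 * w.sum < 17 * k → (1 : ℝ) ≤ (14 / 17) ^ w.sum * c ^ k := by
    intro w hw
    by_contra hcon
    push Not at hcon
    have h0 : (0 : ℝ) ≤ (14 / 17) ^ w.sum * c ^ k := by positivity
    have h1 : ((14 / 17 : ℝ) ^ w.sum * c ^ k) ^ 10 < 1 := pow_lt_one₀ h0 hcon (by norm_num)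
    have h2 : ((14 / 17 : ℝ) ^ w.sum * c ^ k) ^ 10 =
        (14 / 17 : ℝ) ^ (10 * w.sum) * (17 / 14 : ℝ) ^ (17 * k) := by
      rw [mul_pow, ← pow_mul, ← pow_mul, mul_comm k 10, pow_mul c, hc10, ← pow_mul,
        mul_comm w.sum 10]
    obtain ⟨d, hd⟩ : ∃ d, 17 * k = 10 * w.sum + d := ⟨17 * k - 10 * w.sum, by omega⟩
    rw [h2, hd, pow_add, ← mul_assoc, ← mul_pow] at h1
    have h3 : (14 / 17 : ℝ) * (17 / 14) = 1 := by norm_num
    rw [h3, one_pow, one_mul] at h1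
    have h4 : (1 : ℝ) ≤ (17 / 14) ^ d := one_le_pow₀ (by norm_num)
    linarith
  calc ∑ w ∈ (lw A k).filter (fun w => 10 * w.sum < 17 * k), (1 / 2 ^ w.sum : ℝ)
      ≤ ∑ w ∈ (lw A k).filter (fun w => 10 * w.sum < 17 * k), c ^ k * (7 / 17 : ℝ) ^ w.sum := by
        apply Finset.sum_le_sum
        intro w hw
        have h1 := hone w (Finset.mem_filter.1 hw).2
        have h2 : (7 / 17 : ℝ) ^ w.sum = (1 / 2 ^ w.sum) * (14 / 17) ^ w.sum := by
          rw [← one_div_pow, ← mul_pow]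
          norm_num
        rw [h2]
        have h3 : (0 : ℝ) ≤ 1 / 2 ^ w.sum := by positivity
        nlinarith
    _ ≤ ∑ w ∈ lw A k, c ^ k * (7 / 17 : ℝ) ^ w.sum :=
        Finset.sum_le_sum_of_subset_of_nonneg (Finset.filter_subset _ _)
          (fun w _ _ => by positivity)
    _ = c ^ k * (∑ j ∈ Icc 1 A, (7 / 17 : ℝ) ^ j) ^ k := by
        rw [← Finset.mul_sum, T06a_gen]
    _ ≤ c ^ k * (7 / 10) ^ k := by
        apply mul_le_mul_of_nonneg_left _ (by positivity)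
        exact pow_le_pow_left₀ (Finset.sum_nonneg (fun j _ => by positivity)) (T06a_geo_le A) k
    _ = (7 / 10 * c) ^ k := by rw [mul_pow]; ring
    _ ≤ (39 / 40 : ℝ) ^ k := pow_le_pow_left₀ (by positivity) hcle k

theorem T06a_half_le (A : ℕ) : ∑ j ∈ Icc 1 A, (1 / 2 : ℝ) ^ j ≤ 1 := by
  have : ∑ j ∈ Icc 1 A, (1 / 2 : ℝ) ^ j = 1 - (1 / 2) ^ A := by
    induction A with
    | zero => simp
    | succ A ih =>
      rw [Finset.sum_Icc_succ_top (by omega), ih, pow_succ]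
      ring
  rw [this]
  have : (0 : ℝ) ≤ (1 / 2) ^ A := by positivity
  linarith

theorem T06a_mean1 (A : ℕ) : ∑ j ∈ Icc 1 A, (j : ℝ) * (1 / 2 : ℝ) ^ j ≤ 2 := by
  have : ∑ j ∈ Icc 1 A, (j : ℝ) * (1 / 2 : ℝ) ^ j = 2 - (A + 2) * (1 / 2) ^ A := by
    induction A with
    | zero => simp
    | succ A ih =>
      rw [Finset.sum_Icc_succ_top (by omega), ih, pow_succ]
      push_cast
      ring
  rw [this]
  have : (0 : ℝ) ≤ (A + 2) * (1 / 2) ^ A := by positivity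
  linarith

theorem T06a_mean (A n : ℕ) : ∑ w ∈ lw A n, (w.sum : ℝ) * (1 / 2 : ℝ) ^ w.sum ≤ 2 * n := by
  induction n with
  | zero => rw [sum_lw_zero]; simp
  | succ n ih =>
    rw [sum_lw_succ]
    have h1 : ∑ j ∈ Icc 1 A, ∑ w ∈ lw A n, (((j :: w).sum : ℕ) : ℝ) * (1 / 2 : ℝ) ^ (j :: w).sum =
        (∑ j ∈ Icc 1 A, (j : ℝ) * (1 / 2 : ℝ) ^ j) * (∑ w ∈ lw A n, (1 / 2 : ℝ) ^ w.sum) +
        (∑ j ∈ Icc 1 A, (1 / 2 : ℝ) ^ j) *
          (∑ w ∈ lw A n, (w.sum : ℝ) * (1 / 2 : ℝ) ^ w.sum) := by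
      rw [Finset.sum_mul_sum, Finset.sum_mul_sum, ← Finset.sum_add_distrib]
      apply Finset.sum_congr rfl
      intro j _
      rw [← Finset.sum_add_distrib]
      apply Finset.sum_congr rfl
      intro w _
      rw [List.sum_cons, pow_add]
      push_cast
      ring
    rw [h1]
    have h2 : ∑ w ∈ lw A n, (1 / 2 : ℝ) ^ w.sum ≤ 1 := by
      rw [T06a_gen]
      exact pow_le_one₀ (Finset.sum_nonneg (fun j _ => by positivity)) (T06a_half_le A)
    have h3 : (0 : ℝ) ≤ ∑ w ∈ lw A n, (1 / 2 : ℝ) ^ w.sum :=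
      Finset.sum_nonneg (fun w _ => by positivity)
    have h4 : (0 : ℝ) ≤ ∑ w ∈ lw A n, (w.sum : ℝ) * (1 / 2 : ℝ) ^ w.sum :=
      Finset.sum_nonneg (fun w _ => by positivity)
    have h5 : (0 : ℝ) ≤ ∑ j ∈ Icc 1 A, (j : ℝ) * (1 / 2 : ℝ) ^ j :=
      Finset.sum_nonneg (fun w _ => by positivity)
    have h6 := T06a_mean1 A
    have h7 := T06a_half_le A
    rw [Nat.cast_succ]
    have h8 : (∑ j ∈ Icc 1 A, (j : ℝ) * (1 / 2 : ℝ) ^ j) * (∑ w ∈ lw A n, (1 / 2 : ℝ) ^ w.sum) ≤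
        2 * 1 := mul_le_mul h6 h2 h3 (by norm_num)
    have h9 : (∑ j ∈ Icc 1 A, (1 / 2 : ℝ) ^ j) *
          (∑ w ∈ lw A n, (w.sum : ℝ) * (1 / 2 : ℝ) ^ w.sum) ≤ 1 * (2 * n) :=
      mul_le_mul h7 ih h4 (by norm_num)
    linarith

theorem high_mass (A K k : ℕ) (hK : 1 ≤ K) :
    ∑ w ∈ (lw A k).filter (fun w => K * k < w.sum), (1 / 2 ^ w.sum : ℝ) ≤ 2 / K := by
  have hKr : (0 : ℝ) < K := by exact_mod_cast hK
  rcases Nat.eq_zero_or_pos k with rfl | hk
  · have : (lw A 0).filter (fun w => K * 0 < w.sum) = ∅ := by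
      apply Finset.filter_eq_empty_iff.2
      intro w hw
      simp only [lw, Finset.mem_singleton] at hw
      subst hw
      simp
    rw [this, Finset.sum_empty]
    positivity
  · have hkr : (0 : ℝ) < k := by exact_mod_cast hk
    calc ∑ w ∈ (lw A k).filter (fun w => K * k < w.sum), (1 / 2 ^ w.sum : ℝ)
        ≤ ∑ w ∈ (lw A k).filter (fun w => K * k < w.sum),
            1 / (K * k : ℝ) * ((w.sum : ℝ) * (1 / 2 : ℝ) ^ w.sum) := by
          apply Finset.sum_le_sum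
          intro w hw
          have h1 : ((K * k : ℕ) : ℝ) < w.sum := by exact_mod_cast (Finset.mem_filter.1 hw).2
          rw [Nat.cast_mul] at h1
          rw [one_div_pow]
          have h2 : (0 : ℝ) ≤ 1 / 2 ^ w.sum := by positivity
          rw [← mul_assoc]
          have h3 : (1 : ℝ) ≤ 1 / (K * k : ℝ) * (w.sum : ℝ) := by
            rw [one_div, ← div_eq_inv_mul, le_div_iff₀ (by positivity)]
            linarith
          nlinarith
      _ ≤ ∑ w ∈ lw A k, 1 / (K * k : ℝ) * ((w.sum : ℝ) * (1 / 2 : ℝ) ^ w.sum) :=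
          Finset.sum_le_sum_of_subset_of_nonneg (Finset.filter_subset _ _)
            (fun w _ _ => by positivity)
      _ = 1 / (K * k : ℝ) * ∑ w ∈ lw A k, ((w.sum : ℝ) * (1 / 2 : ℝ) ^ w.sum) := by
          rw [← Finset.mul_sum]
      _ ≤ 1 / (K * k : ℝ) * (2 * k) :=
          mul_le_mul_of_nonneg_left (T06a_mean A k) (by positivity)
      _ = 2 / K := by
          field_simp

end Pool.Agent.Lib.MP_e43fce_nt_one
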