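import Pool.Agent.Lib.MP_e43fce_nt_one.Defs
import Pool.Agent.Lib.MP_e43fce_nt_one.T01
import Pool.Agent.Lib.MP_e43fce_nt_one.T04

/-!
Module T06b.
phi(w) = sqrt(Nw w/2^sum). Nw(j::w)/2^(j+s) = 2^-j (eps j + 3 Nw w/2^s), so phi(j::w) <=
2^(-j/2)(sqrt 2 + sqrt 3 phi(w)); S_k = sum_w 2^-sum phi(w) satisfies S_{k+1} <= sum_j 2^(-3j/2)
(sqrt 2 + sqrt 3 S_k) <= 0.775 + 0.95 S_k (sum_j 2^(-3j/2) = 1/(2^1.5-1) <= 0.547), so S_k <= 20.
Markov: 1[Nw > K 2^s] <= phi/sqrt K.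
-/

set_option autoImplicit false

open Finset

namespace Pool.Agent.Lib.MP_e43fce_nt_one

noncomputable def t06bphi (w : List ℕ) : ℝ := Real.sqrt ((Nw w : ℝ) / 2 ^ w.sum)

theorem t06b_phi_nn (w : List ℕ) : 0 ≤ t06bphi w := Real.sqrt_nonneg _

theorem t06b_sq (w : List ℕ) : t06bphi w ^ 2 = (Nw w : ℝ) / 2 ^ w.sum := by
  unfold t06bphi
  rw [Real.sq_sqrt]
  have : (0 : ℝ) ≤ (Nw w : ℝ) := by exact_mod_cast Nw_nonneg w
  positivity

theorem t06b_phi (j : ℕ) (w : List ℕ) :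
    t06bphi (j :: w) ≤ Real.sqrt (1 / 2) ^ j * (Real.sqrt 2 + Real.sqrt 3 * t06bphi w) := by
  have h0 : (0 : ℝ) ≤ (Nw w : ℝ) := by exact_mod_cast Nw_nonneg w
  have h1 := t06b_phi_nn w
  have hphi := t06b_sq w
  unfold t06bphi at hphi h1 ⊢
  rw [Real.sqrt_le_iff]
  refine ⟨by positivity, ?_⟩
  have e1 : (Real.sqrt (1 / 2) ^ j) ^ 2 = (1 / 2) ^ j := by
    rw [← pow_mul, mul_comm, pow_mul, Real.sq_sqrt (by norm_num)]
  have e2 : Real.sqrt 2 ^ 2 = 2 := Real.sq_sqrt (by norm_num)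
  have e3 : Real.sqrt 3 ^ 2 = 3 := Real.sq_sqrt (by norm_num)
  have heps : ((eps j : ℤ) : ℝ) ≤ 2 := by
    have : eps j ≤ 2 := by unfold eps; split_ifs <;> norm_num
    exact_mod_cast this
  have hN : ((Nw (j :: w) : ℤ) : ℝ) = 2 ^ w.sum * (eps j : ℝ) + 3 * (Nw w : ℝ) := by
    have h : Nw (j :: w) = 2 ^ w.sum * eps j + 3 * Nw w := rfl
    rw [h]
    push_cast
    ring
  have hs : (j :: w).sum = j + w.sum := by simp
  rw [mul_pow, e1, hN, hs, pow_add]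
  have e4 : (2 ^ w.sum * (eps j : ℝ) + 3 * (Nw w : ℝ)) / (2 ^ j * 2 ^ w.sum) =
      (1 / 2) ^ j * ((eps j : ℝ) + 3 * ((Nw w : ℝ) / 2 ^ w.sum)) := by
    rw [one_div, inv_pow]
    field_simp
  rw [e4]
  refine mul_le_mul_of_nonneg_left ?_ (by positivity)
  generalize Real.sqrt ((Nw w : ℝ) / 2 ^ w.sum) = u at *
  rw [← hphi]
  have h5 : 0 ≤ Real.sqrt 2 * (Real.sqrt 3 * u) := by positivity
  rw [add_sq, mul_pow, e2, e3]
  linarith

/-- total mass -/
theorem t06b_mass (A k : ℕ) : ∑ w ∈ lw A k, (1 / 2 ^ w.sum : ℝ) ≤ 1 := by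
  induction k with
  | zero => rw [sum_lw_zero]; simp
  | succ k ih =>
    rw [sum_lw_succ]
    have h1 : ∀ j ∈ Icc 1 A, ∑ w ∈ lw A k, (1 / 2 ^ (j :: w).sum : ℝ) =
        (1 / 2) ^ j * ∑ w ∈ lw A k, (1 / 2 ^ w.sum : ℝ) := by
      intro j _
      rw [Finset.mul_sum]
      refine Finset.sum_congr rfl fun w _ => ?_
      rw [List.sum_cons, pow_add, one_div, one_div, mul_inv, one_div, inv_pow]
    rw [Finset.sum_congr rfl h1, ← Finset.sum_mul]
    have h2 : ∀ A : ℕ, ∑ j ∈ Icc 1 A, (1 / 2 : ℝ) ^ j = 1 - (1 / 2) ^ A := by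
      intro A
      induction A with
      | zero => simp
      | succ A ih =>
        rw [Finset.sum_Icc_succ_top (by omega), ih, pow_succ]
        ring
    rw [h2]
    have h3 : (0 : ℝ) ≤ (1 / 2 : ℝ) ^ A := by positivity
    have h4 : 0 ≤ ∑ w ∈ lw A k, (1 / 2 ^ w.sum : ℝ) := Finset.sum_nonneg fun w _ => by positivity
    nlinarith

theorem t06b_geom (A : ℕ) (r : ℝ) (hr0 : 0 ≤ r) (hr1 : r < 1) :
    ∑ j ∈ Icc 1 A, r ^ j ≤ r / (1 - r) := by
  have h : ∑ j ∈ Icc 1 A, r ^ j = (r - r ^ (A + 1)) / (1 - r) := by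
    have hne : 1 - r ≠ 0 := by linarith
    induction A with
    | zero => simp
    | succ A ih =>
      rw [Finset.sum_Icc_succ_top (by omega), ih]
      field_simp
      ring
  rw [h]
  refine div_le_div_of_nonneg_right ?_ (by linarith)
  have : 0 ≤ r ^ (A + 1) := by positivity
  linarith

theorem t06b_S (A k : ℕ) : ∑ w ∈ lw A k, (1 / 2 ^ w.sum : ℝ) * t06bphi w ≤ 20 := by
  induction k with
  | zero =>
    rw [sum_lw_zero]
    unfold t06bphi Nw
    simp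
  | succ k ih =>
    rw [sum_lw_succ]
    set S : ℝ := ∑ w ∈ lw A k, (1 / 2 ^ w.sum : ℝ) * t06bphi w with hS
    set m : ℝ := ∑ w ∈ lw A k, (1 / 2 ^ w.sum : ℝ) with hm
    set r : ℝ := Real.sqrt (1 / 2) / 2 with hr
    have hm1 : m ≤ 1 := t06b_mass A k
    have hm0 : 0 ≤ m := Finset.sum_nonneg fun w _ => by positivity
    have hS0 : 0 ≤ S := Finset.sum_nonneg fun w _ => mul_nonneg (by positivity) (t06b_phi_nn w)
    have h1 : ∀ j ∈ Icc 1 A, ∑ w ∈ lw A k, (1 / 2 ^ (j :: w).sum : ℝ) * t06bphi (j :: w) ≤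
        r ^ j * (Real.sqrt 2 * m + Real.sqrt 3 * S) := by
      intro j _
      rw [hm, hS, Finset.mul_sum, Finset.mul_sum, ← Finset.sum_add_distrib, Finset.mul_sum]
      refine Finset.sum_le_sum fun w _ => ?_
      have h2 := t06b_phi j w
      have h3 : (0 : ℝ) ≤ 1 / 2 ^ (j :: w).sum := by positivity
      refine (mul_le_mul_of_nonneg_left h2 h3).trans (le_of_eq ?_)
      rw [List.sum_cons, pow_add, hr, div_pow]
      field_simp
    refine (Finset.sum_le_sum h1).trans ?_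
    rw [← Finset.sum_mul]
    have hs2 : Real.sqrt (1 / 2) ≤ 0.70712 := by
      rw [Real.sqrt_le_iff]; norm_num
    have hr1 : r ≤ 0.35356 := by rw [hr]; linarith
    have hr0 : 0 ≤ r := by positivity
    have hg := t06b_geom A r hr0 (by linarith)
    have hg2 : r / (1 - r) ≤ 0.547 := by
      rw [div_le_iff₀ (by linarith)]
      linarith
    have e2 : Real.sqrt 2 ≤ 1.4143 := by rw [Real.sqrt_le_iff]; norm_num
    have e3 : Real.sqrt 3 ≤ 1.7321 := by rw [Real.sqrt_le_iff]; norm_num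
    have f2 : Real.sqrt 2 * m ≤ 1.4143 := by
      have := Real.sqrt_nonneg 2
      nlinarith
    have f3 : Real.sqrt 3 * S ≤ 1.7321 * 20 := by
      have := Real.sqrt_nonneg 3
      nlinarith
    have g2 : 0 ≤ Real.sqrt 2 * m + Real.sqrt 3 * S := by positivity
    have hG0 : 0 ≤ ∑ j ∈ Icc 1 A, r ^ j := Finset.sum_nonneg fun j _ => by positivity
    calc (∑ j ∈ Icc 1 A, r ^ j) * (Real.sqrt 2 * m + Real.sqrt 3 * S)
        ≤ 0.547 * (Real.sqrt 2 * m + Real.sqrt 3 * S) :=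
          mul_le_mul_of_nonneg_right (hg.trans hg2) g2
      _ ≤ 0.547 * (1.4143 + 1.7321 * 20) := by linarith
      _ ≤ 20 := by norm_num

theorem Nw_mass : ∃ Cn : ℝ, 0 < Cn ∧ ∀ A K k : ℕ, 1 ≤ K →
    ∑ w ∈ (lw A k).filter (fun w => (K : ℤ) * 2 ^ w.sum < Nw w), (1 / 2 ^ w.sum : ℝ) ≤
      Cn / Real.sqrt K := by
  refine ⟨20, by norm_num, fun A K k hK => ?_⟩
  have hK' : (0 : ℝ) < K := by exact_mod_cast hK
  have hsK : 0 < Real.sqrt K := Real.sqrt_pos.2 hK'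
  rw [le_div_iff₀ hsK, Finset.sum_mul]
  refine le_trans ?_ (t06b_S A k)
  refine le_trans (Finset.sum_le_sum (g := fun w => (1 / 2 ^ w.sum : ℝ) * t06bphi w) ?_) ?_
  · intro w hw
    rw [Finset.mem_filter] at hw
    refine mul_le_mul_of_nonneg_left ?_ (by positivity)
    unfold t06bphi
    refine Real.sqrt_le_sqrt ?_
    rw [le_div_iff₀ (by positivity)]
    have h := hw.2.le
    exact_mod_cast h
  · refine Finset.sum_le_sum_of_subset_of_nonneg (Finset.filter_subset _ _) fun w _ _ => ?_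
    exact mul_nonneg (by positivity) (t06b_phi_nn w)

end Pool.Agent.Lib.MP_e43fce_nt_one
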