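import Pool.Agent.Lib.MP_e43fce_nt_one.Defs
import Pool.Agent.Lib.MP_e43fce_nt_one.T06a
import Pool.Agent.Lib.MP_e43fce_nt_one.T06b

/-!
Module T06c.
not typ => low or high or Nw large; K large with 2/K + Cn/sqrt K <= 1/20 and (39/40)^k0 <= 1/20.
-/

set_option autoImplicit false

open Finset

namespace Pool.Agent.Lib.MP_e43fce_nt_one

theorem atyp_mass : ∃ K k0 : ℕ, ∀ A k : ℕ, k0 ≤ k →
    ∑ w ∈ (lw A k).filter (fun w => ¬ typ K k w), (1 / 2 ^ w.sum : ℝ) ≤ 1 / 10 := by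
  obtain ⟨Cn, hCn, hN⟩ := Nw_mass
  obtain ⟨k0, hk0⟩ := exists_pow_lt_of_lt_one (show (0 : ℝ) < 1 / 20 by norm_num)
    (show (39 / 40 : ℝ) < 1 by norm_num)
  obtain ⟨K, hK⟩ := exists_nat_ge (max 80 ((40 * Cn) ^ 2))
  have hK80 : (80 : ℝ) ≤ K := le_trans (le_max_left _ _) hK
  have hKC : (40 * Cn) ^ 2 ≤ (K : ℝ) := le_trans (le_max_right _ _) hK
  have hKpos : (0 : ℝ) < K := by linarith
  have hK1 : 1 ≤ K := by
    have : (1 : ℝ) ≤ K := by linarith
    exact_mod_cast this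
  have hsq : 40 * Cn ≤ Real.sqrt K := Real.le_sqrt_of_sq_le hKC
  have hspos : 0 < Real.sqrt K := Real.sqrt_pos.2 hKpos
  refine ⟨K, k0, fun A k hk => ?_⟩
  have h1 := low_mass A k
  have h2 := high_mass A K k hK1
  have h3 := hN A K k hK1
  have e1 : (39 / 40 : ℝ) ^ k ≤ (39 / 40 : ℝ) ^ k0 :=
    pow_le_pow_of_le_one (by norm_num) (by norm_num) hk
  have e2 : (2 : ℝ) / K ≤ 1 / 40 := by
    rw [div_le_div_iff₀ hKpos (by norm_num)]
    linarith
  have e3 : Cn / Real.sqrt K ≤ 1 / 40 := by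
    rw [div_le_div_iff₀ hspos (by norm_num)]
    linarith
  have h4 : ∑ w ∈ (lw A k).filter (fun w => ¬ typ K k w), (1 / 2 ^ w.sum : ℝ) ≤
      ∑ w ∈ (lw A k).filter (fun w => 10 * w.sum < 17 * k), (1 / 2 ^ w.sum : ℝ) +
      ∑ w ∈ (lw A k).filter (fun w => K * k < w.sum), (1 / 2 ^ w.sum : ℝ) +
      ∑ w ∈ (lw A k).filter (fun w => (K : ℤ) * 2 ^ w.sum < Nw w), (1 / 2 ^ w.sum : ℝ) := by
    rw [Finset.sum_filter, Finset.sum_filter, Finset.sum_filter, Finset.sum_filter,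
      ← Finset.sum_add_distrib, ← Finset.sum_add_distrib]
    refine Finset.sum_le_sum fun w _ => ?_
    have hp : (0 : ℝ) ≤ 1 / 2 ^ w.sum := by positivity
    have g1 : (0 : ℝ) ≤ if 10 * w.sum < 17 * k then (1 / 2 ^ w.sum : ℝ) else 0 := by
      split_ifs <;> simp
    have g2 : (0 : ℝ) ≤ if K * k < w.sum then (1 / 2 ^ w.sum : ℝ) else 0 := by
      split_ifs <;> simp
    have g3 : (0 : ℝ) ≤ if (K : ℤ) * 2 ^ w.sum < Nw w then (1 / 2 ^ w.sum : ℝ) else 0 := by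
      split_ifs <;> simp
    by_cases ht : typ K k w
    · rw [if_neg (not_not.2 ht)]
      linarith
    · rw [if_pos ht]
      by_cases c1 : 10 * w.sum < 17 * k
      · rw [if_pos c1]
        linarith
      · by_cases c2 : K * k < w.sum
        · rw [if_pos c2]
          linarith
        · have c3 : (K : ℤ) * 2 ^ w.sum < Nw w := by
            by_contra h
            exact ht ⟨not_lt.1 c1, not_lt.1 c2, not_lt.1 h⟩
          rw [if_pos c3]
          linarith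
  linarith

end Pool.Agent.Lib.MP_e43fce_nt_one
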