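import Pool.Agent.Lib.MP_e43fce_nt_one.Defs
import Pool.Agent.Lib.MP_e43fce_nt_one.T02b

/-!
Module T03: averages of admissibility and of the martingale.
-/

set_option autoImplicit false

open Finset

namespace Pool.Agent.Lib.MP_e43fce_nt_one

theorem T03_dvd_per : Per 1 (fun u : ℤ => if (3 : ℤ) ∣ u then (1 : ℝ) else 0) := by
  intro v z
  have : (3 : ℤ) ∣ v + 3 ^ 1 * z ↔ (3 : ℤ) ∣ v := by
    rw [pow_one]
    exact dvd_add_left (Dvd.intro _ rfl)
  simp only [this]

theorem T03_dvd_av : Av 1 (fun u : ℤ => if (3 : ℤ) ∣ u then (1 : ℝ) else 0) = 1 / 3 := by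
  unfold Av
  have h : (∑ x : ZMod (3 ^ 1), (if (3 : ℤ) ∣ ((x.val : ℕ) : ℤ) then (1 : ℝ) else 0)) = 1 := by
    rw [Finset.sum_eq_single (0 : ZMod (3 ^ 1))]
    · simp
    · intro b _ hb
      rw [if_neg]
      intro hd
      apply hb
      have hlt : b.val < 3 := lt_of_lt_of_eq (ZMod.val_lt b) (pow_one 3)
      have hd' : 3 ∣ b.val := by exact_mod_cast hd
      have h0 : b.val = 0 := Nat.eq_zero_of_dvd_of_lt hd' hlt
      exact (ZMod.val_eq_zero b).1 h0
    · intro hn
      exact absurd (Finset.mem_univ _) hn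
  rw [h, pow_one]

theorem T03_adm1_av (j : ℕ) : Av 1 (fun v => if adm1 v j then (1 : ℝ) else 0) = 1 / 3 := by
  rw [← T03_dvd_av, ← Av_affine T03_dvd_per (bt j) j]
  congr 1
  funext v
  have : adm1 v j ↔ (3 : ℤ) ∣ bt j + 2 ^ j * v := by
    unfold adm1
    rw [add_comm]
  by_cases h : adm1 v j
  · rw [if_pos h, if_pos (this.1 h)]
  · rw [if_neg h, if_neg (fun hc => h (this.2 hc))]

theorem T03_adm_per (w : List ℕ) : Per w.length (fun v => if adm v w then (1 : ℝ) else 0) := by
  intro v z
  simp only [adm_shift]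

theorem Av_adm (w : List ℕ) : Av w.length (fun v => if adm v w then 1 else 0) =
    1 / 3 ^ w.length := by
  induction w with
  | nil =>
    simp only [adm, if_true, List.length_nil, pow_zero, div_one]
    exact Av_const 0 1
  | cons j w ih =>
    have hp := T03_adm_per (j :: w)
    have hl : (j :: w).length = 1 + w.length := by
      rw [List.length_cons, add_comm]
    rw [hl] at hp ⊢
    rw [Av_split hp]
    have key : ∀ v : ℤ, Av w.length (fun z => if adm (v + 3 ^ 1 * z) (j :: w) then (1 : ℝ) else 0) =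
        1 / 3 ^ w.length * (if adm1 v j then (1 : ℝ) else 0) := by
      intro v
      have h1 : ∀ z : ℤ, adm (v + 3 ^ 1 * z) (j :: w) ↔ adm1 v j ∧ adm (cv v j + 2 ^ j * z) w := by
        intro z
        have h2 := T02_adm1_shift v z 0 j
        have h3 := T02_cv_shift v z 0 j
        rw [zero_add] at h2 h3
        rw [pow_zero, one_mul] at h3
        simp only [adm]
        rw [h2, h3]
      by_cases h : adm1 v j
      · rw [if_pos h, mul_one, ← ih, ← Av_affine (T03_adm_per w) (cv v j) j]
        congr 1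
        funext z
        simp only [h1, h, true_and]
      · rw [if_neg h, mul_zero]
        have : (fun z : ℤ => if adm (v + 3 ^ 1 * z) (j :: w) then (1 : ℝ) else 0) =
            fun _ => (0 : ℝ) := by
          funext z
          simp only [h1, h, false_and, if_false]
        rw [this]
        exact Av_const _ 0
    have h4 : (fun v => Av w.length (fun z => if adm (v + 3 ^ 1 * z) (j :: w) then (1 : ℝ) else 0)) =
        fun v => 1 / 3 ^ w.length * (if adm1 v j then (1 : ℝ) else 0) := funext key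
    rw [h4, Av_mul_left, T03_adm1_av, pow_add, pow_one]
    field_simp

theorem Av_words (A n : ℕ) (φ : List ℕ → ℝ) :
    Av n (fun v => ∑ w ∈ lw A n, if adm v w then φ w else 0) = (∑ w ∈ lw A n, φ w) / 3 ^ n := by
  rw [Av_sum (lw A n) n (fun w v => if adm v w then φ w else 0), Finset.sum_div]
  apply Finset.sum_congr rfl
  intro w hw
  have hl : w.length = n := (mem_lw.1 hw).1
  subst hl
  have : (fun v => if adm v w then φ w else 0) = fun v => φ w * (if adm v w then (1 : ℝ) else 0) := by
    funext v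
    split_ifs <;> simp
  rw [this, Av_mul_left, Av_adm]
  ring

theorem T03_geom (A : ℕ) : ∑ j ∈ Icc 1 A, (1 / 2 ^ j : ℝ) = 1 - (1 / 2) ^ A := by
  induction A with
  | zero => simp
  | succ A ih =>
    rw [Finset.sum_Icc_succ_top (by omega), ih, pow_succ, pow_succ]
    rw [one_div_pow]
    field_simp
    ring

theorem T03_sum_half (A n : ℕ) :
    ∑ w ∈ lw A n, (1 / 2 ^ w.sum : ℝ) = (1 - (1 / 2) ^ A) ^ n := by
  induction n with
  | zero => rw [sum_lw_zero]; simp
  | succ n ih =>
    rw [sum_lw_succ, pow_succ, ← ih, mul_comm, ← T03_geom, Finset.sum_mul_sum]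
    apply Finset.sum_congr rfl
    intro j _
    apply Finset.sum_congr rfl
    intro w _
    rw [List.sum_cons, pow_add]
    field_simp

theorem Av_Mn (A n : ℕ) : Av n (Mn A n) = (1 - (1 / 2) ^ A) ^ n := by
  have h : Mn A n = fun v => ∑ w ∈ lw A n,
      if adm v w then (w.map (fun j => (3 : ℝ) / 2 ^ j)).prod else 0 := by
    funext v
    unfold Mn
    rw [Gw_eq]
  rw [h, Av_words, ← T03_sum_half, Finset.sum_div]
  apply Finset.sum_congr rfl
  intro w hw
  have hl : w.length = n := (mem_lw.1 hw).1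
  rw [prod_w1, hl]
  field_simp

/-- one step martingale property -/
theorem Av_Mn_succ (A n : ℕ) (v : ℤ) :
    Av 1 (fun z => Mn A (n + 1) (v + 3 ^ n * z)) = (1 - (1 / 2) ^ A) * Mn A n v := by
  have h : (fun z => Mn A (n + 1) (v + 3 ^ n * z)) = fun z => ∑ w ∈ lw A n,
      if adm v w then (w.map (fun j => (3 : ℝ) / 2 ^ j)).prod *
        Mn A 1 (te v w + 2 ^ w.sum * z) else 0 := by
    funext z
    unfold Mn
    rw [Gw_cocycle]
  rw [h, Av_sum (lw A n) 1 (fun w z => if adm v w then (w.map (fun j => (3 : ℝ) / 2 ^ j)).prod *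
        Mn A 1 (te v w + 2 ^ w.sum * z) else 0)]
  have h2 : Mn A n v = ∑ w ∈ lw A n,
      if adm v w then (w.map (fun j => (3 : ℝ) / 2 ^ j)).prod else 0 := by
    unfold Mn
    rw [Gw_eq]
  rw [h2, Finset.mul_sum]
  apply Finset.sum_congr rfl
  intro w _
  by_cases hw : adm v w
  · simp only [if_pos hw]
    rw [Av_mul_left, Av_affine (f := Mn A 1) (Gw_per A _ 1), Av_Mn, pow_one]
    ring
  · simp only [if_neg hw, mul_zero]
    exact Av_const _ 0

end Pool.Agent.Lib.MP_e43fce_nt_one
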