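import Pool.Agent.Lib.MP_e43fce_nt_one.Defs
import Pool.Agent.Lib.MP_e43fce_nt_one.T03

/-!
Module T07a.
surv_per: Mn A i has period 3^i <= 3^k. surv_mass by induction on k: a_{k+1} >= (1-2^-A) a_k - 1/4
(s_k - s_{k+1}), a_k = Av k (sI*Mn): Av_split (k+1 = k+1), sI A (k+1) = sI A k * 1[Mn (k+1) >=
1/4], Mn(k+1)(1 - 1[..]) <= 1/4(1-1[..]), Av_Mn_succ; averages over period 3^k vs 3^(k+1) by
Av_of_per.
-/

set_option autoImplicit false

open Finset

namespace Pool.Agent.Lib.MP_e43fce_nt_one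

theorem surv_per (A k : ℕ) : Per k (sI A k) := by
  intro v z
  have h : surv A k (v + 3 ^ k * z) ↔ surv A k v := by
    unfold surv
    refine forall_congr' fun i => forall_congr' fun _ => forall_congr' fun hi => ?_
    have h1 : Mn A i (v + 3 ^ k * z) = Mn A i v := (Gw_per A (fun j => 3 / 2 ^ j) i).mono hi v z
    rw [h1]
  unfold sI
  by_cases h2 : surv A k v
  · rw [if_pos h2, if_pos (h.2 h2)]
  · rw [if_neg h2, if_neg (fun h3 => h2 (h.1 h3))]

theorem t07a_le (A : ℕ) {i j : ℕ} (h : i ≤ j) (v : ℤ) : sI A j v ≤ sI A i v := by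
  unfold sI
  by_cases h2 : surv A j v
  · have h3 : surv A i v := fun l hl hli => h2 l hl (hli.trans h)
    rw [if_pos h2, if_pos h3]
  · rw [if_neg h2]
    split_ifs
    · exact zero_le_one
    · exact le_rfl

theorem t07a_nn (A k : ℕ) (v : ℤ) : 0 ≤ sI A k v := by
  unfold sI
  split_ifs
  · exact zero_le_one
  · exact le_rfl

theorem sk_anti (A : ℕ) {i j : ℕ} (h : i ≤ j) : sk A j ≤ sk A i := by
  unfold sk
  rw [← Av_of_per h (surv_per A i)]
  exact Av_mono (t07a_le A h)

theorem sk_zero (A : ℕ) : sk A 0 = 1 := by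
  have h : sI A 0 = fun _ => (1 : ℝ) := by
    funext v
    unfold sI
    rw [if_pos]
    intro i h1 h2
    omega
  unfold sk
  rw [h, Av_const]

theorem sk_nonneg (A k : ℕ) : 0 ≤ sk A k := by
  unfold sk
  rw [← Av_const k 0]
  exact Av_mono (t07a_nn A k)

theorem t07a_step (A k : ℕ) (v : ℤ) :
    sI A k v * Mn A (k + 1) v + (-(1 / 4)) * (sI A k v + (-1) * sI A (k + 1) v) ≤
      sI A (k + 1) v * Mn A (k + 1) v := by
  by_cases h1 : surv A k v
  · have e1 : sI A k v = 1 := if_pos h1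
    by_cases h2 : 1 / 4 ≤ Mn A (k + 1) v
    · have h3 : surv A (k + 1) v := by
        intro i hi1 hi2
        rcases Nat.lt_or_ge k i with h | h
        · have : i = k + 1 := by omega
          rw [this]; exact h2
        · exact h1 i hi1 h
      have e2 : sI A (k + 1) v = 1 := if_pos h3
      rw [e1, e2]
      linarith
    · have h3 : ¬ surv A (k + 1) v := fun h => h2 (h (k + 1) (by omega) le_rfl)
      have e2 : sI A (k + 1) v = 0 := if_neg h3
      rw [e1, e2]
      linarith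
  · have e1 : sI A k v = 0 := if_neg h1
    have h3 : ¬ surv A (k + 1) v := fun h => h1 fun i hi1 hi2 => h i hi1 (by omega)
    have e2 : sI A (k + 1) v = 0 := if_neg h3
    rw [e1, e2]
    linarith

theorem t07a_av (A k : ℕ) : Av (k + 1) (fun v => sI A k v * Mn A (k + 1) v) =
    (1 - (1 / 2) ^ A) * Av k (fun v => sI A k v * Mn A k v) := by
  have hper : Per (k + 1) (fun v => sI A k v * Mn A (k + 1) v) := by
    intro v z
    have h1 := (surv_per A k).mono (Nat.le_succ k) v z
    have h2 := Gw_per A (fun j => 3 / 2 ^ j) (k + 1) v z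
    change sI A k (v + 3 ^ (k + 1) * z) * Gw A (fun j => 3 / 2 ^ j) (k + 1) (v + 3 ^ (k + 1) * z) =
      sI A k v * Gw A (fun j => 3 / 2 ^ j) (k + 1) v
    rw [h1, h2]
  rw [Av_split hper, ← Av_mul_left]
  congr 1
  funext v
  have h1 : (fun z : ℤ => sI A k (v + 3 ^ k * z) * Mn A (k + 1) (v + 3 ^ k * z)) =
      fun z : ℤ => sI A k v * Mn A (k + 1) (v + 3 ^ k * z) := by
    funext z
    rw [surv_per A k v z]
  rw [h1, Av_mul_left, Av_Mn_succ]
  ring

theorem surv_mass (A k : ℕ) : (1 - (1 / 2) ^ A) ^ k - 1 / 4 * (1 - sk A k) ≤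
    Av k (fun v => sI A k v * Mn A k v) := by
  have hq0 : (0 : ℝ) ≤ 1 - (1 / 2) ^ A := by
    have : (1 / 2 : ℝ) ^ A ≤ 1 := pow_le_one₀ (by norm_num) (by norm_num)
    linarith
  have hq1 : (1 : ℝ) - (1 / 2) ^ A ≤ 1 := by
    have : (0 : ℝ) ≤ (1 / 2 : ℝ) ^ A := by positivity
    linarith
  induction k with
  | zero =>
    have h : (fun v => sI A 0 v * Mn A 0 v) = fun _ => (1 : ℝ) := by
      funext v
      have e1 : sI A 0 v = 1 := by
        unfold sI
        rw [if_pos]
        intro i h1 h2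
        omega
      rw [e1]
      unfold Mn Gw
      ring
    rw [h, Av_const, sk_zero]
    norm_num
  | succ k ih =>
    have h1 := Av_mono (m := k + 1) (t07a_step A k)
    rw [Av_add, Av_mul_left, Av_add, Av_mul_left, t07a_av, Av_of_per (Nat.le_succ k) (surv_per A k)] at h1
    change _ + _ * (sk A k + -1 * sk A (k + 1)) ≤ _ at h1
    refine le_trans ?_ h1
    have h2 : sk A k ≤ 1 := by
      rw [← sk_zero A]
      exact sk_anti A (Nat.zero_le k)
    have h3 := mul_le_mul_of_nonneg_left ih hq0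
    have h4 : (1 - (1 / 2 : ℝ) ^ A) * (1 / 4 * (1 - sk A k)) ≤ 1 / 4 * (1 - sk A k) := by
      have h5 : 0 ≤ 1 / 4 * (1 - sk A k) := by linarith
      nlinarith
    rw [pow_succ]
    nlinarith

end Pool.Agent.Lib.MP_e43fce_nt_one
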