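import Pool.Agent.Lib.MP_e43fce_nt_one.Defs
import Pool.Agent.Lib.MP_e43fce_nt_one.T05
import Pool.Agent.Lib.MP_e43fce_nt_one.T06c
import Pool.Agent.Lib.MP_e43fce_nt_one.T07a

/-!
Module T07b.
surv_mass: Av(sI Mn) >= 9/10 - 1/4. Mn = typical + atypical part (Gw_eq, prod_w1); Av(atypical) =
atypical mass <= 1/10 (Av_words, atyp_mass), typical <= (Kk+1)(K+1) <= (K+1)^2 k (typ_sum). So sk
>= 0.55/((K+1)^2 k).
-/

set_option autoImplicit false

open Finset

namespace Pool.Agent.Lib.MP_e43fce_nt_one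

theorem t07b_split (A K k : ℕ) (v : ℤ) : Mn A k v =
    ∑ w ∈ (lw A k).filter (fun w => typ K k w), (if adm v w then (3 ^ k / 2 ^ w.sum : ℝ) else 0) +
    ∑ w ∈ lw A k, (if adm v w then (if typ K k w then 0 else (3 ^ k / 2 ^ w.sum : ℝ)) else 0) := by
  unfold Mn
  rw [Gw_eq, Finset.sum_filter, ← Finset.sum_add_distrib]
  refine Finset.sum_congr rfl fun w hw => ?_
  rw [prod_w1, (mem_lw.1 hw).1]
  split_ifs <;> ring

theorem sk_lower : ∃ c : ℝ, 0 < c ∧ ∃ k0 : ℕ, ∀ A k : ℕ, k0 ≤ k → 1 ≤ k →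
    9 / 10 ≤ (1 - (1 / 2 : ℝ) ^ A) ^ k → c / k ≤ sk A k := by
  obtain ⟨K, k0, hK⟩ := atyp_mass
  refine ⟨0.55 / ((K : ℝ) + 1) ^ 2, by positivity, k0, fun A k hk hk1 hq => ?_⟩
  have hkr : (1 : ℝ) ≤ k := by exact_mod_cast hk1
  have hm := surv_mass A k
  have hs0 := sk_nonneg A k
  set W : ℝ := ((K : ℝ) * k + 1) * (K + 1) with hW
  have hW0 : 0 ≤ W := by positivity
  have hle : ∀ v : ℤ, sI A k v * Mn A k v ≤ W * sI A k v +
      ∑ w ∈ lw A k, (if adm v w then (if typ K k w then 0 else (3 ^ k / 2 ^ w.sum : ℝ)) else 0) := by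
    intro v
    have h1 := typ_sum A K k v
    have h2 := t07b_split A K k v
    have h3 := t07a_nn A k v
    have h4 : sI A k v ≤ 1 := by
      unfold sI
      split_ifs
      · exact le_rfl
      · exact zero_le_one
    have h5 : 0 ≤ ∑ w ∈ lw A k,
        (if adm v w then (if typ K k w then 0 else (3 ^ k / 2 ^ w.sum : ℝ)) else 0) := by
      refine Finset.sum_nonneg fun w _ => ?_
      split_ifs
      · exact le_rfl
      · positivity
      · exact le_rfl
    rw [h2, mul_add]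
    refine add_le_add ?_ ?_
    · rw [mul_comm W]
      exact mul_le_mul_of_nonneg_left h1 h3
    · exact mul_le_of_le_one_left h5 h4
  have hav := Av_mono (m := k) hle
  rw [Av_add, Av_mul_left, Av_words] at hav
  have hat := hK A k hk
  have e1 : (∑ w ∈ lw A k, (if typ K k w then (0 : ℝ) else 3 ^ k / 2 ^ w.sum)) / 3 ^ k =
      ∑ w ∈ (lw A k).filter (fun w => ¬ typ K k w), (1 / 2 ^ w.sum : ℝ) := by
    rw [Finset.sum_filter, Finset.sum_div]
    refine Finset.sum_congr rfl fun w _ => ?_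
    by_cases h : typ K k w
    · rw [if_pos h, if_neg (fun h' => h' h), zero_div]
    · rw [if_neg h, if_pos h]
      have h3 : (3 : ℝ) ^ k ≠ 0 := by positivity
      field_simp
  rw [e1] at hav
  change _ ≤ W * sk A k + _ at hav
  have h6 : 0.55 ≤ W * sk A k := by
    have h7 : 1 / 4 * (1 - sk A k) ≤ 1 / 4 := by linarith
    linarith
  have h8 : W ≤ ((K : ℝ) + 1) ^ 2 * k := by
    rw [hW]
    have hK0 : (0 : ℝ) ≤ K := Nat.cast_nonneg K
    nlinarith
  have h9 : 0.55 ≤ ((K : ℝ) + 1) ^ 2 * k * sk A k := h6.trans (mul_le_mul_of_nonneg_right h8 hs0)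
  rw [div_div, div_le_iff₀ (by positivity)]
  linarith

end Pool.Agent.Lib.MP_e43fce_nt_one
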