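import Pool.Agent.Lib.MP_e43fce_nt_one.Defs
import Pool.Agent.Lib.MP_e43fce_nt_one.T07a

/-!
Module T08a.
tau_i indicator: I_i(v) = sI A (i-1) - sI A i (i<r), I_r = sI A (r-1), has period 3^i, >=0, sum_i
I_i = 1. For v with I_i(v)=1: Mn A i v >= 1/16 (Mn_succ_ge, surv). Jensen: for fixed v: Av_z(-log
Mn A n (v+3^i z)) <= -log Mn A i v + en A (n-i): Gw_cocycle: Mn n = sum_w wt_w Mn (n-i)(te+2^s z)
, -log(sum) <= -log(Mn i) + sum (wt_w/Mn i)(-log Mn(n-i)(..)) (concavity of log:
Real.strictConcaveOn_log_Ioi / inner_le), Av_affine. Then en n = sum_i Av_n(I_i * (-log Mn n)) =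
sum_i Av_i(I_i(v) Av_z(...)) <= sum_i Av(I_i)(log 16 + en(n-i)).
-/

set_option autoImplicit false

open Finset

namespace Pool.Agent.Lib.MP_e43fce_nt_one

/-- weighted Jensen inequality for `- log`, non normalised weights -/
theorem T08a_jensen {α : Type} (s : Finset α) (a x : α → ℝ) (M : ℝ) (hM : 0 < M)
    (ha : ∀ w ∈ s, 0 ≤ a w) (hsum : ∑ w ∈ s, a w = M) (hx : ∀ w ∈ s, 0 < x w) :
    - Real.log (∑ w ∈ s, a w * x w) ≤ - Real.log M + ∑ w ∈ s, a w / M * (- Real.log (x w)) := by
  have h0 : ∀ w ∈ s, 0 ≤ a w / M := fun w hw => div_nonneg (ha w hw) hM.le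
  have h1 : ∑ w ∈ s, a w / M = 1 := by
    rw [← Finset.sum_div, hsum, div_self hM.ne']
  have hconc : ConcaveOn ℝ (Set.Ioi (0 : ℝ)) Real.log := strictConcaveOn_log_Ioi.concaveOn
  have h2 := hconc.le_map_sum (t := s) (w := fun w => a w / M) (p := x) h0 h1
    (fun w hw => hx w hw)
  simp only [smul_eq_mul] at h2
  have hex : ∃ w ∈ s, 0 < a w := by
    by_contra hcon
    push Not at hcon
    have : ∑ w ∈ s, a w ≤ 0 := Finset.sum_nonpos hcon
    linarith
  have h3 : 0 < ∑ w ∈ s, a w / M * x w := by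
    obtain ⟨w, hw, hw0⟩ := hex
    apply Finset.sum_pos'
    · intro u hu
      exact mul_nonneg (h0 u hu) (hx u hu).le
    · exact ⟨w, hw, mul_pos (div_pos hw0 hM) (hx w hw)⟩
  have h4 : ∑ w ∈ s, a w * x w = M * ∑ w ∈ s, a w / M * x w := by
    rw [Finset.mul_sum]
    refine Finset.sum_congr rfl fun w _ => ?_
    field_simp
  rw [h4, Real.log_mul hM.ne' h3.ne']
  have h5 : ∑ w ∈ s, a w / M * (- Real.log (x w)) = - ∑ w ∈ s, a w / M * Real.log (x w) := by
    rw [← Finset.sum_neg_distrib]
    refine Finset.sum_congr rfl fun w _ => ?_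
    ring
  rw [h5]
  linarith

theorem T08a_te_per {A : ℕ} (n : ℕ) : Per n (fun v => - Real.log (Mn A n v)) := by
  intro v z
  have := Gw_per A (fun j => 3 / 2 ^ j) n v z
  show - Real.log (Mn A n (v + 3 ^ n * z)) = - Real.log (Mn A n v)
  unfold Mn
  rw [this]

/-- the averaged Jensen inequality -/
theorem T08a_step {A : ℕ} (hA : 6 ≤ A) (i m : ℕ) (v : ℤ) :
    Av m (fun z => - Real.log (Mn A (i + m) (v + 3 ^ i * z))) ≤
      - Real.log (Mn A i v) + en A m := by
  classical
  set ω : ℕ → ℝ := fun j => 3 / 2 ^ j with hω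
  set s : Finset (List ℕ) := (lw A i).filter (fun w => adm v w) with hs
  have hpos : ∀ w : List ℕ, 0 ≤ (w.map ω).prod := by
    intro w
    apply List.prod_nonneg
    intro x hx
    obtain ⟨j, _, rfl⟩ := List.mem_map.1 hx
    simp only [hω]
    positivity
  have hM : 0 < Mn A i v := Mn_pos hA i v
  have hMs : ∑ w ∈ s, (w.map ω).prod = Mn A i v := by
    unfold Mn
    rw [Gw_eq, hs, Finset.sum_filter]
  have hcoc : ∀ z : ℤ, Mn A (i + m) (v + 3 ^ i * z) =
      ∑ w ∈ s, (w.map ω).prod * Mn A m (te v w + 2 ^ w.sum * z) := by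
    intro z
    unfold Mn
    rw [Gw_cocycle, hs, Finset.sum_filter]
  have h1 : ∀ z : ℤ, - Real.log (Mn A (i + m) (v + 3 ^ i * z)) ≤
      - Real.log (Mn A i v) + ∑ w ∈ s, (w.map ω).prod / Mn A i v *
        (- Real.log (Mn A m (te v w + 2 ^ w.sum * z))) := by
    intro z
    rw [hcoc z]
    exact T08a_jensen s (fun w => (w.map ω).prod)
      (fun w => Mn A m (te v w + 2 ^ w.sum * z)) (Mn A i v) hM (fun w _ => hpos w) hMs
      (fun w _ => Mn_pos hA m _)
  refine (Av_mono h1).trans ?_
  rw [Av_add, Av_const, Av_sum]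
  have h2 : ∀ w ∈ s, Av m (fun z => (w.map ω).prod / Mn A i v *
      (- Real.log (Mn A m (te v w + 2 ^ w.sum * z)))) = (w.map ω).prod / Mn A i v * en A m := by
    intro w _
    rw [Av_mul_left]
    congr 1
    exact Av_affine (T08a_te_per (A := A) m) (te v w) w.sum
  rw [Finset.sum_congr rfl h2, ← Finset.sum_mul, ← Finset.sum_div, hMs, div_self hM.ne', one_mul]

/-- indicator of the stopping time at `i` -/
noncomputable def T08a_I (A r i : ℕ) (v : ℤ) : ℝ :=
  if i < r then sI A (i - 1) v - sI A i v else sI A (r - 1) v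

theorem T08a_sI_anti (A : ℕ) {i j : ℕ} (h : i ≤ j) (v : ℤ) : sI A j v ≤ sI A i v := by
  unfold sI
  by_cases h1 : surv A j v
  · have h2 : surv A i v := fun k hk hk2 => h1 k hk (hk2.trans h)
    rw [if_pos h1, if_pos h2]
  · rw [if_neg h1]
    split_ifs <;> norm_num

theorem T08a_sI_nonneg (A k : ℕ) (v : ℤ) : 0 ≤ sI A k v := by
  unfold sI
  split_ifs <;> norm_num

theorem T08a_sI_zero (A : ℕ) (v : ℤ) : sI A 0 v = 1 := by
  unfold sI
  rw [if_pos]
  intro i hi hi0
  omega

theorem T08a_I_nonneg (A r i : ℕ) (v : ℤ) : 0 ≤ T08a_I A r i v := by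
  unfold T08a_I
  split_ifs
  · have := T08a_sI_anti A (Nat.sub_le i 1) v
    linarith
  · exact T08a_sI_nonneg A (r - 1) v

theorem T08a_I_surv {A r i : ℕ} (hir : i ≤ r) {v : ℤ} (h : T08a_I A r i v ≠ 0) :
    surv A (i - 1) v := by
  by_contra hcon
  apply h
  unfold T08a_I
  have h0 : sI A (i - 1) v = 0 := by
    unfold sI
    rw [if_neg hcon]
  split_ifs with hlt
  · have h1 := T08a_sI_anti A (Nat.sub_le i 1) v
    have h2 := T08a_sI_nonneg A i v
    linarith
  · have : r = i := by omega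
    rw [this]
    exact h0

theorem T08a_I_per {A r i : ℕ} (hir : i ≤ r) : Per i (T08a_I A r i) := by
  intro v z
  unfold T08a_I
  have hi : Per i (sI A i) := surv_per A i
  have hi1 : Per i (sI A (i - 1)) := (surv_per A (i - 1)).mono (Nat.sub_le i 1)
  split_ifs with hlt
  · rw [hi v z, hi1 v z]
  · have : r = i := by omega
    rw [this]
    exact hi1 v z

theorem T08a_I_avg {A r i : ℕ} (hir : i ≤ r) : Av i (T08a_I A r i) = tau A r i := by
  unfold T08a_I tau
  split_ifs with hlt
  · have h1 : Av i (fun v => sI A (i - 1) v - sI A i v) =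
        Av i (sI A (i - 1)) - Av i (sI A i) := by
      have h2 : (fun v => sI A (i - 1) v - sI A i v) =
          (fun v => sI A (i - 1) v + (-1) * sI A i v) := by
        funext v; ring
      rw [h2, Av_add, Av_mul_left]
      ring
    rw [h1]
    unfold sk
    rw [Av_of_per (Nat.sub_le i 1) (surv_per A (i - 1))]
  · have : r = i := by omega
    subst this
    unfold sk
    exact Av_of_per (Nat.sub_le r 1) (surv_per A (r - 1))

theorem T08a_tele (f : ℕ → ℝ) (r : ℕ) (hr : 1 ≤ r) :
    ∑ i ∈ Icc 1 r, (if i < r then f (i - 1) - f i else f (r - 1)) = f 0 := by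
  obtain ⟨k, rfl⟩ : ∃ k, r = k + 1 := ⟨r - 1, by omega⟩
  rw [Finset.sum_Icc_succ_top (by omega)]
  have h1 : ∑ i ∈ Icc 1 k, (if i < k + 1 then f (i - 1) - f i else f (k + 1 - 1)) =
      ∑ i ∈ Icc 1 k, (f (i - 1) - f i) := by
    refine Finset.sum_congr rfl fun i hi => ?_
    rw [Finset.mem_Icc] at hi
    rw [if_pos (by omega)]
  rw [h1, if_neg (by omega)]
  have h2 : ∀ k : ℕ, ∑ i ∈ Icc 1 k, (f (i - 1) - f i) = f 0 - f k := by
    intro k
    induction k with
    | zero => simp
    | succ k ih =>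
      rw [Finset.sum_Icc_succ_top (by omega), ih]
      simp
  rw [h2]
  simp

theorem renewal {A : ℕ} (hA : 6 ≤ A) {r n : ℕ} (hr : 1 ≤ r) (hn : r ≤ n) :
    en A n ≤ Real.log 16 + ∑ i ∈ Icc 1 r, tau A r i * en A (n - i) := by
  have hI1 : ∀ v : ℤ, ∑ i ∈ Icc 1 r, T08a_I A r i v = 1 := by
    intro v
    have := T08a_tele (fun i => sI A i v) r hr
    unfold T08a_I
    rw [this, T08a_sI_zero]
  have htau1 : ∑ i ∈ Icc 1 r, tau A r i = 1 := by
    have := T08a_tele (fun i => sk A i) r hr
    unfold tau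
    rw [this, sk_zero]
  have h1 : en A n = ∑ i ∈ Icc 1 r, Av n (fun v => T08a_I A r i v * (- Real.log (Mn A n v))) := by
    unfold en
    rw [← Av_sum]
    congr 1
    funext v
    rw [← Finset.sum_mul, hI1, one_mul]
  have h2 : ∀ i ∈ Icc 1 r, Av n (fun v => T08a_I A r i v * (- Real.log (Mn A n v))) ≤
      tau A r i * (Real.log 16 + en A (n - i)) := by
    intro i hi
    rw [Finset.mem_Icc] at hi
    obtain ⟨m, rfl⟩ : ∃ m, n = i + m := ⟨n - i, by omega⟩
    have hper : Per (i + m) (fun v => T08a_I A r i v * (- Real.log (Mn A (i + m) v))) := by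
      intro v z
      have ha := (T08a_I_per (A := A) hi.2).mono (Nat.le_add_right i m) v z
      have hb := T08a_te_per (A := A) (i + m) v z
      simp only at hb
      show T08a_I A r i (v + 3 ^ (i + m) * z) *
        (- Real.log (Mn A (i + m) (v + 3 ^ (i + m) * z))) = _
      rw [ha, hb]
    rw [Av_split hper]
    have hin : ∀ v : ℤ, Av m (fun z => T08a_I A r i (v + 3 ^ i * z) *
        (- Real.log (Mn A (i + m) (v + 3 ^ i * z)))) ≤
        T08a_I A r i v * (Real.log 16 + en A m) := by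
      intro v
      have hcg : (fun z : ℤ => T08a_I A r i (v + 3 ^ i * z) *
          (- Real.log (Mn A (i + m) (v + 3 ^ i * z)))) =
          (fun z : ℤ => T08a_I A r i v * (- Real.log (Mn A (i + m) (v + 3 ^ i * z)))) := by
        funext z
        rw [T08a_I_per (A := A) hi.2 v z]
      rw [hcg, Av_mul_left]
      by_cases hz : T08a_I A r i v = 0
      · rw [hz, zero_mul, zero_mul]
      · apply mul_le_mul_of_nonneg_left _ (T08a_I_nonneg A r i v)
        refine (T08a_step hA i m v).trans ?_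
        have hsv := T08a_I_surv hi.2 hz
        have hprev : 1 / 4 ≤ Mn A (i - 1) v := by
          rcases Nat.eq_or_lt_of_le hi.1 with h | h
          · rw [← h]
            have : Mn A (1 - 1) v = 1 := rfl
            rw [this]; norm_num
          · exact hsv (i - 1) (by omega) le_rfl
        have hnow : 1 / 16 ≤ Mn A i v := by
          have h3 := Mn_succ_ge hA (i - 1) v
          rw [show i - 1 + 1 = i by omega] at h3
          linarith
        have hlog : - Real.log 16 ≤ Real.log (Mn A i v) := by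
          rw [← Real.log_inv]
          apply Real.log_le_log (by norm_num)
          have : (16 : ℝ)⁻¹ = 1 / 16 := by norm_num
          rw [this]
          exact hnow
        linarith
    refine (Av_mono hin).trans ?_
    have hcomm : Av i (fun v => T08a_I A r i v * (Real.log 16 + en A m)) =
        tau A r i * (Real.log 16 + en A m) := by
      have : (fun v => T08a_I A r i v * (Real.log 16 + en A m)) =
          (fun v => (Real.log 16 + en A m) * T08a_I A r i v) := by
        funext v; ring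
      rw [this, Av_mul_left, T08a_I_avg hi.2]
      ring
    rw [hcomm, Nat.add_sub_cancel_left]
  rw [h1]
  refine (Finset.sum_le_sum h2).trans ?_
  have h3 : ∑ i ∈ Icc 1 r, tau A r i * (Real.log 16 + en A (n - i)) =
      Real.log 16 * ∑ i ∈ Icc 1 r, tau A r i + ∑ i ∈ Icc 1 r, tau A r i * en A (n - i) := by
    rw [Finset.mul_sum, ← Finset.sum_add_distrib]
    refine Finset.sum_congr rfl fun i _ => ?_
    ring
  rw [h3, htau1, mul_one]

end Pool.Agent.Lib.MP_e43fce_nt_one
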