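import Pool.Agent.Lib.MP_e43fce_nt_one.Defs
import Pool.Agent.Lib.MP_e43fce_nt_one.T08a

/-!
Module T08b.
E = sum_{i<r} sk A i = sum_{i=1}^r i tau_i, sum tau_i = 1, tau_i >= 0 (sk_anti), E>=1 (sk_zero,
sk_nonneg). Strong induction: en n <= (log 16/E) n + C1 with C1 = max of en on n<r (use Mn_ge: en
n <= n log 4).
-/

set_option autoImplicit false

open Finset

namespace Pool.Agent.Lib.MP_e43fce_nt_one

theorem t08b_abel (s f : ℕ → ℝ) (k : ℕ) :
    ∑ i ∈ Icc 1 k, (s (i - 1) - s i) * f i =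
      s 0 * f 0 + ∑ i ∈ range k, s i * (f (i + 1) - f i) - s k * f k := by
  induction k with
  | zero => simp
  | succ k ih =>
    rw [Finset.sum_Icc_succ_top (by omega), ih, Finset.sum_range_succ, Nat.add_sub_cancel]
    ring

theorem t08b_tau (s f : ℕ → ℝ) {r : ℕ} (hr : 1 ≤ r) :
    ∑ i ∈ Icc 1 r, (if i < r then s (i - 1) - s i else s (r - 1)) * f i =
      s 0 * f 0 + ∑ i ∈ range r, s i * (f (i + 1) - f i) := by
  obtain ⟨k, rfl⟩ : ∃ k, r = k + 1 := ⟨r - 1, by omega⟩
  rw [Finset.sum_Icc_succ_top (by omega), Finset.sum_range_succ]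
  have h1 : ∑ i ∈ Icc 1 k, (if i < k + 1 then s (i - 1) - s i else s (k + 1 - 1)) * f i =
      ∑ i ∈ Icc 1 k, (s (i - 1) - s i) * f i := by
    refine Finset.sum_congr rfl fun i hi => ?_
    rw [Finset.mem_Icc] at hi
    rw [if_pos (by omega)]
  rw [h1, t08b_abel, if_neg (by omega), Nat.add_sub_cancel]
  ring

theorem en_linear {A : ℕ} (hA : 6 ≤ A) {r : ℕ} (hr : 1 ≤ r) : ∃ C1 : ℝ, ∀ n : ℕ,
    en A n ≤ Real.log 16 / (∑ i ∈ range r, sk A i) * n + C1 := by
  set E : ℝ := ∑ i ∈ range r, sk A i with hE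
  have hE1 : 1 ≤ E := by
    have h1 : sk A 0 ≤ ∑ i ∈ range r, sk A i :=
      Finset.single_le_sum (f := fun i => sk A i) (fun i _ => sk_nonneg A i)
        (Finset.mem_range.2 (by omega))
    rw [sk_zero] at h1
    exact h1
  have hlog : 0 ≤ Real.log 16 := Real.log_nonneg (by norm_num)
  set κ : ℝ := Real.log 16 / E with hκ
  have hκ0 : 0 ≤ κ := div_nonneg hlog (by linarith)
  have hκE : κ * E = Real.log 16 := div_mul_cancel₀ _ (by linarith)
  have hs1 : ∑ i ∈ Icc 1 r, tau A r i * (1 : ℝ) = 1 := by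
    have h := t08b_tau (sk A) (fun _ => (1 : ℝ)) hr
    simp only [sub_self, mul_zero, Finset.sum_const_zero, add_zero, sk_zero] at h
    unfold tau
    rw [h]
    ring
  have hs2 : ∑ i ∈ Icc 1 r, tau A r i * (i : ℝ) = E := by
    have h := t08b_tau (sk A) (fun i => (i : ℝ)) hr
    unfold tau
    rw [h, hE]
    simp only [Nat.cast_zero, mul_zero, zero_add]
    refine Finset.sum_congr rfl fun i _ => ?_
    push_cast
    ring
  have hτ : ∀ i, 0 ≤ tau A r i := by
    intro i
    unfold tau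
    split_ifs with h
    · exact sub_nonneg.2 (sk_anti A (by omega))
    · exact sk_nonneg A _
  refine ⟨∑ m ∈ range r, |en A m|, fun n => ?_⟩
  induction n using Nat.strong_induction_on with
  | _ n ih =>
    rcases Nat.lt_or_ge n r with hn | hn
    · have h1 : |en A n| ≤ ∑ m ∈ range r, |en A m| :=
        Finset.single_le_sum (f := fun m => |en A m|) (fun m _ => abs_nonneg _)
          (Finset.mem_range.2 hn)
      have h2 := le_abs_self (en A n)
      have h3 : 0 ≤ κ * (n : ℝ) := mul_nonneg hκ0 (Nat.cast_nonneg n)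
      linarith
    · have h1 := renewal hA hr hn
      have h2 : ∑ i ∈ Icc 1 r, tau A r i * en A (n - i) ≤
          ∑ i ∈ Icc 1 r, tau A r i * (κ * (n - i) + ∑ m ∈ range r, |en A m|) := by
        refine Finset.sum_le_sum fun i hi => ?_
        rw [Finset.mem_Icc] at hi
        refine mul_le_mul_of_nonneg_left ?_ (hτ i)
        have h3 := ih (n - i) (by omega)
        rw [Nat.cast_sub (by omega)] at h3
        exact h3
      have h4 : ∑ i ∈ Icc 1 r, tau A r i * (κ * (n - i) + ∑ m ∈ range r, |en A m|) =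
          (κ * n + ∑ m ∈ range r, |en A m|) * (∑ i ∈ Icc 1 r, tau A r i * (1 : ℝ)) -
            κ * ∑ i ∈ Icc 1 r, tau A r i * (i : ℝ) := by
        rw [Finset.mul_sum, Finset.mul_sum, ← Finset.sum_sub_distrib]
        refine Finset.sum_congr rfl fun i _ => ?_
        ring
      rw [h4, hs1, hs2, hκE] at h2
      linarith

end Pool.Agent.Lib.MP_e43fce_nt_one
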