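import Pool.Agent.Lib.MP_e43fce_nt_one.Defs
import Pool.Agent.Lib.MP_e43fce_nt_one.T07b
import Pool.Agent.Lib.MP_e43fce_nt_one.T08b

/-!
Module T08c.
choose r with sum_{k0<=k<r} c/k >= log 16/eps (harmonic divergence:
Real.tendsto_sum_range_one_div_nat_succ_atTop), then A with (1-2^-A)^r >= 9/10; for k<=r also
(1-2^-A)^k >= 9/10, so sk A k >= c/k.
-/

set_option autoImplicit false

open Finset

namespace Pool.Agent.Lib.MP_e43fce_nt_one

theorem en_small : ∀ ε : ℝ, 0 < ε → ∃ A : ℕ, 6 ≤ A ∧ ∃ C1 : ℝ, ∀ n : ℕ, en A n ≤ ε * n + C1 := by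
  intro ε hε
  obtain ⟨c, hc, k0, hsk⟩ := sk_lower
  have hlog : 0 < Real.log 16 := Real.log_pos (by norm_num)
  obtain ⟨n, hn⟩ := (Real.tendsto_sum_range_one_div_nat_succ_atTop.eventually_ge_atTop
    (Real.log 16 / (ε * c) + k0)).exists
  obtain ⟨A0, hA0⟩ := exists_pow_lt_of_lt_one (show (0 : ℝ) < 1 / (10 * (n + 1)) by positivity)
    (show (1 / 2 : ℝ) < 1 by norm_num)
  set A := max 6 A0 with hA
  have hA6 : 6 ≤ A := le_max_left _ _
  have hx0 : (0 : ℝ) ≤ (1 / 2) ^ A := by positivity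
  have hx1 : ((1 / 2 : ℝ)) ^ A ≤ 1 := pow_le_one₀ (by norm_num) (by norm_num)
  have hx : ((1 / 2 : ℝ)) ^ A ≤ 1 / (10 * (n + 1)) :=
    le_trans (pow_le_pow_of_le_one (by norm_num) (by norm_num) (le_max_right _ _)) hA0.le
  have hr : (9 / 10 : ℝ) ≤ (1 - (1 / 2 : ℝ) ^ A) ^ (n + 1) := by
    have h1 := one_add_mul_le_pow (a := -((1 / 2 : ℝ) ^ A)) (by linarith) (n + 1)
    have h2 : ((n + 1 : ℕ) : ℝ) * (1 / 2) ^ A ≤ 1 / 10 := by
      have h3 : ((n + 1 : ℕ) : ℝ) * (1 / 2) ^ A ≤ ((n + 1 : ℕ) : ℝ) * (1 / (10 * (n + 1))) :=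
        mul_le_mul_of_nonneg_left hx (by positivity)
      have h4 : ((n + 1 : ℕ) : ℝ) * (1 / (10 * (n + 1))) = 1 / 10 := by
        have : (n : ℝ) + 1 ≠ 0 := by positivity
        push_cast
        field_simp
      linarith
    have h5 : (1 : ℝ) + -((1 / 2 : ℝ) ^ A) = 1 - (1 / 2) ^ A := by ring
    rw [h5] at h1
    linarith
  have hk : ∀ k ≤ n, (9 / 10 : ℝ) ≤ (1 - (1 / 2 : ℝ) ^ A) ^ k := fun k hk =>
    le_trans hr (pow_le_pow_of_le_one (by linarith) (by linarith) (by omega))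
  have hE : Real.log 16 / ε ≤ ∑ i ∈ range (n + 1), sk A i := by
    rw [Finset.sum_range_succ']
    have h1 : ∑ i ∈ range n, (c * (1 / ((i : ℝ) + 1)) - if i < k0 then c else 0) ≤
        ∑ i ∈ range n, sk A (i + 1) := by
      refine Finset.sum_le_sum fun i hi => ?_
      have hi' := Finset.mem_range.1 hi
      by_cases hik : i < k0
      · rw [if_pos hik]
        have h2 : c * (1 / ((i : ℝ) + 1)) ≤ c * 1 := by
          refine mul_le_mul_of_nonneg_left ?_ hc.le
          rw [div_le_one (by positivity)]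
          have : (0 : ℝ) ≤ i := by positivity
          linarith
        have h3 := sk_nonneg A (i + 1)
        linarith
      · rw [if_neg hik, sub_zero]
        have h2 := hsk A (i + 1) (by omega) (by omega) (hk (i + 1) (by omega))
        rw [mul_one_div]
        push_cast at h2
        exact h2
    rw [Finset.sum_sub_distrib, ← Finset.mul_sum] at h1
    have h2 : ∑ i ∈ range n, (if i < k0 then c else 0) ≤ k0 * c := by
      rw [← Finset.sum_filter, Finset.sum_const, nsmul_eq_mul]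
      refine mul_le_mul_of_nonneg_right ?_ hc.le
      have h3 : ((range n).filter (fun i => i < k0)).card ≤ (range k0).card :=
        Finset.card_le_card fun i hi => Finset.mem_range.2 (Finset.mem_filter.1 hi).2
      rw [Finset.card_range] at h3
      exact_mod_cast h3
    have h3 : c * (Real.log 16 / (ε * c) + k0) ≤ c * ∑ i ∈ range n, 1 / ((i : ℝ) + 1) :=
      mul_le_mul_of_nonneg_left hn hc.le
    have h4 : c * (Real.log 16 / (ε * c) + k0) = Real.log 16 / ε + k0 * c := by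
      field_simp
    have h5 := sk_nonneg A 0
    linarith
  obtain ⟨C1, hC1⟩ := en_linear hA6 (r := n + 1) (by omega)
  have hEpos : 0 < ∑ i ∈ range (n + 1), sk A i := lt_of_lt_of_le (by positivity) hE
  refine ⟨A, hA6, C1, fun N => le_trans (hC1 N) ?_⟩
  have h1 : Real.log 16 / (∑ i ∈ range (n + 1), sk A i) ≤ ε := by
    rw [div_le_iff₀ hEpos]
    rw [div_le_iff₀ hε] at hE
    linarith
  have h2 := mul_le_mul_of_nonneg_right h1 (Nat.cast_nonneg (α := ℝ) N)
  linarith

end Pool.Agent.Lib.MP_e43fce_nt_one
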