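import Pool.Agent.Lib.MP_e43fce_nt_one.Defs
import Pool.Agent.Lib.MP_e43fce_nt_one.T08c

/-!
Module T09.
Blueprint T6. For words with 10 sum >= 17 L: (3^L/2^s)^gamma >= (3^L/2^s) *
(2^(1.7)/3)^((1-gamma)L); for all words with letters>=1: >= (3^L/2^s) (2/3)^((1-gamma)L). Let lowM
= sum over low words of 3^L/2^s adm: Av lowM <= (39/40)^L. Good v: lowM <= Mn/2: log Fg >= log Mn
- log 2 + (1-gamma) L log(2^1.7/3); any v: log Fg >= log Mn - (1-gamma) L log(3/2). P(bad) <= P(Mn
<= 2 rho^(L/2)) + P(lowM > rho^(L/2)), rho = 39/40; P(Mn <= 2 rho^(L/2)) <= (Av(-log Mn)+1)/((L/2)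
log(1/rho) - log 2) (Markov for (-log Mn)^+ , E(log Mn)^+ <= E Mn <= 1). With en A L <= eps L +
C1, eps small, L large the mean is > 0.
-/

set_option autoImplicit false

open Finset

namespace Pool.Agent.Lib.MP_e43fce_nt_one

theorem t09_logx (L s : ℕ) : Real.log ((3 : ℝ) ^ L / 2 ^ s) =
    L * Real.log 3 - s * Real.log 2 := by
  rw [Real.log_div (by positivity) (by positivity), Real.log_pow, Real.log_pow]

theorem t09_gain {γ : ℝ} (h1 : γ < 1) {L s : ℕ} (h : 17 * L ≤ 10 * s) :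
    Real.exp ((1 - γ) * (17 / 10 * Real.log 2 - Real.log 3) * L) * ((3 : ℝ) ^ L / 2 ^ s) ≤
      ((3 : ℝ) ^ L / 2 ^ s) ^ γ := by
  have hx : (0 : ℝ) < 3 ^ L / 2 ^ s := by positivity
  have h2 : 0 < Real.log 2 := Real.log_pos (by norm_num)
  have hs : (17 : ℝ) * L ≤ 10 * s := by exact_mod_cast h
  have hxe : ((3 : ℝ) ^ L / 2 ^ s) = Real.exp (L * Real.log 3 - s * Real.log 2) := by
    rw [← t09_logx, Real.exp_log hx]
  rw [hxe, ← Real.exp_add, ← Real.exp_mul, Real.exp_le_exp]
  nlinarith [mul_nonneg (sub_nonneg.mpr h1.le)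
    (mul_nonneg h2.le (sub_nonneg.mpr hs))]

theorem t09_loss {γ : ℝ} (h1 : γ < 1) {L s : ℕ} (h : L ≤ s) :
    Real.exp (-((1 - γ) * (Real.log 3 - Real.log 2) * L)) * ((3 : ℝ) ^ L / 2 ^ s) ≤
      ((3 : ℝ) ^ L / 2 ^ s) ^ γ := by
  have hx : (0 : ℝ) < 3 ^ L / 2 ^ s := by positivity
  have h2 : 0 < Real.log 2 := Real.log_pos (by norm_num)
  have hs : (L : ℝ) ≤ s := by exact_mod_cast h
  have hxe : ((3 : ℝ) ^ L / 2 ^ s) = Real.exp (L * Real.log 3 - s * Real.log 2) := by
    rw [← t09_logx, Real.exp_log hx]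
  rw [hxe, ← Real.exp_add, ← Real.exp_mul, Real.exp_le_exp]
  nlinarith [mul_nonneg (sub_nonneg.mpr h1.le)
    (mul_nonneg h2.le (sub_nonneg.mpr hs))]

theorem t09_kappa : 0 < 17 / 10 * Real.log 2 - Real.log 3 := by
  have h : Real.log ((3 : ℝ) ^ 10) < Real.log ((2 : ℝ) ^ 17) :=
    Real.log_lt_log (by positivity) (by norm_num)
  rw [Real.log_pow, Real.log_pow] at h
  push_cast at h
  linarith

/-- the mass of the low words -/
noncomputable def lowM (A L : ℕ) (v : ℤ) : ℝ :=
  ∑ w ∈ lw A L, if adm v w then (if 10 * w.sum < 17 * L then (3 : ℝ) ^ L / 2 ^ w.sum else 0) else 0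

theorem t09_Mn_eq (A L : ℕ) (v : ℤ) :
    Mn A L v = ∑ w ∈ lw A L, if adm v w then (3 : ℝ) ^ L / 2 ^ w.sum else 0 := by
  rw [Mn, Gw_eq]
  refine sum_congr rfl fun w hw => ?_
  rw [prod_w1, (mem_lw.mp hw).1]

theorem t09_Fg_eq (A L : ℕ) (γ : ℝ) (v : ℤ) :
    Fg A γ L v = ∑ w ∈ lw A L, if adm v w then ((3 : ℝ) ^ L / 2 ^ w.sum) ^ γ else 0 := by
  rw [Fg, Gw_eq]
  refine sum_congr rfl fun w hw => ?_
  rw [prod_wt, (mem_lw.mp hw).1]

theorem t09_Fg_ge_all {γ : ℝ} (h1 : γ < 1) (A L : ℕ) (v : ℤ) :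
    Real.exp (-((1 - γ) * (Real.log 3 - Real.log 2) * L)) * Mn A L v ≤ Fg A γ L v := by
  rw [t09_Mn_eq, t09_Fg_eq, mul_sum]
  refine sum_le_sum fun w hw => ?_
  split_ifs with h
  · refine t09_loss h1 ?_
    obtain ⟨hl, hj⟩ := mem_lw.mp hw
    rw [← hl]
    exact List.length_le_sum_of_one_le w fun j hj' => (hj j hj').1
  · simp

theorem t09_Fg_ge_good {γ : ℝ} (h1 : γ < 1) (A L : ℕ) (v : ℤ) :
    Real.exp ((1 - γ) * (17 / 10 * Real.log 2 - Real.log 3) * L) * (Mn A L v - lowM A L v) ≤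
      Fg A γ L v := by
  rw [t09_Mn_eq, t09_Fg_eq, lowM, ← sum_sub_distrib, mul_sum]
  refine sum_le_sum fun w hw => ?_
  by_cases h : adm v w
  · simp only [if_pos h]
    by_cases h2 : 10 * w.sum < 17 * L
    · simp only [if_pos h2, sub_self, mul_zero]
      positivity
    · simp only [if_neg h2, sub_zero]
      exact t09_gain h1 (by omega)
  · simp [if_neg h]

theorem t09_lowM_nonneg (A L : ℕ) (v : ℤ) : 0 ≤ lowM A L v := by
  refine sum_nonneg fun w _ => ?_
  split_ifs <;> positivity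

theorem t09_Av_lowM (A L : ℕ) : Av L (lowM A L) ≤ (39 / 40 : ℝ) ^ L := by
  have h := Av_words A L (fun w => if 10 * w.sum < 17 * L then (3 : ℝ) ^ L / 2 ^ w.sum else 0)
  have h2 : Av L (lowM A L) = _ := h
  rw [h2]
  refine le_trans (le_of_eq ?_) (low_mass A L)
  rw [sum_filter, sum_div]
  refine sum_congr rfl fun w _ => ?_
  split_ifs
  · field_simp
  · simp

/-- the main pointwise inequality -/
theorem t09_point {γ : ℝ} (h1 : γ < 1) {A : ℕ} (hA : 6 ≤ A) (L : ℕ) {l : ℝ}
    (hl : Real.log 2 < l * L) (v : ℤ) :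
    Real.log (Mn A L v) - Real.log 2 + (1 - γ) * (17 / 10 * Real.log 2 - Real.log 3) * L -
      ((1 - γ) * (17 / 10 * Real.log 2 - Real.log 3) + (1 - γ) * (Real.log 3 - Real.log 2)) * L *
        ((Mn A L v - Real.log (Mn A L v)) / (l * L - Real.log 2) +
          Real.exp (l * L) * lowM A L v) ≤ Real.log (Fg A γ L v) := by
  have hM := Mn_pos hA L v
  obtain ⟨M, hMd⟩ : ∃ M, M = Mn A L v := ⟨_, rfl⟩
  obtain ⟨W, hWd⟩ : ∃ W, W = lowM A L v := ⟨_, rfl⟩
  obtain ⟨F, hFd⟩ : ∃ F, F = Fg A γ L v := ⟨_, rfl⟩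
  obtain ⟨κ, hκd⟩ : ∃ κ, κ = (1 - γ) * (17 / 10 * Real.log 2 - Real.log 3) := ⟨_, rfl⟩
  obtain ⟨κ', hκ'd⟩ : ∃ κ', κ' = (1 - γ) * (Real.log 3 - Real.log 2) := ⟨_, rfl⟩
  have hW : 0 ≤ W := by rw [hWd]; exact t09_lowM_nonneg A L v
  have hall := t09_Fg_ge_all h1 A L v
  have hgood := t09_Fg_ge_good h1 A L v
  rw [← hMd] at hM hall hgood ⊢
  rw [← hWd] at hgood ⊢
  rw [← hFd] at hall hgood ⊢
  rw [← hκ'd] at hall ⊢
  rw [← hκd] at hgood ⊢
  have hlog2 : 0 < Real.log 2 := Real.log_pos (by norm_num)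
  have hκ0 : 0 < κ := by
    rw [hκd]
    exact mul_pos (by linarith) t09_kappa
  have hκ'0 : 0 < κ' := by
    rw [hκ'd]
    refine mul_pos (by linarith) ?_
    have := Real.log_lt_log (by norm_num : (0 : ℝ) < 2) (by norm_num : (2 : ℝ) < 3)
    linarith
  have hL0 : (0 : ℝ) ≤ L := Nat.cast_nonneg L
  have hd : 0 < l * L - Real.log 2 := by linarith
  have hφ : 1 ≤ M - Real.log M := by
    have := Real.log_le_sub_one_of_pos hM
    linarith
  have hq0 : 0 ≤ (M - Real.log M) / (l * L - Real.log 2) := div_nonneg (by linarith) hd.le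
  have he0 : 0 ≤ Real.exp (l * L) * W := mul_nonneg (Real.exp_pos _).le hW
  have hF : Real.log M - κ' * L ≤ Real.log F := by
    have h3 : 0 < Real.exp (-(κ' * L)) * M := mul_pos (Real.exp_pos _) hM
    have h4 := Real.log_le_log h3 hall
    rw [Real.log_mul (Real.exp_pos _).ne' hM.ne', Real.log_exp] at h4
    linarith
  by_cases hb : W ≤ M / 2
  · -- good
    have h3 : 0 < Real.exp (κ * L) * (M / 2) := mul_pos (Real.exp_pos _) (by linarith)
    have h4 : Real.exp (κ * L) * (M / 2) ≤ F := by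
      refine le_trans (mul_le_mul_of_nonneg_left ?_ (Real.exp_pos _).le) hgood
      linarith
    have h5 := Real.log_le_log h3 h4
    rw [Real.log_mul (Real.exp_pos _).ne' (by positivity), Real.log_exp,
      Real.log_div hM.ne' (by norm_num)] at h5
    have h6 : 0 ≤ (κ + κ') * L * ((M - Real.log M) / (l * L - Real.log 2) +
        Real.exp (l * L) * W) := by positivity
    linarith
  · push Not at hb
    have h6 : 1 ≤ (M - Real.log M) / (l * L - Real.log 2) + Real.exp (l * L) * W := by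
      by_cases hc : M ≤ 2 * Real.exp (-(l * L))
      · have h7 : Real.log M ≤ Real.log 2 - l * L := by
          have := Real.log_le_log hM hc
          rw [Real.log_mul (by norm_num) (Real.exp_pos _).ne', Real.log_exp] at this
          linarith
        have h8 : 1 ≤ (M - Real.log M) / (l * L - Real.log 2) := by
          rw [one_le_div hd]
          linarith
        linarith
      · push Not at hc
        have h7 : Real.exp (-(l * L)) ≤ W := by linarith
        have h8 : 1 ≤ Real.exp (l * L) * W := by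
          calc (1 : ℝ) = Real.exp (l * L) * Real.exp (-(l * L)) := by
                rw [← Real.exp_add, add_neg_cancel, Real.exp_zero]
            _ ≤ _ := mul_le_mul_of_nonneg_left h7 (Real.exp_pos _).le
        linarith
    have h9 : (κ + κ') * L * 1 ≤ (κ + κ') * L * ((M - Real.log M) / (l * L - Real.log 2) +
        Real.exp (l * L) * W) := mul_le_mul_of_nonneg_left h6 (by positivity)
    linarith

theorem t09_Av_neg (m : ℕ) (f : ℤ → ℝ) : Av m (fun v => -f v) = -Av m f := by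
  have h := Av_mul_left m (-1) f
  simpa using h

theorem pos_mean {γ : ℝ} (h0 : 0 < γ) (h1 : γ < 1) : ∃ A : ℕ, 6 ≤ A ∧ ∃ L : ℕ, 1 ≤ L ∧
    0 < Av L (fun v => Real.log (Fg A γ L v)) := by
  obtain ⟨κ, hκd⟩ : ∃ κ, κ = (1 - γ) * (17 / 10 * Real.log 2 - Real.log 3) := ⟨_, rfl⟩
  obtain ⟨κ', hκ'd⟩ : ∃ κ', κ' = (1 - γ) * (Real.log 3 - Real.log 2) := ⟨_, rfl⟩
  have hlog2 : 0 < Real.log 2 := Real.log_pos (by norm_num)
  have hκ0 : 0 < κ := by
    rw [hκd]
    exact mul_pos (by linarith) t09_kappa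
  have hκ'0 : 0 < κ' := by
    rw [hκ'd]
    refine mul_pos (by linarith) ?_
    have := Real.log_lt_log (by norm_num : (0 : ℝ) < 2) (by norm_num : (2 : ℝ) < 3)
    linarith
  obtain ⟨l, hld⟩ : ∃ l, l = Real.log (40 / 39) / 2 := ⟨_, rfl⟩
  have hl0 : 0 < l := by
    rw [hld]
    have : 0 < Real.log (40 / 39) := Real.log_pos (by norm_num)
    linarith
  have hρ : ∀ L : ℕ, (39 / 40 : ℝ) ^ L = Real.exp (-(2 * (l * L))) := by
    intro L
    have h2 : (39 / 40 : ℝ) = Real.exp (-(2 * l)) := by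
      rw [hld, show -(2 * (Real.log (40 / 39) / 2)) = -Real.log (40 / 39) by ring,
        ← Real.log_inv, Real.exp_log (by norm_num)]
      norm_num
    rw [h2, ← Real.exp_nat_mul]
    congr 1
    ring
  obtain ⟨K, hKd⟩ : ∃ K, K = κ + κ' := ⟨_, rfl⟩
  have hK0 : 0 < K := by rw [hKd]; linarith
  obtain ⟨ε, hεd⟩ : ∃ ε, ε = κ / (2 * (1 + 2 * K / l)) := ⟨_, rfl⟩
  have hε0 : 0 < ε := by rw [hεd]; positivity
  obtain ⟨A, hA, C1, hC⟩ := en_small ε hε0
  refine ⟨A, hA, ?_⟩
  -- the lower bound for the mean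
  have key : ∀ L : ℕ, 1 ≤ L → 2 * Real.log 2 ≤ l * L →
      κ / 2 * L - (C1 + Real.log 2 + K * (2 * (C1 + 1) / l + 1 / l)) ≤
        Av L (fun v => Real.log (Fg A γ L v)) := by
    intro L hL1 hL
    have hLr : (1 : ℝ) ≤ L := by exact_mod_cast hL1
    have hd : 0 < l * L - Real.log 2 := by linarith
    have hpt := Av_mono (m := L) (fun v => t09_point h1 hA L (l := l) (by linarith) v)
    rw [← hκd, ← hκ'd, ← hKd] at hpt
    refine le_trans ?_ hpt
    -- compute the average
    have hMn : Av L (Mn A L) ≤ 1 := by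
      rw [Av_Mn]
      refine pow_le_one₀ ?_ ?_
      · have : ((1 : ℝ) / 2) ^ A ≤ 1 := pow_le_one₀ (by norm_num) (by norm_num)
        linarith
      · have : (0 : ℝ) ≤ (1 / 2) ^ A := by positivity
        linarith
    have hen : Av L (fun v => Real.log (Mn A L v)) = -en A L := by
      rw [en, t09_Av_neg, neg_neg]
    have hAvg : Av L (fun v => Real.log (Mn A L v) - Real.log 2 + κ * L -
        K * L * ((Mn A L v - Real.log (Mn A L v)) / (l * L - Real.log 2) +
          Real.exp (l * L) * lowM A L v)) =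
        -en A L + (-Real.log 2 + κ * L) + (-(K * L)) *
          ((Av L (Mn A L) + en A L) / (l * L - Real.log 2) +
            Real.exp (l * L) * Av L (lowM A L)) := by
      have e1 : (fun v => Real.log (Mn A L v) - Real.log 2 + κ * L -
          K * L * ((Mn A L v - Real.log (Mn A L v)) / (l * L - Real.log 2) +
          Real.exp (l * L) * lowM A L v)) = fun v =>
          (Real.log (Mn A L v) + (-Real.log 2 + κ * L)) + (-(K * L)) *
            ((1 / (l * L - Real.log 2)) * (Mn A L v + (-1) * Real.log (Mn A L v)) +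
              Real.exp (l * L) * lowM A L v) := by
        funext v
        ring
      rw [e1, Av_add, Av_add, Av_const, hen, Av_mul_left, Av_add, Av_mul_left, Av_add,
        Av_mul_left, Av_mul_left, hen]
      ring
    rw [hAvg]
    have hlow : Real.exp (l * L) * Av L (lowM A L) ≤ Real.exp (-(l * L)) := by
      calc Real.exp (l * L) * Av L (lowM A L) ≤ Real.exp (l * L) * (39 / 40 : ℝ) ^ L :=
            mul_le_mul_of_nonneg_left (t09_Av_lowM A L) (Real.exp_pos _).le
        _ = Real.exp (-(l * L)) := by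
            rw [hρ, ← Real.exp_add]
            congr 1
            ring
    have hLe : L * Real.exp (-(l * L)) ≤ 1 / l := by
      have h3 : l * L * Real.exp (-(l * L)) ≤ 1 := by
        have h4 : l * L ≤ Real.exp (l * L) := by
          have := Real.add_one_le_exp (l * L)
          linarith
        calc l * L * Real.exp (-(l * L)) ≤ Real.exp (l * L) * Real.exp (-(l * L)) :=
              mul_le_mul_of_nonneg_right h4 (Real.exp_pos _).le
          _ = 1 := by rw [← Real.exp_add, add_neg_cancel, Real.exp_zero]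
      rw [le_div_iff₀ hl0]
      nlinarith
    have henpos : 1 ≤ Av L (Mn A L) + en A L := by
      have h3 : Av L (fun v => Mn A L v + (-1) * Real.log (Mn A L v)) = Av L (Mn A L) + en A L := by
        rw [Av_add, Av_mul_left, hen]
        ring
      rw [← h3]
      refine le_trans (le_of_eq (Av_const L 1).symm) (Av_mono fun v => ?_)
      have := Real.log_le_sub_one_of_pos (Mn_pos hA L v)
      linarith
    have hq : L * ((Av L (Mn A L) + en A L) / (l * L - Real.log 2)) ≤
        2 / l * (ε * L + C1 + 1) := by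
      have h3 : Av L (Mn A L) + en A L ≤ ε * L + C1 + 1 := by
        have := hC L
        linarith
      have h4 : L / (l * L - Real.log 2) ≤ 2 / l := by
        rw [div_le_div_iff₀ hd hl0]
        linarith
      calc L * ((Av L (Mn A L) + en A L) / (l * L - Real.log 2)) =
            L / (l * L - Real.log 2) * (Av L (Mn A L) + en A L) := by ring
        _ ≤ 2 / l * (Av L (Mn A L) + en A L) :=
            mul_le_mul_of_nonneg_right h4 (by linarith)
        _ ≤ 2 / l * (ε * L + C1 + 1) := mul_le_mul_of_nonneg_left h3 (by positivity)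
    have hε : ε * (1 + 2 * K / l) = κ / 2 := by
      rw [hεd]
      have : 1 + 2 * K / l ≠ 0 := by positivity
      field_simp
    have hCL := hC L
    have h5 : K * (L * ((Av L (Mn A L) + en A L) / (l * L - Real.log 2))) ≤
        K * (2 / l * (ε * L + C1 + 1)) := mul_le_mul_of_nonneg_left hq hK0.le
    have h6 : K * (L * (Real.exp (l * L) * Av L (lowM A L))) ≤ K * (1 / l) := by
      refine mul_le_mul_of_nonneg_left (le_trans ?_ hLe) hK0.le
      exact mul_le_mul_of_nonneg_left hlow (by linarith)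
    have h7 : κ / 2 * L = ε * L + 2 * K / l * (ε * L) := by
      rw [← hε]
      ring
    have h8 : K * (2 / l * (ε * L + C1 + 1)) = 2 * K / l * (ε * L) + K * (2 * (C1 + 1) / l) := by
      ring
    rw [h8] at h5
    have h9 : κ * L = κ / 2 * L + κ / 2 * L := by ring
    nlinarith
  -- choose L
  obtain ⟨L, hL⟩ := exists_nat_gt (max 1 (max (2 * Real.log 2 / l)
    ((C1 + Real.log 2 + K * (2 * (C1 + 1) / l + 1 / l)) / (κ / 2))))
  have hL1 : (1 : ℝ) < L := lt_of_le_of_lt (le_max_left _ _) hL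
  have hL2 : 2 * Real.log 2 / l < L :=
    lt_of_le_of_lt ((le_max_left _ _).trans (le_max_right _ _)) hL
  have hL3 : (C1 + Real.log 2 + K * (2 * (C1 + 1) / l + 1 / l)) / (κ / 2) < L :=
    lt_of_le_of_lt ((le_max_right _ _).trans (le_max_right _ _)) hL
  refine ⟨L, by exact_mod_cast hL1.le, lt_of_lt_of_le ?_ (key L (by exact_mod_cast hL1.le) ?_)⟩
  · rw [div_lt_iff₀ (by positivity)] at hL3
    linarith
  · rw [div_lt_iff₀ hl0] at hL2
    linarith

end Pool.Agent.Lib.MP_e43fce_nt_one
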