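import Pool.Agent.Lib.MP_e43fce_nt_one.Defs
import Pool.Agent.Lib.MP_e43fce_nt_one.T09
import Pool.Agent.Lib.MP_e43fce_nt_one.T04
import Pool.Agent.Lib.MP_e43fce_nt_one.T01
import Pool.Agent.Lib.MP_e43fce_nt_one.T02b
import Pool.Agent.Lib.MP_e43fce_nt_one.L16

/-!
Module T10: the branching system of the backward Collatz tree, and uniform growth.
-/

set_option autoImplicit false

open Finset

namespace Pool.Agent.Lib.MP_e43fce_nt_one

theorem T10_Nw_append (u w : List ℕ) : Nw (u ++ w) = 2 ^ w.sum * Nw u + 3 ^ u.length * Nw w := by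
  induction u with
  | nil => simp [Nw]
  | cons j u ih =>
    rw [List.cons_append, Nw, Nw, ih, List.sum_append, List.length_cons]
    ring

/-- composite constant of a word -/
def T10_be (w : List ℕ) : ℤ := (2 ^ (w.sum + 1) - Nw w - 2 * 3 ^ w.length) / 3

theorem T10_three_be (w : List ℕ) : 3 * T10_be w = 2 ^ (w.sum + 1) - Nw w - 2 * 3 ^ w.length := by
  have key : (3 : ℤ) ∣ 2 ^ (w.sum + 1) - Nw w - 2 * 3 ^ w.length := by
    induction w with
    | nil => simp [Nw]
    | cons j w ih =>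
      obtain ⟨c, hc⟩ := ih
      rw [Nw, List.sum_cons, List.length_cons]
      have h := three_bt j
      refine ⟨2 ^ w.sum * (bt j + 2) - Nw w - 2 * 3 ^ w.length, ?_⟩
      have h2 : eps j = 2 ^ (j + 1) - 6 - 3 * bt j := by linarith
      rw [h2]
      ring
  unfold T10_be
  exact Int.mul_ediv_cancel' key

theorem T10_te {v : ℤ} {w : List ℕ} (h : adm v w) :
    3 ^ w.length * te v w = 2 ^ w.sum * v + T10_be w := by
  have h1 := te_eq h
  have h2 := T10_three_be w
  have h3 : (3 : ℤ) * (3 ^ w.length * te v w) = 3 * (2 ^ w.sum * v + T10_be w) := by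
    rw [mul_add 3 (2 ^ w.sum * v), h2]
    linear_combination h1
  linarith

/-- an admissible word of each length -/
theorem T10_exists (A : ℕ) (hA : 6 ≤ A) (n : ℕ) (v : ℤ) : ∃ w ∈ lw A n, adm v w := by
  induction n generalizing v with
  | zero => exact ⟨[], by rw [mem_lw]; simp, trivial⟩
  | succ n ih =>
    obtain ⟨i, j, hi1, hi6, -, -, -, hi, -⟩ := two_letters v
    obtain ⟨w, hw, hw2⟩ := ih (cv v i)
    rw [mem_lw] at hw
    refine ⟨i :: w, ?_, hi, hw2⟩
    rw [mem_lw]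
    refine ⟨by rw [List.length_cons, hw.1], ?_⟩
    intro k hk
    rcases List.mem_cons.1 hk with rfl | hk
    · exact ⟨hi1, by omega⟩
    · exact hw.2 k hk

/-- a second admissible word -/
theorem T10_second (A : ℕ) (hA : 6 ≤ A) (n : ℕ) (hn : 1 ≤ n) (v : ℤ) (w : List ℕ) :
    ∃ w' ∈ lw A n, adm v w' ∧ w' ≠ w := by
  obtain ⟨m, rfl⟩ : ∃ m, n = m + 1 := ⟨n - 1, by omega⟩
  have mk : ∀ i, 1 ≤ i → i ≤ 6 → adm1 v i → ∃ w' ∈ lw A (m + 1), adm v w' ∧ w'.head? = some i := by
    intro i h1 h6 hi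
    obtain ⟨u, hu, hu2⟩ := T10_exists A hA m (cv v i)
    rw [mem_lw] at hu
    refine ⟨i :: u, ?_, ⟨hi, hu2⟩, rfl⟩
    rw [mem_lw]
    refine ⟨by rw [List.length_cons, hu.1], ?_⟩
    intro k hk
    rcases List.mem_cons.1 hk with rfl | hk
    · exact ⟨h1, by omega⟩
    · exact hu.2 k hk
  obtain ⟨i, j, hi1, hi6, hj1, hj6, hij, hi, hj⟩ := two_letters v
  by_cases h : w.head? = some i
  · obtain ⟨w', h1, h2, h3⟩ := mk j hj1 hj6 hj
    refine ⟨w', h1, h2, ?_⟩
    rintro rfl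
    rw [h3] at h
    exact hij (Option.some.inj h).symm
  · obtain ⟨w', h1, h2, h3⟩ := mk i hi1 hi6 hi
    refine ⟨w', h1, h2, ?_⟩
    rintro rfl
    exact h h3

/-- weight of a word -/
noncomputable def T10_w (γ : ℝ) (n : ℕ) (w : List ℕ) : ℝ := (3 ^ n / 2 ^ w.sum : ℝ) ^ γ

theorem T10_w_pos (γ : ℝ) (n : ℕ) (w : List ℕ) : 0 < T10_w γ n w := by
  unfold T10_w
  positivity

theorem T10_Fg (A : ℕ) (γ : ℝ) (n : ℕ) (v : ℤ) :
    Fg A γ n v = ∑ w ∈ lw A n, if adm v w then T10_w γ n w else 0 := by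
  unfold Fg
  rw [Gw_eq]
  refine Finset.sum_congr rfl fun w hw => ?_
  rw [prod_wt, (mem_lw.1 hw).1]
  rfl

theorem T10_Fg_add (A : ℕ) (γ : ℝ) (m n : ℕ) (v : ℤ) :
    Fg A γ (m + n) v = ∑ w ∈ lw A m, if adm v w then T10_w γ m w * Fg A γ n (te v w) else 0 := by
  unfold Fg
  rw [Gw_add]
  refine Finset.sum_congr rfl fun w hw => ?_
  rw [prod_wt, (mem_lw.1 hw).1]
  rfl

theorem T10_Fg_pos {A : ℕ} (hA : 6 ≤ A) (γ : ℝ) (n : ℕ) (v : ℤ) : 0 < Fg A γ n v := by
  rw [T10_Fg]
  obtain ⟨w, hw, hw2⟩ := T10_exists A hA n v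
  refine Finset.sum_pos' ?_ ⟨w, hw, ?_⟩
  · intro i _
    split_ifs
    · exact (T10_w_pos γ n i).le
    · exact le_rfl
  · rw [if_pos hw2]
    exact T10_w_pos γ n w

theorem T10_sum_le {A n : ℕ} {w : List ℕ} (hw : w ∈ lw A n) : w.sum ≤ A * n := by
  rw [mem_lw] at hw
  obtain ⟨h1, h2⟩ := hw
  subst h1
  have := List.sum_le_card_nsmul w A (fun j hj => (h2 j hj).2)
  rw [smul_eq_mul] at this
  linarith [Nat.mul_comm w.length A]

/-- lower bound of the transition probabilities -/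
theorem T10_c {A : ℕ} (hA : 6 ≤ A) (γ : ℝ) (n : ℕ) : ∃ c : ℝ, 0 < c ∧ c < 1 ∧
    ∀ v : ℤ, ∀ w ∈ lw A n, adm v w → c ≤ T10_w γ n w / Fg A γ n v := by
  have hne : (lw A n).Nonempty := by
    obtain ⟨w, hw, -⟩ := T10_exists A hA n 0
    exact ⟨w, hw⟩
  obtain ⟨w0, hw0, hmin⟩ := Finset.exists_min_image (lw A n) (T10_w γ n) hne
  have hT : 0 < ∑ w ∈ lw A n, T10_w γ n w := Finset.sum_pos (fun w _ => T10_w_pos γ n w) hne
  refine ⟨min (T10_w γ n w0 / ∑ w ∈ lw A n, T10_w γ n w) (1 / 2),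
    lt_min (div_pos (T10_w_pos γ n w0) hT) (by norm_num),
    lt_of_le_of_lt (min_le_right _ _) (by norm_num), ?_⟩
  intro v w hw hadm
  refine (min_le_left _ _).trans ?_
  have hF := T10_Fg_pos hA γ n v
  have hFT : Fg A γ n v ≤ ∑ w ∈ lw A n, T10_w γ n w := by
    rw [T10_Fg]
    refine Finset.sum_le_sum fun u _ => ?_
    split_ifs
    · exact le_rfl
    · exact (T10_w_pos γ n u).le
  exact div_le_div₀ (T10_w_pos γ n w).le (hmin w hw) hF hFT

/-- the transition probability -/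
noncomputable def T10_P (A : ℕ) (γ : ℝ) (n : ℕ) (v : ℤ) (w : List ℕ) : ℝ :=
  if adm v w then T10_w γ n w / Fg A γ n v else 0

theorem T10_P_nonneg {A : ℕ} (hA : 6 ≤ A) (γ : ℝ) (n : ℕ) (v : ℤ) (w : List ℕ) :
    0 ≤ T10_P A γ n v w := by
  unfold T10_P
  split_ifs
  · exact (div_pos (T10_w_pos γ n w) (T10_Fg_pos hA γ n v)).le
  · exact le_rfl

theorem T10_P_sum {A : ℕ} (hA : 6 ≤ A) (γ : ℝ) (n : ℕ) (v : ℤ) :
    ∑ w ∈ lw A n, T10_P A γ n v w = 1 := by
  have hF := T10_Fg_pos hA γ n v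
  have : ∀ w ∈ lw A n, T10_P A γ n v w = (if adm v w then T10_w γ n w else 0) / Fg A γ n v := by
    intro w _
    unfold T10_P
    split_ifs
    · rfl
    · rw [zero_div]
  rw [Finset.sum_congr rfl this, ← Finset.sum_div, ← T10_Fg]
  exact div_self hF.ne'

/-- concatenation of blocks -/
def T10_fl {A n : ℕ} (w : List {w : List ℕ // w ∈ lw A n}) : List ℕ := (w.map Subtype.val).flatten

theorem T10_fl_cons {A n : ℕ} (i : {w : List ℕ // w ∈ lw A n})
    (w : List {w : List ℕ // w ∈ lw A n}) : T10_fl (i :: w) = i.val ++ T10_fl w := by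
  unfold T10_fl
  rw [List.map_cons, List.flatten_cons]

theorem T10_fl_length {A n : ℕ} (w : List {w : List ℕ // w ∈ lw A n}) :
    (T10_fl w).length = n * w.length := by
  induction w with
  | nil => rfl
  | cons i w ih =>
    rw [T10_fl_cons, List.length_append, ih, (mem_lw.1 i.2).1, List.length_cons]
    ring

theorem T10_fl_mem {A n : ℕ} (w : List {w : List ℕ // w ∈ lw A n}) : ∀ j ∈ T10_fl w, 1 ≤ j := by
  induction w with
  | nil =>
    intro j hj
    unfold T10_fl at hj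
    simp at hj
  | cons i w ih =>
    intro j hj
    rw [T10_fl_cons, List.mem_append] at hj
    rcases hj with hj | hj
    · exact ((mem_lw.1 i.2).2 j hj).1
    · exact ih j hj

theorem T10_fl_sum {A n : ℕ} (w : List {w : List ℕ // w ∈ lw A n}) :
    (T10_fl w).sum = bW (fun i : {w : List ℕ // w ∈ lw A n} => i.val.sum) w := by
  induction w with
  | nil => rfl
  | cons i w ih =>
    rw [T10_fl_cons, List.sum_append, ih]
    rfl

theorem T10_fl_be {A n : ℕ} (w : List {w : List ℕ // w ∈ lw A n}) :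
    βW n (fun i : {w : List ℕ // w ∈ lw A n} => i.val.sum) (fun i => T10_be i.val) w =
      T10_be (T10_fl w) := by
  induction w with
  | nil =>
    have h := T10_three_be (T10_fl ([] : List {w : List ℕ // w ∈ lw A n}))
    have h2 : T10_fl ([] : List {w : List ℕ // w ∈ lw A n}) = [] := rfl
    rw [h2] at h ⊢
    simp only [Nw, List.sum_nil, List.length_nil] at h
    show (0 : ℤ) = _
    omega
  | cons i w ih =>
    have h1 := T10_three_be (T10_fl (i :: w))
    have h2 := T10_three_be i.val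
    have h3 := T10_three_be (T10_fl w)
    rw [T10_fl_cons, T10_Nw_append, List.sum_append, List.length_append, (mem_lw.1 i.2).1] at h1
    rw [(mem_lw.1 i.2).1] at h2
    rw [T10_fl_cons]
    show 2 ^ (bW (fun i : {w : List ℕ // w ∈ lw A n} => i.val.sum) w) * T10_be i.val +
      3 ^ n * βW n (fun i : {w : List ℕ // w ∈ lw A n} => i.val.sum) (fun i => T10_be i.val) w = _
    rw [ih, ← T10_fl_sum]
    have h4 : (3 : ℤ) * (2 ^ (T10_fl w).sum * T10_be i.val + 3 ^ n * T10_be (T10_fl w)) =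
        3 * T10_be (i.val ++ T10_fl w) := by
      rw [h1]
      linear_combination 2 ^ (T10_fl w).sum * h2 + 3 ^ n * h3
    linarith

theorem T10_fl_inj {A n : ℕ} (hn : 1 ≤ n) (w w' : List {w : List ℕ // w ∈ lw A n})
    (h : T10_fl w = T10_fl w') : w = w' := by
  induction w generalizing w' with
  | nil =>
    have h1 := T10_fl_length w'
    rw [← h] at h1
    have h2 : n * w'.length = 0 := h1.symm
    rcases Nat.mul_eq_zero.1 h2 with h3 | h3
    · omega
    · exact (List.eq_nil_of_length_eq_zero h3).symm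
  | cons i w ih =>
    cases w' with
    | nil =>
      have h1 := T10_fl_length (i :: w)
      rw [h] at h1
      have h2 : n * (i :: w).length = 0 := h1.symm
      rcases Nat.mul_eq_zero.1 h2 with h3 | h3
      · omega
      · simp at h3
    | cons i' w' =>
      rw [T10_fl_cons, T10_fl_cons] at h
      have hl : i.val.length = i'.val.length := by rw [(mem_lw.1 i.2).1, (mem_lw.1 i'.2).1]
      obtain ⟨h1, h2⟩ := List.append_inj h hl
      rw [ih w' h2, Subtype.ext h1]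

theorem T10_P_le {A : ℕ} (hA : 6 ≤ A) (γ : ℝ) {n : ℕ} (hn : 1 ≤ n) {c : ℝ} (hc1 : c < 1)
    (h : ∀ v : ℤ, ∀ w ∈ lw A n, adm v w → c ≤ T10_w γ n w / Fg A γ n v) (v : ℤ) {w : List ℕ}
    (hw : w ∈ lw A n) : T10_P A γ n v w ≤ 1 - c := by
  by_cases ha : adm v w
  · obtain ⟨w', hw', ha', hne⟩ := T10_second A hA n hn v w
    have h1 := T10_P_sum hA γ n v
    have h2 : T10_P A γ n v w + T10_P A γ n v w' ≤ ∑ u ∈ lw A n, T10_P A γ n v u := by
      rw [← Finset.sum_pair (Ne.symm hne)]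
      refine Finset.sum_le_sum_of_subset_of_nonneg ?_ fun u _ _ => T10_P_nonneg hA γ n v u
      intro u hu
      rcases Finset.mem_insert.1 hu with rfl | hu
      · exact hw
      · rw [Finset.mem_singleton.1 hu]
        exact hw'
    have h3 : c ≤ T10_P A γ n v w' := by
      unfold T10_P
      rw [if_pos ha']
      exact h v w' hw' ha'
    linarith
  · unfold T10_P
    rw [if_neg ha]
    linarith

theorem T10_adm_per {A n : ℕ} {w : List ℕ} (hw : w ∈ lw A n) (v z : ℤ) :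
    adm (v + 3 ^ n * z) w ↔ adm v w := by
  have h := adm_shift v z w
  rw [(mem_lw.1 hw).1] at h
  exact h

theorem T10_Fg_per (A : ℕ) (γ : ℝ) (n : ℕ) : Per n (Fg A γ n) := Gw_per A (wt γ) n

/-- the branching system of blocks of `n` letters -/
noncomputable def T10_sys {A : ℕ} (hA : 6 ≤ A) (γ : ℝ) {n : ℕ} (hn : 1 ≤ n) (c : ℝ) (hc0 : 0 < c)
    (hc1 : c < 1) (h : ∀ v : ℤ, ∀ w ∈ lw A n, adm v w → c ≤ T10_w γ n w / Fg A γ n v) :
    Sys {w : List ℕ // w ∈ lw A n} where
  L := n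
  B := A * n
  c := c
  b := fun i => i.val.sum
  β := fun i => T10_be i.val
  P := fun v i => T10_P A γ n v i.val
  ψ := fun v => Real.log (Fg A γ n v)
  hL := hn
  hB := Nat.mul_pos (by omega) hn
  hc := hc0
  hc1 := hc1
  hb := fun i => T10_sum_le i.2
  P_nonneg := fun v i => T10_P_nonneg hA γ n v i.val
  P_sum := fun v => by
    rw [Finset.sum_coe_sort (lw A n) (fun w => T10_P A γ n v w)]
    exact T10_P_sum hA γ n v
  P_le := fun v i => T10_P_le hA γ hn hc1 h v i.2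
  P_per := fun i v z => by
    show T10_P A γ n (v + 3 ^ n * z) i.val = T10_P A γ n v i.val
    unfold T10_P
    rw [T10_Fg_per A γ n v z]
    by_cases ha : adm v i.val
    · rw [if_pos ha, if_pos ((T10_adm_per i.2 v z).2 ha)]
    · rw [if_neg ha, if_neg (fun h => ha ((T10_adm_per i.2 v z).1 h))]
  ψ_per := fun v z => by
    show Real.log (Fg A γ n (v + 3 ^ n * z)) = Real.log (Fg A γ n v)
    rw [T10_Fg_per A γ n v z]
  P_dvd := fun v i hi => by
    have ha : adm v i.val := by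
      by_contra ha
      apply hi
      show T10_P A γ n v i.val = 0
      unfold T10_P
      rw [if_neg ha]
    have h1 := T10_te ha
    rw [(mem_lw.1 i.2).1] at h1
    exact ⟨te v i.val, h1.symm⟩
  sep := fun w w' hl hb hβ => by
    apply T10_fl_inj hn
    rw [T10_fl_be, T10_fl_be] at hβ
    have hs : (T10_fl w).sum = (T10_fl w').sum := by rw [T10_fl_sum, T10_fl_sum, hb]
    have hll : (T10_fl w).length = (T10_fl w').length := by rw [T10_fl_length, T10_fl_length, hl]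
    have h1 := T10_three_be (T10_fl w)
    have h2 := T10_three_be (T10_fl w')
    rw [hβ, hs, hll] at h1
    exact Nw_inj (T10_fl_mem w) (T10_fl_mem w') hll hs (by linarith)

theorem T10_jensen {A : ℕ} (hA : 6 ≤ A) (γ : ℝ) {n : ℕ} (hn : 1 ≤ n) (c : ℝ) (hc0 : 0 < c)
    (hc1 : c < 1) (h : ∀ v : ℤ, ∀ w ∈ lw A n, adm v w → c ≤ T10_w γ n w / Fg A γ n v) (k : ℕ)
    (v : ℤ) : (T10_sys hA γ hn c hc0 hc1 h).Psi k v ≤ Real.log (Fg A γ (n * k) v) := by
  induction k generalizing v with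
  | zero =>
    have : Fg A γ (n * 0) v = 1 := rfl
    rw [this, Real.log_one]
    exact le_rfl
  | succ k ih =>
    have hF := T10_Fg_pos hA γ n v
    have e1 : Fg A γ (n * (k + 1)) v =
        Fg A γ n v * ∑ w ∈ lw A n, T10_P A γ n v w * Fg A γ (n * k) ((2 ^ w.sum * v + T10_be w) / 3 ^ n) := by
      rw [show n * (k + 1) = n + n * k by ring, T10_Fg_add, Finset.mul_sum]
      refine Finset.sum_congr rfl fun w hw => ?_
      unfold T10_P
      by_cases ha : adm v w
      · have h1 := T10_te ha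
        rw [(mem_lw.1 hw).1] at h1
        rw [if_pos ha, if_pos ha, ← h1, Int.mul_ediv_cancel_left _ (by positivity)]
        field_simp
      · rw [if_neg ha, if_neg ha]
        ring
    have hpos : ∀ w : List ℕ, 0 < Fg A γ (n * k) ((2 ^ w.sum * v + T10_be w) / 3 ^ n) :=
      fun w => T10_Fg_pos hA γ _ _
    have e2 : ∑ w ∈ lw A n, T10_P A γ n v w *
        Real.log (Fg A γ (n * k) ((2 ^ w.sum * v + T10_be w) / 3 ^ n)) ≤
        Real.log (∑ w ∈ lw A n, T10_P A γ n v w *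
          Fg A γ (n * k) ((2 ^ w.sum * v + T10_be w) / 3 ^ n)) := by
      have hcon := strictConcaveOn_log_Ioi.concaveOn.le_map_sum (t := lw A n)
        (w := fun w => T10_P A γ n v w)
        (p := fun w => Fg A γ (n * k) ((2 ^ w.sum * v + T10_be w) / 3 ^ n))
        (fun w _ => T10_P_nonneg hA γ n v w) (T10_P_sum hA γ n v)
        (fun w _ => hpos w)
      simpa only [smul_eq_mul] using hcon
    have hS : 0 < ∑ w ∈ lw A n, T10_P A γ n v w *
          Fg A γ (n * k) ((2 ^ w.sum * v + T10_be w) / 3 ^ n) := by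
      have := T10_Fg_pos hA γ (n * (k + 1)) v
      rw [e1] at this
      exact (mul_pos_iff_of_pos_left hF).1 this
    rw [e1, Real.log_mul hF.ne' hS.ne']
    show Real.log (Fg A γ n v) + ∑ i : {w : List ℕ // w ∈ lw A n},
      T10_P A γ n v i.val * (T10_sys hA γ hn c hc0 hc1 h).Psi k
        ((2 ^ i.val.sum * v + T10_be i.val) / 3 ^ n) ≤ _
    rw [Finset.sum_coe_sort (lw A n) (fun w => T10_P A γ n v w *
      (T10_sys hA γ hn c hc0 hc1 h).Psi k ((2 ^ w.sum * v + T10_be w) / 3 ^ n))]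
    refine add_le_add le_rfl (le_trans (Finset.sum_le_sum fun w _ => ?_) e2)
    exact mul_le_mul_of_nonneg_left (ih _) (T10_P_nonneg hA γ n v w)

theorem T10_pow {A : ℕ} (hA : 6 ≤ A) (γ : ℝ) {m : ℕ} {ρ : ℝ} (hρ : 0 ≤ ρ)
    (h : ∀ v : ℤ, ρ ≤ Fg A γ m v) (k : ℕ) (v : ℤ) : ρ ^ k ≤ Fg A γ (m * k) v := by
  induction k generalizing v with
  | zero => exact le_of_eq (by rw [pow_zero]; rfl)
  | succ k ih =>
    rw [show m * (k + 1) = m + m * k by ring, T10_Fg_add]
    have h1 : ∑ w ∈ lw A m, (if adm v w then T10_w γ m w else 0) * ρ ^ k ≤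
        ∑ w ∈ lw A m, if adm v w then T10_w γ m w * Fg A γ (m * k) (te v w) else 0 := by
      refine Finset.sum_le_sum fun w _ => ?_
      by_cases ha : adm v w
      · rw [if_pos ha, if_pos ha]
        exact mul_le_mul_of_nonneg_left (ih _) (T10_w_pos γ m w).le
      · rw [if_neg ha, if_neg ha, zero_mul]
    rw [← Finset.sum_mul, ← T10_Fg] at h1
    refine le_trans ?_ h1
    rw [pow_succ, mul_comm]
    exact mul_le_mul_of_nonneg_right (h v) (pow_nonneg hρ k)

theorem uniform_growth {γ : ℝ} (h0 : 0 < γ) (h1 : γ < 1) : ∃ A m : ℕ, 1 ≤ A ∧ 1 ≤ m ∧ ∀ v : ℤ,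
    2 ≤ Fg A γ m v := by
  obtain ⟨A, hA, n, hn, hpos⟩ := pos_mean h0 h1
  obtain ⟨c, hc0, hc1, hc⟩ := T10_c hA γ n
  obtain ⟨k, hk⟩ := (T10_sys hA γ hn c hc0 hc1 hc).thmR hpos
  have hk0 : 1 ≤ k := by
    rcases Nat.eq_zero_or_pos k with rfl | h
    · exact absurd (hk 0) (lt_irrefl _)
    · exact h
  have hgt : ∀ v : ℤ, 1 < Fg A γ (n * k) v := by
    intro v
    have h2 := lt_of_lt_of_le (hk v) (T10_jensen hA γ hn c hc0 hc1 hc k v)
    exact (Real.log_pos_iff (T10_Fg_pos hA γ _ v).le).1 h2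
  obtain ⟨m, hm⟩ : ∃ m, m = n * k := ⟨_, rfl⟩
  rw [← hm] at hgt
  have hm1 : 1 ≤ m := by rw [hm]; exact Nat.mul_pos hn hk0
  obtain ⟨r, -, hr⟩ := Finset.exists_min_image (Finset.range (3 ^ m))
    (fun r : ℕ => Fg A γ m (r : ℤ)) ⟨0, Finset.mem_range.2 (by positivity)⟩
  have hmin : ∀ v : ℤ, Fg A γ m r ≤ Fg A γ m v := by
    intro v
    have h3 : (0 : ℤ) < 3 ^ m := by positivity
    have e := T10_Fg_per A γ m (v % 3 ^ m) (v / 3 ^ m)
    rw [Int.emod_add_mul_ediv] at e
    have h4 := hr (v % 3 ^ m).toNat (by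
      rw [Finset.mem_range]
      have h5 := Int.emod_nonneg v h3.ne'
      have h6 := Int.emod_lt_of_pos v h3
      have h7 : (((v % 3 ^ m).toNat : ℕ) : ℤ) < ((3 ^ m : ℕ) : ℤ) := by
        rw [Int.toNat_of_nonneg h5]
        push_cast
        exact h6
      exact_mod_cast h7)
    rw [Int.toNat_of_nonneg (Int.emod_nonneg v h3.ne')] at h4
    rw [e]
    exact h4
  obtain ⟨j, hj⟩ := pow_unbounded_of_one_lt (2 : ℝ) (hgt r)
  have hj0 : 1 ≤ j := by
    rcases Nat.eq_zero_or_pos j with rfl | h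
    · rw [pow_zero] at hj
      norm_num at hj
    · exact h
  refine ⟨A, m * j, by omega, Nat.mul_pos hm1 hj0, fun v => ?_⟩
  exact hj.le.trans (T10_pow hA γ (zero_le_one.trans (hgt r).le) hmin j v)

end Pool.Agent.Lib.MP_e43fce_nt_one
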