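import Pool.Agent.Lib.MP_e43fce_nt_one.Defs
import Pool.Agent.Lib.MP_e43fce_nt_one.C02
import Pool.Agent.Lib.MP_e43fce_nt_one.T10

/-!
Module C03.
The count for every exponent below one: with `γ' = max γ (1/2)` in `(0,1)` use `uniform_growth` and
`count`, and `x ^ γ ≤ x ^ γ'`.
-/

set_option autoImplicit false

open Finset

namespace Pool.Agent.Lib.MP_e43fce_nt_one

open Classical in
theorem main_count {γ : ℝ} (h1 : γ < 1) : ∃ C : ℝ, 0 < C ∧ ∀ b : ℕ, b % 3 = 2 → ∃ c : ℝ, 0 < c ∧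
      ∃ X : ℕ, ∀ x : ℕ, X ≤ x → c * (x : ℝ) ^ γ ≤
        (((Icc 1 x).filter (fun n => n % 3 = 2 ∧ ∃ k : ℕ, (k : ℝ) ≤ C * Real.log x ∧
          col^[k] n = b)).card : ℝ) := by
  obtain ⟨A, m, hA, hm, h⟩ := uniform_growth (γ := max γ (1 / 2))
    (lt_of_lt_of_le (by norm_num) (le_max_right _ _)) (max_lt h1 (by norm_num))
  obtain ⟨C, hC, hcount⟩ := count (lt_of_lt_of_le (by norm_num) (le_max_right γ (1 / 2))) hA hm h
  refine ⟨C, hC, fun b hb => ?_⟩
  obtain ⟨c, hc, X, hX⟩ := hcount b hb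
  refine ⟨c, hc, max X 1, fun x hx => ?_⟩
  have hx1 : (1 : ℝ) ≤ x := by
    have : 1 ≤ x := (le_max_right _ _).trans hx
    exact_mod_cast this
  refine le_trans ?_ (hX x ((le_max_left _ _).trans hx))
  exact mul_le_mul_of_nonneg_left
    (Real.rpow_le_rpow_of_exponent_le hx1 (le_max_left _ _)) hc.le

end Pool.Agent.Lib.MP_e43fce_nt_one
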