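import Mathlib

set_option autoImplicit false

open Finset

namespace Pool.Agent.Lib.MP_e43fce_nt_one

/-! ## Entropy part -/

section Ent
variable {G : Type} [Fintype G]

/-- probability mass function on a finite type -/
structure IsPmf (p : G → ℝ) : Prop where
  nonneg : ∀ x, 0 ≤ p x
  sum_one : ∑ x, p x = 1

/-- Shannon entropy (natural logarithm) -/
noncomputable def ent (p : G → ℝ) : ℝ := ∑ x, Real.negMulLog (p x)

variable [AddCommGroup G]

/-- convolution -/
def conv (p q : G → ℝ) : G → ℝ := fun x => ∑ y, p y * q (x - y)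

open Classical in
/-- the point mass at zero -/
noncomputable def dlt : G → ℝ := fun x => if x = 0 then 1 else 0

/-- convolution power -/
noncomputable def cpow (p : G → ℝ) : ℕ → G → ℝ
  | 0 => dlt
  | r + 1 => conv p (cpow p r)

end Ent

open Classical in
/-- the uniform measure on a finite set -/
noncomputable def uS {G : Type} (S : Finset G) : G → ℝ :=
  fun z => if z ∈ S then 1 / (S.card : ℝ) else 0

/-- the uniform measure on the multiples of `3 ^ a` in `ZMod (3 ^ n)` (for `a ≤ n`) -/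
noncomputable def un (n a : ℕ) : ZMod (3 ^ n) → ℝ :=
  fun x => if 3 ^ a ∣ x.val then (3 : ℝ) ^ a / 3 ^ n else 0

/-- smoothed entropy: entropy of the first `a` digits plus `(n - a) log 3` -/
noncomputable def D (n a : ℕ) (p : ZMod (3 ^ n) → ℝ) : ℝ := ent (conv p (un n a))

/-- invariance under translation by multiples of `3 ^ a` -/
def Inv (n a : ℕ) (f : ZMod (3 ^ n) → ℝ) : Prop := ∀ x y, f (x + 3 ^ a * y) = f x

/-- conditional chi-square functional of the digits `[a, b)` -/
noncomputable def X2 (n a b : ℕ) (f : ZMod (3 ^ n) → ℝ) : ℝ :=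
  ∑ x, (conv f (un n b) x) ^ 2 / conv f (un n a) x - ∑ x, f x

/-- probability that two conditionally independent copies differ in digit `j` -/
noncomputable def Gj (n j : ℕ) (p : ZMod (3 ^ n) → ℝ) : ℝ :=
  1 - (1 / 3) * ∑ x, (conv p (un n (j + 1)) x) ^ 2 / conv p (un n j) x

/-! ## Averages of periodic functions -/

/-- `f` has period `3 ^ m` -/
def Per (m : ℕ) (f : ℤ → ℝ) : Prop := ∀ v z : ℤ, f (v + 3 ^ m * z) = f v

/-- average over the residues modulo `3 ^ m` -/
noncomputable def Av (m : ℕ) (f : ℤ → ℝ) : ℝ :=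
  (∑ x : ZMod (3 ^ m), f (x.val : ℤ)) / 3 ^ m

/-! ## Words -/

section Words
variable {ι : Type} [Fintype ι] [DecidableEq ι]

/-- all words of length `n` -/
def words (ι : Type) [Fintype ι] [DecidableEq ι] : ℕ → Finset (List ι)
  | 0 => {[]}
  | n + 1 => (univ ×ˢ words ι n).image (fun p : ι × List ι => p.1 :: p.2)

/-- total exponent of a word -/
def bW (b : ι → ℕ) : List ι → ℕ
  | [] => 0
  | i :: w => b i + bW b w

/-- composite constant of a word (each letter divides by `3 ^ L`) -/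
def βW (L : ℕ) (b : ι → ℕ) (β : ι → ℤ) : List ι → ℤ
  | [] => 0
  | i :: w => 2 ^ (bW b w) * β i + 3 ^ L * βW L b β w

end Words

/-! ## Abstract systems -/

/-- abstract branching system on the `3`-adic integers -/
structure Sys (ι : Type) [Fintype ι] [DecidableEq ι] where
  L : ℕ
  B : ℕ
  c : ℝ
  b : ι → ℕ
  β : ι → ℤ
  P : ℤ → ι → ℝ
  ψ : ℤ → ℝ
  hL : 1 ≤ L
  hB : 1 ≤ B
  hc : 0 < c
  hc1 : c < 1
  hb : ∀ i, b i ≤ B
  P_nonneg : ∀ v i, 0 ≤ P v i
  P_sum : ∀ v, ∑ i, P v i = 1
  P_le : ∀ v i, P v i ≤ 1 - c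
  P_per : ∀ i, Per L (fun v => P v i)
  ψ_per : Per L ψ
  P_dvd : ∀ v i, P v i ≠ 0 → (3 : ℤ) ^ L ∣ 2 ^ (b i) * v + β i
  sep : ∀ w w' : List ι, w.length = w'.length → bW b w = bW b w' →
    βW L b β w = βW L b β w' → w = w'

namespace Sys
variable {ι : Type} [Fintype ι] [DecidableEq ι] (S : Sys ι)

/-- the child of `v` along the letter `i` -/
def ch (v : ℤ) (i : ι) : ℤ := (2 ^ (S.b i) * v + S.β i) / 3 ^ S.L

/-- probability of a word -/
noncomputable def PW : ℤ → List ι → ℝ
  | _, [] => 1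
  | v, i :: w => S.P v i * PW (S.ch v i) w

/-- end point of a word -/
def tW : ℤ → List ι → ℤ
  | v, [] => v
  | v, i :: w => tW (S.ch v i) w

/-- total exponent of a word -/
def bw (w : List ι) : ℕ := bW S.b w

/-- the linear functional -/
noncomputable def Psi : ℕ → ℤ → ℝ
  | 0, _ => 0
  | n + 1, v => S.ψ v + ∑ i, S.P v i * Psi n (S.ch v i)

/-- Haar mean of `ψ` -/
noncomputable def psibar : ℝ := Av S.L S.ψ

/-- loss -/
noncomputable def loss (n : ℕ) (v : ℤ) : ℝ := S.psibar * n - S.Psi n v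

/-- relative loss after the prefix `v` of level `N` -/
noncomputable def rl (N n : ℕ) (v z : ℤ) : ℝ :=
  S.psibar * n - (S.Psi (N + n) (v + 3 ^ (S.L * N) * z) - S.Psi N v)

/-- partition function -/
noncomputable def Z (lam : ℝ) (n : ℕ) : ℝ := Av (S.L * n) (fun v => Real.exp (lam * S.loss n v))

end Sys

/-! ## The Collatz map and its backward tree -/

/-- the Collatz map -/
def col (m : ℕ) : ℕ := if m % 2 = 0 then m / 2 else 3 * m + 1

/-- `1` for odd letters, `2` for even letters -/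
def eps (j : ℕ) : ℤ := if j % 2 = 0 then 2 else 1

/-- constant of a letter in the coordinate `v`, `s = 2 + 3 v` -/
def bt (j : ℕ) : ℤ := (2 ^ (j + 1) - eps j - 6) / 3

/-- admissibility of the letter `j` at `v` -/
def adm1 (v : ℤ) (j : ℕ) : Prop := (3 : ℤ) ∣ 2 ^ j * v + bt j

instance (v : ℤ) (j : ℕ) : Decidable (adm1 v j) := by unfold adm1; infer_instance

/-- child of `v` along the letter `j` -/
def cv (v : ℤ) (j : ℕ) : ℤ := (2 ^ j * v + bt j) / 3

/-- weighted number of descendants at depth `n` with letters in `[1, A]` -/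
noncomputable def Gw (A : ℕ) (ω : ℕ → ℝ) : ℕ → ℤ → ℝ
  | 0, _ => 1
  | n + 1, v => ∑ j ∈ Icc 1 A, if adm1 v j then ω j * Gw A ω n (cv v j) else 0

/-- weight `(3 / 2 ^ j) ^ γ` -/
noncomputable def wt (γ : ℝ) (j : ℕ) : ℝ := (3 / 2 ^ j) ^ γ

/-- the martingale `M_n` -/
noncomputable def Mn (A n : ℕ) (v : ℤ) : ℝ := Gw A (fun j => 3 / 2 ^ j) n v

/-- `F_n^γ` -/
noncomputable def Fg (A : ℕ) (γ : ℝ) (n : ℕ) (v : ℤ) : ℝ := Gw A (wt γ) n v

/-- words in letters `[1, A]` of length `n` -/
def lw (A : ℕ) : ℕ → Finset (List ℕ)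
  | 0 => {[]}
  | n + 1 => (Icc 1 A ×ˢ lw A n).image (fun p : ℕ × List ℕ => p.1 :: p.2)

/-- admissibility of a word -/
def adm : ℤ → List ℕ → Prop
  | _, [] => True
  | v, j :: w => adm1 v j ∧ adm (cv v j) w

instance decAdm : (v : ℤ) → (w : List ℕ) → Decidable (adm v w)
  | _, [] => isTrue trivial
  | v, j :: w => by
    unfold adm
    haveI := decAdm (cv v j) w
    infer_instance

/-- end point of a word -/
def te : ℤ → List ℕ → ℤ
  | v, [] => v
  | v, j :: w => te (cv v j) w

/-- `N_w`: the end node is `(2 ^ b s - N_w) / 3 ^ n` -/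
def Nw : List ℕ → ℤ
  | [] => 0
  | j :: w => 2 ^ w.sum * eps j + 3 * Nw w

/-- typical words -/
def typ (K k : ℕ) (w : List ℕ) : Prop :=
  17 * k ≤ 10 * w.sum ∧ w.sum ≤ K * k ∧ Nw w ≤ K * 2 ^ w.sum

instance (K k : ℕ) (w : List ℕ) : Decidable (typ K k w) := by unfold typ; infer_instance

/-- the martingale stays above `1/4` up to time `k` -/
def surv (A k : ℕ) (v : ℤ) : Prop := ∀ i, 1 ≤ i → i ≤ k → 1 / 4 ≤ Mn A i v

open Classical in
/-- indicator of survival -/
noncomputable def sI (A k : ℕ) (v : ℤ) : ℝ := if surv A k v then 1 else 0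

/-- probability of survival -/
noncomputable def sk (A k : ℕ) : ℝ := Av k (sI A k)

/-- mean logarithmic deficit -/
noncomputable def en (A n : ℕ) : ℝ := Av n (fun v => - Real.log (Mn A n v))

/-- the mass of the stopping time `min σ r` at `i` -/
noncomputable def tau (A r i : ℕ) : ℝ := if i < r then sk A (i - 1) - sk A i else sk A (r - 1)

end Pool.Agent.Lib.MP_e43fce_nt_one
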