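import Pool.Agent.Lib.MP_e43fce_nt_one.C03
import Pool.Agent.Lib.MP_e43fce_nt_one.RunsGen
import Pool.Agent.Lib.MP_e43fce_nt.Gaps.Final

/-!
Assembly: long runs of consecutive integers in residue classes, and short intervals, for every
exponent below one.
-/

set_option autoImplicit false

open Finset

namespace Pool.Agent.Lib.MP_e43fce_nt_one

theorem final_runs {γ : ℝ} (hγ : γ < 1) : ∃ C : ℝ, ∀ a : ℕ, ¬ 3 ∣ a → ∀ L M r : ℕ, 0 < M →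
    ∃ X : ℕ, ∀ x : ℕ, X ≤ x →
      (x : ℝ) ^ γ ≤ ((Pool.Agent.Lib.MP_e43fce_nt.KL.FR C L a M r x).card : ℝ) := by
  have hm : max γ (1 / 2) < 1 := max_lt hγ (by norm_num)
  obtain ⟨D, hD, hcount⟩ := main_count (γ := (max γ (1 / 2) + 1) / 2) (by linarith)
  refine ⟨2 * D + 1, fun a ha L M r hM => ?_⟩
  obtain ⟨X, hX⟩ := Pool.Agent.Lib.MP_e43fce_nt.KL.runs_of_count (γ := (max γ (1 / 2) + 1) / 2)
    (γ' := max γ (1 / 2)) hD (le_max_right _ _) (by linarith) hcount L a ha M r hM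
  refine ⟨max X 1, fun x hx => le_trans ?_ (hX x ((le_max_left _ _).trans hx))⟩
  have hx1 : (1 : ℝ) ≤ x := by
    have : 1 ≤ x := (le_max_right _ _).trans hx
    exact_mod_cast this
  exact Real.rpow_le_rpow_of_exponent_le hx1 (le_max_left _ _)

theorem final_one {γ : ℝ} (hγ : γ < 1) : ∃ C : ℝ, ∃ X : ℕ, ∀ x : ℕ, X ≤ x → (x : ℝ) ^ γ ≤
    ({n : ℕ | (1 ≤ n ∧ n ≤ x) ∧ ∃ k : ℕ, k ≤ n ∧ (k : ℝ) ≤ C * Real.log n ∧
      Pool.Agent.Lib.MP_e43fce_nt.Gaps.Col^[k] n = 1}.ncard : ℝ) := by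
  classical
  obtain ⟨C, h⟩ := final_runs hγ
  obtain ⟨X, hX⟩ := h 1 (by norm_num) 0 1 0 one_pos
  refine ⟨C, X, fun x hx => (hX x hx).trans ?_⟩
  rw [← Set.ncard_coe_finset]
  apply Nat.cast_le.2
  apply Set.ncard_le_ncard
  · intro n hn
    rw [Finset.mem_coe, Pool.Agent.Lib.MP_e43fce_nt.KL.FR, Finset.mem_filter, Finset.mem_Icc] at hn
    obtain ⟨h1, _, k, hk1, hk2, hk3⟩ := hn
    exact ⟨h1, k, hk1, hk2, (hk3 0 le_rfl).1⟩
  · apply Set.Finite.subset (Finset.finite_toSet (Finset.range (x + 1)))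
    rintro n ⟨⟨_, hn2⟩, _⟩
    rw [Finset.mem_coe, Finset.mem_range]
    exact Nat.lt_succ_of_le hn2

theorem final_gaps {γ : ℝ} (hγ : γ < 1) : ∃ c C X : ℝ, 0 < c ∧ ∀ x : ℝ, X ≤ x → x ^ γ ≤
    ({n : ℕ | (x ≤ n ∧ (n : ℝ) ≤ x + x / (Real.log x) ^ c) ∧ ∃ k : ℕ, k ≤ n ∧
      (k : ℝ) ≤ C * Real.log n ∧ Pool.Agent.Lib.MP_e43fce_nt.Gaps.Col^[k] n = 1}.ncard : ℝ) := by
  have hm : max γ (1 / 2) < 1 := max_lt hγ (by norm_num)
  have hm2 : (1 : ℝ) / 2 ≤ max γ (1 / 2) := le_max_right _ _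
  obtain ⟨c, C, X, hc, h⟩ := Pool.Agent.Lib.MP_e43fce_nt.Gaps.final_of_count
    (γ₁ := (max γ (1 / 2) + 1) / 2) (γ₂ := max γ (1 / 2)) (by linarith) (by linarith)
    (final_one (by linarith))
  refine ⟨c, C, max X 1, hc, fun x hx => le_trans ?_ (h x ((le_max_left _ _).trans hx))⟩
  exact Real.rpow_le_rpow_of_exponent_le ((le_max_right _ _).trans hx) (le_max_left _ _)

end Pool.Agent.Lib.MP_e43fce_nt_one
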