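import Mathlib

open Finset

namespace KLOne

/-- log-sum inequality, zero-safe form -/
theorem log_sum {ι : Type*} (s : Finset ι) (a b : ι → ℝ) (ha : ∀ i ∈ s, 0 ≤ a i)
    (hb : ∀ i ∈ s, 0 ≤ b i) (hab : ∀ i ∈ s, b i = 0 → a i = 0) :
    (∑ i ∈ s, a i) * (Real.log (∑ i ∈ s, a i) - Real.log (∑ i ∈ s, b i)) ≤
      ∑ i ∈ s, a i * (Real.log (a i) - Real.log (b i)) := by
  set A := ∑ i ∈ s, a i with hA
  set B := ∑ i ∈ s, b i with hB
  have hA0 : 0 ≤ A := Finset.sum_nonneg ha
  rcases hA0.eq_or_lt with hA1 | hA1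
  · have hz : ∀ i ∈ s, a i = 0 := (Finset.sum_eq_zero_iff_of_nonneg ha).1 (hA.symm.trans hA1.symm)
    rw [← hA1]
    simp only [zero_mul]
    exact (Finset.sum_eq_zero (fun i hi => by rw [hz i hi, zero_mul])).ge
  · have hB1 : 0 < B := by
      obtain ⟨i, hi, hi0⟩ := Finset.exists_ne_zero_of_sum_ne_zero (hA ▸ hA1.ne')
      have : b i ≠ 0 := fun h => hi0 (hab i hi h)
      exact Finset.sum_pos' hb ⟨i, hi, lt_of_le_of_ne (hb i hi) this.symm⟩
    have key : ∀ i ∈ s, a i * (Real.log (b i) + Real.log A - Real.log (a i) - Real.log B) ≤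
        b i * (A / B) - a i := by
      intro i hi
      rcases (ha i hi).eq_or_lt with h0 | h0
      · rw [← h0]
        have := hb i hi
        have h2 : 0 ≤ b i * (A / B) := by positivity
        linarith
      · have hbi : 0 < b i := lt_of_le_of_ne (hb i hi) (fun h => h0.ne' (hab i hi h.symm))
        have h3 : 0 < b i * A / (a i * B) := by positivity
        have h4 := Real.log_le_sub_one_of_pos h3
        rw [Real.log_div (by positivity) (by positivity), Real.log_mul hbi.ne' hA1.ne',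
          Real.log_mul h0.ne' hB1.ne'] at h4
        have h5 : a i * (Real.log (b i) + Real.log A - (Real.log (a i) + Real.log B)) ≤
            a i * (b i * A / (a i * B) - 1) := mul_le_mul_of_nonneg_left h4 h0.le
        have h6 : a i * (b i * A / (a i * B) - 1) = b i * (A / B) - a i := by
          field_simp
        rw [h6] at h5
        linarith
    have hsum := Finset.sum_le_sum key
    rw [Finset.sum_sub_distrib, ← Finset.sum_mul, ← hA, ← hB] at hsum
    have h7 : B * (A / B) = A := by field_simp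
    rw [h7] at hsum
    have h8 : ∑ i ∈ s, a i * (Real.log (b i) + Real.log A - Real.log (a i) - Real.log B) =
        A * (Real.log A - Real.log B) - ∑ i ∈ s, a i * (Real.log (a i) - Real.log (b i)) := by
      rw [hA, Finset.sum_mul, ← Finset.sum_sub_distrib]
      refine Finset.sum_congr rfl (fun i _ => ?_)
      ring
    rw [h8] at hsum
    linarith

section G
variable {G : Type*} [AddCommGroup G] [Fintype G]

/-- probability mass function -/
def IsPmf (p : G → ℝ) : Prop := (∀ x, 0 ≤ p x) ∧ ∑ x, p x = 1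

/-- convolution -/
noncomputable def conv (p q : G → ℝ) (x : G) : ℝ := ∑ y, p y * q (x - y)

/-- entropy -/
noncomputable def H (p : G → ℝ) : ℝ := - ∑ x, p x * Real.log (p x)

theorem conv_comm (p q : G → ℝ) : conv p q = conv q p := by
  funext x
  unfold conv
  rw [← Equiv.sum_comp (Equiv.subLeft x)]
  refine Finset.sum_congr rfl (fun y _ => ?_)
  simp only [Equiv.subLeft_apply, sub_sub_cancel]
  ring

theorem conv_assoc (p q r : G → ℝ) : conv (conv p q) r = conv p (conv q r) := by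
  funext x
  unfold conv
  simp only [Finset.sum_mul, Finset.mul_sum]
  rw [Finset.sum_comm]
  refine Finset.sum_congr rfl (fun y _ => ?_)
  rw [← Equiv.sum_comp (Equiv.addRight y)]
  refine Finset.sum_congr rfl (fun z _ => ?_)
  simp only [Equiv.coe_addRight]
  rw [add_sub_cancel_right, show x - (z + y) = x - y - z by abel]
  ring

theorem IsPmf.conv {p q : G → ℝ} (hp : IsPmf p) (hq : IsPmf q) : IsPmf (conv p q) := by
  refine ⟨fun x => Finset.sum_nonneg (fun y _ => mul_nonneg (hp.1 y) (hq.1 _)), ?_⟩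
  unfold KLOne.conv
  rw [Finset.sum_comm]
  have : ∀ y, ∑ x, p y * q (x - y) = p y := by
    intro y
    rw [← Finset.mul_sum]
    have : ∑ x, q (x - y) = 1 := by
      rw [← hq.2]
      exact Equiv.sum_comp (Equiv.subRight y) q
    rw [this, mul_one]
  simp only [this, hp.2]

/-- submodularity -/
theorem submod {p q r : G → ℝ} (hp : IsPmf p) (hq : IsPmf q) (hr : IsPmf r) :
    H (conv (conv p q) r) + H q ≤ H (conv p q) + H (conv q r) := by
  classical
  set pq := conv p q with hpq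
  have hpqP : IsPmf pq := hp.conv hq
  have hqrP : IsPmf (conv q r) := hq.conv hr
  -- pointwise log sum
  have key : ∀ x s : G, p x * (conv q r (s - x) * (Real.log (conv q r (s - x)) -
      Real.log (conv pq r s))) ≤
      p x * ∑ y, q (y - x) * r (s - y) * (Real.log (q (y - x)) - Real.log (pq y)) := by
    intro x s
    rcases (hp.1 x).eq_or_lt with h0 | h0
    · rw [← h0, zero_mul, zero_mul]
    refine mul_le_mul_of_nonneg_left ?_ h0.le
    have hz : ∀ y, pq y = 0 → q (y - x) = 0 := by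
      intro y hy
      have h1 : ∑ z, p z * q (y - z) = 0 := hy
      have h2 := (Finset.sum_eq_zero_iff_of_nonneg
        (fun z _ => mul_nonneg (hp.1 z) (hq.1 _))).1 h1 x (Finset.mem_univ _)
      exact (mul_eq_zero.1 h2).resolve_left h0.ne'
    have hls := log_sum Finset.univ (fun y => q (y - x) * r (s - y))
      (fun y => pq y * r (s - y)) (fun y _ => mul_nonneg (hq.1 _) (hr.1 _))
      (fun y _ => mul_nonneg (hpqP.1 _) (hr.1 _)) (by
        intro y _ hy
        rcases mul_eq_zero.1 hy with h | h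
        · simp only [hz y h, zero_mul]
        · simp only [h, mul_zero])
    have e1 : ∑ y, q (y - x) * r (s - y) = conv q r (s - x) := by
      unfold KLOne.conv
      rw [← Equiv.sum_comp (Equiv.addRight x)]
      refine Finset.sum_congr rfl (fun z _ => ?_)
      simp only [Equiv.coe_addRight]
      rw [add_sub_cancel_right, show s - (z + x) = s - x - z by abel]
    have e2 : ∑ y, pq y * r (s - y) = conv pq r s := rfl
    rw [e1, e2] at hls
    refine hls.trans (Finset.sum_le_sum (fun y _ => ?_))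
    rcases (hq.1 (y - x)).eq_or_lt with h1 | h1
    · rw [← h1]; simp
    rcases (hr.1 (s - y)).eq_or_lt with h2 | h2
    · rw [← h2]; simp
    have h3 : pq y ≠ 0 := fun h => h1.ne' (hz y h)
    rw [Real.log_mul h1.ne' h2.ne', Real.log_mul h3 h2.ne']
    apply le_of_eq
    ring
  have hsum := Finset.sum_le_sum (fun x (_ : x ∈ Finset.univ) =>
    Finset.sum_le_sum (fun s (_ : s ∈ Finset.univ) => key x s))
  have L : ∑ x, ∑ s, p x * (conv q r (s - x) * (Real.log (conv q r (s - x)) -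
      Real.log (conv pq r s))) = - H (conv q r) + H (conv pq r) := by
    have a1 : ∑ x, ∑ s, p x * (conv q r (s - x) * Real.log (conv q r (s - x))) =
        - H (conv q r) := by
      have : ∀ x, ∑ s, p x * (conv q r (s - x) * Real.log (conv q r (s - x))) =
          p x * (- H (conv q r)) := by
        intro x
        rw [← Finset.mul_sum]
        congr 1
        unfold H
        rw [neg_neg]
        exact Equiv.sum_comp (Equiv.subRight x) (fun z => conv q r z * Real.log (conv q r z))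
      rw [Finset.sum_congr rfl (fun x _ => this x), ← Finset.sum_mul, hp.2, one_mul]
    have a2 : ∑ x, ∑ s, p x * (conv q r (s - x) * Real.log (conv pq r s)) =
        - H (conv pq r) := by
      rw [Finset.sum_comm]
      unfold H
      rw [neg_neg]
      refine Finset.sum_congr rfl (fun s _ => ?_)
      have : conv pq r s = ∑ x, p x * conv q r (s - x) := by
        rw [hpq, conv_assoc]
        rfl
      rw [show (∑ x, p x * (conv q r (s - x) * Real.log (conv pq r s))) =
        (∑ x, p x * conv q r (s - x)) * Real.log (conv pq r s) by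
          rw [Finset.sum_mul]
          exact Finset.sum_congr rfl (fun x _ => by ring), ← this]
    simp only [mul_sub, Finset.sum_sub_distrib]
    rw [a1, a2]
    ring
  have R : ∑ x, ∑ s, p x * ∑ y, q (y - x) * r (s - y) * (Real.log (q (y - x)) -
      Real.log (pq y)) = - H q + H pq := by
    have b0 : ∀ x, ∑ s, p x * ∑ y, q (y - x) * r (s - y) * (Real.log (q (y - x)) -
        Real.log (pq y)) = p x * ∑ y, q (y - x) * (Real.log (q (y - x)) - Real.log (pq y)) := by
      intro x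
      rw [← Finset.mul_sum, Finset.sum_comm]
      congr 1
      refine Finset.sum_congr rfl (fun y _ => ?_)
      have : ∑ s, r (s - y) = 1 := by
        rw [← hr.2]
        exact Equiv.sum_comp (Equiv.subRight y) r
      rw [show (∑ s, q (y - x) * r (s - y) * (Real.log (q (y - x)) - Real.log (pq y))) =
        q (y - x) * (Real.log (q (y - x)) - Real.log (pq y)) * ∑ s, r (s - y) by
          rw [Finset.mul_sum]
          exact Finset.sum_congr rfl (fun s _ => by ring), this, mul_one]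
    rw [Finset.sum_congr rfl (fun x _ => b0 x)]
    have b1 : ∑ x, p x * ∑ y, q (y - x) * Real.log (q (y - x)) = - H q := by
      have : ∀ x, ∑ y, q (y - x) * Real.log (q (y - x)) = - H q := by
        intro x
        unfold H
        rw [neg_neg]
        exact Equiv.sum_comp (Equiv.subRight x) (fun z => q z * Real.log (q z))
      rw [Finset.sum_congr rfl (fun x _ => by rw [this x]), ← Finset.sum_mul, hp.2, one_mul]
    have b2 : ∑ x, p x * ∑ y, q (y - x) * Real.log (pq y) = - H pq := by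
      simp only [Finset.mul_sum]
      rw [Finset.sum_comm]
      unfold H
      rw [neg_neg]
      refine Finset.sum_congr rfl (fun y _ => ?_)
      rw [show (∑ x, p x * (q (y - x) * Real.log (pq y))) =
        (∑ x, p x * q (y - x)) * Real.log (pq y) by
          rw [Finset.sum_mul]
          exact Finset.sum_congr rfl (fun x _ => by ring)]
      rfl
    simp only [mul_sub, Finset.sum_sub_distrib]
    rw [b1, b2]
    ring
  rw [L, R] at hsum
  linarith

/-- point mass at `0` -/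
noncomputable def dirac0 [DecidableEq G] : G → ℝ := fun x => if x = 0 then 1 else 0

theorem conv_dirac0 [DecidableEq G] (p : G → ℝ) : conv p dirac0 = p := by
  funext x
  unfold KLOne.conv dirac0
  simp only [mul_ite, mul_one, mul_zero]
  rw [Finset.sum_eq_single x]
  · simp
  · intro y _ hy
    rw [if_neg]
    intro h
    exact hy (sub_eq_zero.1 h).symm
  · intro h; exact absurd (Finset.mem_univ x) h

theorem isPmf_dirac0 [DecidableEq G] : IsPmf (dirac0 : G → ℝ) := by
  refine ⟨fun x => ?_, ?_⟩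
  · unfold dirac0; split_ifs <;> norm_num
  · simp [dirac0]

/-- iterated convolution -/
noncomputable def cpow [DecidableEq G] (q : G → ℝ) : ℕ → G → ℝ
  | 0 => dirac0
  | r + 1 => conv (cpow q r) q

theorem isPmf_cpow [DecidableEq G] {q : G → ℝ} (hq : IsPmf q) : ∀ r, IsPmf (cpow q r)
  | 0 => isPmf_dirac0
  | r + 1 => (isPmf_cpow hq r).conv hq

/-- Kaimanovich-Vershik -/
theorem kv [DecidableEq G] {p q : G → ℝ} (hp : IsPmf p) (hq : IsPmf q) (r : ℕ) :
    H (conv p (cpow q r)) ≤ H p + r * (H (conv p q) - H p) := by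
  induction r with
  | zero => rw [cpow, conv_dirac0]; simp
  | succ r ih =>
    have h := submod (isPmf_cpow hq r) hp hq
    have e1 : conv (conv (cpow q r) p) q = conv p (cpow q (r + 1)) := by
      rw [conv_comm (cpow q r) p, conv_assoc]
      rfl
    rw [e1, conv_comm (cpow q r) p] at h
    push_cast
    linarith

/-- convolution does not increase a deficit -/
theorem deficit_conv_le {p q u u' : G → ℝ} (hp : IsPmf p) (hq : IsPmf q) (hu : IsPmf u)
    (hu' : IsPmf u') (huu : conv u' u = u) :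
    H (conv (conv p q) u) - H (conv (conv p q) u') ≤ H (conv p u) - H (conv p u') := by
  have h := submod hq (hp.conv hu') hu
  have e1 : conv (conv q (conv p u')) u = conv (conv p q) u := by
    rw [← conv_assoc q p u', conv_assoc, huu, conv_comm q p]
  have e2 : conv q (conv p u') = conv (conv p q) u' := by
    rw [← conv_assoc, conv_comm q p]
  have e3 : conv (conv p u') u = conv p u := by rw [conv_assoc, huu]
  rw [e1, e2, e3] at h
  linarith

end G

/-! ### averages over the subgroups `3^a G` of `G = ZMod (3^n)` -/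

section avg
variable {n : ℕ}

instance (n : ℕ) : NeZero (3 ^ n) := ⟨by positivity⟩

/-- average over the coset of `3^a G` -/
noncomputable def avg (a : ℕ) (f : ZMod (3 ^ n) → ℝ) (x : ZMod (3 ^ n)) : ℝ :=
  (∑ y : ZMod (3 ^ n), f (x + 3 ^ a * y)) / 3 ^ n

theorem card_G : (Fintype.card (ZMod (3 ^ n)) : ℝ) = 3 ^ n := by
  rw [ZMod.card]; push_cast; rfl

theorem avg_nonneg {a : ℕ} {f : ZMod (3 ^ n) → ℝ} (hf : ∀ x, 0 ≤ f x) (x : ZMod (3 ^ n)) :
    0 ≤ avg a f x := div_nonneg (Finset.sum_nonneg (fun y _ => hf _)) (by positivity)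

theorem sum_avg (a : ℕ) (f : ZMod (3 ^ n) → ℝ) : ∑ x, avg a f x = ∑ x, f x := by
  unfold avg
  rw [← Finset.sum_div, Finset.sum_comm]
  have : ∀ y : ZMod (3 ^ n), ∑ x, f (x + 3 ^ a * y) = ∑ x, f x := fun y =>
    Equiv.sum_comp (Equiv.addRight (3 ^ a * y)) f
  rw [Finset.sum_congr rfl (fun y _ => this y), Finset.sum_const, Finset.card_univ, nsmul_eq_mul,
    card_G, mul_div_assoc, mul_div_cancel₀]
  positivity

theorem avg_const_mul (a : ℕ) (c : ℝ) (f : ZMod (3 ^ n) → ℝ) (x : ZMod (3 ^ n)) :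
    avg a (fun y => c * f y) x = c * avg a f x := by
  unfold avg
  rw [← Finset.mul_sum, mul_div_assoc]

theorem avg_sum {ι : Type*} (s : Finset ι) (a : ℕ) (f : ι → ZMod (3 ^ n) → ℝ)
    (x : ZMod (3 ^ n)) : avg a (fun y => ∑ i ∈ s, f i y) x = ∑ i ∈ s, avg a (f i) x := by
  unfold avg
  rw [Finset.sum_comm, Finset.sum_div]

theorem avg_sub (a : ℕ) (f g : ZMod (3 ^ n) → ℝ) (x : ZMod (3 ^ n)) :
    avg a (fun y => f y - g y) x = avg a f x - avg a g x := by
  unfold avg
  rw [Finset.sum_sub_distrib, sub_div]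

/-- `avg a f` is invariant under `3^a G` -/
theorem avg_add (a : ℕ) (f : ZMod (3 ^ n) → ℝ) (x y : ZMod (3 ^ n)) :
    avg a f (x + 3 ^ a * y) = avg a f x := by
  unfold avg
  congr 1
  rw [← Equiv.sum_comp (Equiv.addLeft y) (fun z => f (x + 3 ^ a * z))]
  refine Finset.sum_congr rfl (fun z _ => ?_)
  simp only [Equiv.coe_addLeft]
  congr 1
  ring

/-- an invariant function is its own average; also with an invariant factor -/
theorem avg_mul_inv {a : ℕ} {f g : ZMod (3 ^ n) → ℝ} (hg : ∀ x y, g (x + 3 ^ a * y) = g x)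
    (x : ZMod (3 ^ n)) : avg a (fun z => f z * g z) x = avg a f x * g x := by
  unfold avg
  simp only [hg]
  rw [← Finset.sum_mul]
  ring

theorem avg_inv {a : ℕ} {g : ZMod (3 ^ n) → ℝ} (hg : ∀ x y, g (x + 3 ^ a * y) = g x) :
    avg a g = g := by
  funext x
  unfold avg
  simp only [hg]
  rw [Finset.sum_const, Finset.card_univ, nsmul_eq_mul, card_G]
  field_simp

theorem inv_mono {a b : ℕ} (hab : a ≤ b) {g : ZMod (3 ^ n) → ℝ}
    (hg : ∀ x y, g (x + 3 ^ a * y) = g x) (x y : ZMod (3 ^ n)) : g (x + 3 ^ b * y) = g x := by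
  rw [show (3 : ZMod (3 ^ n)) ^ b * y = 3 ^ a * (3 ^ (b - a) * y) by
    rw [← mul_assoc, ← pow_add, Nat.add_sub_cancel' hab], hg]

theorem avg_avg {a b : ℕ} (hab : a ≤ b) (f : ZMod (3 ^ n) → ℝ) :
    avg b (avg a f) = avg a f := avg_inv (inv_mono hab (avg_add a f))

theorem avg_avg' {a b : ℕ} (hab : a ≤ b) (f : ZMod (3 ^ n) → ℝ) :
    avg a (avg b f) = avg a f := by
  funext x
  unfold avg
  rw [← Finset.sum_div, Finset.sum_comm]
  have : ∀ y : ZMod (3 ^ n), ∑ z : ZMod (3 ^ n), f (x + 3 ^ a * z + 3 ^ b * y) =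
      ∑ z : ZMod (3 ^ n), f (x + 3 ^ a * z) := by
    intro y
    rw [← Equiv.sum_comp (Equiv.addRight (3 ^ (b - a) * y)) (fun z => f (x + 3 ^ a * z))]
    refine Finset.sum_congr rfl (fun z _ => ?_)
    simp only [Equiv.coe_addRight]
    congr 1
    rw [show (3 : ZMod (3 ^ n)) ^ b = 3 ^ a * 3 ^ (b - a) by
      rw [← pow_add, Nat.add_sub_cancel' hab]]
    ring
  rw [Finset.sum_congr rfl (fun y _ => this y), Finset.sum_const, Finset.card_univ, nsmul_eq_mul,
    card_G]
  field_simp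

theorem conv_avg (a : ℕ) (p f : ZMod (3 ^ n) → ℝ) : conv p (avg a f) = avg a (conv p f) := by
  funext x
  unfold conv
  rw [avg_sum]
  refine Finset.sum_congr rfl (fun y _ => ?_)
  rw [avg_const_mul]
  congr 1
  unfold avg
  congr 1
  refine Finset.sum_congr rfl (fun z _ => ?_)
  congr 1
  ring

theorem avg_top {a : ℕ} (ha : n ≤ a) (f : ZMod (3 ^ n) → ℝ) : avg a f = f := by
  apply avg_inv
  intro x y
  have : (3 : ZMod (3 ^ n)) ^ a = 0 := by
    have h : ((3 ^ n : ℕ) : ZMod (3 ^ n)) = 0 := ZMod.natCast_self _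
    push_cast at h
    rw [show a = n + (a - n) by omega, pow_add, h, zero_mul]
  rw [this, zero_mul, add_zero]

theorem avg_zero (f : ZMod (3 ^ n) → ℝ) (x : ZMod (3 ^ n)) :
    avg 0 f x = (∑ y, f y) / 3 ^ n := by
  unfold avg
  congr 1
  rw [← Equiv.sum_comp (Equiv.addLeft x) f]
  refine Finset.sum_congr rfl (fun z _ => ?_)
  simp

/-- uniform distribution on `3^a G` -/
noncomputable def unif (n a : ℕ) : ZMod (3 ^ n) → ℝ := avg a dirac0

theorem conv_unif (a : ℕ) (p : ZMod (3 ^ n) → ℝ) : conv p (unif n a) = avg a p := by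
  rw [unif, conv_avg, conv_dirac0]

theorem isPmf_avg {a : ℕ} {p : ZMod (3 ^ n) → ℝ} (hp : IsPmf p) : IsPmf (avg a p) :=
  ⟨avg_nonneg hp.1, by rw [sum_avg, hp.2]⟩

theorem isPmf_unif (a : ℕ) : IsPmf (unif n a) := isPmf_avg isPmf_dirac0

/-- entropy after resolving the first `a` digits only -/
noncomputable def D (a : ℕ) (p : ZMod (3 ^ n) → ℝ) : ℝ := H (avg a p)

theorem D_top {a : ℕ} (ha : n ≤ a) (p : ZMod (3 ^ n) → ℝ) : D a p = H p := by
  rw [D, avg_top ha]

theorem D_zero {p : ZMod (3 ^ n) → ℝ} (hp : IsPmf p) : D 0 p = n * Real.log 3 := by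
  unfold D H
  have : ∀ x, avg 0 p x = 1 / 3 ^ n := fun x => by rw [avg_zero, hp.2]
  simp only [this]
  rw [Finset.sum_const, Finset.card_univ, nsmul_eq_mul, card_G, Real.log_div one_ne_zero
    (by positivity), Real.log_one, Real.log_pow]
  field_simp
  ring

theorem D_conv_le {a b : ℕ} (hab : a ≤ b) {p q : ZMod (3 ^ n) → ℝ} (hp : IsPmf p)
    (hq : IsPmf q) : D a (conv p q) - D b (conv p q) ≤ D a p - D b p := by
  have h := deficit_conv_le hp hq (isPmf_unif (n := n) a) (isPmf_unif b) (by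
    rw [conv_unif, unif, avg_avg' hab]; rfl)
  simp only [conv_unif] at h
  exact h

theorem D_conv_le' {a b : ℕ} (hab : a ≤ b) {p q : ZMod (3 ^ n) → ℝ} (hp : IsPmf p)
    (hq : IsPmf q) : D a (conv p q) - D b (conv p q) ≤ D a q - D b q := by
  rw [conv_comm]; exact D_conv_le hab hq hp

/-- sum over a period, repeated -/
theorem sum_range_mul_period (f : ℕ → ℝ) (M : ℕ) (hf : ∀ i, f (i + M) = f i) (N : ℕ) :
    ∑ i ∈ range (M * N), f i = N * ∑ i ∈ range M, f i := by
  have hper : ∀ N i, f (M * N + i) = f i := by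
    intro N i
    induction N with
    | zero => simp
    | succ N ih => rw [show M * (N + 1) + i = (M * N + i) + M by ring, hf, ih]
  induction N with
  | zero => simp
  | succ N ih =>
    rw [mul_add, mul_one, Finset.sum_range_add, ih]
    simp only [hper]
    push_cast
    ring

theorem sum_zmod_eq_range {m : ℕ} [NeZero m] (f : ZMod m → ℝ) :
    ∑ y, f y = ∑ i ∈ range m, f (i : ZMod m) := by
  rw [← Fin.sum_univ_eq_sum_range (fun i => f (i : ZMod m)) m]
  obtain ⟨k, rfl⟩ : ∃ k, m = k + 1 := ⟨m - 1, (Nat.sub_add_cancel (NeZero.pos m)).symm⟩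
  show ∑ y : Fin (k + 1), f y = _
  refine Finset.sum_congr rfl (fun y _ => ?_)
  congr 1
  exact (ZMod.natCast_zmod_val (n := k + 1) y).symm

theorem three_pow_self : (3 : ZMod (3 ^ n)) ^ n = 0 := by
  have h : ((3 ^ n : ℕ) : ZMod (3 ^ n)) = 0 := ZMod.natCast_self _
  push_cast at h
  exact h

/-- the sum over the cycle generated by `3^j t` vanishes -/
theorem sum_cycle {j K : ℕ} (hK : K ≤ n) {h : ZMod (3 ^ n) → ℝ}
    (hb : ∀ x y, h (x + 3 ^ (j + K) * y) = h x) (h0 : ∀ x, avg j h x = 0)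
    {t : ZMod (3 ^ n)} (ht : IsUnit t) (x : ZMod (3 ^ n)) :
    ∑ i ∈ range (3 ^ K), h (x - i * (3 ^ j * t)) = 0 := by
  obtain ⟨u, rfl⟩ := ht
  have h1 : ∑ y : ZMod (3 ^ n), h (x - y * (3 ^ j * u)) = 0 := by
    have h2 := h0 x
    unfold avg at h2
    rw [div_eq_zero_iff] at h2
    have h3 : ∑ y : ZMod (3 ^ n), h (x + 3 ^ j * y) = 0 := by
      rcases h2 with h2 | h2
      · exact h2
      · exact absurd h2 (by positivity)
    rw [← h3]
    have e := Equiv.sum_comp ((Units.mulLeft (-u) : Equiv.Perm (ZMod (3 ^ n))))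
      (fun y => h (x + 3 ^ j * y))
    rw [← e]
    refine Finset.sum_congr rfl (fun y _ => ?_)
    simp only [Units.mulLeft_apply]
    congr 1
    push_cast
    ring
  rw [sum_zmod_eq_range] at h1
  have hper : ∀ i : ℕ, h (x - ((i + 3 ^ K : ℕ) : ZMod (3 ^ n)) * (3 ^ j * u)) =
      h (x - (i : ZMod (3 ^ n)) * (3 ^ j * u)) := by
    intro i
    rw [← hb (x - (i : ZMod (3 ^ n)) * (3 ^ j * u)) (-u)]
    congr 1
    push_cast
    ring
  have h4 := sum_range_mul_period (fun i : ℕ => h (x - (i : ZMod (3 ^ n)) * (3 ^ j * u))) (3 ^ K)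
    hper (3 ^ (n - K))
  rw [← pow_add, Nat.add_sub_cancel' hK, h1] at h4
  have h5 : ((3 ^ (n - K) : ℕ) : ℝ) ≠ 0 := by positivity
  exact (mul_eq_zero.1 h4.symm).resolve_left h5

/-- Poincare inequality on the cosets -/
theorem poincare {j K : ℕ} (hK : K ≤ n) {h ρ : ZMod (3 ^ n) → ℝ}
    (hb : ∀ x y, h (x + 3 ^ (j + K) * y) = h x) (h0 : ∀ x, avg j h x = 0)
    (hρ : ∀ x, 0 ≤ ρ x) (hρj : ∀ x y, ρ (x + 3 ^ j * y) = ρ x)
    {t : ZMod (3 ^ n)} (ht : IsUnit t) :
    2 * ∑ x, ρ x * h x ^ 2 ≤ ((3 : ℝ) ^ K) ^ 2 * ∑ x, ρ x * (h x - h (x - 3 ^ j * t)) ^ 2 := by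
  set s : ZMod (3 ^ n) := 3 ^ j * t with hs
  set E : ℝ := ∑ x, ρ x * (h x - h (x - s)) ^ 2 with hE
  have hE0 : 0 ≤ E := Finset.sum_nonneg (fun x _ => mul_nonneg (hρ x) (sq_nonneg _))
  set M : ℕ := 3 ^ K with hM
  have hM0 : (0 : ℝ) < M := by rw [hM]; positivity
  have hcyc := sum_cycle hK hb h0 ht
  -- shifted energies
  have hshift : ∀ l : ℕ, ∑ x, ρ x * (h (x - l * s) - h (x - (l + 1 : ℕ) * s)) ^ 2 = E := by
    intro l
    rw [hE, ← Equiv.sum_comp (Equiv.addRight ((l : ZMod (3 ^ n)) * s))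
      (fun x => ρ x * (h (x - l * s) - h (x - (l + 1 : ℕ) * s)) ^ 2)]
    refine Finset.sum_congr rfl (fun x _ => ?_)
    simp only [Equiv.coe_addRight]
    have e1 : ρ (x + l * s) = ρ x := by
      rw [hs, show (l : ZMod (3 ^ n)) * (3 ^ j * t) = 3 ^ j * (l * t) by ring, hρj]
    rw [e1, add_sub_cancel_right, show x + l * s - ((l + 1 : ℕ) : ZMod (3 ^ n)) * s = x - s by
      push_cast; ring]
  -- long differences
  have hlong : ∀ i : ℕ, ∑ x, ρ x * (h x - h (x - i * s)) ^ 2 ≤ (i : ℝ) ^ 2 * E := by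
    intro i
    have hx : ∀ x, (h x - h (x - i * s)) ^ 2 ≤
        i * ∑ l ∈ range i, (h (x - l * s) - h (x - (l + 1 : ℕ) * s)) ^ 2 := by
      intro x
      have e : h x - h (x - i * s) =
          ∑ l ∈ range i, (h (x - l * s) - h (x - (l + 1 : ℕ) * s)) := by
        rw [Finset.sum_range_sub' (fun l : ℕ => h (x - l * s))]
        simp
      rw [e]
      have := sq_sum_le_card_mul_sum_sq (s := range i)
        (f := fun l : ℕ => h (x - l * s) - h (x - (l + 1 : ℕ) * s))
      rw [Finset.card_range] at this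
      exact this
    calc ∑ x, ρ x * (h x - h (x - i * s)) ^ 2
        ≤ ∑ x, ρ x * (i * ∑ l ∈ range i, (h (x - l * s) - h (x - (l + 1 : ℕ) * s)) ^ 2) :=
          Finset.sum_le_sum (fun x _ => mul_le_mul_of_nonneg_left (hx x) (hρ x))
      _ = i * ∑ l ∈ range i, ∑ x, ρ x * (h (x - l * s) - h (x - (l + 1 : ℕ) * s)) ^ 2 := by
          rw [Finset.sum_comm, Finset.mul_sum]
          refine Finset.sum_congr rfl (fun x _ => ?_)
          rw [← Finset.mul_sum]
          ring
      _ = i * (i * E) := by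
          rw [Finset.sum_congr rfl (fun l _ => hshift l), Finset.sum_const, Finset.card_range,
            nsmul_eq_mul]
      _ = (i : ℝ) ^ 2 * E := by ring
  -- pointwise
  have hpt : ∀ x, M * h x ^ 2 ≤ ∑ i ∈ range M, (h x - h (x - i * s)) ^ 2 := by
    intro x
    have e : ∑ i ∈ range M, (h x - h (x - i * s)) = M * h x := by
      rw [Finset.sum_sub_distrib, hcyc x, sub_zero, Finset.sum_const, Finset.card_range,
        nsmul_eq_mul]
    have := sq_sum_le_card_mul_sum_sq (s := range M) (f := fun i : ℕ => h x - h (x - i * s))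
    rw [Finset.card_range, e] at this
    have h2 : (M : ℝ) * (M * h x ^ 2) ≤ M * ∑ i ∈ range M, (h x - h (x - i * s)) ^ 2 := by
      refine le_trans (le_of_eq ?_) this
      ring
    exact le_of_mul_le_mul_left h2 hM0
  have hsq : ∑ i ∈ range M, (i : ℝ) ^ 2 ≤ (M : ℝ) ^ 3 / 2 := by
    have h1 : ∑ i ∈ range M, (i : ℝ) ^ 2 ≤ ∑ i ∈ range M, (M : ℝ) * i := by
      refine Finset.sum_le_sum (fun i hi => ?_)
      have : (i : ℝ) ≤ M := by exact_mod_cast (Finset.mem_range.1 hi).le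
      rw [sq]
      exact mul_le_mul_of_nonneg_right this (by positivity)
    rw [← Finset.mul_sum] at h1
    have h2 : (∑ i ∈ range M, (i : ℝ)) * 2 ≤ (M : ℝ) * M := by
      have := Finset.sum_range_id_mul_two M
      have h3 : ((∑ i ∈ range M, i : ℕ) : ℝ) * 2 = (M : ℝ) * ((M - 1 : ℕ) : ℝ) := by
        exact_mod_cast this
      push_cast at h3
      rw [h3]
      refine mul_le_mul_of_nonneg_left ?_ hM0.le
      exact_mod_cast Nat.sub_le M 1
    calc ∑ i ∈ range M, (i : ℝ) ^ 2 ≤ M * ∑ i ∈ range M, (i : ℝ) := h1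
      _ ≤ M * ((M : ℝ) * M / 2) := mul_le_mul_of_nonneg_left (by linarith) hM0.le
      _ = (M : ℝ) ^ 3 / 2 := by ring
  have hfin : M * ∑ x, ρ x * h x ^ 2 ≤ (M : ℝ) ^ 3 / 2 * E := by
    calc M * ∑ x, ρ x * h x ^ 2 = ∑ x, ρ x * (M * h x ^ 2) := by
          rw [Finset.mul_sum]
          exact Finset.sum_congr rfl (fun x _ => by ring)
      _ ≤ ∑ x, ρ x * ∑ i ∈ range M, (h x - h (x - i * s)) ^ 2 :=
          Finset.sum_le_sum (fun x _ => mul_le_mul_of_nonneg_left (hpt x) (hρ x))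
      _ = ∑ i ∈ range M, ∑ x, ρ x * (h x - h (x - i * s)) ^ 2 := by
          rw [Finset.sum_comm]
          exact Finset.sum_congr rfl (fun x _ => Finset.mul_sum _ _ _)
      _ ≤ ∑ i ∈ range M, (i : ℝ) ^ 2 * E := Finset.sum_le_sum (fun i _ => hlong i)
      _ = (∑ i ∈ range M, (i : ℝ) ^ 2) * E := by rw [Finset.sum_mul]
      _ ≤ (M : ℝ) ^ 3 / 2 * E := mul_le_mul_of_nonneg_right hsq hE0
  have hMr : ((3 : ℝ) ^ K) = (M : ℝ) := by rw [hM]; push_cast; rfl
  rw [hMr]
  have h6 : (M : ℝ) * (2 * ∑ x, ρ x * h x ^ 2) ≤ M * ((M : ℝ) ^ 2 * E) := by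
    calc (M : ℝ) * (2 * ∑ x, ρ x * h x ^ 2) = 2 * (M * ∑ x, ρ x * h x ^ 2) := by ring
      _ ≤ 2 * ((M : ℝ) ^ 3 / 2 * E) := by linarith
      _ = M * ((M : ℝ) ^ 2 * E) := by ring
  exact le_of_mul_le_mul_left h6 hM0


/-! ### the contraction -/

/-- chi-square distance between levels `a` and `b` -/
noncomputable def chi (a b : ℕ) (p : ZMod (3 ^ n) → ℝ) : ℝ :=
  (∑ x, (avg b p x) ^ 2 / avg a p x) - 1

/-- Gini defect of the digit number `j` -/
noncomputable def Gd (j : ℕ) (p : ZMod (3 ^ n) → ℝ) : ℝ :=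
  1 - (∑ x, (avg (j + 1) p x) ^ 2 / avg j p x) / 3

theorem sum_range_three_mul (G : ℕ → ℝ) (M : ℕ) : ∑ i ∈ range (3 * M), G i =
    ∑ i ∈ range M, (G (3 * i) + G (3 * i + 1) + G (3 * i + 2)) := by
  induction M with
  | zero => simp
  | succ M ih =>
    rw [show 3 * (M + 1) = 3 * M + 1 + 1 + 1 by ring, Finset.sum_range_succ, Finset.sum_range_succ,
      Finset.sum_range_succ, ih, Finset.sum_range_succ]
    ring

open Classical in
/-- multiples of `3` are the nonunits, each hit three times by `w ↦ 3 w` -/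
theorem sum_nonunit (hn : 1 ≤ n) (F : ZMod (3 ^ n) → ℝ) :
    ∑ w, F (3 * w) = 3 * ∑ y, if IsUnit y then 0 else F y := by
  obtain ⟨m, rfl⟩ : ∃ m, n = m + 1 := ⟨n - 1, by omega⟩
  rw [sum_zmod_eq_range, sum_zmod_eq_range]
  have hper : ∀ i : ℕ, F (3 * ((i + 3 ^ m : ℕ) : ZMod (3 ^ (m + 1)))) =
      F (3 * (i : ZMod (3 ^ (m + 1)))) := by
    intro i
    congr 1
    push_cast
    rw [mul_add, show (3 : ZMod (3 ^ (m + 1))) * 3 ^ m = 3 ^ (m + 1) by rw [pow_succ]; ring,
      three_pow_self, add_zero]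
  have h1 := sum_range_mul_period (fun i : ℕ => F (3 * (i : ZMod (3 ^ (m + 1))))) (3 ^ m) hper 3
  rw [show 3 ^ m * 3 = 3 ^ (m + 1) by rw [pow_succ]] at h1
  rw [h1]
  push_cast
  congr 1
  have h2 : ∀ G : ℕ → ℝ, ∑ i ∈ range (3 ^ (m + 1)), G i =
      ∑ i ∈ range (3 ^ m), (G (3 * i) + G (3 * i + 1) + G (3 * i + 2)) := by
    intro G
    rw [show (3 : ℕ) ^ (m + 1) = 3 * 3 ^ m by rw [pow_succ]; ring]
    exact sum_range_three_mul G _
  rw [h2]
  refine Finset.sum_congr rfl (fun i _ => ?_)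
  have u : ∀ k : ℕ, IsUnit (k : ZMod (3 ^ (m + 1))) ↔ ¬ 3 ∣ k := by
    intro k
    rw [ZMod.isUnit_iff_coprime, Nat.coprime_pow_right_iff (by omega), Nat.coprime_comm,
      Nat.Prime.coprime_iff_not_dvd Nat.prime_three]
  rw [if_neg (by rw [u, not_not]; exact ⟨i, rfl⟩), if_pos (by rw [u]; omega),
    if_pos (by rw [u]; omega)]
  push_cast
  ring

/-- variance identity -/
theorem variance_id {ι : Type*} [Fintype ι] (m g : ι → ℝ) :
    (∑ y, m y * g y) ^ 2 = (∑ y, m y) * (∑ y, m y * g y ^ 2) -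
      (1 / 2) * ∑ y, ∑ y', m y * m y' * (g y - g y') ^ 2 := by
  have e1 : (∑ y, m y * g y) ^ 2 = ∑ y, ∑ y', (m y * g y) * (m y' * g y') := by
    rw [sq, Finset.sum_mul_sum]
  have e2 : (∑ y, m y) * (∑ y, m y * g y ^ 2) = ∑ y, ∑ y', m y * (m y' * g y' ^ 2) := by
    rw [Finset.sum_mul_sum]
  have e3 : (∑ y, m y) * (∑ y, m y * g y ^ 2) = ∑ y, ∑ y', m y' * (m y * g y ^ 2) := by
    rw [e2, Finset.sum_comm]
  have e4 : ∑ y, ∑ y', m y * m y' * (g y - g y') ^ 2 =
      ∑ y, ∑ y', m y' * (m y * g y ^ 2) + ∑ y, ∑ y', m y * (m y' * g y' ^ 2) -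
        2 * ∑ y, ∑ y', (m y * g y) * (m y' * g y') := by
    rw [Finset.mul_sum, ← Finset.sum_add_distrib, ← Finset.sum_sub_distrib]
    refine Finset.sum_congr rfl (fun y _ => ?_)
    rw [Finset.mul_sum, ← Finset.sum_add_distrib, ← Finset.sum_sub_distrib]
    exact Finset.sum_congr rfl (fun y' _ => by ring)
  rw [e4, ← e3, ← e2, e1]
  ring

open Classical in
/-- one fibre -/
theorem fibre {j K : ℕ} (hK : K ≤ n) {h ρ m : ZMod (3 ^ n) → ℝ}
    (hb : ∀ x y, h (x + 3 ^ (j + K) * y) = h x) (h0 : ∀ x, avg j h x = 0)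
    (hρ : ∀ x, 0 ≤ ρ x) (hρj : ∀ x y, ρ (x + 3 ^ j * y) = ρ x) (hm : ∀ y, 0 ≤ m y) :
    ∑ x, ρ x * (∑ y, m y * h (x - 3 ^ j * y)) ^ 2 ≤ (∑ x, ρ x * h x ^ 2) *
      ((∑ y, m y) ^ 2 - (1 / ((3 : ℝ) ^ K) ^ 2) * ((∑ y, m y) ^ 2 -
        ∑ y, m y * ∑ y', if IsUnit (y' - y) then 0 else m y')) := by
  set S := ∑ x, ρ x * h x ^ 2 with hS
  have hS0 : 0 ≤ S := Finset.sum_nonneg (fun x _ => mul_nonneg (hρ x) (sq_nonneg _))
  clear_value S
  set T : ZMod (3 ^ n) → ZMod (3 ^ n) → ℝ := fun y y' =>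
    ∑ x, ρ x * (h (x - 3 ^ j * y) - h (x - 3 ^ j * y')) ^ 2 with hT
  have hT0 : ∀ y y', 0 ≤ T y y' := fun y y' =>
    Finset.sum_nonneg (fun x _ => mul_nonneg (hρ x) (sq_nonneg _))
  have hTu : ∀ y y', (if IsUnit (y' - y) then 2 * S / ((3 : ℝ) ^ K) ^ 2 else 0) ≤ T y y' := by
    intro y y'
    split_ifs with hu
    · rw [div_le_iff₀ (by positivity)]
      have hP := poincare hK hb h0 hρ hρj hu
      rw [← hS] at hP
      refine hP.trans (le_of_eq ?_)
      rw [mul_comm]
      congr 1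
      rw [hT]
      simp only
      rw [← Equiv.sum_comp (Equiv.subRight (3 ^ j * y))
        (fun x => ρ x * (h x - h (x - 3 ^ j * (y' - y))) ^ 2)]
      refine Finset.sum_congr rfl (fun x _ => ?_)
      simp only [Equiv.subRight_apply]
      rw [show ρ (x - 3 ^ j * y) = ρ x by
        rw [sub_eq_add_neg, ← mul_neg, hρj], show x - 3 ^ j * y - 3 ^ j * (y' - y) =
        x - 3 ^ j * y' by ring]
    · exact hT0 y y'
  have hshift : ∀ y, ∑ x, ρ x * h (x - 3 ^ j * y) ^ 2 = S := by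
    intro y
    rw [hS, ← Equiv.sum_comp (Equiv.subRight (3 ^ j * y)) (fun x => ρ x * h x ^ 2)]
    refine Finset.sum_congr rfl (fun x _ => ?_)
    simp only [Equiv.subRight_apply]
    rw [show ρ (x - 3 ^ j * y) = ρ x by rw [sub_eq_add_neg, ← mul_neg, hρj]]
  have e1 : ∑ x, ρ x * (∑ y, m y * h (x - 3 ^ j * y)) ^ 2 =
      (∑ y, m y) * (∑ y, m y * ∑ x, ρ x * h (x - 3 ^ j * y) ^ 2) -
        (1 / 2) * ∑ y, ∑ y', m y * m y' * T y y' := by
    have a1 : (∑ y, m y) * (∑ y, m y * ∑ x, ρ x * h (x - 3 ^ j * y) ^ 2) =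
        ∑ x, ρ x * ((∑ y, m y) * (∑ y, m y * h (x - 3 ^ j * y) ^ 2)) := by
      simp only [Finset.mul_sum]
      rw [Finset.sum_comm]
      refine Finset.sum_congr rfl (fun x _ => ?_)
      refine Finset.sum_congr rfl (fun y _ => ?_)
      ring
    have a2 : ∑ y, ∑ y', m y * m y' * T y y' =
        ∑ x, ρ x * ∑ y, ∑ y', m y * m y' * (h (x - 3 ^ j * y) - h (x - 3 ^ j * y')) ^ 2 := by
      simp only [hT, Finset.mul_sum]
      have c1 : ∀ y : ZMod (3 ^ n), ∑ y' : ZMod (3 ^ n), ∑ x : ZMod (3 ^ n),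
          m y * m y' * (ρ x * (h (x - 3 ^ j * y) - h (x - 3 ^ j * y')) ^ 2) =
          ∑ x : ZMod (3 ^ n), ∑ y' : ZMod (3 ^ n),
          m y * m y' * (ρ x * (h (x - 3 ^ j * y) - h (x - 3 ^ j * y')) ^ 2) :=
        fun y => Finset.sum_comm
      rw [Finset.sum_congr rfl (fun y _ => c1 y), Finset.sum_comm]
      refine Finset.sum_congr rfl (fun x _ => ?_)
      refine Finset.sum_congr rfl (fun y _ => ?_)
      refine Finset.sum_congr rfl (fun y' _ => ?_)
      ring
    rw [a1, a2, Finset.mul_sum, ← Finset.sum_sub_distrib]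
    refine Finset.sum_congr rfl (fun x _ => ?_)
    rw [variance_id]
    ring
  rw [e1]
  simp only [hshift]
  rw [← Finset.sum_mul]
  have e2 : ∑ y, ∑ y', m y * m y' * (if IsUnit (y' - y) then 2 * S / ((3 : ℝ) ^ K) ^ 2 else 0) ≤
      ∑ y, ∑ y', m y * m y' * T y y' :=
    Finset.sum_le_sum (fun y _ => Finset.sum_le_sum (fun y' _ =>
      mul_le_mul_of_nonneg_left (hTu y y') (mul_nonneg (hm y) (hm y'))))
  have e3 : ∑ y, ∑ y', m y * m y' * (if IsUnit (y' - y) then 2 * S / ((3 : ℝ) ^ K) ^ 2 else 0) =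
      2 * S / ((3 : ℝ) ^ K) ^ 2 * ((∑ y, m y) ^ 2 -
        ∑ y, m y * ∑ y', if IsUnit (y' - y) then 0 else m y') := by
    have b1 : (∑ y, m y) ^ 2 = ∑ y, m y * ∑ y', m y' := by
      rw [sq, Finset.sum_mul]
    rw [b1, ← Finset.sum_sub_distrib, Finset.mul_sum]
    refine Finset.sum_congr rfl (fun y _ => ?_)
    rw [← mul_sub, ← Finset.sum_sub_distrib, ← mul_assoc, Finset.mul_sum]
    refine Finset.sum_congr rfl (fun y' _ => ?_)
    split_ifs <;> ring
  rw [e3] at e2
  have e4 : (2 * S / ((3 : ℝ) ^ K) ^ 2) * ((∑ y, m y) ^ 2 -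
        ∑ y, m y * ∑ y', if IsUnit (y' - y) then 0 else m y') =
        2 * (S * ((1 / ((3 : ℝ) ^ K) ^ 2) * ((∑ y, m y) ^ 2 -
        ∑ y, m y * ∑ y', if IsUnit (y' - y) then 0 else m y'))) := by ring
  rw [e4] at e2
  rw [mul_sub]
  have e5 : (∑ y, m y) * ((∑ y, m y) * S) = S * (∑ y, m y) ^ 2 := by ring
  rw [e5]
  linarith

theorem zero_of_avg {a : ℕ} {f : ZMod (3 ^ n) → ℝ} (hf : ∀ x, 0 ≤ f x) {x : ZMod (3 ^ n)}
    (h : avg a f x = 0) (y : ZMod (3 ^ n)) : f (x + 3 ^ a * y) = 0 := by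
  unfold avg at h
  rw [div_eq_zero_iff] at h
  rcases h with h | h
  · exact (Finset.sum_eq_zero_iff_of_nonneg (fun y _ => hf _)).1 h y (Finset.mem_univ _)
  · exact absurd h (by positivity)

theorem avg_eq_zero_of {a b : ℕ} (hab : a ≤ b) {f : ZMod (3 ^ n) → ℝ} (hf : ∀ x, 0 ≤ f x)
    {x : ZMod (3 ^ n)} (h : avg a f x = 0) : avg b f x = 0 := by
  rw [← avg_avg' hab] at h
  have := zero_of_avg (avg_nonneg (a := b) hf) h 0
  rwa [mul_zero, add_zero] at this

theorem chi_eq {a b : ℕ} (hab : a ≤ b) {f : ZMod (3 ^ n) → ℝ} (hf : IsPmf f) :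
    chi a b f = ∑ x, (avg b f x - avg a f x) ^ 2 / avg a f x := by
  have h : ∀ x, (avg b f x - avg a f x) ^ 2 / avg a f x =
      (avg b f x) ^ 2 / avg a f x - 2 * avg b f x + avg a f x := by
    intro x
    rcases eq_or_ne (avg a f x) 0 with h0 | h0
    · rw [h0, avg_eq_zero_of hab hf.1 h0]; simp
    · field_simp; ring
  simp only [h]
  rw [Finset.sum_add_distrib, Finset.sum_sub_distrib, ← Finset.mul_sum, sum_avg, sum_avg, hf.2]
  unfold chi
  ring

theorem chi_nonneg {a b : ℕ} (hab : a ≤ b) {f : ZMod (3 ^ n) → ℝ} (hf : IsPmf f) :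
    0 ≤ chi a b f := by
  rw [chi_eq hab hf]
  exact Finset.sum_nonneg (fun x _ => div_nonneg (sq_nonneg _) (avg_nonneg hf.1 x))

/-- the contraction, abstract form -/
theorem contraction_core {j K : ℕ} (hK : K ≤ n) (hn : 1 ≤ n) {p h w : ZMod (3 ^ n) → ℝ}
    (hp : ∀ x, 0 ≤ p x) (hw : ∀ x, 0 ≤ w x) (hwj : ∀ x y, w (x + 3 ^ j * y) = w x)
    (hb : ∀ x y, h (x + 3 ^ (j + K) * y) = h x) (h0 : ∀ x, avg j h x = 0)
    (hz : ∀ x, w x = 0 → h x = 0) :
    ∑ x, (conv p h x) ^ 2 / conv (avg j p) w x ≤ (∑ x, h x ^ 2 / w x) *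
      (∑ z, avg j p z - (1 / ((3 : ℝ) ^ K) ^ 2) * (∑ z, avg j p z -
        (∑ z, (avg (j + 1) p z) ^ 2 / avg j p z) / 3)) := by
  classical
  set S := ∑ x, h x ^ 2 / w x with hS
  set μ := avg j p with hμ
  have hμ0 : ∀ z, 0 ≤ μ z := avg_nonneg hp
  have hμj : ∀ x y, μ (x + 3 ^ j * y) = μ x := avg_add j p
  -- the pieces
  set A : ZMod (3 ^ n) → ZMod (3 ^ n) → ℝ := fun z x =>
    ∑ y, (p (z + 3 ^ j * y) / 3 ^ n) * h (x - z - 3 ^ j * y) with hA
  have hAsum : ∀ x, ∑ z, A z x = conv p h x := by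
    intro x
    simp only [hA]
    rw [Finset.sum_comm]
    have : ∀ y : ZMod (3 ^ n), ∑ z, (p (z + 3 ^ j * y) / 3 ^ n) * h (x - z - 3 ^ j * y) =
        conv p h x / 3 ^ n := by
      intro y
      unfold conv
      rw [Finset.sum_div, ← Equiv.sum_comp (Equiv.addRight (3 ^ j * y))
        (fun u => p u * h (x - u) / 3 ^ n)]
      refine Finset.sum_congr rfl (fun z _ => ?_)
      simp only [Equiv.coe_addRight]
      rw [show x - (z + 3 ^ j * y) = x - z - 3 ^ j * y by ring]
      ring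
    rw [Finset.sum_congr rfl (fun y _ => this y), Finset.sum_const, Finset.card_univ,
      nsmul_eq_mul, card_G]
    field_simp
  -- Cauchy-Schwarz
  have hCS : ∀ x, (conv p h x) ^ 2 / conv μ w x ≤ ∑ z, A z x ^ 2 / (μ z * w (x - z)) := by
    intro x
    have hR0 : ∀ z, 0 ≤ A z x ^ 2 / (μ z * w (x - z)) := fun z =>
      div_nonneg (sq_nonneg _) (mul_nonneg (hμ0 z) (hw _))
    have hB0 : 0 ≤ conv μ w x := Finset.sum_nonneg (fun z _ => mul_nonneg (hμ0 z) (hw _))
    have hcs := Finset.sum_sq_le_sum_mul_sum_of_sq_le_mul (s := Finset.univ)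
      (r := fun z => A z x) (f := fun z => A z x ^ 2 / (μ z * w (x - z)))
      (g := fun z => μ z * w (x - z)) (fun z _ => hR0 z)
      (fun z _ => mul_nonneg (hμ0 z) (hw _)) (by
        intro z _
        rcases eq_or_ne (μ z * w (x - z)) 0 with h1 | h1
        · have : A z x = 0 := by
            simp only [hA]
            refine Finset.sum_eq_zero (fun y _ => ?_)
            rcases mul_eq_zero.1 h1 with h2 | h2
            · rw [zero_of_avg hp h2 y, zero_div, zero_mul]
            · have h3 : w (x - z - 3 ^ j * y) = 0 := by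
                rw [sub_eq_add_neg (x - z), ← mul_neg, hwj, h2]
              rw [hz _ h3, mul_zero]
          rw [this, h1]; simp
        · rw [div_mul_cancel₀ _ h1])
    rw [hAsum x] at hcs
    rcases hB0.eq_or_lt with h1 | h1
    · rw [← h1, div_zero]
      exact Finset.sum_nonneg (fun z _ => hR0 z)
    · rw [div_le_iff₀ h1]
      exact hcs
  -- one fibre
  have hfib : ∀ z, ∑ x, A z x ^ 2 / (μ z * w (x - z)) ≤ S * (μ z -
      (1 / ((3 : ℝ) ^ K) ^ 2) * (μ z -
        avg j (fun u => (avg (j + 1) p u) ^ 2) z / μ z / 3)) := by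
    intro z
    set m : ZMod (3 ^ n) → ℝ := fun y => p (z + 3 ^ j * y) / 3 ^ n with hm
    have hm0 : ∀ y, 0 ≤ m y := fun y => div_nonneg (hp _) (by positivity)
    have hmsum : ∑ y, m y = μ z := by
      rw [hm, hμ]
      unfold avg
      rw [Finset.sum_div]
    have hf := fibre hK hb h0 (ρ := fun x => 1 / w x) (fun x => div_nonneg zero_le_one (hw x))
      (fun x y => by rw [hwj]) hm0
    have g1 : ∑ x, A z x ^ 2 / (μ z * w (x - z)) =
        (∑ x, 1 / w x * (∑ y, m y * h (x - 3 ^ j * y)) ^ 2) / μ z := by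
      rw [Finset.sum_div, ← Equiv.sum_comp (Equiv.addRight z)
        (fun x => A z x ^ 2 / (μ z * w (x - z)))]
      refine Finset.sum_congr rfl (fun x _ => ?_)
      simp only [Equiv.coe_addRight, hA, add_sub_cancel_right, hm]
      rw [one_div, mul_comm (w x)⁻¹, ← div_eq_mul_inv, div_div, mul_comm (w x)]
    have g2 : ∑ x, 1 / w x * h x ^ 2 = S := by
      rw [hS]
      exact Finset.sum_congr rfl (fun x _ => by ring)
    have g3 : ∀ y, (∑ y', if IsUnit (y' - y) then 0 else m y') =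
        avg (j + 1) p (z + 3 ^ j * y) / 3 := by
      intro y
      have k1 := sum_nonunit hn (fun v => m (v + y))
      have k2 : (∑ v, if IsUnit v then 0 else m (v + y)) =
          ∑ y', if IsUnit (y' - y) then 0 else m y' := by
        rw [← Equiv.sum_comp (Equiv.subRight y) (fun v => if IsUnit v then 0 else m (v + y))]
        refine Finset.sum_congr rfl (fun x _ => ?_)
        simp only [Equiv.subRight_apply, sub_add_cancel]
      rw [k2] at k1
      have k3 : ∑ v, m (3 * v + y) = avg (j + 1) p (z + 3 ^ j * y) := by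
        unfold avg
        rw [Finset.sum_div]
        refine Finset.sum_congr rfl (fun v _ => ?_)
        simp only [hm]
        rw [show z + 3 ^ j * (3 * v + y) = z + 3 ^ j * y + 3 ^ (j + 1) * v by
          rw [pow_succ]; ring]
      rw [k3] at k1
      rw [k1]
      ring
    have g4 : (∑ y, m y * ∑ y', if IsUnit (y' - y) then 0 else m y') =
        avg j (fun u => (avg (j + 1) p u) ^ 2) z / 3 := by
      have l1 : avg j (fun u => (avg (j + 1) p u) ^ 2) z =
          avg j (fun u => p u * avg (j + 1) p u) z := by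
        rw [← avg_avg' (Nat.le_succ j) (fun u => p u * avg (j + 1) p u)]
        congr 1
        funext u
        rw [Nat.succ_eq_add_one, avg_mul_inv (avg_add (j + 1) p), sq]
      rw [l1]
      simp only [g3]
      unfold avg
      rw [Finset.sum_div, Finset.sum_div]
      refine Finset.sum_congr rfl (fun y _ => ?_)
      simp only [hm]
      ring
    rw [g1]
    rw [g2, hmsum, g4] at hf
    rcases (hμ0 z).eq_or_lt with h1 | h1
    · rw [← h1]; simp
    · rw [div_le_iff₀ h1]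
      refine hf.trans (le_of_eq ?_)
      field_simp
  calc ∑ x, (conv p h x) ^ 2 / conv μ w x
      ≤ ∑ x, ∑ z, A z x ^ 2 / (μ z * w (x - z)) := Finset.sum_le_sum (fun x _ => hCS x)
    _ = ∑ z, ∑ x, A z x ^ 2 / (μ z * w (x - z)) := Finset.sum_comm
    _ ≤ ∑ z, S * (μ z - (1 / ((3 : ℝ) ^ K) ^ 2) * (μ z -
        avg j (fun u => (avg (j + 1) p u) ^ 2) z / μ z / 3)) :=
        Finset.sum_le_sum (fun z _ => hfib z)
    _ = S * (∑ z, μ z - (1 / ((3 : ℝ) ^ K) ^ 2) * (∑ z, μ z -
        (∑ z, avg j (fun u => (avg (j + 1) p u) ^ 2) z / μ z) / 3)) := by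
        rw [← Finset.mul_sum, Finset.sum_sub_distrib, ← Finset.mul_sum, Finset.sum_sub_distrib,
          ← Finset.sum_div]
    _ = _ := by
        have : ∑ z, avg j (fun u => (avg (j + 1) p u) ^ 2) z / μ z =
            ∑ z, (avg (j + 1) p z) ^ 2 / μ z := by
          rw [← sum_avg j (fun z => (avg (j + 1) p z) ^ 2 / μ z)]
          refine Finset.sum_congr rfl (fun z _ => ?_)
          simp only [div_eq_mul_inv]
          rw [avg_mul_inv (fun x y => by rw [hμj])]
        rw [this]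

/-- convolution contracts the chi-square distance between two levels -/
theorem contraction {j K : ℕ} (hK : 1 ≤ K) (hn : j + K ≤ n) {p f : ZMod (3 ^ n) → ℝ}
    (hp : IsPmf p) (hf : IsPmf f) :
    chi j (j + K) (conv p f) ≤ (1 - Gd j p / ((3 : ℝ) ^ K) ^ 2) * chi j (j + K) f := by
  have hab : j ≤ j + K := Nat.le_add_right _ _
  rw [chi_eq hab (hp.conv hf), chi_eq hab hf]
  have h := contraction_core (j := j) (K := K) (by omega) (by omega) (p := p)
    (h := fun x => avg (j + K) f x - avg j f x) (w := avg j f) hp.1 (avg_nonneg hf.1)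
    (avg_add j f) (fun x y => by rw [avg_add, inv_mono hab (avg_add j f)])
    (fun x => by rw [avg_sub, avg_avg' hab, avg_avg le_rfl, sub_self])
    (fun x hx => by rw [hx, avg_eq_zero_of hab hf.1 hx, sub_zero])
  have e1 : ∀ x, conv (avg j p) (avg j f) x = avg j (conv p f) x := by
    intro x
    rw [conv_avg, conv_comm (avg j p) f, conv_avg, avg_avg le_rfl, conv_comm]
  have e2 : ∀ x, conv p (fun x => avg (j + K) f x - avg j f x) x =
      avg (j + K) (conv p f) x - avg j (conv p f) x := by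
    intro x
    rw [← conv_avg, ← conv_avg]
    unfold conv
    rw [← Finset.sum_sub_distrib]
    exact Finset.sum_congr rfl (fun y _ => by ring)
  simp only [e1, e2] at h
  rw [sum_avg, hp.2] at h
  refine h.trans (le_of_eq ?_)
  unfold Gd
  ring

/-- density bound between levels -/
theorem avg_le {j K : ℕ} (hK : K ≤ n) {f : ZMod (3 ^ n) → ℝ} (hf : ∀ x, 0 ≤ f x)
    (x : ZMod (3 ^ n)) : avg (j + K) f x ≤ 3 ^ K * avg j f x := by
  have hab : j ≤ j + K := Nat.le_add_right _ _
  set g := avg (j + K) f with hg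
  have hg0 : ∀ x, 0 ≤ g x := avg_nonneg hf
  have e : avg j f x = avg j g x := by rw [hg, avg_avg' hab]
  rw [e]
  unfold avg
  rw [sum_zmod_eq_range]
  have hper : ∀ i : ℕ, g (x + 3 ^ j * ((i + 3 ^ K : ℕ) : ZMod (3 ^ n))) =
      g (x + 3 ^ j * (i : ZMod (3 ^ n))) := by
    intro i
    rw [hg, ← avg_add (j + K) f (x + 3 ^ j * (i : ZMod (3 ^ n))) 1]
    congr 1
    push_cast
    rw [pow_add]
    ring
  have h1 := sum_range_mul_period (fun i : ℕ => g (x + 3 ^ j * (i : ZMod (3 ^ n)))) (3 ^ K) hper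
    (3 ^ (n - K))
  rw [← pow_add, Nat.add_sub_cancel' hK] at h1
  rw [h1]
  have h2 : g x ≤ ∑ i ∈ range (3 ^ K), g (x + 3 ^ j * (i : ZMod (3 ^ n))) := by
    have := Finset.single_le_sum (f := fun i : ℕ => g (x + 3 ^ j * (i : ZMod (3 ^ n))))
      (fun i _ => hg0 _) (Finset.mem_range.2 (show 0 < 3 ^ K by positivity))
    simpa using this
  have h3 : (3 : ℝ) ^ K * (((3 ^ (n - K) : ℕ) : ℝ) *
      (∑ i ∈ range (3 ^ K), g (x + 3 ^ j * (i : ZMod (3 ^ n)))) / 3 ^ n) =
      ∑ i ∈ range (3 ^ K), g (x + 3 ^ j * (i : ZMod (3 ^ n))) := by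
    have h4 : (3 : ℝ) ^ n = 3 ^ K * 3 ^ (n - K) := by rw [← pow_add, Nat.add_sub_cancel' hK]
    rw [h4]
    push_cast
    field_simp
  rw [h3]
  exact h2

theorem chi_le {j K : ℕ} (hn : j + K ≤ n) {f : ZMod (3 ^ n) → ℝ} (hf : IsPmf f) :
    chi j (j + K) f ≤ 3 ^ K - 1 := by
  unfold chi
  have h : ∑ x, (avg (j + K) f x) ^ 2 / avg j f x ≤ ∑ x, 3 ^ K * avg (j + K) f x := by
    refine Finset.sum_le_sum (fun x _ => ?_)
    have h1 := avg_le (j := j) (K := K) (by omega) hf.1 x
    have h2 := avg_nonneg (a := j + K) hf.1 x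
    rcases (avg_nonneg (a := j) hf.1 x).eq_or_lt with h0 | h0
    · rw [← h0, div_zero]
      positivity
    · rw [div_le_iff₀ h0, sq]
      calc avg (j + K) f x * avg (j + K) f x ≤ avg (j + K) f x * (3 ^ K * avg j f x) :=
            mul_le_mul_of_nonneg_left h1 h2
        _ = _ := by ring
  rw [← Finset.mul_sum, sum_avg, hf.2, mul_one] at h
  linarith

theorem chi_dirac {j K : ℕ} (hn : j + K ≤ n) :
    chi j (j + K) (dirac0 : ZMod (3 ^ n) → ℝ) ≤ 3 ^ K := by
  have := chi_le hn (isPmf_dirac0 (G := ZMod (3 ^ n)))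
  linarith

theorem Gd_nonneg {j : ℕ} (hn : j + 1 ≤ n) {p : ZMod (3 ^ n) → ℝ} (hp : IsPmf p) :
    0 ≤ Gd j p := by
  have := chi_le hn hp
  unfold chi at this
  unfold Gd
  linarith

theorem Gd_le_one (j : ℕ) {p : ZMod (3 ^ n) → ℝ} (hp : IsPmf p) : Gd j p ≤ 1 := by
  unfold Gd
  have : 0 ≤ ∑ x, (avg (j + 1) p x) ^ 2 / avg j p x :=
    Finset.sum_nonneg (fun x _ => div_nonneg (sq_nonneg _) (avg_nonneg hp.1 x))
  linarith

end avg

end KLOne
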