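import Pool.Agent.Lib.MP_e43fce_nt_one.K1
/-! MP_e43fce_nt, KL1, INV parts (b), (c), (e) and the Gibbs inequality. -/
open Finset

namespace KLOne

variable {n : ℕ}

theorem sum_avg_mul_inv {a : ℕ} {f g : ZMod (3 ^ n) → ℝ} (hg : ∀ x y, g (x + 3 ^ a * y) = g x) :
    ∑ x, avg a f x * g x = ∑ x, f x * g x := by
  rw [← sum_avg a (fun x => f x * g x)]
  exact Finset.sum_congr rfl (fun x _ => (avg_mul_inv hg x).symm)

theorem avg_eq_zero {a b : ℕ} (hab : a ≤ b) {p : ZMod (3 ^ n) → ℝ} (hp : ∀ x, 0 ≤ p x) {x : ZMod (3 ^ n)}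
    (h : avg a p x = 0) : avg b p x = 0 := by
  rw [← avg_avg' hab] at h
  unfold avg at h
  rw [div_eq_zero_iff] at h
  rcases h with h | h
  · have := (Finset.sum_eq_zero_iff_of_nonneg (fun y _ => avg_nonneg hp (x + 3 ^ a * y))).1 h 0 (Finset.mem_univ _)
    rw [mul_zero, add_zero] at this
    exact this
  · exact absurd h (by positivity)

/-- deficits as relative entropies -/
theorem D_sub {a b : ℕ} (hab : a ≤ b) (p : ZMod (3 ^ n) → ℝ) :
    D a p - D b p = ∑ x, avg b p x * (Real.log (avg b p x) - Real.log (avg a p x)) := by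
  unfold D H
  have h1 : ∀ x y, Real.log (avg a p (x + 3 ^ a * y)) = Real.log (avg a p x) := fun x y => by rw [avg_add]
  have e1 : ∑ x, avg a p x * Real.log (avg a p x) = ∑ x, p x * Real.log (avg a p x) := sum_avg_mul_inv h1
  have e2 : ∑ x, avg b p x * Real.log (avg a p x) = ∑ x, p x * Real.log (avg a p x) :=
    sum_avg_mul_inv (g := fun x => Real.log (avg a p x)) (inv_mono (g := fun x => Real.log (avg a p x)) hab h1)
  simp only [mul_sub, Finset.sum_sub_distrib]
  rw [e1, e2]
  ring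

/-- (b) -/
theorem D_sub_le_chi {a b : ℕ} (hab : a ≤ b) {p : ZMod (3 ^ n) → ℝ} (hp : IsPmf p) :
    D a p - D b p ≤ chi a b p := by
  rw [D_sub hab, chi, ← (isPmf_avg (a := b) hp).2, ← Finset.sum_sub_distrib]
  refine Finset.sum_le_sum (fun x _ => ?_)
  have hP := avg_nonneg (a := b) hp.1 x
  have hQ := avg_nonneg (a := a) hp.1 x
  rcases hP.eq_or_lt with h | h
  · rw [← h]; simp
  have hQ' : 0 < avg a p x := lt_of_le_of_ne hQ (fun h0 => h.ne' (avg_eq_zero hab hp.1 h0.symm))
  have := Real.log_le_sub_one_of_pos (div_pos h hQ')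
  rw [Real.log_div h.ne' hQ'.ne'] at this
  have h2 := mul_le_mul_of_nonneg_left this h.le
  have h3 : avg b p x * (avg b p x / avg a p x - 1) = avg b p x ^ 2 / avg a p x - avg b p x := by
    field_simp
  linarith

/-- deficits are nonnegative -/
theorem D_anti {a b : ℕ} (hab : a ≤ b) {p : ZMod (3 ^ n) → ℝ} (hp : IsPmf p) : D b p ≤ D a p := by
  have h := D_sub hab p
  have h2 : (0 : ℝ) ≤ ∑ x, avg b p x * (Real.log (avg b p x) - Real.log (avg a p x)) := by
    have : ∑ x, (avg b p x - avg a p x) ≤ ∑ x, avg b p x * (Real.log (avg b p x) - Real.log (avg a p x)) := by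
      refine Finset.sum_le_sum (fun x _ => ?_)
      have hP := avg_nonneg (a := b) hp.1 x
      have hQ := avg_nonneg (a := a) hp.1 x
      rcases hP.eq_or_lt with h | h
      · rw [← h]; simp [hQ]
      have hQ' : 0 < avg a p x := lt_of_le_of_ne hQ (fun h0 => h.ne' (avg_eq_zero hab hp.1 h0.symm))
      have := Real.log_le_sub_one_of_pos (div_pos hQ' h)
      rw [Real.log_div hQ'.ne' h.ne'] at this
      have h2 := mul_le_mul_of_nonneg_left this h.le
      have h3 : avg b p x * (avg a p x / avg b p x - 1) = avg a p x - avg b p x := by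
        field_simp
      nlinarith
    rw [Finset.sum_sub_distrib, (isPmf_avg (a := b) hp).2, (isPmf_avg (a := a) hp).2, sub_self] at this
    exact this
  linarith

/-- an average over `3^j` controls the average over `3^(j+1)` -/
theorem avg_succ_le {j : ℕ} (hn : 1 ≤ n) {p : ZMod (3 ^ n) → ℝ} (hp : ∀ x, 0 ≤ p x) (x : ZMod (3 ^ n)) :
    avg (j + 1) p x ≤ 3 * avg j p x := by
  rw [← avg_avg' (Nat.le_succ j) p]
  set P := avg (j + 1) p with hP
  have hP0 : ∀ x, 0 ≤ P x := avg_nonneg hp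
  have hPi : ∀ x y, P (x + 3 ^ (j + 1) * y) = P x := avg_add (j + 1) p
  have hinj : Set.InjOn (fun i : ℕ => ((3 * i : ℕ) : ZMod (3 ^ n))) (Finset.range (3 ^ (n - 1)) : Set ℕ) := by
    intro i hi i' hi' h
    simp only [Finset.coe_range, Set.mem_Iio] at hi hi'
    simp only at h
    rw [ZMod.natCast_eq_natCast_iff'] at h
    have h3 : 3 ^ n = 3 * 3 ^ (n - 1) := by rw [← pow_succ']; congr 1; omega
    rw [Nat.mod_eq_of_lt (by omega), Nat.mod_eq_of_lt (by omega)] at h
    omega
  have h1 : ∑ i ∈ Finset.range (3 ^ (n - 1)), P (x + 3 ^ j * ((3 * i : ℕ) : ZMod (3 ^ n))) ≤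
      ∑ y, P (x + 3 ^ j * y) := by
    rw [← Finset.sum_image (f := fun y => P (x + 3 ^ j * y)) hinj]
    exact Finset.sum_le_sum_of_subset_of_nonneg (Finset.subset_univ _) (fun _ _ _ => hP0 _)
  have h2 : ∀ i ∈ Finset.range (3 ^ (n - 1)), P (x + 3 ^ j * ((3 * i : ℕ) : ZMod (3 ^ n))) = P x := by
    intro i _
    rw [← hPi x (i : ZMod (3 ^ n))]
    congr 2
    push_cast
    ring
  rw [Finset.sum_congr rfl h2, Finset.sum_const, Finset.card_range, nsmul_eq_mul] at h1
  unfold avg
  rw [mul_div_assoc', le_div_iff₀ (by positivity)]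
  have h3 : (3 : ℝ) ^ n = 3 * 3 ^ (n - 1) := by rw [← pow_succ']; congr 1; omega
  rw [h3]
  push_cast at h1
  calc P x * (3 * 3 ^ (n - 1)) = 3 * (3 ^ (n - 1) * P x) := by ring
    _ ≤ _ := mul_le_mul_of_nonneg_left h1 (by norm_num)

theorem neg_mul_log_le {r : ℝ} (h0 : 0 ≤ r) (h1 : r ≤ 1) : -(r * Real.log r) ≤ Real.sqrt (r * (1 - r)) := by
  rcases h0.eq_or_lt with h | h
  · rw [← h]; simp
  -- s = sqrt ((1 - r) / r), log (1 + s^2) <= s
  set s := Real.sqrt ((1 - r) / r) with hs
  have hs0 : 0 ≤ s := Real.sqrt_nonneg _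
  have hs2 : s ^ 2 = (1 - r) / r := Real.sq_sqrt (div_nonneg (by linarith) h.le)
  have h2 : 1 + s ^ 2 = 1 / r := by rw [hs2]; field_simp; ring
  have h3 : Real.log (1 + s ^ 2) ≤ s := by
    have hexp : 1 + s ^ 2 ≤ Real.exp s := by
      have := Real.quadratic_le_exp_of_nonneg hs0
      rcases le_total s 2 with h4 | h4
      · nlinarith
      · have h5 := Real.exp_one_gt_d9
        have h6 : Real.exp s = Real.exp (s / 2) ^ 2 := by
          rw [← Real.exp_nat_mul]; congr 1; push_cast; ring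
        have h7 : s / 2 + 1 ≤ Real.exp (s / 2) := Real.add_one_le_exp _
        have h8 : Real.exp 1 * (s / 2) ≤ Real.exp (s / 2) := by
          have h9 : s / 2 - 1 + 1 ≤ Real.exp (s / 2 - 1) := Real.add_one_le_exp _
          have h10 : Real.exp (s / 2) = Real.exp 1 * Real.exp (s / 2 - 1) := by
            rw [← Real.exp_add]; congr 1; ring
          rw [h10]
          exact mul_le_mul_of_nonneg_left (by linarith) (Real.exp_pos _).le
        have h11 : 2.7 * (s / 2) ≤ Real.exp (s / 2) := by nlinarith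
        rw [h6]
        have h12 : (2.7 * (s / 2)) ^ 2 ≤ Real.exp (s / 2) ^ 2 := pow_le_pow_left₀ (by positivity) h11 2
        nlinarith
    calc Real.log (1 + s ^ 2) ≤ Real.log (Real.exp s) := Real.log_le_log (by positivity) hexp
      _ = s := Real.log_exp s
  rw [h2, one_div, Real.log_inv] at h3
  have h4 : r * s = Real.sqrt (r * (1 - r)) := by
    rw [hs, ← Real.sqrt_sq h.le, ← Real.sqrt_mul (by positivity), Real.sqrt_sq h.le]
    congr 1
    field_simp
  rw [← h4]
  nlinarith

/-- (c) -/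
theorem log_three_sub_le {j : ℕ} (hn : 1 ≤ n) {p : ZMod (3 ^ n) → ℝ} (hp : IsPmf p) :
    Real.log 3 - (D j p - D (j + 1) p) ≤ Real.sqrt (3 * Gd j p) := by
  rw [D_sub (Nat.le_succ j)]
  have hPs := (isPmf_avg (a := j + 1) hp).2
  have hQs := (isPmf_avg (a := j) hp).2
  have e1 : Real.log 3 - ∑ x, avg (j + 1) p x * (Real.log (avg (j + 1) p x) - Real.log (avg j p x)) =
      ∑ x, avg (j + 1) p x * (Real.log 3 - Real.log (avg (j + 1) p x) + Real.log (avg j p x)) := by
    have : Real.log 3 = ∑ x, avg (j + 1) p x * Real.log 3 := by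
      rw [← Finset.sum_mul, hPs, one_mul]
    rw [this, ← Finset.sum_sub_distrib]
    refine Finset.sum_congr rfl (fun x _ => ?_)
    rw [← this]
    ring
  rw [e1]
  -- pointwise
  set r : ZMod (3 ^ n) → ℝ := fun x => avg (j + 1) p x / (3 * avg j p x) with hr
  have hQ : ∀ x, 0 ≤ avg j p x := avg_nonneg hp.1
  have hP : ∀ x, 0 ≤ avg (j + 1) p x := avg_nonneg hp.1
  have hr0 : ∀ x, 0 ≤ r x := fun x => div_nonneg (hP x) (by have := hQ x; positivity)
  have hr1 : ∀ x, r x ≤ 1 := fun x => div_le_one_of_le₀ (avg_succ_le hn hp.1 x) (by have := hQ x; positivity)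
  have hpt : ∀ x, avg (j + 1) p x * (Real.log 3 - Real.log (avg (j + 1) p x) + Real.log (avg j p x)) ≤
      3 * (Real.sqrt (avg j p x) * Real.sqrt (avg j p x * (r x * (1 - r x)))) := by
    intro x
    rcases (hP x).eq_or_lt with h | h
    · rw [← h, zero_mul]; positivity
    have hQ' : 0 < avg j p x := lt_of_le_of_ne (hQ x) (fun h0 => h.ne' (avg_eq_zero (Nat.le_succ j) hp.1 h0.symm))
    have h1 := neg_mul_log_le (hr0 x) (hr1 x)
    have h2 : Real.log (r x) = Real.log (avg (j + 1) p x) - (Real.log 3 + Real.log (avg j p x)) := by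
      rw [hr]
      simp only
      rw [Real.log_div h.ne' (by positivity), Real.log_mul (by norm_num) hQ'.ne']
    have h3 : Real.sqrt (avg j p x) * Real.sqrt (avg j p x * (r x * (1 - r x))) =
        avg j p x * Real.sqrt (r x * (1 - r x)) := by
      rw [← Real.sqrt_mul (hQ x), ← mul_assoc, Real.sqrt_mul (by positivity), Real.sqrt_mul_self (hQ x)]
    rw [h3]
    have h4 : avg (j + 1) p x * (Real.log 3 - Real.log (avg (j + 1) p x) + Real.log (avg j p x)) =
        3 * (avg j p x * (-(r x * Real.log (r x)))) := by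
      rw [h2, hr]
      simp only
      field_simp
      ring
    rw [h4]
    exact mul_le_mul_of_nonneg_left (mul_le_mul_of_nonneg_left h1 (hQ x)) (by norm_num)
  refine (Finset.sum_le_sum (fun x _ => hpt x)).trans ?_
  rw [← Finset.mul_sum]
  have hcs : ∑ x, Real.sqrt (avg j p x) * Real.sqrt (avg j p x * (r x * (1 - r x))) ≤
      Real.sqrt (∑ x, Real.sqrt (avg j p x) ^ 2) * Real.sqrt (∑ x, Real.sqrt (avg j p x * (r x * (1 - r x))) ^ 2) :=
    Real.sum_mul_le_sqrt_mul_sqrt _ _ _
  have e2 : ∑ x, Real.sqrt (avg j p x) ^ 2 = 1 := by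
    rw [← hQs]
    exact Finset.sum_congr rfl (fun x _ => Real.sq_sqrt (hQ x))
  have e3 : ∑ x, Real.sqrt (avg j p x * (r x * (1 - r x))) ^ 2 = Gd j p / 3 := by
    have : ∀ x, Real.sqrt (avg j p x * (r x * (1 - r x))) ^ 2 =
        avg (j + 1) p x / 3 - (avg (j + 1) p x ^ 2 / avg j p x) / 9 := by
      intro x
      rw [Real.sq_sqrt (mul_nonneg (hQ x) (mul_nonneg (hr0 x) (by linarith [hr1 x])))]
      rcases (hQ x).eq_or_lt with h | h
      · rw [avg_eq_zero (Nat.le_succ j) hp.1 h.symm, ← h]; simp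
      · rw [hr]
        simp only
        field_simp
        ring
    rw [Finset.sum_congr rfl (fun x _ => this x), Finset.sum_sub_distrib, ← Finset.sum_div, ← Finset.sum_div,
      hPs, Gd]
    ring
  rw [e2, e3, Real.sqrt_one, one_mul] at hcs
  calc 3 * ∑ x, Real.sqrt (avg j p x) * Real.sqrt (avg j p x * (r x * (1 - r x)))
      ≤ 3 * Real.sqrt (Gd j p / 3) := mul_le_mul_of_nonneg_left hcs (by norm_num)
    _ = Real.sqrt (3 * Gd j p) := by
        rw [show (3 : ℝ) * Gd j p = 3 ^ 2 * (Gd j p / 3) by ring, Real.sqrt_mul (by positivity),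
          Real.sqrt_sq (by norm_num)]

/-- telescoping -/
theorem H_eq_sum {p : ZMod (3 ^ n) → ℝ} (hp : IsPmf p) :
    H p = ∑ j ∈ Finset.range n, (Real.log 3 - (D j p - D (j + 1) p)) := by
  rw [Finset.sum_sub_distrib, Finset.sum_range_sub', Finset.sum_const, Finset.card_range, D_top le_rfl,
    D_zero hp, nsmul_eq_mul]
  ring

/-- (e): positive entropy forces many branching digits -/
theorem card_branch {p : ZMod (3 ^ n) → ℝ} (hp : IsPmf p) {c : ℝ} (hc : 0 < c) (hH : c * n ≤ H p) :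
    c / 4 * n ≤ ((Finset.range n).filter (fun j => c ^ 2 / 12 ≤ Gd j p)).card := by
  rcases Nat.eq_zero_or_pos n with h0 | hn
  · subst h0; simp
  rw [H_eq_sum hp] at hH
  have h1 : ∑ j ∈ Finset.range n, (Real.log 3 - (D j p - D (j + 1) p)) ≤
      ∑ j ∈ Finset.range n, (if c ^ 2 / 12 ≤ Gd j p then 2 else c / 2) := by
    refine Finset.sum_le_sum (fun j _ => (log_three_sub_le hn hp).trans ?_)
    split_ifs with h
    · rw [Real.sqrt_le_left (by norm_num)]
      have := Gd_le_one j hp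
      linarith
    · rw [Real.sqrt_le_left (by positivity)]
      push Not at h
      nlinarith
  rw [← Finset.sum_filter_add_sum_filter_not (Finset.range n) (fun j => c ^ 2 / 12 ≤ Gd j p)
    (fun j => if c ^ 2 / 12 ≤ Gd j p then (2 : ℝ) else c / 2)] at h1
  have h2 : ∑ j ∈ (Finset.range n).filter (fun j => c ^ 2 / 12 ≤ Gd j p), (if c ^ 2 / 12 ≤ Gd j p then (2 : ℝ) else c / 2)
      = 2 * ((Finset.range n).filter (fun j => c ^ 2 / 12 ≤ Gd j p)).card := by
    rw [Finset.sum_congr rfl (fun j hj => if_pos (Finset.mem_filter.1 hj).2), Finset.sum_const, nsmul_eq_mul]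
    ring
  have h3 : ∑ j ∈ (Finset.range n).filter (fun j => ¬ c ^ 2 / 12 ≤ Gd j p), (if c ^ 2 / 12 ≤ Gd j p then (2 : ℝ) else c / 2)
      ≤ c / 2 * n := by
    rw [Finset.sum_congr rfl (fun j hj => if_neg (Finset.mem_filter.1 hj).2), Finset.sum_const, nsmul_eq_mul]
    have : (((Finset.range n).filter (fun j => ¬ c ^ 2 / 12 ≤ Gd j p)).card : ℝ) ≤ n := by
      exact_mod_cast (Finset.card_filter_le _ _).trans (by rw [Finset.card_range])
    nlinarith
  rw [h2] at h1
  nlinarith

/-- Gibbs inequality for a block of digits -/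
theorem gibbs {a b : ℕ} (hab : a ≤ b) {p g : ZMod (3 ^ n) → ℝ} (hp : IsPmf p) {Z : ℝ}
    (hg : ∀ x y, g (x + 3 ^ b * y) = g x)
    (hZ : ∀ x, avg a (fun y => Real.exp (g y)) x ≤ Real.exp Z) :
    ∑ x, p x * g x - (D a p - D b p) ≤ Z := by
  rw [D_sub hab, ← sum_avg_mul_inv hg, ← Finset.sum_sub_distrib]
  have hQ : ∀ x, 0 ≤ avg a p x := avg_nonneg hp.1
  have hP : ∀ x, 0 ≤ avg b p x := avg_nonneg hp.1
  have hpt : ∀ x, avg b p x * g x - avg b p x * (Real.log (avg b p x) - Real.log (avg a p x)) ≤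
      avg b p x * Z + (avg a p x * Real.exp (g x) * Real.exp (-Z) - avg b p x) := by
    intro x
    rcases (hP x).eq_or_lt with h | h
    · rw [← h]
      have := hQ x
      simp only [zero_mul, sub_zero, zero_add]
      positivity
    have hQ' : 0 < avg a p x := lt_of_le_of_ne (hQ x) (fun h0 => h.ne' (avg_eq_zero hab hp.1 h0.symm))
    have h1 := Real.log_le_sub_one_of_pos (show 0 < avg a p x * Real.exp (g x) * Real.exp (-Z) / avg b p x by positivity)
    rw [Real.log_div (by positivity) h.ne', Real.log_mul (by positivity) (by positivity),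
      Real.log_mul hQ'.ne' (by positivity), Real.log_exp, Real.log_exp] at h1
    have h2 := mul_le_mul_of_nonneg_left h1 h.le
    have h3 : avg b p x * (avg a p x * Real.exp (g x) * Real.exp (-Z) / avg b p x - 1) =
        avg a p x * Real.exp (g x) * Real.exp (-Z) - avg b p x := by
      field_simp
    rw [h3] at h2
    linarith
  refine (Finset.sum_le_sum (fun x _ => hpt x)).trans ?_
  rw [Finset.sum_add_distrib, Finset.sum_sub_distrib, ← Finset.sum_mul, ← Finset.sum_mul, (isPmf_avg (a := b) hp).2]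
  have h4 : ∑ x, avg a p x * Real.exp (g x) ≤ Real.exp Z := by
    have e : ∑ x, avg a p x * Real.exp (g x) = ∑ x, avg a p x * avg a (fun y => Real.exp (g y)) x := by
      have h5 : ∑ x, avg a (fun y => Real.exp (g y)) x * avg a p x = ∑ x, Real.exp (g x) * avg a p x :=
        sum_avg_mul_inv (fun x y => avg_add a p x y)
      rw [Finset.sum_congr rfl (fun x _ => mul_comm (avg a p x) (Real.exp (g x))), ← h5]
      exact Finset.sum_congr rfl (fun x _ => mul_comm _ _)
    rw [e]
    calc ∑ x, avg a p x * avg a (fun y => Real.exp (g y)) x ≤ ∑ x, avg a p x * Real.exp Z :=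
          Finset.sum_le_sum (fun x _ => mul_le_mul_of_nonneg_left (hZ x) (hQ x))
      _ = Real.exp Z := by rw [← Finset.sum_mul, (isPmf_avg (a := a) hp).2, one_mul]
  have h6 : (∑ x, avg a p x * Real.exp (g x)) * Real.exp (-Z) ≤ 1 := by
    calc _ ≤ Real.exp Z * Real.exp (-Z) := mul_le_mul_of_nonneg_right h4 (Real.exp_pos _).le
      _ = 1 := by rw [← Real.exp_add]; simp
  linarith

end KLOne
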