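import Pool.Agent.Lib.MP_e43fce_nt_one.Defs
import Pool.Agent.Lib.MP_e43fce_nt_one.L02
import Pool.Agent.Lib.MP_e43fce_nt_one.E02
import Pool.Agent.Lib.MP_e43fce_nt_one.E17

/-!
Module L14.
G = ZMod(3^(Ld)), c2 = unit 2^(b0+bs). mu = mass. q y = (1/mu) sum_{w in words m, bw = bs} PW x w
* [c2^{-1} t_w = y]. A' = image of A under c2^{-1}. q y <= (1-c)^m/mu0: at most one w (with PW<>0)
for each y by hdist. sum_{y in A'} conv (uS S0) q y = P(z + Y in A') = (1/mu) sum_w PW #{z in S0 :
t_w + c2 z in A}/|S0| >= 1 - phi.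
-/

set_option autoImplicit false

open Finset

namespace Pool.Agent.Lib.MP_e43fce_nt_one

namespace Sys
variable {ι : Type} [Fintype ι] [DecidableEq ι] (S : Sys ι)

open Classical in
theorem exists_Y {d m : ℕ} (x : ℤ) (b0 bs : ℕ) (S0 A : Finset (ZMod (3 ^ (S.L * d))))
    (hS0 : S0.Nonempty) {μ0 φ : ℝ} (hμ0 : 0 < μ0)
    (hμ : μ0 ≤ ∑ w ∈ (words ι m).filter (fun w => S.bw w = bs), S.PW x w)
    (hdist : ∀ u w : List ι, u.length = m → w.length = m → S.bw u = S.bw w → S.PW x u ≠ 0 →
      S.PW x w ≠ 0 → ((S.tW x u : ℤ) : ZMod (3 ^ (S.L * d))) =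
        ((S.tW x w : ℤ) : ZMod (3 ^ (S.L * d))) → u = w)
    (hfail : ∑ w ∈ (words ι m).filter (fun w => S.bw w = bs), S.PW x w *
      (((S0.filter (fun z : ZMod (3 ^ (S.L * d)) =>
        ((S.tW x w : ℤ) : ZMod (3 ^ (S.L * d))) + 2 ^ (b0 + bs) * z ∉ A)).card : ℝ) / S0.card) ≤
        φ * ∑ w ∈ (words ι m).filter (fun w => S.bw w = bs), S.PW x w) :
    ∃ (q : ZMod (3 ^ (S.L * d)) → ℝ) (A' : Finset (ZMod (3 ^ (S.L * d)))), IsPmf q ∧
      (∀ y, q y ≤ (1 - S.c) ^ m / μ0) ∧ A'.card = A.card ∧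
      1 - φ ≤ ∑ y ∈ A', conv (uS S0) q y := by
  set W := (words ι m).filter (fun w => S.bw w = bs) with hW
  set μ := ∑ w ∈ W, S.PW x w with hμdef
  have hμpos : 0 < μ := lt_of_lt_of_le hμ0 hμ
  obtain ⟨u, hu⟩ : ∃ u : (ZMod (3 ^ (S.L * d)))ˣ, (u : ZMod (3 ^ (S.L * d))) = 2 ^ (b0 + bs) := by
    have h2 : IsUnit ((2 : ℕ) : ZMod (3 ^ (S.L * d))) := by
      rw [ZMod.isUnit_iff_coprime]
      exact Nat.Coprime.pow_right _ (by norm_num)
    have h3 : IsUnit ((2 : ZMod (3 ^ (S.L * d))) ^ (b0 + bs)) := by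
      have := h2.pow (b0 + bs)
      simpa using this
    exact h3
  obtain ⟨ci, hci, hci'⟩ : ∃ ci : ZMod (3 ^ (S.L * d)),
      (∀ a : ZMod (3 ^ (S.L * d)), 2 ^ (b0 + bs) * (ci * a) = a) ∧
      (∀ a : ZMod (3 ^ (S.L * d)), ci * (2 ^ (b0 + bs) * a) = a) := by
    refine ⟨((u⁻¹ : (ZMod (3 ^ (S.L * d)))ˣ) : ZMod (3 ^ (S.L * d))), ?_, ?_⟩
    · intro a; rw [← hu, ← mul_assoc, Units.mul_inv, one_mul]
    · intro a; rw [← hu, ← mul_assoc, Units.inv_mul, one_mul]
  have hinj : Function.Injective (fun a : ZMod (3 ^ (S.L * d)) => ci * a) := by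
    intro a b hab
    have : ci * a = ci * b := hab
    rw [← hci a, ← hci b, this]
  obtain ⟨t, ht⟩ : ∃ t : List ι → ZMod (3 ^ (S.L * d)),
      ∀ w, t w = ((S.tW x w : ℤ) : ZMod (3 ^ (S.L * d))) := ⟨_, fun _ => rfl⟩
  simp only [← ht] at hdist hfail
  obtain ⟨q, hqdef⟩ : ∃ q : ZMod (3 ^ (S.L * d)) → ℝ,
      ∀ y, q y = (∑ w ∈ W, if ci * t w = y then S.PW x w else 0) / μ := ⟨_, fun _ => rfl⟩
  have hq : ∀ f : ZMod (3 ^ (S.L * d)) → ℝ,
      ∑ y, q y * f y = (∑ w ∈ W, S.PW x w * f (ci * t w)) / μ := by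
    intro f
    simp only [hqdef, div_mul_eq_mul_div, ← Finset.sum_div, Finset.sum_mul]
    congr 1
    rw [Finset.sum_comm]
    apply Finset.sum_congr rfl
    intro w _
    simp [ite_mul]
  have hmemW : ∀ w ∈ W, w.length = m ∧ S.bw w = bs := by
    intro w hw
    rw [hW, Finset.mem_filter, mem_words] at hw
    exact hw
  refine ⟨q, A.image (fun a => ci * a), ⟨?_, ?_⟩, ?_, ?_, ?_⟩
  · intro y
    rw [hqdef]
    apply div_nonneg _ hμpos.le
    apply Finset.sum_nonneg
    intro w _
    split_ifs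
    · exact S.PW_nonneg x w
    · exact le_refl _
  · have := hq (fun _ => 1)
    simp only [mul_one] at this
    rw [this, ← hμdef, div_self hμpos.ne']
  · intro y
    rw [hqdef]
    have hc1 : 0 ≤ 1 - S.c := by linarith [S.hc1]
    have hs : (∑ w ∈ W, if ci * t w = y then S.PW x w else 0) ≤ (1 - S.c) ^ m := by
      by_cases hex : ∃ w0 ∈ W, (if ci * t w0 = y then S.PW x w0 else 0) ≠ 0
      · obtain ⟨w0, hw0, hne⟩ := hex
        rw [Finset.sum_eq_single_of_mem w0 hw0]
        · split_ifs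
          · have := S.PW_le x w0
            rwa [(hmemW w0 hw0).1] at this
          · positivity
        · intro w hw hww
          by_contra hne'
          apply hww
          have h1 : ci * t w = y := by
            by_contra h; exact hne' (if_neg h)
          have h2 : ci * t w0 = y := by
            by_contra h; exact hne (if_neg h)
          rw [if_pos h1] at hne'
          rw [if_pos h2] at hne
          have h3 : t w = t w0 := hinj (h1.trans h2.symm)
          exact hdist w w0 (hmemW w hw).1 (hmemW w0 hw0).1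
            ((hmemW w hw).2.trans (hmemW w0 hw0).2.symm) hne' hne h3
      · push Not at hex
        rw [Finset.sum_eq_zero hex]
        positivity
    calc _ ≤ (1 - S.c) ^ m / μ := div_le_div_of_nonneg_right hs hμpos.le
      _ ≤ (1 - S.c) ^ m / μ0 := div_le_div_of_nonneg_left (by positivity) hμ0 hμ
  · exact Finset.card_image_of_injective _ hinj
  · have e1 : ∑ y ∈ A.image (fun a => ci * a), conv (uS S0) q y =
        ∑ y, conv (uS S0) q y * (if y ∈ A.image (fun a => ci * a) then 1 else 0) := by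
      simp only [mul_ite, mul_one, mul_zero]
      rw [Finset.sum_ite_mem, Finset.univ_inter]
    rw [e1, sum_conv_mul]
    have e2 : ∀ y : ZMod (3 ^ (S.L * d)), ∑ z, uS S0 y * q z *
        (if y + z ∈ A.image (fun a => ci * a) then (1 : ℝ) else 0) =
        (∑ w ∈ W, S.PW x w * (uS S0 y *
          (if y + ci * t w ∈ A.image (fun a => ci * a) then (1 : ℝ) else 0))) / μ := by
      intro y
      have := hq (fun z => uS S0 y *
        (if y + z ∈ A.image (fun a => ci * a) then (1 : ℝ) else 0))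
      rw [← this]
      apply Finset.sum_congr rfl
      intro z _
      ring
    simp only [e2]
    rw [← Finset.sum_div, Finset.sum_comm]
    have e3 : ∀ w : List ι, ∑ y, S.PW x w * (uS S0 y *
          (if y + ci * t w ∈ A.image (fun a => ci * a) then (1 : ℝ) else 0)) =
        S.PW x w - S.PW x w * (((S0.filter (fun z : ZMod (3 ^ (S.L * d)) =>
          t w + 2 ^ (b0 + bs) * z ∉ A)).card : ℝ) / S0.card) := by
      intro w
      rw [← Finset.mul_sum, sum_uS]
      have hcard : (S0.card : ℝ) ≠ 0 := by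
        exact_mod_cast hS0.card_pos.ne'
      have e4 : ∀ y : ZMod (3 ^ (S.L * d)), (y + ci * t w ∈ A.image (fun a => ci * a)) ↔
          (t w + 2 ^ (b0 + bs) * y ∈ A) := by
        intro y
        rw [Finset.mem_image]
        constructor
        · rintro ⟨a, ha, hay⟩
          have : a = t w + 2 ^ (b0 + bs) * y := by
            rw [← hci a]
            have h5 : ci * a = y + ci * t w := hay
            rw [h5, mul_add, hci, add_comm]
          rw [← this]; exact ha
        · intro ha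
          refine ⟨_, ha, ?_⟩
          show ci * (t w + 2 ^ (b0 + bs) * y) = _
          rw [mul_add, hci', add_comm]
      simp only [e4]
      have e5 : (∑ y ∈ S0, if t w + 2 ^ (b0 + bs) * y ∈ A then (1 : ℝ) else 0) =
          S0.card - ((S0.filter (fun z : ZMod (3 ^ (S.L * d)) =>
            t w + 2 ^ (b0 + bs) * z ∉ A)).card : ℝ) := by
        rw [eq_sub_iff_add_eq, Finset.sum_boole]
        exact_mod_cast Finset.card_filter_add_card_filter_not (s := S0)
          (fun y => t w + 2 ^ (b0 + bs) * y ∈ A)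
      rw [e5]
      field_simp
    simp only [e3]
    rw [Finset.sum_sub_distrib, ← hμdef, le_div_iff₀ hμpos]
    nlinarith [hfail]

end Sys

end Pool.Agent.Lib.MP_e43fce_nt_one
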