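import Pool.Agent.Lib.MP_e43fce_nt.RunsSteer

/-!
From a positive density of integers whose first hitting time of `a` is about `cs · log (n / a)` to
positive density for long runs of consecutive integers in residue classes, uniformly in `a`.
-/

set_option autoImplicit false

open Finset Filter

namespace Pool.Agent.Lib.MP_e43fce_nt.KL

open Classical in
/-- the integers `m ≤ a x`, `m ≥ a x / K0`, not divisible by 3, whose first hitting time `k` of `a`
satisfies `|k - cs log x| ≤ ε log x` -/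
noncomputable def DG (cs ε : ℝ) (K0 a x : ℕ) : Finset ℕ :=
  (Icc 1 (a * x)).filter (fun m : ℕ => a * x ≤ K0 * m ∧ ¬ 3 ∣ m ∧ ∃ k : ℕ, col^[k] m = a ∧
    (∀ i < k, col^[i] m ≠ a) ∧ |(k : ℝ) - cs * Real.log x| ≤ ε * Real.log x)

open Classical in
/-- starts of runs -/
noncomputable def DR (cs ε : ℝ) (K1 Lr a M r x : ℕ) : Finset ℕ :=
  (Icc 1 (a * x)).filter (fun n : ℕ => a * x ≤ K1 * n ∧ n % M = r % M ∧ ∃ k : ℕ, k ≤ n ∧
    |(k : ℝ) - cs * Real.log ((n : ℝ) / a)| ≤ ε * Real.log ((n : ℝ) / a) ∧ ∀ j ≤ Lr,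
      col^[k] (n + j) = a ∧ ∀ i < k, col^[i] (n + j) ≠ a)

theorem runs_dens_of {cs ε c : ℝ} (hcs : 0 < cs) (hε : 0 < ε) (hc : 0 < c) {K0 x0 : ℕ}
    (hcount : ∀ a : ℕ, ¬ 3 ∣ a → ∀ x : ℕ, x0 ≤ x →
      c * (x : ℝ) ≤ ((DG cs (ε / 2) K0 a x).card : ℝ))
    (Lr M r : ℕ) (hMpos : 0 < M) : ∃ c' : ℝ, 0 < c' ∧ ∃ K1 x1 : ℕ, ∀ a : ℕ, ¬ 3 ∣ a →
      ∀ x : ℕ, x1 ≤ x → c' * (x : ℝ) ≤ ((DR cs ε K1 Lr a M r x).card : ℝ) := by
  classical
  obtain ⟨K, L, m1, hK, hsteer0⟩ := steer_runs M r Lr hMpos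
  have hKr : (0 : ℝ) < K := by exact_mod_cast hK
  set K1 : ℕ := 2 * K * (K0 + 1) * 4 ^ L with hK1
  have hK1pos : 0 < K1 := by positivity
  have hK1r : (0 : ℝ) < K1 := by exact_mod_cast hK1pos
  have hK1one : (1 : ℝ) ≤ K1 := by exact_mod_cast hK1pos
  have hlogK1 : 0 ≤ Real.log K1 := Real.log_nonneg hK1one
  refine ⟨c / (2 * K * (L + 1)), by positivity, K1, ?_⟩
  -- thresholds
  set E0 : ℝ := (2 / ε) * (cs * Real.log K1 + L + ε * Real.log K1) with hE0
  have ev2 : ∀ᶠ y : ℝ in atTop, (cs + ε) * Real.log y ≤ y := by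
    have h := Real.isLittleO_log_id_atTop.def (c := 1 / (cs + ε)) (by positivity)
    filter_upwards [h, eventually_ge_atTop 1] with y hy hy1
    simp only [id_eq, Real.norm_eq_abs] at hy
    rw [abs_of_nonneg (Real.log_nonneg hy1), abs_of_nonneg (by linarith)] at hy
    calc (cs + ε) * Real.log y ≤ (cs + ε) * (1 / (cs + ε) * y) :=
          mul_le_mul_of_nonneg_left hy (by positivity)
      _ = y := by field_simp
  obtain ⟨Y2, hY2⟩ := eventually_atTop.1 ev2
  set R0 : ℕ := (K0 + 1) * (4 ^ L + 1 + m1) + x0 + 1 with hR0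
  obtain ⟨X, hX⟩ := exists_nat_ge (max (max (Real.exp E0) (K1 * max Y2 1)) ((K : ℝ) * (R0 + 1)))
  refine ⟨X, fun a ha x hx => ?_⟩
  have hapos : 0 < a := Nat.pos_of_ne_zero (by rintro rfl; exact ha (dvd_zero 3))
  have har : (0 : ℝ) < a := by exact_mod_cast hapos
  have haone : (1 : ℝ) ≤ a := by exact_mod_cast hapos
  have hsteer : ∀ m : ℕ, m1 ≤ m → 4 ^ L * a + 1 ≤ m → ¬ 3 ∣ m → ∃ n : ℕ, 0 < n ∧ n ≤ K * m ∧
      n % M = r % M ∧ ∃ k ≤ L, ∀ j ≤ Lr, col^[k] (n + j) = m ∧ ∀ i < k, col^[i] (n + j) ≠ a := by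
    intro m hm hm' hm3
    obtain ⟨n, c1, c2, c3, k, hk, c4⟩ := hsteer0 m hm hm3
    refine ⟨n, c1, c2, c3, k, hk, fun j hj => ⟨c4 j hj, fun i' hi' hcon => ?_⟩⟩
    have h5 : col^[k - i'] a = m := by
      rw [← hcon, ← Function.iterate_add_apply, Nat.sub_add_cancel hi'.le, c4 j hj]
    have h6 := col_iter_le (k - i') hapos
    rw [h5] at h6
    have h7 : 4 ^ (k - i') * a ≤ 4 ^ L * a :=
      Nat.mul_le_mul_right _ (Nat.pow_le_pow_right (by norm_num) (by omega))
    omega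
  have hxX : (X : ℝ) ≤ x := by exact_mod_cast hx
  have hX1 : max (Real.exp E0) (K1 * max Y2 1) ≤ (x : ℝ) := (le_max_left _ _).trans (hX.trans hxX)
  have hX2 : (K : ℝ) * (R0 + 1) ≤ (x : ℝ) := (le_max_right _ _).trans (hX.trans hxX)
  have hxE : Real.exp E0 ≤ x := le_trans (le_max_left _ _) hX1
  have hxY : K1 * max Y2 1 ≤ (x : ℝ) := le_trans (le_max_right _ _) hX1
  have hx0 : (0 : ℝ) < x := lt_of_lt_of_le (Real.exp_pos _) hxE
  have hxpos : 0 < x := by exact_mod_cast hx0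
  have hlogx : E0 ≤ Real.log x := by rwa [Real.le_log_iff_exp_le hx0]
  -- `y = x / K`
  set y : ℕ := x / K with hy
  have hyK : K * y ≤ x := Nat.mul_div_le x K
  have hyR : R0 ≤ y := by
    have h3 : K * (R0 + 1) ≤ x := by exact_mod_cast hX2
    have h4 : R0 + 1 ≤ y := by
      rw [hy, Nat.le_div_iff_mul_le hK, mul_comm]
      exact h3
    omega
  have hy1 : 1 ≤ y := by omega
  have hy1r : (1 : ℝ) ≤ y := by exact_mod_cast hy1
  have hy0r : (0 : ℝ) < y := by linarith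
  have hx2y : x ≤ 2 * K * y := by
    have h2 : x < K * (y + 1) := Nat.lt_mul_div_succ x hK
    have h3 : K * (y + 1) ≤ K * (2 * y) := Nat.mul_le_mul_left _ (by omega)
    have h4 : K * (2 * y) = 2 * K * y := by ring
    omega
  have hx2yr : (x : ℝ) ≤ 2 * K * y := by exact_mod_cast hx2y
  have hyx : (y : ℝ) ≤ x := by exact_mod_cast Nat.div_le_self x K
  have hG : c * (y : ℝ) ≤ (DG cs (ε / 2) K0 a y).card := hcount a ha y (by omega)
  set S : Finset ℕ := DG cs (ε / 2) K0 a y with hS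
  have hSm : ∀ m ∈ S, m1 ≤ m ∧ 4 ^ L * a + 1 ≤ m := by
    intro m hm
    simp only [hS, DG, mem_filter, mem_Icc] at hm
    obtain ⟨⟨hm1, hmy⟩, hK0, -⟩ := hm
    have h1 : (K0 + 1) * (a * (4 ^ L + 1 + m1)) ≤ (K0 + 1) * m := by
      calc (K0 + 1) * (a * (4 ^ L + 1 + m1)) = a * ((K0 + 1) * (4 ^ L + 1 + m1)) := by ring
        _ ≤ a * y := Nat.mul_le_mul_left _ (by omega)
        _ ≤ K0 * m := hK0
        _ ≤ (K0 + 1) * m := Nat.mul_le_mul_right _ (by omega)
    have h2 : a * (4 ^ L + 1 + m1) ≤ m := Nat.le_of_mul_le_mul_left h1 (by omega)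
    have h3 : a * (4 ^ L + 1 + m1) = 4 ^ L * a + a + a * m1 := by ring
    have h4 : m1 ≤ a * m1 := Nat.le_mul_of_pos_left _ hapos
    constructor
    · have : 0 ≤ 4 ^ L * a := Nat.zero_le _
      omega
    · omega
  -- the steering map
  have hex : ∀ m ∈ S, ∃ n : ℕ, 0 < n ∧ n ≤ K * m ∧ n % M = r % M ∧
      ∃ k ≤ L, ∀ j ≤ Lr, col^[k] (n + j) = m ∧ ∀ i < k, col^[i] (n + j) ≠ a := by
    intro m hm
    obtain ⟨hm1', hm2'⟩ := hSm m hm
    simp only [hS, DG, mem_filter, mem_Icc] at hm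
    exact hsteer m hm1' hm2' hm.2.2.1
  choose! s hs using hex
  set T : Finset ℕ := DR cs ε K1 Lr a M r x with hT
  have hmaps : ∀ m ∈ S, s m ∈ T := by
    intro m hm
    obtain ⟨hn0, hnK, hnM, k, hkL, hk⟩ := hs m hm
    simp only [hS, DG, mem_filter, mem_Icc] at hm
    obtain ⟨⟨hm1, hmy⟩, hK0, hm3, t, ht1, ht2, ht3⟩ := hm
    rw [hT]
    unfold DR
    rw [mem_filter, mem_Icc]
    have hnx : s m ≤ a * x := by
      calc s m ≤ K * m := hnK
        _ ≤ K * (a * y) := Nat.mul_le_mul_left _ hmy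
        _ = a * (K * y) := by ring
        _ ≤ a * x := Nat.mul_le_mul_left _ hyK
    have hn0r : (0 : ℝ) < s m := by exact_mod_cast hn0
    -- comparison of `m` and `n`
    have hmn : m ≤ 4 ^ L * s m := by
      have h1 := col_iter_le k hn0
      have h2 := (hk 0 (Nat.zero_le _)).1
      rw [add_zero] at h2
      rw [h2] at h1
      exact h1.trans (Nat.mul_le_mul_right _ (Nat.pow_le_pow_right (by norm_num) hkL))
    have hK1n : a * x ≤ K1 * s m := by
      calc a * x ≤ a * (2 * K * y) := Nat.mul_le_mul_left _ hx2y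
        _ = 2 * K * (a * y) := by ring
        _ ≤ 2 * K * (K0 * m) := Nat.mul_le_mul_left _ hK0
        _ ≤ 2 * K * ((K0 + 1) * (4 ^ L * s m)) :=
            Nat.mul_le_mul_left _ (Nat.mul_le_mul (by omega) hmn)
        _ = K1 * s m := by rw [hK1]; ring
    -- the ratio `n / a`
    set ρ : ℝ := (s m : ℝ) / a with hρ
    have hρpos : 0 < ρ := by positivity
    have hρx : ρ ≤ x := by
      rw [hρ, div_le_iff₀ har]
      have : (s m : ℝ) ≤ a * x := by exact_mod_cast hnx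
      linarith
    have hxρ : (x : ℝ) ≤ K1 * ρ := by
      rw [hρ, mul_div_assoc', le_div_iff₀ har]
      have : ((a * x : ℕ) : ℝ) ≤ ((K1 * s m : ℕ) : ℝ) := by exact_mod_cast hK1n
      push_cast at this
      linarith
    have hlog1 : Real.log ρ ≤ Real.log x := Real.log_le_log hρpos hρx
    have hlog2 : Real.log x ≤ Real.log K1 + Real.log ρ := by
      have := Real.log_le_log hx0 hxρ
      rwa [Real.log_mul hK1r.ne' hρpos.ne'] at this
    have hlog3 : Real.log y ≤ Real.log x := Real.log_le_log hy0r hyx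
    have hlog4 : Real.log x ≤ Real.log K1 + Real.log y := by
      have h5 : (x : ℝ) ≤ K1 * y := by
        have h6 : 2 * K * y ≤ K1 * y := by
          apply Nat.mul_le_mul_right
          rw [hK1, mul_assoc (2 * K)]
          exact Nat.le_mul_of_pos_right _ (by positivity)
        have h7 : x ≤ K1 * y := hx2y.trans h6
        exact_mod_cast h7
      have := Real.log_le_log hx0 h5
      rwa [Real.log_mul hK1r.ne' hy0r.ne'] at this
    have hE0' : cs * Real.log K1 + L + ε * Real.log K1 ≤ ε / 2 * Real.log x := by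
      have h1 : ε / 2 * E0 = cs * Real.log K1 + L + ε * Real.log K1 := by
        rw [hE0]
        field_simp
      rw [← h1]
      exact mul_le_mul_of_nonneg_left hlogx (by positivity)
    have hkLr : (k : ℝ) ≤ L := by exact_mod_cast hkL
    have hk0r : (0 : ℝ) ≤ k := Nat.cast_nonneg _
    obtain ⟨ht3a, ht3b⟩ := abs_le.1 ht3
    have hcs1 : cs * Real.log y ≤ cs * (Real.log K1 + Real.log ρ) :=
      mul_le_mul_of_nonneg_left (hlog3.trans hlog2) hcs.le
    have hcs2 : cs * Real.log ρ ≤ cs * (Real.log K1 + Real.log y) :=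
      mul_le_mul_of_nonneg_left (hlog1.trans hlog4) hcs.le
    have hε1 : ε / 2 * Real.log y ≤ ε / 2 * Real.log x :=
      mul_le_mul_of_nonneg_left hlog3 (by positivity)
    have hε2 : ε * Real.log x ≤ ε * (Real.log K1 + Real.log ρ) :=
      mul_le_mul_of_nonneg_left hlog2 hε.le
    have hup : ((t + k : ℕ) : ℝ) - cs * Real.log ρ ≤ ε * Real.log ρ := by
      push_cast
      linarith
    have hlow : -(ε * Real.log ρ) ≤ ((t + k : ℕ) : ℝ) - cs * Real.log ρ := by
      push_cast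
      linarith
    refine ⟨⟨hn0, hnx⟩, hK1n, hnM, t + k, ?_, abs_le.2 ⟨hlow, hup⟩, ?_⟩
    · have h8 : max Y2 1 ≤ ρ := by
        have h9 : (K1 : ℝ) * max Y2 1 ≤ K1 * ρ := hxY.trans hxρ
        exact le_of_mul_le_mul_left h9 hK1r
      have h9 := hY2 ρ ((le_max_left _ _).trans h8)
      have h10 : ρ ≤ s m := by
        rw [hρ, div_le_iff₀ har]
        nlinarith
      have : ((t + k : ℕ) : ℝ) ≤ s m := by linarith
      exact_mod_cast this
    · intro j hj
      refine ⟨by rw [Function.iterate_add_apply, (hk j hj).1, ht1], fun i' hi' => ?_⟩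
      by_cases hik : i' < k
      · exact (hk j hj).2 i' hik
      · have e1 : i' = (i' - k) + k := by omega
        rw [e1, Function.iterate_add_apply, (hk j hj).1]
        exact ht2 _ (by omega)
  have hfib := card_le_fibre (L := L) s hmaps (fun m hm => by
    obtain ⟨k, hk, h⟩ := (hs m hm).2.2.2
    exact ⟨k, hk, (h 0 (Nat.zero_le _)).1⟩)
  have hfib2 : (S.card : ℝ) ≤ ((L : ℝ) + 1) * T.card := by exact_mod_cast hfib
  rw [div_mul_eq_mul_div, div_le_iff₀ (by positivity)]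
  calc c * (x : ℝ) ≤ c * (2 * K * y) := mul_le_mul_of_nonneg_left hx2yr hc.le
    _ = 2 * K * (c * y) := by ring
    _ ≤ 2 * K * (((L : ℝ) + 1) * T.card) :=
        mul_le_mul_of_nonneg_left (hG.trans hfib2) (by positivity)
    _ = T.card * (2 * K * (L + 1)) := by ring

end Pool.Agent.Lib.MP_e43fce_nt.KL
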