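import Pool.Agent.Lib.MP_e43fce_nt.RunsSteer

/-!
From the sharp ancestor count (integers whose first hitting time of `a` is about `cs · log`) to
long runs of consecutive integers in residue classes with the same property.
-/

set_option autoImplicit false

open Finset Filter

namespace Pool.Agent.Lib.MP_e43fce_nt.KL

open Classical in
/-- the integers `m ≤ y`, `m ≥ √y`, `m ≡ 2 (mod 3)`, whose first hitting time `k` of `a` satisfies
`(cs - ε) log m ≤ k ≤ (cs + ε) log m` -/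
noncomputable def SG (cs ε : ℝ) (a y : ℕ) : Finset ℕ :=
  (Icc 1 y).filter (fun m : ℕ => Real.sqrt y ≤ (m : ℝ) ∧ m % 3 = 2 ∧ ∃ k : ℕ, col^[k] m = a ∧
    (∀ i < k, col^[i] m ≠ a) ∧ (cs - ε) * Real.log m ≤ k ∧ (k : ℝ) ≤ (cs + ε) * Real.log m)

open Classical in
/-- starts of runs -/
noncomputable def SR (cs ε : ℝ) (Lr a M r x : ℕ) : Finset ℕ :=
  (Icc 1 x).filter (fun n : ℕ => n % M = r % M ∧ ∃ k : ℕ, k ≤ n ∧
    |(k : ℝ) - cs * Real.log n| ≤ ε * Real.log n ∧ ∀ j ≤ Lr,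
      col^[k] (n + j) = a ∧ ∀ i < k, col^[i] (n + j) ≠ a)

theorem runs_sharp_of {cs ε γ γ' c : ℝ} (hcs : 0 < cs) (hε : 0 < ε) (hγ' : 0 ≤ γ') (hγ : γ' < γ)
    (hc : 0 < c) {a : ℕ} (ha : ¬ 3 ∣ a)
    (hcount0 : ∃ X : ℕ, ∀ x : ℕ, X ≤ x → c * (x : ℝ) ^ γ ≤ ((SG cs (ε / 2) a x).card : ℝ))
    (Lr M r : ℕ) (hMpos : 0 < M) : ∃ X : ℕ, ∀ x : ℕ, X ≤ x →
      (x : ℝ) ^ γ' ≤ ((SR cs ε Lr a M r x).card : ℝ) := by
  classical
  obtain ⟨Xb, hcount⟩ := hcount0
  obtain ⟨K, L, m1, hK, hsteer0⟩ := steer_runs M r Lr hMpos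
  have hapos : 0 < a := Nat.pos_of_ne_zero (by rintro rfl; exact ha (dvd_zero 3))
  -- enlarge the threshold, so that `a` is not met before the merging point
  set m0 : ℕ := max m1 (4 ^ L * a + 1) with hm0
  have hsteer : ∀ m : ℕ, m0 ≤ m → ¬ 3 ∣ m → ∃ n : ℕ, 0 < n ∧ n ≤ K * m ∧
      n % M = r % M ∧ ∃ k ≤ L, ∀ j ≤ Lr, col^[k] (n + j) = m ∧ ∀ i < k, col^[i] (n + j) ≠ a := by
    intro m hm hm3
    obtain ⟨n, c1, c2, c3, k, hk, c4⟩ := hsteer0 m (le_trans (le_max_left _ _) hm) hm3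
    refine ⟨n, c1, c2, c3, k, hk, fun j hj => ⟨c4 j hj, fun i' hi' hcon => ?_⟩⟩
    have h5 : col^[k - i'] a = m := by
      rw [← hcon, ← Function.iterate_add_apply, Nat.sub_add_cancel hi'.le, c4 j hj]
    have h6 := col_iter_le (k - i') hapos
    rw [h5] at h6
    have h7 : 4 ^ (k - i') * a ≤ 4 ^ L * a :=
      Nat.mul_le_mul_right _ (Nat.pow_le_pow_right (by norm_num) (by omega))
    have h8 : 4 ^ L * a + 1 ≤ m := le_trans (le_max_right _ _) hm
    omega
  have hKr : (0 : ℝ) < K := by exact_mod_cast hK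
  -- constants
  set c' : ℝ := c * (1 / (2 * (K : ℝ))) ^ γ with hc'
  have hc'pos : 0 < c' := by
    have : (0 : ℝ) < (1 / (2 * (K : ℝ))) ^ γ := Real.rpow_pos_of_pos (by positivity) γ
    positivity
  set D0 : ℝ := L * Real.log 4 + Real.log K with hD0
  have hlog4 : 0 < Real.log 4 := Real.log_pos (by norm_num)
  have hlogK : 0 ≤ Real.log K := Real.log_nonneg (by exact_mod_cast hK)
  have hL4 : 0 ≤ (L : ℝ) * Real.log 4 := by positivity
  have hD0nn : 0 ≤ D0 := by positivity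
  -- threshold for `log n`
  set E0 : ℝ := (2 / ε) * (ε / 2 * D0 + L + cs * D0) with hE0
  have ev1 : ∀ᶠ y : ℝ in atTop, ((L : ℝ) + 1) * y ^ γ' ≤ c' * y ^ γ := by
    have ht : Tendsto (fun y : ℝ => y ^ (γ - γ')) atTop atTop :=
      tendsto_rpow_atTop (by linarith)
    filter_upwards [ht.eventually_ge_atTop (((L : ℝ) + 1) / c'), eventually_gt_atTop 0] with y hy hy0
    have e : y ^ γ = y ^ (γ - γ') * y ^ γ' := by
      rw [← Real.rpow_add hy0]; congr 1; ring
    rw [e]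
    have hpos : 0 < y ^ γ' := Real.rpow_pos_of_pos hy0 _
    have : ((L : ℝ) + 1) ≤ c' * y ^ (γ - γ') := by
      rw [div_le_iff₀ hc'pos] at hy
      linarith
    calc ((L : ℝ) + 1) * y ^ γ' ≤ (c' * y ^ (γ - γ')) * y ^ γ' :=
          mul_le_mul_of_nonneg_right this hpos.le
      _ = _ := by ring
  have ev2 : ∀ᶠ y : ℝ in atTop, (cs + ε) * Real.log y ≤ y := by
    have h := Real.isLittleO_log_id_atTop.def (c := 1 / (cs + ε)) (by positivity)
    filter_upwards [h, eventually_ge_atTop 1] with y hy hy1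
    simp only [id_eq, Real.norm_eq_abs] at hy
    rw [abs_of_nonneg (Real.log_nonneg hy1), abs_of_nonneg (by linarith)] at hy
    calc (cs + ε) * Real.log y ≤ (cs + ε) * (1 / (cs + ε) * y) :=
          mul_le_mul_of_nonneg_left hy (by positivity)
      _ = y := by field_simp
  obtain ⟨Y1, hY1⟩ := eventually_atTop.1 ev1
  obtain ⟨Y2, hY2⟩ := eventually_atTop.1 ev2
  -- threshold for `m`
  set N0 : ℝ := max (max Y2 (Real.exp E0)) 1 * 4 ^ L + m0 with hN0
  have hN0pos : 0 ≤ N0 := by positivity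
  obtain ⟨X, hX⟩ := exists_nat_ge (max (max Y1 1) ((K : ℝ) * (N0 ^ 2 + 2 + Xb)))
  refine ⟨X, fun x hx => ?_⟩
  have hxX : (X : ℝ) ≤ x := by exact_mod_cast hx
  have hX1 : max Y1 1 ≤ (x : ℝ) := (le_max_left _ _).trans (hX.trans hxX)
  have hX2 : (K : ℝ) * (N0 ^ 2 + 2 + Xb) ≤ (x : ℝ) := (le_max_right _ _).trans (hX.trans hxX)
  have hxY1 : Y1 ≤ x := le_trans (le_max_left _ _) hX1
  have hx1 : (1 : ℝ) ≤ x := le_trans (le_max_right _ _) hX1
  have hx0 : (0 : ℝ) < x := by linarith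
  -- `y = x / K`
  set y : ℕ := x / K with hy
  have hyK : K * y ≤ x := Nat.mul_div_le x K
  have hy' : N0 ^ 2 + 1 + Xb ≤ (y : ℝ) := by
    have h2 : x < K * (y + 1) := Nat.lt_mul_div_succ x hK
    have h3 : (x : ℝ) < K * (y + 1) := by exact_mod_cast h2
    have h4 : (K : ℝ) * (N0 ^ 2 + 2 + Xb) < K * (y + 1) := lt_of_le_of_lt hX2 h3
    have h5 := lt_of_mul_lt_mul_left h4 hKr.le
    linarith
  have hyXb : Xb ≤ y := by
    have : (Xb : ℝ) ≤ y := by nlinarith [sq_nonneg N0]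
    exact_mod_cast this
  have hyN : N0 ^ 2 ≤ (y : ℝ) := by
    have : (0 : ℝ) ≤ Xb := Nat.cast_nonneg _
    linarith
  have hy1 : (1 : ℝ) ≤ y := by
    have : (0 : ℝ) ≤ Xb := Nat.cast_nonneg _
    nlinarith [sq_nonneg N0]
  have hylow : (x : ℝ) * (1 / (2 * (K : ℝ))) ≤ y := by
    have h2 : x < K * (y + 1) := Nat.lt_mul_div_succ x hK
    have h3 : (x : ℝ) < K * (y + 1) := by exact_mod_cast h2
    have h4 : (K : ℝ) * (y + 1) ≤ K * (2 * y) := mul_le_mul_of_nonneg_left (by linarith) hKr.le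
    rw [mul_one_div, div_le_iff₀ (by positivity)]
    linarith
  have hypow : c' * (x : ℝ) ^ γ ≤ c * (y : ℝ) ^ γ := by
    have h2 : ((x : ℝ) * (1 / (2 * (K : ℝ)))) ^ γ ≤ (y : ℝ) ^ γ :=
      Real.rpow_le_rpow (by positivity) hylow (by linarith)
    rw [Real.mul_rpow hx0.le (by positivity)] at h2
    calc c' * (x : ℝ) ^ γ = c * ((x : ℝ) ^ γ * (1 / (2 * (K : ℝ))) ^ γ) := by rw [hc']; ring
      _ ≤ _ := mul_le_mul_of_nonneg_left h2 hc.le
  have hG : c * (y : ℝ) ^ γ ≤ (SG cs (ε / 2) a y).card := hcount y hyXb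
  set S : Finset ℕ := SG cs (ε / 2) a y with hS
  have hSm : ∀ m ∈ S, N0 ≤ (m : ℝ) := by
    intro m hm
    simp only [hS, SG, mem_filter, mem_Icc] at hm
    have : N0 ≤ Real.sqrt y := Real.le_sqrt_of_sq_le hyN
    linarith [hm.2.1]
  have hSm0 : ∀ m ∈ S, m0 ≤ m := by
    intro m hm
    have h1 := hSm m hm
    have h2 : (m0 : ℝ) ≤ N0 := by
      rw [hN0]
      have : 0 ≤ max (max Y2 (Real.exp E0)) 1 * 4 ^ L := by positivity
      linarith
    exact_mod_cast h2.trans h1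
  -- the steering map
  have hex : ∀ m ∈ S, ∃ n : ℕ, 0 < n ∧ n ≤ K * m ∧ n % M = r % M ∧
      ∃ k ≤ L, ∀ j ≤ Lr, col^[k] (n + j) = m ∧ ∀ i < k, col^[i] (n + j) ≠ a := by
    intro m hm
    have hm0' := hSm0 m hm
    simp only [hS, SG, mem_filter, mem_Icc] at hm
    exact hsteer m hm0' (by omega)
  choose! s hs using hex
  set T : Finset ℕ := SR cs ε Lr a M r x with hT
  have hmaps : ∀ m ∈ S, s m ∈ T := by
    intro m hm
    obtain ⟨hn0, hnK, hnM, k, hkL, hk⟩ := hs m hm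
    have hmN := hSm m hm
    simp only [hS, SG, mem_filter, mem_Icc] at hm
    obtain ⟨⟨hm1, hmy⟩, hsq, hm3, t, ht1, ht2, ht3, ht4⟩ := hm
    rw [hT]
    unfold SR
    rw [mem_filter, mem_Icc]
    have hnx : s m ≤ x := by
      calc s m ≤ K * m := hnK
        _ ≤ K * y := Nat.mul_le_mul_left _ hmy
        _ ≤ x := hyK
    have hn0r : (0 : ℝ) < s m := by exact_mod_cast hn0
    have hm0r : (0 : ℝ) < m := by exact_mod_cast hm1
    -- comparison of `m` and `n`
    have hmn : (m : ℝ) ≤ 4 ^ L * (s m : ℝ) := by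
      have h1 := col_iter_le k hn0
      have h2 := (hk 0 (Nat.zero_le _)).1
      rw [add_zero] at h2
      rw [h2] at h1
      have h3 : m ≤ 4 ^ L * s m :=
        h1.trans (Nat.mul_le_mul_right _ (Nat.pow_le_pow_right (by norm_num) hkL))
      exact_mod_cast h3
    have hnm : (s m : ℝ) ≤ K * (m : ℝ) := by exact_mod_cast hnK
    have hlog1 : Real.log m ≤ L * Real.log 4 + Real.log (s m) := by
      have := Real.log_le_log hm0r hmn
      rwa [Real.log_mul (by positivity) hn0r.ne', Real.log_pow] at this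
    have hlog2 : Real.log (s m) ≤ Real.log K + Real.log m := by
      have := Real.log_le_log hn0r hnm
      rwa [Real.log_mul hKr.ne' hm0r.ne'] at this
    -- `n` is large
    have hbig : max (max Y2 (Real.exp E0)) 1 ≤ (s m : ℝ) := by
      have h4 : (0 : ℝ) < 4 ^ L := by positivity
      have h5 : max (max Y2 (Real.exp E0)) 1 * 4 ^ L ≤ 4 ^ L * (s m : ℝ) := by
        have : (0 : ℝ) ≤ m0 := Nat.cast_nonneg _
        linarith
      rw [mul_comm] at h5
      exact le_of_mul_le_mul_left h5 h4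
    have hY2n : Y2 ≤ (s m : ℝ) := (le_max_left _ _).trans ((le_max_left _ _).trans hbig)
    have hE0n : E0 ≤ Real.log (s m) := by
      rw [Real.le_log_iff_exp_le hn0r]
      exact (le_max_right _ _).trans ((le_max_left _ _).trans hbig)
    have hE0' : ε / 2 * D0 + L + cs * D0 ≤ ε / 2 * Real.log (s m) := by
      have h1 : ε / 2 * E0 = ε / 2 * D0 + L + cs * D0 := by
        rw [hE0]
        field_simp
      rw [← h1]
      exact mul_le_mul_of_nonneg_left hE0n (by positivity)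
    have hkLr : (k : ℝ) ≤ L := by exact_mod_cast hkL
    have hk0r : (0 : ℝ) ≤ k := Nat.cast_nonneg _
    have hlog1' : Real.log m ≤ D0 + Real.log (s m) := by linarith
    have hlog2' : Real.log (s m) ≤ D0 + Real.log m := by linarith
    have hup : ((t + k : ℕ) : ℝ) ≤ (cs + ε) * Real.log (s m) := by
      push_cast
      have h1 : (cs + ε / 2) * Real.log m ≤ (cs + ε / 2) * (D0 + Real.log (s m)) :=
        mul_le_mul_of_nonneg_left hlog1' (by positivity)
      nlinarith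
    have hlow : (cs - ε) * Real.log (s m) ≤ ((t + k : ℕ) : ℝ) := by
      push_cast
      have h1 : cs * Real.log (s m) ≤ cs * (D0 + Real.log m) :=
        mul_le_mul_of_nonneg_left hlog2' hcs.le
      have h2 : ε / 2 * Real.log m ≤ ε / 2 * (D0 + Real.log (s m)) :=
        mul_le_mul_of_nonneg_left hlog1' (by positivity)
      have h3 : (0 : ℝ) ≤ L := Nat.cast_nonneg _
      nlinarith
    refine ⟨⟨hn0, hnx⟩, hnM, t + k, ?_, ?_, ?_⟩
    · have h9 := hY2 (s m) hY2n
      have : ((t + k : ℕ) : ℝ) ≤ s m := hup.trans h9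
      exact_mod_cast this
    · rw [abs_le]
      constructor <;> linarith
    · intro j hj
      refine ⟨by rw [Function.iterate_add_apply, (hk j hj).1, ht1], fun i' hi' => ?_⟩
      by_cases hik : i' < k
      · exact (hk j hj).2 i' hik
      · have e1 : i' = (i' - k) + k := by omega
        rw [e1, Function.iterate_add_apply, (hk j hj).1]
        exact ht2 _ (by omega)
  have hfib := card_le_fibre (L := L) s hmaps (fun m hm => by
    obtain ⟨k, hk, h⟩ := (hs m hm).2.2.2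
    exact ⟨k, hk, (h 0 (Nat.zero_le _)).1⟩)
  have hfib2 : (S.card : ℝ) ≤ ((L : ℝ) + 1) * T.card := by exact_mod_cast hfib
  have hfin := hY1 x hxY1
  have e4 : ((L : ℝ) + 1) * (x : ℝ) ^ γ' ≤ ((L : ℝ) + 1) * T.card := by linarith
  exact le_of_mul_le_mul_left e4 (by positivity)

end Pool.Agent.Lib.MP_e43fce_nt.KL
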