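import Pool.Agent.Lib.MP_e43fce_nt_one.Defs
import Pool.Agent.Lib.MP_e43fce_nt_one.Defs2
import Pool.Agent.Lib.MP_e43fce_nt_one.T01

/-!
Module V1.
Chernoff bounds around the mean 2. For 0<kappa: choose x slightly below 1 for the lower tail:
1[sum < (2-kappa)k] <= x^(sum-(2-kappa)k), so the mass is <= (x^(-(2-kappa)) * x/(2-x))^k; f(x) =
x^(kappa-1)/(2-x) has f(1)=1, derivative at 1 equal to kappa > 0, so f(x)<1 for some x<1
(elementary: take x = 1-h, (1-h)^(kappa-1) <= ..., or use log: (kappa-1) log(1-h) - log(1+h) <=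
... with log(1-h) >= -h-h^2 for h<=1/2 and log(1+h) >= h - h^2/2). Upper tail: x slightly above 1
(x < 2): 1[sum > (2+kappa)k] <= x^(sum-(2+kappa)k), mass <= (x^(-(2+kappa)) x/(2-x))^k, f(x) =
x^(-1-kappa)/(2-x), derivative at 1 is -kappa. Copy the structure of T06a (low_mass).
-/

set_option autoImplicit false

open Finset

namespace Pool.Agent.Lib.MP_e43fce_nt_one

theorem v1_geom (A : ℕ) (r : ℝ) (hr0 : 0 ≤ r) (hr1 : r < 1) :
    ∑ j ∈ Icc 1 A, r ^ j ≤ r / (1 - r) := by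
  have h : ∑ j ∈ Icc 1 A, r ^ j = (r - r ^ (A + 1)) / (1 - r) := by
    have hne : 1 - r ≠ 0 := by linarith
    induction A with
    | zero => simp
    | succ A ih =>
      rw [Finset.sum_Icc_succ_top (by omega), ih]
      field_simp
      ring
  rw [h]
  refine div_le_div_of_nonneg_right ?_ (by linarith)
  have : 0 ≤ r ^ (A + 1) := by positivity
  linarith

theorem v1_mass (A k : ℕ) (r : ℝ) (hr0 : 0 ≤ r) (hr1 : r < 1) :
    ∑ w ∈ lw A k, r ^ w.sum ≤ (r / (1 - r)) ^ k := by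
  have h1r : 0 < 1 - r := by linarith
  induction k with
  | zero => rw [sum_lw_zero]; simp
  | succ k ih =>
    rw [sum_lw_succ]
    have h1 : ∀ j ∈ Icc 1 A, ∑ w ∈ lw A k, r ^ (j :: w).sum = r ^ j * ∑ w ∈ lw A k, r ^ w.sum := by
      intro j _
      rw [Finset.mul_sum]
      refine Finset.sum_congr rfl fun w _ => ?_
      rw [List.sum_cons, pow_add]
    rw [Finset.sum_congr rfl h1, ← Finset.sum_mul, pow_succ, mul_comm]
    have h2 : 0 ≤ ∑ j ∈ Icc 1 A, r ^ j := Finset.sum_nonneg fun j _ => by positivity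
    exact mul_le_mul ih (v1_geom A r hr0 hr1) h2 (by positivity)

theorem v1_chern (A k : ℕ) {x c : ℝ} (hx0 : 0 < x) (hx2 : x < 2) :
    ∑ w ∈ lw A k, (1 / 2 ^ w.sum : ℝ) * x ^ ((w.sum : ℝ) - c * k) ≤
      (x ^ (-c) * (x / (2 - x))) ^ k := by
  have h2 : 0 < 2 - x := by linarith
  have h1 : ∀ w ∈ lw A k, (1 / 2 ^ w.sum : ℝ) * x ^ ((w.sum : ℝ) - c * k) =
      (x ^ (-c)) ^ k * (x / 2) ^ w.sum := by
    intro w _
    rw [sub_eq_add_neg, Real.rpow_add hx0, Real.rpow_natCast, ← Real.rpow_natCast (x ^ (-c)),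
      ← Real.rpow_mul hx0.le, div_pow, neg_mul]
    ring
  rw [Finset.sum_congr rfl h1, ← Finset.mul_sum, mul_pow]
  refine mul_le_mul_of_nonneg_left ?_ (by positivity)
  have h3 := v1_mass A k (x / 2) (by positivity) (by linarith)
  have e : x / 2 / (1 - x / 2) = x / (2 - x) := by
    have : 1 - x / 2 ≠ 0 := by linarith
    field_simp
  rwa [e] at h3

/-- the tail where `p` holds, if `1 ≤ x ^ (sum - c k)` there -/
theorem v1_tail (A k : ℕ) {x c : ℝ} (hx0 : 0 < x) (hx2 : x < 2) (p : List ℕ → Prop)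
    [DecidablePred p] (hp : ∀ w, p w → 1 ≤ x ^ ((w.sum : ℝ) - c * k)) :
    ∑ w ∈ (lw A k).filter p, (1 / 2 ^ w.sum : ℝ) ≤ (x ^ (-c) * (x / (2 - x))) ^ k := by
  refine le_trans ?_ (v1_chern A k hx0 hx2)
  refine le_trans (Finset.sum_le_sum
    (g := fun w => (1 / 2 ^ w.sum : ℝ) * x ^ ((w.sum : ℝ) - c * k)) ?_) ?_
  · intro w hw
    have h := hp w (Finset.mem_filter.1 hw).2
    exact le_mul_of_one_le_right (by positivity) h
  · exact Finset.sum_le_sum_of_subset_of_nonneg (Finset.filter_subset _ _) fun w _ _ => by positivity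

theorem tails {κ : ℝ} (hκ : 0 < κ) : ∃ ρ : ℝ, 0 < ρ ∧ ρ < 1 ∧ ∀ A k : ℕ,
    ∑ w ∈ (lw A k).filter (fun w => (w.sum : ℝ) < (2 - κ) * k ∨ (2 + κ) * k < (w.sum : ℝ)),
      (1 / 2 ^ w.sum : ℝ) ≤ 2 * ρ ^ k := by
  obtain ⟨h, h0, h1, h2, h3⟩ : ∃ h : ℝ, 0 < h ∧ h < 1 ∧ h * (2 - κ) < κ ∧ h * (2 + κ) < κ := by
    refine ⟨κ / (2 * (3 + κ)), by positivity, ?_, ?_, ?_⟩
    · rw [div_lt_one (by positivity)]; linarith
    · rw [div_mul_eq_mul_div, div_lt_iff₀ (by positivity)]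
      nlinarith
    · rw [div_mul_eq_mul_div, div_lt_iff₀ (by positivity)]
      nlinarith
  have hm : 0 < 1 - h := by linarith
  have hp : 0 < 1 + h := by linarith
  have L1 : h / (1 + h) ≤ Real.log (1 + h) := by
    have := Real.one_sub_inv_le_log_of_pos hp
    have e : 1 - (1 + h)⁻¹ = h / (1 + h) := by field_simp; ring
    rwa [e] at this
  have L2 : -(h / (1 - h)) ≤ Real.log (1 - h) := by
    have := Real.one_sub_inv_le_log_of_pos hm
    have e : 1 - (1 - h)⁻¹ = -(h / (1 - h)) := by field_simp; ring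
    rwa [e] at this
  -- the two bases
  set ρ1 : ℝ := (1 - h) ^ (-(2 - κ)) * ((1 - h) / (2 - (1 - h))) with hρ1
  set ρ2 : ℝ := (1 + h) ^ (-(2 + κ)) * ((1 + h) / (2 - (1 + h))) with hρ2
  have q1 : 0 < ρ1 := by
    have : 0 < 2 - (1 - h) := by linarith
    positivity
  have q2 : 0 < ρ2 := by
    have : 0 < 2 - (1 + h) := by linarith
    positivity
  have r1 : ρ1 < 1 := by
    rw [← Real.log_neg_iff q1, hρ1, Real.log_mul (by positivity) (by
      have : 0 < 2 - (1 - h) := by linarith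
      positivity), Real.log_rpow hm, Real.log_div hm.ne' (by linarith)]
    have e : 2 - (1 - h) = 1 + h := by ring
    rw [e]
    have L3 : Real.log (1 - h) < 0 := Real.log_neg hm (by linarith)
    rcases le_or_gt 1 κ with hk | hk
    · have L4 : 0 < Real.log (1 + h) := Real.log_pos (by linarith)
      nlinarith
    · have h5 : (1 - κ) * (h / (1 - h)) < h / (1 + h) := by
        rw [← mul_div_assoc, div_lt_div_iff₀ hm hp]
        nlinarith
      nlinarith
  have r2 : ρ2 < 1 := by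
    have h8 : 0 < 2 - (1 + h) := by linarith
    rw [← Real.log_neg_iff q2, hρ2, Real.log_mul (by positivity) (by positivity),
      Real.log_rpow hp, Real.log_div hp.ne' h8.ne']
    have e : 2 - (1 + h) = 1 - h := by ring
    rw [e]
    have h5 : h / (1 - h) < (1 + κ) * (h / (1 + h)) := by
      rw [← mul_div_assoc, div_lt_div_iff₀ hm hp]
      nlinarith
    nlinarith
  refine ⟨max ρ1 ρ2, lt_max_of_lt_left q1, max_lt r1 r2, fun A k => ?_⟩
  have hkn : (0 : ℝ) ≤ k := Nat.cast_nonneg k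
  have t1 := v1_tail A k (x := 1 - h) (c := 2 - κ) hm (by linarith)
    (fun w => (w.sum : ℝ) < (2 - κ) * k) (fun w hw =>
      Real.one_le_rpow_of_pos_of_le_one_of_nonpos hm (by linarith) (by linarith))
  have t2 := v1_tail A k (x := 1 + h) (c := 2 + κ) hp (by linarith)
    (fun w => (2 + κ) * k < (w.sum : ℝ)) (fun w hw =>
      Real.one_le_rpow (by linarith) (by linarith))
  have t3 : ρ1 ^ k ≤ (max ρ1 ρ2) ^ k := pow_le_pow_left₀ q1.le (le_max_left _ _) k
  have t4 : ρ2 ^ k ≤ (max ρ1 ρ2) ^ k := pow_le_pow_left₀ q2.le (le_max_right _ _) k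
  have t5 : ∑ w ∈ (lw A k).filter
      (fun w => (w.sum : ℝ) < (2 - κ) * k ∨ (2 + κ) * k < (w.sum : ℝ)), (1 / 2 ^ w.sum : ℝ) ≤
      ∑ w ∈ (lw A k).filter (fun w => (w.sum : ℝ) < (2 - κ) * k), (1 / 2 ^ w.sum : ℝ) +
      ∑ w ∈ (lw A k).filter (fun w => (2 + κ) * k < (w.sum : ℝ)), (1 / 2 ^ w.sum : ℝ) := by
    rw [Finset.filter_or]
    rw [← Finset.sum_union_inter]
    have : 0 ≤ ∑ w ∈ (lw A k).filter (fun w => (w.sum : ℝ) < (2 - κ) * k) ∩
        (lw A k).filter (fun w => (2 + κ) * k < (w.sum : ℝ)), (1 / 2 ^ w.sum : ℝ) :=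
      Finset.sum_nonneg fun w _ => by positivity
    linarith
  linarith

end Pool.Agent.Lib.MP_e43fce_nt_one
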