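import Pool.Agent.Lib.MP_e43fce_nt_one.Defs
import Pool.Agent.Lib.MP_e43fce_nt_one.Defs2
import Pool.Agent.Lib.MP_e43fce_nt_one.T01
import Pool.Agent.Lib.MP_e43fce_nt_one.T02
import Pool.Agent.Lib.MP_e43fce_nt_one.T02b
import Pool.Agent.Lib.MP_e43fce_nt_one.L04

/-!
Module V2.
Induction on n as for Gw (T01, T02b). Bw_eq: sum over block words (bws), B = product of the block
weights; admissibility of a block word = adm of the flattened word (adm_append, te_append).
-/

set_option autoImplicit false

open Finset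

namespace Pool.Agent.Lib.MP_e43fce_nt_one

theorem mem_bws {A L n : ℕ} {u : List (List ℕ)} :
    u ∈ bws A L n ↔ u.length = n ∧ ∀ w ∈ u, w ∈ lw A L := by
  induction n generalizing u with
  | zero =>
    unfold bws
    rw [Finset.mem_singleton]
    constructor
    · rintro rfl
      simp
    · rintro ⟨h, -⟩
      exact List.length_eq_zero_iff.1 h
  | succ n ih =>
    unfold bws
    rw [Finset.mem_image]
    constructor
    · rintro ⟨⟨w, u'⟩, h, rfl⟩
      rw [Finset.mem_product] at h
      obtain ⟨h1, h2⟩ := h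
      obtain ⟨h3, h4⟩ := ih.1 h2
      refine ⟨by simpa using h3, ?_⟩
      intro w' hw'
      rcases List.mem_cons.1 hw' with rfl | hw'
      · exact h1
      · exact h4 w' hw'
    · rintro ⟨h1, h2⟩
      cases u with
      | nil => simp at h1
      | cons w u' =>
        refine ⟨(w, u'), ?_, rfl⟩
        rw [Finset.mem_product]
        exact ⟨h2 w List.mem_cons_self, ih.2 ⟨by simpa using h1,
          fun w' hw' => h2 w' (List.mem_cons_of_mem _ hw')⟩⟩

theorem sum_bws_succ (A L n : ℕ) (f : List (List ℕ) → ℝ) :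
    ∑ u ∈ bws A L (n + 1), f u = ∑ w ∈ lw A L, ∑ u ∈ bws A L n, f (w :: u) := by
  rw [bws, Finset.sum_image, Finset.sum_product]
  rintro ⟨w, u⟩ _ ⟨w', u'⟩ _ h
  simp only [List.cons.injEq] at h
  exact Prod.ext h.1 h.2

theorem v2_zero (A L : ℕ) (f : List (List ℕ) → ℝ) : ∑ u ∈ bws A L 0, f u = f [] := by
  rw [bws, Finset.sum_singleton]

theorem Bw_eq (A L : ℕ) (Ω : List ℕ → ℝ) (n : ℕ) (v : ℤ) :
    Bw A L Ω n v = ∑ u ∈ bws A L n, if adm v u.flatten then (u.map Ω).prod else 0 := by
  induction n generalizing v with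
  | zero =>
    rw [v2_zero, Bw, if_pos]
    · simp
    · exact trivial
  | succ n ih =>
    rw [sum_bws_succ, Bw]
    refine Finset.sum_congr rfl fun w _ => ?_
    by_cases h : adm v w
    · rw [if_pos h, ih, Finset.mul_sum]
      refine Finset.sum_congr rfl fun u _ => ?_
      have h2 : adm v (w :: u).flatten ↔ adm (te v w) u.flatten := by
        rw [List.flatten_cons, adm_append]
        exact and_iff_right h
      by_cases h3 : adm (te v w) u.flatten
      · rw [if_pos h3, if_pos (h2.2 h3), List.map_cons, List.prod_cons]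
      · rw [if_neg h3, if_neg (fun h' => h3 (h2.1 h')), mul_zero]
    · rw [if_neg h]
      symm
      refine Finset.sum_eq_zero fun u _ => ?_
      rw [if_neg]
      rw [List.flatten_cons, adm_append]
      exact fun h' => h h'.1

theorem Bw_add (A L : ℕ) (Ω : List ℕ → ℝ) (m n : ℕ) (v : ℤ) : Bw A L Ω (m + n) v =
    ∑ u ∈ bws A L m, if adm v u.flatten then (u.map Ω).prod * Bw A L Ω n (te v u.flatten)
      else 0 := by
  induction m generalizing v with
  | zero =>
    rw [v2_zero, if_pos]
    · rw [Nat.zero_add, List.map_nil, List.prod_nil, one_mul]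
      rfl
    · exact trivial
  | succ m ih =>
    have e : m + 1 + n = (m + n) + 1 := by omega
    rw [e, sum_bws_succ, Bw]
    refine Finset.sum_congr rfl fun w _ => ?_
    by_cases h : adm v w
    · rw [if_pos h, ih, Finset.mul_sum]
      refine Finset.sum_congr rfl fun u _ => ?_
      have h2 : adm v (w :: u).flatten ↔ adm (te v w) u.flatten := by
        rw [List.flatten_cons, adm_append]
        exact and_iff_right h
      by_cases h3 : adm (te v w) u.flatten
      · rw [if_pos h3, if_pos (h2.2 h3), List.map_cons, List.prod_cons, List.flatten_cons,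
          te_append, mul_assoc]
      · rw [if_neg h3, if_neg (fun h' => h3 (h2.1 h')), mul_zero]
    · rw [if_neg h]
      symm
      refine Finset.sum_eq_zero fun u _ => ?_
      rw [if_neg]
      rw [List.flatten_cons, adm_append]
      exact fun h' => h h'.1

theorem v2_len {L : ℕ} (u : List (List ℕ)) (hu : ∀ w ∈ u, w.length = L) :
    u.flatten.length = L * u.length := by
  induction u with
  | nil => simp
  | cons w u ih =>
    rw [List.flatten_cons, List.length_append, hu w List.mem_cons_self,
      ih (fun w' hw' => hu w' (List.mem_cons_of_mem _ hw')), List.length_cons]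
    ring

theorem Bw_per (A L : ℕ) (Ω : List ℕ → ℝ) (n : ℕ) : Per (L * n) (Bw A L Ω n) := by
  intro v z
  rw [Bw_eq, Bw_eq]
  refine Finset.sum_congr rfl fun u hu => ?_
  obtain ⟨h1, h2⟩ := mem_bws.1 hu
  have h3 : u.flatten.length = L * n := by
    rw [v2_len u (fun w hw => (mem_lw.1 (h2 w hw)).1), h1]
  have h4 := adm_shift v z u.flatten
  rw [h3] at h4
  by_cases h5 : adm v u.flatten
  · rw [if_pos h5, if_pos (h4.2 h5)]
  · rw [if_neg h5, if_neg (fun h' => h5 (h4.1 h'))]

theorem prod_OB (γ τ t : ℝ) (L : ℕ) (u : List (List ℕ)) (hu : ∀ w ∈ u, w.length = L) :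
    (u.map (OB γ τ t L)).prod = (3 ^ u.flatten.length / 2 ^ u.flatten.sum : ℝ) ^ γ *
      Real.exp (-(τ * ((u.flatten.sum : ℝ) + u.flatten.length))) *
      Real.exp (-(t * texc L u)) := by
  induction u with
  | nil => simp [texc]
  | cons w u ih =>
    have hw := hu w List.mem_cons_self
    rw [List.map_cons, List.prod_cons, ih (fun w' hw' => hu w' (List.mem_cons_of_mem _ hw')),
      List.flatten_cons, List.length_append, List.sum_append, hw]
    have e1 : (3 ^ (L + u.flatten.length) / 2 ^ (w.sum + u.flatten.sum) : ℝ) =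
        (3 ^ L / 2 ^ w.sum) * (3 ^ u.flatten.length / 2 ^ u.flatten.sum) := by
      rw [pow_add, pow_add]
      field_simp
    have e2 : texc L (w :: u) = exc L w + texc L u := by
      unfold texc
      rw [List.map_cons, List.sum_cons]
    rw [e1, e2, Real.mul_rpow (by positivity) (by positivity)]
    unfold OB
    have e3 : Real.exp (-(τ * (((w.sum + u.flatten.sum : ℕ) : ℝ) + ((L + u.flatten.length : ℕ) : ℝ)))) =
        Real.exp (-(τ * ((w.sum : ℝ) + L))) *
          Real.exp (-(τ * ((u.flatten.sum : ℝ) + u.flatten.length))) := by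
      rw [← Real.exp_add]
      congr 1
      push_cast
      ring
    have e4 : Real.exp (-(t * (exc L w + texc L u))) =
        Real.exp (-(t * exc L w)) * Real.exp (-(t * texc L u)) := by
      rw [← Real.exp_add]
      congr 1
      ring
    rw [e3, e4]
    ring

theorem v2_letter (v : ℤ) : ∃ j : ℕ, 1 ≤ j ∧ j ≤ 4 ∧ adm1 v j := by
  have h : v % 3 = 0 ∨ v % 3 = 1 ∨ v % 3 = 2 := by omega
  rcases h with h | h | h
  · refine ⟨2, by norm_num, by norm_num, ?_⟩
    have e : bt 2 = 0 := by decide
    unfold adm1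
    rw [e]
    omega
  · refine ⟨4, by norm_num, by norm_num, ?_⟩
    have e : bt 4 = 8 := by decide
    unfold adm1
    rw [e]
    omega
  · refine ⟨1, by norm_num, by norm_num, ?_⟩
    have e : bt 1 = -1 := by decide
    unfold adm1
    rw [e]
    omega

/-- the word of smallest letters: every node has an admissible word with sum `≤ 4 n` -/
theorem small_word {A : ℕ} (hA : 6 ≤ A) (n : ℕ) (v : ℤ) : ∃ w ∈ lw A n, adm v w ∧ w.sum ≤ 4 * n := by
  induction n generalizing v with
  | zero => exact ⟨[], mem_lw.2 (by simp), trivial, by simp⟩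
  | succ n ih =>
    obtain ⟨j, h1, h2, h3⟩ := v2_letter v
    obtain ⟨w, hw, hw2, hw3⟩ := ih (cv v j)
    obtain ⟨m1, m2⟩ := mem_lw.1 hw
    refine ⟨j :: w, mem_lw.2 ⟨by simp [m1], ?_⟩, ⟨h3, hw2⟩, ?_⟩
    · intro i hi
      rcases List.mem_cons.1 hi with rfl | hi
      · exact ⟨h1, by omega⟩
      · exact m2 i hi
    · rw [List.sum_cons]
      omega

end Pool.Agent.Lib.MP_e43fce_nt_one
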