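import Pool.Agent.Lib.MP_e43fce_nt_one.Defs
import Pool.Agent.Lib.MP_e43fce_nt_one.Defs2
import Pool.Agent.Lib.MP_e43fce_nt_one.V1
import Pool.Agent.Lib.MP_e43fce_nt_one.V2
import Pool.Agent.Lib.MP_e43fce_nt_one.T08c
import Pool.Agent.Lib.MP_e43fce_nt_one.T03

/-!
Module V3.
As T09 (pos_mean, see that file) with threshold near 2. Fix gamma, tau, t. Let c1 = (1-gamma)
log(4/3) - 3 tau > 0. For words with |sum - 2L| <= kappa L: log OB >= log(3^L/2^sum) + L (c1 -
kappa C), C = (1-gamma) log 2 + tau + t; take kappa with kappa C <= c1/2. For every v the small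
word (V2) gives Bw 1 v >= exp(-C2 L), C2 independent of A (weight at least (3/16)^(gamma L) e^(-5
tau L - 2 t L)). Good v: the atypical part aM of Mn A L v (tails, Av aM <= 2 rho^L) is <= Mn/2 :
log Bw >= log Mn - log 2 + L c1/2. Bad v: P(bad) <= P(Mn <= 2 rho^(L/2)) + P(aM > rho^(L/2)) <=
(en + 1)/((L/2) log(1/rho) - log 2) + 2 rho^(L/2). Order: kappa, rho, C2, then eps for en_small
with (eps/log(1/rho)) * C2 small, A, then L large. E[-log Mn ; good] <= en + E[(log Mn)^+] <= en +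
1.
-/

set_option autoImplicit false

open Finset

namespace Pool.Agent.Lib.MP_e43fce_nt_one

theorem v3_logx (L s : ℕ) : Real.log ((3 : ℝ) ^ L / 2 ^ s) =
    L * Real.log 3 - s * Real.log 2 := by
  rw [Real.log_div (by positivity) (by positivity), Real.log_pow, Real.log_pow]

theorem v3_expx (L s : ℕ) : ((3 : ℝ) ^ L / 2 ^ s) =
    Real.exp (L * Real.log 3 - s * Real.log 2) := by
  have hx : (0 : ℝ) < 3 ^ L / 2 ^ s := by positivity
  rw [← v3_logx, Real.exp_log hx]

theorem v3_OB (γ τ t : ℝ) (L : ℕ) (w : List ℕ) : OB γ τ t L w =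
    Real.exp ((L * Real.log 3 - w.sum * Real.log 2) * γ + (-(τ * ((w.sum : ℝ) + L))) +
      (-(t * exc L w))) := by
  rw [OB, v3_expx, ← Real.exp_mul, ← Real.exp_add, ← Real.exp_add]

theorem v3_gain {γ τ t κ : ℝ} (h1 : γ < 1) (hτ : 0 < τ) (ht : 0 ≤ t) {L : ℕ} {w : List ℕ}
    (ha : (2 - κ) * L ≤ (w.sum : ℝ)) (hb : (w.sum : ℝ) ≤ (2 + κ) * L) (hκ : 0 < κ) :
    Real.exp (((1 - γ) * Real.log (4 / 3) - 3 * τ -
      κ * ((1 - γ) * Real.log 2 + τ + t)) * L) * ((3 : ℝ) ^ L / 2 ^ w.sum) ≤ OB γ τ t L w := by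
  have h2 : 0 < Real.log 2 := Real.log_pos (by norm_num)
  have h43 : Real.log (4 / 3) = 2 * Real.log 2 - Real.log 3 := by
    rw [Real.log_div (by norm_num) (by norm_num), show (4 : ℝ) = 2 ^ 2 by norm_num, Real.log_pow]
    norm_num
  have hL : (0 : ℝ) ≤ L := Nat.cast_nonneg L
  have hexc : exc L w ≤ κ * L := by
    unfold exc
    exact max_le (by linarith) (by positivity)
  rw [v3_OB, v3_expx, ← Real.exp_add, Real.exp_le_exp, h43]
  have e1 := mul_nonneg (sub_nonneg.mpr h1.le) (mul_nonneg h2.le (sub_nonneg.mpr ha))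
  have e2 := mul_nonneg hτ.le (sub_nonneg.mpr hb)
  have e3 := mul_nonneg ht (sub_nonneg.mpr hexc)
  nlinarith

theorem v3_loss {γ τ t : ℝ} (h0 : 0 < γ) (hτ : 0 < τ) (ht : 0 ≤ t) {L : ℕ} {w : List ℕ}
    (hb : w.sum ≤ 4 * L) :
    Real.exp (-((γ * (4 * Real.log 2 - Real.log 3) + 5 * τ + 2 * t) * L)) ≤ OB γ τ t L w := by
  have h2 : 0 < Real.log 2 := Real.log_pos (by norm_num)
  have hL : (0 : ℝ) ≤ L := Nat.cast_nonneg L
  have hs : (w.sum : ℝ) ≤ 4 * L := by exact_mod_cast hb
  have hexc : exc L w ≤ 2 * L := by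
    unfold exc
    exact max_le (by linarith) (by positivity)
  rw [v3_OB, Real.exp_le_exp]
  have e1 := mul_nonneg h0.le (mul_nonneg h2.le (sub_nonneg.mpr hs))
  have e2 := mul_nonneg hτ.le (sub_nonneg.mpr hs)
  have e3 := mul_nonneg ht (sub_nonneg.mpr hexc)
  nlinarith

/-- the atypical words -/
def v3_aty (κ : ℝ) (L : ℕ) (w : List ℕ) : Prop :=
  (w.sum : ℝ) < (2 - κ) * L ∨ (2 + κ) * L < (w.sum : ℝ)

open Classical in
/-- the mass of the atypical words -/
noncomputable def v3_aM (κ : ℝ) (A L : ℕ) (v : ℤ) : ℝ :=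
  ∑ w ∈ lw A L, if adm v w then (if v3_aty κ L w then (3 : ℝ) ^ L / 2 ^ w.sum else 0) else 0

theorem v3_Mn_eq (A L : ℕ) (v : ℤ) :
    Mn A L v = ∑ w ∈ lw A L, if adm v w then (3 : ℝ) ^ L / 2 ^ w.sum else 0 := by
  rw [Mn, Gw_eq]
  refine sum_congr rfl fun w hw => ?_
  rw [prod_w1, (mem_lw.mp hw).1]

theorem v3_Bw_one (A L : ℕ) (Ω : List ℕ → ℝ) (v : ℤ) :
    Bw A L Ω 1 v = ∑ w ∈ lw A L, if adm v w then Ω w else 0 := by
  simp [Bw]

theorem v3_ge_all {γ τ t : ℝ} (h0 : 0 < γ) (hτ : 0 < τ) (ht : 0 ≤ t) {A : ℕ} (hA : 6 ≤ A)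
    (L : ℕ) (v : ℤ) :
    Real.exp (-((γ * (4 * Real.log 2 - Real.log 3) + 5 * τ + 2 * t) * L)) ≤
      Bw A L (OB γ τ t L) 1 v := by
  obtain ⟨w, hw, had, hs⟩ := small_word hA L v
  rw [v3_Bw_one]
  have h1 : (if adm v w then OB γ τ t L w else 0) ≤
      ∑ w ∈ lw A L, if adm v w then OB γ τ t L w else 0 := by
    refine single_le_sum (f := fun w => if adm v w then OB γ τ t L w else 0) (fun w' _ => ?_) hw
    show 0 ≤ if adm v w' then OB γ τ t L w' else 0
    split_ifs
    · rw [v3_OB]; positivity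
    · exact le_refl 0
  rw [if_pos had] at h1
  exact (v3_loss h0 hτ ht hs).trans h1

theorem v3_ge_good {γ τ t κ : ℝ} (h1 : γ < 1) (hτ : 0 < τ) (ht : 0 ≤ t) (hκ : 0 < κ)
    (A L : ℕ) (v : ℤ) :
    Real.exp (((1 - γ) * Real.log (4 / 3) - 3 * τ -
      κ * ((1 - γ) * Real.log 2 + τ + t)) * L) * (Mn A L v - v3_aM κ A L v) ≤
      Bw A L (OB γ τ t L) 1 v := by
  rw [v3_Mn_eq, v3_Bw_one, v3_aM, ← sum_sub_distrib, mul_sum]
  refine sum_le_sum fun w hw => ?_
  by_cases h : adm v w
  · simp only [if_pos h]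
    by_cases h2 : v3_aty κ L w
    · simp only [if_pos h2, sub_self, mul_zero]
      rw [v3_OB]; positivity
    · simp only [if_neg h2, sub_zero]
      rw [v3_aty, not_or, not_lt, not_lt] at h2
      exact v3_gain h1 hτ ht h2.1 h2.2 hκ
  · simp [if_neg h]

theorem v3_aM_nonneg (κ : ℝ) (A L : ℕ) (v : ℤ) : 0 ≤ v3_aM κ A L v := by
  refine sum_nonneg fun w _ => ?_
  split_ifs <;> positivity

theorem v3_Av_aM {κ ρ : ℝ} (A L : ℕ)
    (hρ : ∀ A k : ℕ, ∑ w ∈ (lw A k).filter
      (fun w => (w.sum : ℝ) < (2 - κ) * k ∨ (2 + κ) * k < (w.sum : ℝ)),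
      (1 / 2 ^ w.sum : ℝ) ≤ 2 * ρ ^ k) : Av L (v3_aM κ A L) ≤ 2 * ρ ^ L := by
  classical
  have h := Av_words A L (fun w => if v3_aty κ L w then (3 : ℝ) ^ L / 2 ^ w.sum else 0)
  have h2 : Av L (v3_aM κ A L) = _ := h
  rw [h2]
  refine le_trans (le_of_eq ?_) (hρ A L)
  rw [sum_filter, sum_div]
  refine sum_congr rfl fun w _ => ?_
  unfold v3_aty
  split_ifs
  · field_simp
  · simp

/-- the main pointwise inequality -/
theorem v3_point {M W F g C l : ℝ} {L : ℕ} (hM : 0 < M) (hW : 0 ≤ W)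
    (hgood : Real.exp (g * L) * (M - W) ≤ F) (hall : Real.exp (-(C * L)) ≤ F)
    (hg : 0 < g) (hC : 0 < C) (hl : Real.log 2 < l * L) :
    (Real.log M - M) - Real.log 2 + g * L -
      (g + C) * L * ((M - Real.log M) / (l * L - Real.log 2) +
          Real.exp (l * L) * W) ≤ Real.log F := by
  have hlog2 : 0 < Real.log 2 := Real.log_pos (by norm_num)
  have hL0 : (0 : ℝ) ≤ L := Nat.cast_nonneg L
  have hd : 0 < l * L - Real.log 2 := by linarith
  have hφ : 1 ≤ M - Real.log M := by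
    have := Real.log_le_sub_one_of_pos hM
    linarith
  have hq0 : 0 ≤ (M - Real.log M) / (l * L - Real.log 2) := div_nonneg (by linarith) hd.le
  have he0 : 0 ≤ Real.exp (l * L) * W := mul_nonneg (Real.exp_pos _).le hW
  have hF : -(C * L) ≤ Real.log F := by
    have h4 := Real.log_le_log (Real.exp_pos _) hall
    rwa [Real.log_exp] at h4
  by_cases hb : W ≤ M / 2
  · -- good
    have h3 : 0 < Real.exp (g * L) * (M / 2) := mul_pos (Real.exp_pos _) (by linarith)
    have h4 : Real.exp (g * L) * (M / 2) ≤ F := by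
      refine le_trans (mul_le_mul_of_nonneg_left ?_ (Real.exp_pos _).le) hgood
      linarith
    have h5 := Real.log_le_log h3 h4
    rw [Real.log_mul (Real.exp_pos _).ne' (by positivity), Real.log_exp,
      Real.log_div hM.ne' (by norm_num)] at h5
    have h6 : 0 ≤ (g + C) * L * ((M - Real.log M) / (l * L - Real.log 2) +
        Real.exp (l * L) * W) := by positivity
    linarith
  · push Not at hb
    have h6 : 1 ≤ (M - Real.log M) / (l * L - Real.log 2) + Real.exp (l * L) * W := by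
      by_cases hc : M ≤ 2 * Real.exp (-(l * L))
      · have h7 : Real.log M ≤ Real.log 2 - l * L := by
          have := Real.log_le_log hM hc
          rw [Real.log_mul (by norm_num) (Real.exp_pos _).ne', Real.log_exp] at this
          linarith
        have h8 : 1 ≤ (M - Real.log M) / (l * L - Real.log 2) := by
          rw [one_le_div hd]
          linarith
        linarith
      · push Not at hc
        have h7 : Real.exp (-(l * L)) ≤ W := by linarith
        have h8 : 1 ≤ Real.exp (l * L) * W := by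
          calc (1 : ℝ) = Real.exp (l * L) * Real.exp (-(l * L)) := by
                rw [← Real.exp_add, add_neg_cancel, Real.exp_zero]
            _ ≤ _ := mul_le_mul_of_nonneg_left h7 (Real.exp_pos _).le
        linarith
    have h9 : (g + C) * L * 1 ≤ (g + C) * L * ((M - Real.log M) / (l * L - Real.log 2) +
        Real.exp (l * L) * W) := mul_le_mul_of_nonneg_left h6 (by positivity)
    linarith

theorem v3_Av_neg (m : ℕ) (f : ℤ → ℝ) : Av m (fun v => -f v) = -Av m f := by
  have h := Av_mul_left m (-1) f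
  simpa using h

theorem pos_mean_block {γ τ t : ℝ} (h0 : 0 < γ) (h1 : γ < 1) (hτ : 0 < τ)
    (hτ1 : 3 * τ < (1 - γ) * Real.log (4 / 3)) (ht : 0 ≤ t) : ∃ A : ℕ, 6 ≤ A ∧ ∃ L : ℕ, 1 ≤ L ∧
    0 < Av L (fun v => Real.log (Bw A L (OB γ τ t L) 1 v)) := by
  have hlog2 : 0 < Real.log 2 := Real.log_pos (by norm_num)
  -- the constants
  obtain ⟨c1, hc1⟩ : ∃ c1, c1 = (1 - γ) * Real.log (4 / 3) - 3 * τ := ⟨_, rfl⟩
  have hc10 : 0 < c1 := by rw [hc1]; linarith
  obtain ⟨C, hCd⟩ : ∃ C, C = (1 - γ) * Real.log 2 + τ + t := ⟨_, rfl⟩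
  have hC0 : 0 < C := by
    rw [hCd]
    have : 0 < (1 - γ) * Real.log 2 := mul_pos (by linarith) hlog2
    linarith
  obtain ⟨κ, hκd⟩ : ∃ κ, κ = c1 / (2 * C) := ⟨_, rfl⟩
  have hκ0 : 0 < κ := by rw [hκd]; positivity
  have hκC : κ * C = c1 / 2 := by rw [hκd]; field_simp
  obtain ⟨g, hgd⟩ : ∃ g, g = c1 - κ * C := ⟨_, rfl⟩
  have hg0 : 0 < g := by rw [hgd, hκC]; linarith
  obtain ⟨C2, hC2d⟩ : ∃ C2, C2 = γ * (4 * Real.log 2 - Real.log 3) + 5 * τ + 2 * t := ⟨_, rfl⟩
  have hC20 : 0 < C2 := by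
    have h3 : Real.log 3 < 4 * Real.log 2 := by
      have := Real.log_lt_log (by norm_num : (0 : ℝ) < 3) (by norm_num : (3 : ℝ) < 2 ^ 4)
      rw [Real.log_pow] at this
      push_cast at this
      linarith
    have : 0 < γ * (4 * Real.log 2 - Real.log 3) := mul_pos h0 (by linarith)
    rw [hC2d]
    linarith
  obtain ⟨ρ, hρ0, hρ1, hρ⟩ := tails hκ0
  obtain ⟨l, hld⟩ : ∃ l, l = -Real.log ρ / 2 := ⟨_, rfl⟩
  have hl0 : 0 < l := by
    rw [hld]
    have : Real.log ρ < 0 := Real.log_neg hρ0 hρ1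
    linarith
  have hρe : ∀ L : ℕ, ρ ^ L = Real.exp (-(2 * (l * L))) := by
    intro L
    have h2 : ρ = Real.exp (-(2 * l)) := by
      rw [hld, show -(2 * (-Real.log ρ / 2)) = Real.log ρ by ring, Real.exp_log hρ0]
    conv_lhs => rw [h2]
    rw [← Real.exp_nat_mul]
    congr 1
    ring
  obtain ⟨K, hKd⟩ : ∃ K, K = g + C2 := ⟨_, rfl⟩
  have hK0 : 0 < K := by rw [hKd]; linarith
  obtain ⟨ε, hεd⟩ : ∃ ε, ε = g / (2 * (1 + 2 * K / l)) := ⟨_, rfl⟩
  have hε0 : 0 < ε := by rw [hεd]; positivity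
  obtain ⟨A, hA, C1, hC⟩ := en_small ε hε0
  refine ⟨A, hA, ?_⟩
  -- the lower bound for the mean
  have key : ∀ L : ℕ, 1 ≤ L → 2 * Real.log 2 ≤ l * L →
      g / 2 * L - (1 + C1 + Real.log 2 + K * (2 * (C1 + 1) / l + 2 / l)) ≤
        Av L (fun v => Real.log (Bw A L (OB γ τ t L) 1 v)) := by
    intro L hL1 hL
    have hLr : (1 : ℝ) ≤ L := by exact_mod_cast hL1
    have hd : 0 < l * L - Real.log 2 := by linarith
    have hpt := Av_mono (m := L) (fun v => v3_point (M := Mn A L v) (W := v3_aM κ A L v)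
      (F := Bw A L (OB γ τ t L) 1 v) (g := g) (C := C2) (l := l) (L := L)
      (Mn_pos hA L v) (v3_aM_nonneg κ A L v)
      (by
        have := v3_ge_good h1 hτ ht hκ0 A L v
        rw [← hCd, ← hc1, ← hgd] at this
        exact this)
      (by
        have := v3_ge_all h0 hτ ht hA L v
        rw [← hC2d] at this
        exact this)
      hg0 hC20 (by linarith))
    rw [← hKd] at hpt
    refine le_trans ?_ hpt
    -- compute the average
    have hMn : Av L (Mn A L) ≤ 1 := by
      rw [Av_Mn]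
      refine pow_le_one₀ ?_ ?_
      · have : ((1 : ℝ) / 2) ^ A ≤ 1 := pow_le_one₀ (by norm_num) (by norm_num)
        linarith
      · have : (0 : ℝ) ≤ (1 / 2) ^ A := by positivity
        linarith
    have hen : Av L (fun v => Real.log (Mn A L v)) = -en A L := by
      rw [en, v3_Av_neg, neg_neg]
    have hAvg : Av L (fun v => (Real.log (Mn A L v) - Mn A L v) - Real.log 2 + g * L -
        K * L * ((Mn A L v - Real.log (Mn A L v)) / (l * L - Real.log 2) +
          Real.exp (l * L) * v3_aM κ A L v)) =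
        -(Av L (Mn A L) + en A L) + (-Real.log 2 + g * L) + (-(K * L)) *
          ((Av L (Mn A L) + en A L) / (l * L - Real.log 2) +
            Real.exp (l * L) * Av L (v3_aM κ A L)) := by
      have e1 : (fun v => (Real.log (Mn A L v) - Mn A L v) - Real.log 2 + g * L -
          K * L * ((Mn A L v - Real.log (Mn A L v)) / (l * L - Real.log 2) +
          Real.exp (l * L) * v3_aM κ A L v)) = fun v =>
          ((-1) * (Mn A L v + (-1) * Real.log (Mn A L v)) + (-Real.log 2 + g * L)) + (-(K * L)) *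
            ((1 / (l * L - Real.log 2)) * (Mn A L v + (-1) * Real.log (Mn A L v)) +
              Real.exp (l * L) * v3_aM κ A L v) := by
        funext v
        ring
      rw [e1, Av_add, Av_add, Av_const, Av_mul_left, Av_add, Av_mul_left, hen, Av_mul_left,
        Av_add, Av_mul_left, Av_mul_left, Av_add, Av_mul_left, hen]
      ring
    rw [hAvg]
    have hlow : Real.exp (l * L) * Av L (v3_aM κ A L) ≤ 2 * Real.exp (-(l * L)) := by
      calc Real.exp (l * L) * Av L (v3_aM κ A L) ≤ Real.exp (l * L) * (2 * ρ ^ L) :=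
            mul_le_mul_of_nonneg_left (v3_Av_aM A L hρ) (Real.exp_pos _).le
        _ = 2 * (Real.exp (l * L) * Real.exp (-(2 * (l * L)))) := by rw [hρe]; ring
        _ = 2 * Real.exp (-(l * L)) := by
            rw [← Real.exp_add]
            congr 2
            ring
    have hLe : L * Real.exp (-(l * L)) ≤ 1 / l := by
      have h3 : l * L * Real.exp (-(l * L)) ≤ 1 := by
        have h4 : l * L ≤ Real.exp (l * L) := by
          have := Real.add_one_le_exp (l * L)
          linarith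
        calc l * L * Real.exp (-(l * L)) ≤ Real.exp (l * L) * Real.exp (-(l * L)) :=
              mul_le_mul_of_nonneg_right h4 (Real.exp_pos _).le
          _ = 1 := by rw [← Real.exp_add, add_neg_cancel, Real.exp_zero]
      rw [le_div_iff₀ hl0]
      nlinarith
    have henpos : 1 ≤ Av L (Mn A L) + en A L := by
      have h3 : Av L (fun v => Mn A L v + (-1) * Real.log (Mn A L v)) = Av L (Mn A L) + en A L := by
        rw [Av_add, Av_mul_left, hen]
        ring
      rw [← h3]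
      refine le_trans (le_of_eq (Av_const L 1).symm) (Av_mono fun v => ?_)
      have := Real.log_le_sub_one_of_pos (Mn_pos hA L v)
      linarith
    have h3 : Av L (Mn A L) + en A L ≤ ε * L + C1 + 1 := by
      have := hC L
      linarith
    have hq : L * ((Av L (Mn A L) + en A L) / (l * L - Real.log 2)) ≤
        2 / l * (ε * L + C1 + 1) := by
      have h4 : L / (l * L - Real.log 2) ≤ 2 / l := by
        rw [div_le_div_iff₀ hd hl0]
        linarith
      calc L * ((Av L (Mn A L) + en A L) / (l * L - Real.log 2)) =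
            L / (l * L - Real.log 2) * (Av L (Mn A L) + en A L) := by ring
        _ ≤ 2 / l * (Av L (Mn A L) + en A L) :=
            mul_le_mul_of_nonneg_right h4 (by linarith)
        _ ≤ 2 / l * (ε * L + C1 + 1) := mul_le_mul_of_nonneg_left h3 (by positivity)
    have hε : ε * (1 + 2 * K / l) = g / 2 := by
      rw [hεd]
      have : 1 + 2 * K / l ≠ 0 := by positivity
      field_simp
    have h5 : K * (L * ((Av L (Mn A L) + en A L) / (l * L - Real.log 2))) ≤
        K * (2 / l * (ε * L + C1 + 1)) := mul_le_mul_of_nonneg_left hq hK0.le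
    have h6 : K * (L * (Real.exp (l * L) * Av L (v3_aM κ A L))) ≤ K * (2 / l) := by
      refine mul_le_mul_of_nonneg_left ?_ hK0.le
      have h61 : (L : ℝ) * (Real.exp (l * L) * Av L (v3_aM κ A L)) ≤
          L * (2 * Real.exp (-(l * L))) := mul_le_mul_of_nonneg_left hlow (by linarith)
      have h62 : (L : ℝ) * (2 * Real.exp (-(l * L))) = 2 * (L * Real.exp (-(l * L))) := by ring
      have h63 : 2 * (L * Real.exp (-(l * L))) ≤ 2 * (1 / l) := by linarith
      have h64 : 2 * (1 / l) = 2 / l := by ring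
      linarith
    have h7 : g / 2 * L = ε * L + 2 * K / l * (ε * L) := by
      rw [← hε]
      ring
    have h8 : K * (2 / l * (ε * L + C1 + 1)) = 2 * K / l * (ε * L) + K * (2 * (C1 + 1) / l) := by
      ring
    rw [h8] at h5
    have h9 : g * L = g / 2 * L + g / 2 * L := by ring
    nlinarith
  -- choose L
  obtain ⟨L, hL⟩ := exists_nat_gt (max 1 (max (2 * Real.log 2 / l)
    ((1 + C1 + Real.log 2 + K * (2 * (C1 + 1) / l + 2 / l)) / (g / 2))))
  have hL1 : (1 : ℝ) < L := lt_of_le_of_lt (le_max_left _ _) hL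
  have hL2 : 2 * Real.log 2 / l < L :=
    lt_of_le_of_lt ((le_max_left _ _).trans (le_max_right _ _)) hL
  have hL3 : (1 + C1 + Real.log 2 + K * (2 * (C1 + 1) / l + 2 / l)) / (g / 2) < L :=
    lt_of_le_of_lt ((le_max_right _ _).trans (le_max_right _ _)) hL
  refine ⟨L, by exact_mod_cast hL1.le, lt_of_lt_of_le ?_ (key L (by exact_mod_cast hL1.le) ?_)⟩
  · rw [div_lt_iff₀ (by positivity)] at hL3
    linarith
  · rw [div_lt_iff₀ hl0] at hL2
    linarith

end Pool.Agent.Lib.MP_e43fce_nt_one
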