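import Pool.Agent.Lib.MP_e43fce_nt_one.Defs2
import Pool.Agent.Lib.MP_e43fce_nt_one.V2
import Pool.Agent.Lib.MP_e43fce_nt_one.T10

/-!
Module V4: the branching system of blocks with arbitrary positive weights `Ω`, and uniform growth
from a positive mean (general version of T10).
-/

set_option autoImplicit false

open Finset

namespace Pool.Agent.Lib.MP_e43fce_nt_one

theorem V4_one (A L : ℕ) (Ω : List ℕ → ℝ) (v : ℤ) :
    Bw A L Ω 1 v = ∑ w ∈ lw A L, if adm v w then Ω w else 0 := by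
  simp only [Bw, mul_one]

theorem V4_pos {A L : ℕ} (hA : 6 ≤ A) {Ω : List ℕ → ℝ} (hΩ : ∀ w ∈ lw A L, 0 < Ω w) (n : ℕ)
    (v : ℤ) : 0 < Bw A L Ω n v := by
  induction n generalizing v with
  | zero => exact zero_lt_one
  | succ n ih =>
    show 0 < ∑ w ∈ lw A L, if adm v w then Ω w * Bw A L Ω n (te v w) else 0
    obtain ⟨w, hw, hw2⟩ := T10_exists A hA L v
    refine Finset.sum_pos' ?_ ⟨w, hw, ?_⟩
    · intro i hi
      split_ifs
      · exact (mul_pos (hΩ i hi) (ih _)).le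
      · exact le_rfl
    · rw [if_pos hw2]
      exact mul_pos (hΩ w hw) (ih _)

/-- lower bound of the transition probabilities -/
theorem V4_c {A L : ℕ} (hA : 6 ≤ A) {Ω : List ℕ → ℝ} (hΩ : ∀ w ∈ lw A L, 0 < Ω w) :
    ∃ c : ℝ, 0 < c ∧ c < 1 ∧
      ∀ v : ℤ, ∀ w ∈ lw A L, adm v w → c ≤ Ω w / Bw A L Ω 1 v := by
  have hne : (lw A L).Nonempty := by
    obtain ⟨w, hw, -⟩ := T10_exists A hA L 0
    exact ⟨w, hw⟩
  obtain ⟨w0, hw0, hmin⟩ := Finset.exists_min_image (lw A L) Ω hne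
  have hT : 0 < ∑ w ∈ lw A L, Ω w := Finset.sum_pos hΩ hne
  refine ⟨min (Ω w0 / ∑ w ∈ lw A L, Ω w) (1 / 2),
    lt_min (div_pos (hΩ w0 hw0) hT) (by norm_num),
    lt_of_le_of_lt (min_le_right _ _) (by norm_num), ?_⟩
  intro v w hw hadm
  refine (min_le_left _ _).trans ?_
  have hF := V4_pos hA hΩ 1 v
  have hFT : Bw A L Ω 1 v ≤ ∑ w ∈ lw A L, Ω w := by
    rw [V4_one]
    refine Finset.sum_le_sum fun u hu => ?_
    split_ifs
    · exact le_rfl
    · exact (hΩ u hu).le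
  exact div_le_div₀ (hΩ w hw).le (hmin w hw) hF hFT

/-- the transition probability -/
noncomputable def V4_P (A L : ℕ) (Ω : List ℕ → ℝ) (v : ℤ) (w : List ℕ) : ℝ :=
  if adm v w then Ω w / Bw A L Ω 1 v else 0

theorem V4_P_nonneg {A L : ℕ} (hA : 6 ≤ A) {Ω : List ℕ → ℝ} (hΩ : ∀ w ∈ lw A L, 0 < Ω w) (v : ℤ)
    {w : List ℕ} (hw : w ∈ lw A L) : 0 ≤ V4_P A L Ω v w := by
  unfold V4_P
  split_ifs
  · exact (div_pos (hΩ w hw) (V4_pos hA hΩ 1 v)).le
  · exact le_rfl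

theorem V4_P_sum {A L : ℕ} (hA : 6 ≤ A) {Ω : List ℕ → ℝ} (hΩ : ∀ w ∈ lw A L, 0 < Ω w) (v : ℤ) :
    ∑ w ∈ lw A L, V4_P A L Ω v w = 1 := by
  have hF := V4_pos hA hΩ 1 v
  have : ∀ w ∈ lw A L, V4_P A L Ω v w = (if adm v w then Ω w else 0) / Bw A L Ω 1 v := by
    intro w _
    unfold V4_P
    split_ifs
    · rfl
    · rw [zero_div]
  rw [Finset.sum_congr rfl this, ← Finset.sum_div, ← V4_one]
  exact div_self hF.ne'

theorem V4_P_le {A L : ℕ} (hA : 6 ≤ A) (hL : 1 ≤ L) {Ω : List ℕ → ℝ}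
    (hΩ : ∀ w ∈ lw A L, 0 < Ω w) {c : ℝ} (hc1 : c < 1)
    (h : ∀ v : ℤ, ∀ w ∈ lw A L, adm v w → c ≤ Ω w / Bw A L Ω 1 v) (v : ℤ) {w : List ℕ}
    (hw : w ∈ lw A L) : V4_P A L Ω v w ≤ 1 - c := by
  by_cases ha : adm v w
  · obtain ⟨w', hw', ha', hne⟩ := T10_second A hA L hL v w
    have h1 := V4_P_sum hA hΩ v
    have h2 : V4_P A L Ω v w + V4_P A L Ω v w' ≤ ∑ u ∈ lw A L, V4_P A L Ω v u := by
      rw [← Finset.sum_pair (Ne.symm hne)]
      refine Finset.sum_le_sum_of_subset_of_nonneg ?_ fun u hu _ => V4_P_nonneg hA hΩ v hu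
      intro u hu
      rcases Finset.mem_insert.1 hu with rfl | hu
      · exact hw
      · rw [Finset.mem_singleton.1 hu]
        exact hw'
    have h3 : c ≤ V4_P A L Ω v w' := by
      unfold V4_P
      rw [if_pos ha']
      exact h v w' hw' ha'
    linarith
  · unfold V4_P
    rw [if_neg ha]
    linarith

theorem V4_per (A L : ℕ) (Ω : List ℕ → ℝ) : Per L (Bw A L Ω 1) := by
  have h := Bw_per A L Ω 1
  rw [mul_one] at h
  exact h

/-- the branching system of blocks of `L` letters with weights `Ω` -/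
noncomputable def V4_sys {A L : ℕ} (hA : 6 ≤ A) (hL : 1 ≤ L) {Ω : List ℕ → ℝ}
    (hΩ : ∀ w ∈ lw A L, 0 < Ω w) (c : ℝ) (hc0 : 0 < c) (hc1 : c < 1)
    (h : ∀ v : ℤ, ∀ w ∈ lw A L, adm v w → c ≤ Ω w / Bw A L Ω 1 v) :
    Sys {w : List ℕ // w ∈ lw A L} where
  L := L
  B := A * L
  c := c
  b := fun i => i.val.sum
  β := fun i => T10_be i.val
  P := fun v i => V4_P A L Ω v i.val
  ψ := fun v => Real.log (Bw A L Ω 1 v)
  hL := hL
  hB := Nat.mul_pos (by omega) hL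
  hc := hc0
  hc1 := hc1
  hb := fun i => T10_sum_le i.2
  P_nonneg := fun v i => V4_P_nonneg hA hΩ v i.2
  P_sum := fun v => by
    rw [Finset.sum_coe_sort (lw A L) (fun w => V4_P A L Ω v w)]
    exact V4_P_sum hA hΩ v
  P_le := fun v i => V4_P_le hA hL hΩ hc1 h v i.2
  P_per := fun i v z => by
    show V4_P A L Ω (v + 3 ^ L * z) i.val = V4_P A L Ω v i.val
    unfold V4_P
    rw [V4_per A L Ω v z]
    by_cases ha : adm v i.val
    · rw [if_pos ha, if_pos ((T10_adm_per i.2 v z).2 ha)]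
    · rw [if_neg ha, if_neg (fun h => ha ((T10_adm_per i.2 v z).1 h))]
  ψ_per := fun v z => by
    show Real.log (Bw A L Ω 1 (v + 3 ^ L * z)) = Real.log (Bw A L Ω 1 v)
    rw [V4_per A L Ω v z]
  P_dvd := fun v i hi => by
    have ha : adm v i.val := by
      by_contra ha
      apply hi
      show V4_P A L Ω v i.val = 0
      unfold V4_P
      rw [if_neg ha]
    have h1 := T10_te ha
    rw [(mem_lw.1 i.2).1] at h1
    exact ⟨te v i.val, h1.symm⟩
  sep := fun w w' hl hb hβ => by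
    apply T10_fl_inj hL
    rw [T10_fl_be, T10_fl_be] at hβ
    have hs : (T10_fl w).sum = (T10_fl w').sum := by rw [T10_fl_sum, T10_fl_sum, hb]
    have hll : (T10_fl w).length = (T10_fl w').length := by rw [T10_fl_length, T10_fl_length, hl]
    have h1 := T10_three_be (T10_fl w)
    have h2 := T10_three_be (T10_fl w')
    rw [hβ, hs, hll] at h1
    exact Nw_inj (T10_fl_mem w) (T10_fl_mem w') hll hs (by linarith)

theorem V4_jensen {A L : ℕ} (hA : 6 ≤ A) (hL : 1 ≤ L) {Ω : List ℕ → ℝ}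
    (hΩ : ∀ w ∈ lw A L, 0 < Ω w) (c : ℝ) (hc0 : 0 < c) (hc1 : c < 1)
    (h : ∀ v : ℤ, ∀ w ∈ lw A L, adm v w → c ≤ Ω w / Bw A L Ω 1 v) (k : ℕ) (v : ℤ) :
    (V4_sys hA hL hΩ c hc0 hc1 h).Psi k v ≤ Real.log (Bw A L Ω k v) := by
  induction k generalizing v with
  | zero =>
    have : Bw A L Ω 0 v = 1 := rfl
    rw [this, Real.log_one]
    exact le_rfl
  | succ k ih =>
    have hF := V4_pos hA hΩ 1 v
    have e1 : Bw A L Ω (k + 1) v =
        Bw A L Ω 1 v * ∑ w ∈ lw A L, V4_P A L Ω v w *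
          Bw A L Ω k ((2 ^ w.sum * v + T10_be w) / 3 ^ L) := by
      show ∑ w ∈ lw A L, (if adm v w then Ω w * Bw A L Ω k (te v w) else 0) = _
      rw [Finset.mul_sum]
      refine Finset.sum_congr rfl fun w hw => ?_
      unfold V4_P
      by_cases ha : adm v w
      · have h1 := T10_te ha
        rw [(mem_lw.1 hw).1] at h1
        rw [if_pos ha, if_pos ha, ← h1, Int.mul_ediv_cancel_left _ (by positivity)]
        field_simp
      · rw [if_neg ha, if_neg ha]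
        ring
    have hpos : ∀ w : List ℕ, 0 < Bw A L Ω k ((2 ^ w.sum * v + T10_be w) / 3 ^ L) :=
      fun w => V4_pos hA hΩ _ _
    have e2 : ∑ w ∈ lw A L, V4_P A L Ω v w *
        Real.log (Bw A L Ω k ((2 ^ w.sum * v + T10_be w) / 3 ^ L)) ≤
        Real.log (∑ w ∈ lw A L, V4_P A L Ω v w *
          Bw A L Ω k ((2 ^ w.sum * v + T10_be w) / 3 ^ L)) := by
      have hcon := strictConcaveOn_log_Ioi.concaveOn.le_map_sum (t := lw A L)
        (w := fun w => V4_P A L Ω v w)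
        (p := fun w => Bw A L Ω k ((2 ^ w.sum * v + T10_be w) / 3 ^ L))
        (fun w hw => V4_P_nonneg hA hΩ v hw) (V4_P_sum hA hΩ v)
        (fun w _ => hpos w)
      simpa only [smul_eq_mul] using hcon
    have hS : 0 < ∑ w ∈ lw A L, V4_P A L Ω v w *
          Bw A L Ω k ((2 ^ w.sum * v + T10_be w) / 3 ^ L) := by
      have := V4_pos hA hΩ (k + 1) v
      rw [e1] at this
      exact (mul_pos_iff_of_pos_left hF).1 this
    rw [e1, Real.log_mul hF.ne' hS.ne']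
    show Real.log (Bw A L Ω 1 v) + ∑ i : {w : List ℕ // w ∈ lw A L},
      V4_P A L Ω v i.val * (V4_sys hA hL hΩ c hc0 hc1 h).Psi k
        ((2 ^ i.val.sum * v + T10_be i.val) / 3 ^ L) ≤ _
    rw [Finset.sum_coe_sort (lw A L) (fun w => V4_P A L Ω v w *
      (V4_sys hA hL hΩ c hc0 hc1 h).Psi k ((2 ^ w.sum * v + T10_be w) / 3 ^ L))]
    refine add_le_add le_rfl (le_trans (Finset.sum_le_sum fun w hw => ?_) e2)
    exact mul_le_mul_of_nonneg_left (ih _) (V4_P_nonneg hA hΩ v hw)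

theorem V4_super {A L : ℕ} (hA : 6 ≤ A) {Ω : List ℕ → ℝ} (hΩ : ∀ w ∈ lw A L, 0 < Ω w) {m : ℕ}
    {ρ : ℝ} (hρ : 0 ≤ ρ) (h : ∀ v : ℤ, ρ ≤ Bw A L Ω m v) (n : ℕ) {σ : ℝ}
    (h2 : ∀ v : ℤ, σ ≤ Bw A L Ω n v) (hσ : 0 ≤ σ) (v : ℤ) : ρ * σ ≤ Bw A L Ω (m + n) v := by
  rw [Bw_add]
  have h1 : ∑ u ∈ bws A L m, (if adm v u.flatten then (u.map Ω).prod else 0) * σ ≤
      ∑ u ∈ bws A L m, if adm v u.flatten then (u.map Ω).prod * Bw A L Ω n (te v u.flatten)
        else 0 := by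
    refine Finset.sum_le_sum fun u hu => ?_
    by_cases ha : adm v u.flatten
    · rw [if_pos ha, if_pos ha]
      refine mul_le_mul_of_nonneg_left (h2 _) (List.prod_nonneg ?_)
      intro a ha
      obtain ⟨w, hw, rfl⟩ := List.mem_map.1 ha
      exact (hΩ w ((mem_bws.1 hu).2 w hw)).le
    · rw [if_neg ha, if_neg ha, zero_mul]
  rw [← Finset.sum_mul, ← Bw_eq] at h1
  exact (mul_le_mul_of_nonneg_right (h v) hσ).trans h1

theorem V4_pow {A L : ℕ} (hA : 6 ≤ A) {Ω : List ℕ → ℝ} (hΩ : ∀ w ∈ lw A L, 0 < Ω w) {m : ℕ}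
    {ρ : ℝ} (hρ : 0 ≤ ρ) (h : ∀ v : ℤ, ρ ≤ Bw A L Ω m v) (k : ℕ) (v : ℤ) :
    ρ ^ k ≤ Bw A L Ω (m * k) v := by
  induction k generalizing v with
  | zero => exact le_of_eq (by rw [pow_zero]; rfl)
  | succ k ih =>
    have h3 := V4_super hA hΩ hρ h (m * k) ih (pow_nonneg hρ k) v
    rw [show m * (k + 1) = m + m * k by ring, pow_succ, mul_comm]
    exact h3

theorem growth_of_mean {A L : ℕ} (hA : 6 ≤ A) (hL : 1 ≤ L) {Ω : List ℕ → ℝ}
    (hΩ : ∀ w ∈ lw A L, 0 < Ω w) (hmean : 0 < Av L (fun v => Real.log (Bw A L Ω 1 v))) :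
    ∃ m : ℕ, 1 ≤ m ∧ ∀ v : ℤ, 2 ≤ Bw A L Ω m v := by
  obtain ⟨c, hc0, hc1, hc⟩ := V4_c hA hΩ
  obtain ⟨k, hk⟩ := (V4_sys hA hL hΩ c hc0 hc1 hc).thmR hmean
  have hk0 : 1 ≤ k := by
    rcases Nat.eq_zero_or_pos k with rfl | h
    · exact absurd (hk 0) (lt_irrefl _)
    · exact h
  have hgt : ∀ v : ℤ, 1 < Bw A L Ω k v := by
    intro v
    have h2 := lt_of_lt_of_le (hk v) (V4_jensen hA hL hΩ c hc0 hc1 hc k v)
    exact (Real.log_pos_iff (V4_pos hA hΩ _ v).le).1 h2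
  obtain ⟨r, -, hr⟩ := Finset.exists_min_image (Finset.range (3 ^ (L * k)))
    (fun r : ℕ => Bw A L Ω k (r : ℤ)) ⟨0, Finset.mem_range.2 (by positivity)⟩
  have hmin : ∀ v : ℤ, Bw A L Ω k r ≤ Bw A L Ω k v := by
    intro v
    have h3 : (0 : ℤ) < 3 ^ (L * k) := by positivity
    have e := Bw_per A L Ω k (v % 3 ^ (L * k)) (v / 3 ^ (L * k))
    rw [Int.emod_add_mul_ediv] at e
    have h4 := hr (v % 3 ^ (L * k)).toNat (by
      rw [Finset.mem_range]
      have h5 := Int.emod_nonneg v h3.ne'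
      have h6 := Int.emod_lt_of_pos v h3
      have h7 : (((v % 3 ^ (L * k)).toNat : ℕ) : ℤ) < ((3 ^ (L * k) : ℕ) : ℤ) := by
        rw [Int.toNat_of_nonneg h5]
        push_cast
        exact h6
      exact_mod_cast h7)
    rw [Int.toNat_of_nonneg (Int.emod_nonneg v h3.ne')] at h4
    rw [e]
    exact h4
  obtain ⟨j, hj⟩ := pow_unbounded_of_one_lt (2 : ℝ) (hgt r)
  have hj0 : 1 ≤ j := by
    rcases Nat.eq_zero_or_pos j with rfl | h
    · rw [pow_zero] at hj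
      norm_num at hj
    · exact h
  refine ⟨k * j, Nat.mul_pos hk0 hj0, fun v => ?_⟩
  exact hj.le.trans (V4_pow hA hΩ (zero_le_one.trans (hgt r).le) hmin j v)

end Pool.Agent.Lib.MP_e43fce_nt_one
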