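import Pool.Agent.Lib.MP_e43fce_nt_one.Defs
import Pool.Agent.Lib.MP_e43fce_nt_one.Defs2
import Pool.Agent.Lib.MP_e43fce_nt_one.V2
import Pool.Agent.Lib.MP_e43fce_nt_one.C01
import Pool.Agent.Lib.MP_e43fce_nt_one.T04

/-!
Module V5.
The counting argument of C02 for block words, with the factors `exp (-τ k(u))` and
`exp (-t texc u)`; the words with many Collatz steps or with a large excess contribute a lower
power of `x`.
-/

set_option autoImplicit false

open Finset

namespace Pool.Agent.Lib.MP_e43fce_nt_one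

/-- the node as a real number -/
noncomputable def V5_nd (v : ℤ) : ℝ := ((2 + 3 * v : ℤ) : ℝ)

/-- the penalty of a block word -/
noncomputable def V5_pen (τ t : ℝ) (L : ℕ) (u : List (List ℕ)) : ℝ :=
  Real.exp (-(τ * ((u.flatten.sum : ℝ) + u.flatten.length))) * Real.exp (-(t * texc L u))

open Classical in
/-- weighted number of descendants after super blocks of `m` blocks; all nodes but the last one are
`≤ x / K`, the last one satisfies `P` -/
noncomputable def V5_V (A L m : ℕ) (γ τ t : ℝ) (x : ℕ) (P : ℤ → Prop) : ℕ → ℤ → ℝ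
  | 0, v => if P v then (V5_nd v) ^ (-γ) else 0
  | i + 1, v => if 2 ^ (A * (m * L)) * (2 + 3 * v) ≤ (x : ℤ) then
      ∑ u ∈ bws A L m, (if adm v u.flatten then
        V5_pen τ t L u * V5_V A L m γ τ t x P i (te v u.flatten) else 0) else 0

private theorem pen_pos (τ t : ℝ) (L : ℕ) (u : List (List ℕ)) : 0 < V5_pen τ t L u := by
  unfold V5_pen; positivity

private theorem texc_nonneg (L : ℕ) (u : List (List ℕ)) : 0 ≤ texc L u := by
  unfold texc
  apply List.sum_nonneg
  intro y hy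
  obtain ⟨w, _, rfl⟩ := List.mem_map.1 hy
  exact le_max_right _ _

private theorem pen_append (τ t : ℝ) (L : ℕ) (u w : List (List ℕ)) :
    V5_pen τ t L (u ++ w) = V5_pen τ t L u * V5_pen τ t L w := by
  unfold V5_pen texc
  rw [List.flatten_append, List.sum_append, List.length_append, List.map_append, List.sum_append,
    Nat.cast_add, Nat.cast_add, ← Real.exp_add, ← Real.exp_add, ← Real.exp_add, ← Real.exp_add]
  congr 1
  ring

private theorem nd_pos {v : ℤ} (hv : 0 ≤ v) : 0 < V5_nd v := by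
  unfold V5_nd
  have : (0 : ℤ) < 2 + 3 * v := by omega
  exact_mod_cast this

private theorem one_le_nd {v : ℤ} (hv : 0 ≤ v) : 1 ≤ V5_nd v := by
  unfold V5_nd
  have : (1 : ℤ) ≤ 2 + 3 * v := by omega
  exact_mod_cast this

private theorem flat_mem {A L n : ℕ} {u : List (List ℕ)} (hu : u ∈ bws A L n) :
    u.flatten ∈ lw A (n * L) := by
  obtain ⟨h1, h2⟩ := mem_bws.1 hu
  subst h1
  clear hu
  rw [mem_lw]
  induction u with
  | nil => simp
  | cons w u ih =>
    obtain ⟨i1, i2⟩ := ih (fun w' hw' => h2 w' (by simp [hw']))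
    obtain ⟨j1, j2⟩ := mem_lw.1 (h2 w (by simp))
    refine ⟨?_, ?_⟩
    · rw [List.flatten_cons, List.length_append, i1, j1, List.length_cons]
      ring
    · intro j hj
      rw [List.flatten_cons, List.mem_append] at hj
      rcases hj with hj | hj
      · exact j2 j hj
      · exact i2 j hj

private theorem flat_inj {A L n : ℕ} : ∀ {u u' : List (List ℕ)}, u ∈ bws A L n →
    u' ∈ bws A L n → u.flatten = u'.flatten → u = u' := by
  induction n with
  | zero =>
    intro u u' hu hu' _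
    have h1 := (mem_bws.1 hu).1
    have h2 := (mem_bws.1 hu').1
    rw [List.length_eq_zero_iff] at h1 h2
    rw [h1, h2]
  | succ n ih =>
    intro u u' hu hu' h
    obtain ⟨h1, h2⟩ := mem_bws.1 hu
    obtain ⟨h1', h2'⟩ := mem_bws.1 hu'
    cases u with
    | nil => simp at h1
    | cons w u =>
      cases u' with
      | nil => simp at h1'
      | cons w' u' =>
        rw [List.flatten_cons, List.flatten_cons] at h
        have hl : w.length = w'.length :=
          (mem_lw.1 (h2 w (by simp))).1.trans (mem_lw.1 (h2' w' (by simp))).1.symm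
        obtain ⟨e1, e2⟩ := List.append_inj h hl
        have e3 : u = u' := by
          apply ih _ _ e2
          · rw [mem_bws]
            exact ⟨by simpa using h1, fun a ha => h2 a (by simp [ha])⟩
          · rw [mem_bws]
            exact ⟨by simpa using h1', fun a ha => h2' a (by simp [ha])⟩
        rw [e1, e3]

private theorem sum_bws_add (A L m n : ℕ) (f : List (List ℕ) → ℝ) :
    ∑ u ∈ bws A L (m + n), f u = ∑ u ∈ bws A L m, ∑ w ∈ bws A L n, f (u ++ w) := by
  induction m generalizing f with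
  | zero =>
    have : bws A L 0 = {[]} := rfl
    rw [this, sum_singleton, zero_add]
    simp
  | succ m ih =>
    have e : m + 1 + n = (m + n) + 1 := by ring
    rw [e, sum_bws_succ, sum_bws_succ]
    apply sum_congr rfl
    intro w _
    rw [ih]
    simp

private theorem te_nonneg {v : ℤ} (hv : 0 ≤ v) {A n : ℕ} {w : List ℕ} (hw : w ∈ lw A n)
    (h : adm v w) : 0 ≤ te v w :=
  (col_word hv (fun j hj => ((mem_lw.1 hw).2 j hj).1) h).1

private theorem sum_le_of_mem {A n : ℕ} {w : List ℕ} (hw : w ∈ lw A n) : w.sum ≤ A * n := by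
  obtain ⟨h1, h2⟩ := mem_lw.1 hw
  have := List.sum_le_card_nsmul w A (fun j hj => (h2 j hj).2)
  rw [h1, smul_eq_mul] at this
  rwa [mul_comm]

private theorem node_bound {v : ℤ} {A n : ℕ} {w : List ℕ} (hw : w ∈ lw A n) (h : adm v w) :
    (3 : ℤ) ^ n * (2 + 3 * te v w) ≤ 2 ^ w.sum * (2 + 3 * v) := by
  have h1 := te_eq h
  have h2 := Nw_nonneg w
  rw [(mem_lw.1 hw).1] at h1
  linarith

private theorem nd_te_le {v : ℤ} {A n : ℕ} {w : List ℕ} (hw : w ∈ lw A n) (h : adm v w) :
    3 ^ n * V5_nd (te v w) ≤ 2 ^ w.sum * V5_nd v := by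
  unfold V5_nd
  exact_mod_cast node_bound hw h

private theorem node_le {v : ℤ} (hv : 0 ≤ v) {A n : ℕ} {w : List ℕ} (hw : w ∈ lw A n)
    (h : adm v w) : 2 + 3 * te v w ≤ 2 ^ (A * n) * (2 + 3 * v) := by
  have h0 := te_nonneg hv hw h
  have h3 := node_bound hw h
  have h4 : (1 : ℤ) ≤ 3 ^ n := by
    have := Nat.one_le_pow n 3 (by norm_num)
    exact_mod_cast this
  have h5 : (2 : ℤ) ^ w.sum ≤ 2 ^ (A * n) := by
    have := Nat.pow_le_pow_right (n := 2) (by norm_num) (sum_le_of_mem hw)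
    exact_mod_cast this
  have h6 : (0 : ℤ) ≤ 2 + 3 * te v w := by omega
  have h7 : (0 : ℤ) ≤ 2 + 3 * v := by omega
  calc 2 + 3 * te v w ≤ 3 ^ n * (2 + 3 * te v w) := by nlinarith
    _ ≤ 2 ^ w.sum * (2 + 3 * v) := h3
    _ ≤ 2 ^ (A * n) * (2 + 3 * v) := mul_le_mul_of_nonneg_right h5 h7

/-- one super block doubles the weight -/
private theorem block {γ τ t : ℝ} (h0 : 0 < γ) {A L m : ℕ}
    (h : ∀ v : ℤ, 2 ≤ Bw A L (OB γ τ t L) m v) {v : ℤ} (hv : 0 ≤ v) :
    2 * (V5_nd v) ^ (-γ) ≤ ∑ u ∈ bws A L m, (if adm v u.flatten then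
      V5_pen τ t L u * (V5_nd (te v u.flatten)) ^ (-γ) else 0) := by
  have h1 := h v
  rw [Bw_eq] at h1
  have hp := nd_pos hv
  have hq : 0 < (V5_nd v) ^ (-γ) := Real.rpow_pos_of_pos hp _
  calc 2 * (V5_nd v) ^ (-γ)
      ≤ (∑ u ∈ bws A L m, if adm v u.flatten then (u.map (OB γ τ t L)).prod else 0) *
        (V5_nd v) ^ (-γ) := mul_le_mul_of_nonneg_right h1 hq.le
    _ = ∑ u ∈ bws A L m, (if adm v u.flatten then
          (u.map (OB γ τ t L)).prod * (V5_nd v) ^ (-γ) else 0) := by
        rw [sum_mul]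
        apply sum_congr rfl
        intro w _
        split_ifs <;> simp
    _ ≤ _ := by
        apply sum_le_sum
        intro u hu
        split_ifs with ha
        · have hw := flat_mem hu
          rw [prod_OB γ τ t L u (fun w hw => (mem_lw.1 ((mem_bws.1 hu).2 w hw)).1)]
          have hlen : u.flatten.length = m * L := (mem_lw.1 hw).1
          have ht := nd_pos (te_nonneg hv hw ha)
          have hle := nd_te_le hw ha
          have e1 : (3 ^ u.flatten.length / 2 ^ u.flatten.sum : ℝ) ^ γ * (V5_nd v) ^ (-γ) =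
              (2 ^ u.flatten.sum * V5_nd v / 3 ^ (m * L)) ^ (-γ) := by
            rw [hlen, Real.rpow_neg hp.le, Real.rpow_neg (by positivity), ← div_eq_mul_inv,
              ← Real.div_rpow (by positivity) hp.le, ← Real.inv_rpow (by positivity)]
            congr 1
            field_simp
          have e2 : (2 ^ u.flatten.sum * V5_nd v / 3 ^ (m * L)) ^ (-γ) ≤
              (V5_nd (te v u.flatten)) ^ (-γ) := by
            apply Real.rpow_le_rpow_of_nonpos ht _ (by linarith)
            rw [le_div_iff₀ (by positivity)]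
            linarith
          have hpen : 0 < V5_pen τ t L u := pen_pos _ _ _ _
          calc (3 ^ u.flatten.length / 2 ^ u.flatten.sum : ℝ) ^ γ *
                Real.exp (-(τ * ((u.flatten.sum : ℝ) + u.flatten.length))) *
                Real.exp (-(t * texc L u)) * (V5_nd v) ^ (-γ)
              = V5_pen τ t L u *
                ((3 ^ u.flatten.length / 2 ^ u.flatten.sum : ℝ) ^ γ * (V5_nd v) ^ (-γ)) := by
                unfold V5_pen; ring
            _ ≤ V5_pen τ t L u * (V5_nd (te v u.flatten)) ^ (-γ) := by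
                rw [e1]
                exact mul_le_mul_of_nonneg_left e2 hpen.le
        · exact le_rfl

open Classical in
private theorem grow {γ τ t : ℝ} (h0 : 0 < γ) {A L m : ℕ}
    (h : ∀ v : ℤ, 2 ≤ Bw A L (OB γ τ t L) m v) (x : ℕ) :
    ∀ (i : ℕ) (v : ℤ), 0 ≤ v → 2 + 3 * v ≤ (x : ℤ) → 2 ^ i * (V5_nd v) ^ (-γ) ≤
      V5_V A L m γ τ t x (fun v => 2 ^ (A * (m * L)) * (2 + 3 * v) ≤ (x : ℤ)) i v +
      ∑ j ∈ range (i + 1), 2 ^ (i - j) *
        V5_V A L m γ τ t x (fun v => 2 + 3 * v ≤ (x : ℤ) ∧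
          ¬ 2 ^ (A * (m * L)) * (2 + 3 * v) ≤ (x : ℤ)) j v := by
  intro i
  induction i with
  | zero =>
    intro v hv hx
    simp only [V5_V, zero_add, sum_range_one, pow_zero, one_mul]
    by_cases hK : 2 ^ (A * (m * L)) * (2 + 3 * v) ≤ (x : ℤ)
    · simp [hK]
    · simp [hK, hx]
  | succ i ih =>
    intro v hv hx
    rw [sum_range_succ']
    by_cases hK : 2 ^ (A * (m * L)) * (2 + 3 * v) ≤ (x : ℤ)
    · have e0 : V5_V A L m γ τ t x (fun v => 2 + 3 * v ≤ (x : ℤ) ∧
          ¬ 2 ^ (A * (m * L)) * (2 + 3 * v) ≤ (x : ℤ)) 0 v = 0 := by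
        simp [V5_V, hK]
      rw [e0, mul_zero, add_zero]
      have e1 : ∀ j ∈ range (i + 1), (2 : ℝ) ^ (i + 1 - (j + 1)) *
          V5_V A L m γ τ t x (fun v => 2 + 3 * v ≤ (x : ℤ) ∧
            ¬ 2 ^ (A * (m * L)) * (2 + 3 * v) ≤ (x : ℤ)) (j + 1) v =
          ∑ u ∈ bws A L m, (if adm v u.flatten then V5_pen τ t L u * ((2 : ℝ) ^ (i - j) *
            V5_V A L m γ τ t x (fun v => 2 + 3 * v ≤ (x : ℤ) ∧
            ¬ 2 ^ (A * (m * L)) * (2 + 3 * v) ≤ (x : ℤ)) j (te v u.flatten)) else 0) := by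
        intro j _
        have e2 : i + 1 - (j + 1) = i - j := by omega
        rw [e2]
        simp only [V5_V]
        rw [if_pos hK, mul_sum]
        apply sum_congr rfl
        intro u _
        split_ifs
        · ring
        · simp
      rw [sum_congr rfl e1, sum_comm]
      have e3 : V5_V A L m γ τ t x (fun v => 2 ^ (A * (m * L)) * (2 + 3 * v) ≤ (x : ℤ)) (i + 1) v =
          ∑ u ∈ bws A L m, (if adm v u.flatten then V5_pen τ t L u *
            V5_V A L m γ τ t x (fun v => 2 ^ (A * (m * L)) * (2 + 3 * v) ≤ (x : ℤ)) i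
              (te v u.flatten) else 0) := by
        simp only [V5_V]
        rw [if_pos hK]
      rw [e3, ← sum_add_distrib]
      calc 2 ^ (i + 1) * (V5_nd v) ^ (-γ) = 2 ^ i * (2 * (V5_nd v) ^ (-γ)) := by ring
        _ ≤ 2 ^ i * ∑ u ∈ bws A L m, (if adm v u.flatten then
              V5_pen τ t L u * (V5_nd (te v u.flatten)) ^ (-γ) else 0) :=
            mul_le_mul_of_nonneg_left (block h0 h hv) (by positivity)
        _ ≤ _ := by
            rw [mul_sum]
            apply sum_le_sum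
            intro u hu
            by_cases ha : adm v u.flatten
            · simp only [ha, if_true]
              have hw := flat_mem hu
              have h5 := ih (te v u.flatten) (te_nonneg hv hw ha) ((node_le hv hw ha).trans hK)
              have h6 := mul_le_mul_of_nonneg_left h5 (pen_pos τ t L u).le
              rw [mul_add, mul_sum] at h6
              calc _ = V5_pen τ t L u * (2 ^ i * (V5_nd (te v u.flatten)) ^ (-γ)) := by ring
                _ ≤ _ := h6
            · simp [ha]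
    · have e0 : V5_V A L m γ τ t x (fun v => 2 + 3 * v ≤ (x : ℤ) ∧
          ¬ 2 ^ (A * (m * L)) * (2 + 3 * v) ≤ (x : ℤ)) 0 v = (V5_nd v) ^ (-γ) := by
        simp [V5_V, hK, hx]
      have e1 : ∀ j ∈ range (i + 1), (2 : ℝ) ^ (i + 1 - (j + 1)) *
          V5_V A L m γ τ t x (fun v => 2 + 3 * v ≤ (x : ℤ) ∧
            ¬ 2 ^ (A * (m * L)) * (2 + 3 * v) ≤ (x : ℤ)) (j + 1) v = 0 := by
        intro j _
        simp only [V5_V]
        rw [if_neg hK, mul_zero]
      have e3 : V5_V A L m γ τ t x (fun v => 2 ^ (A * (m * L)) * (2 + 3 * v) ≤ (x : ℤ))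
          (i + 1) v = 0 := by
        simp only [V5_V]
        rw [if_neg hK]
      rw [e0, sum_eq_zero e1, e3]
      simp

open Classical in
private theorem V_le {γ τ t : ℝ} {A L m : ℕ} (x : ℕ) (P : ℤ → Prop) :
    ∀ (i : ℕ) (v : ℤ), 0 ≤ v → V5_V A L m γ τ t x P i v ≤
      ∑ u ∈ bws A L (i * m), (if adm v u.flatten ∧ P (te v u.flatten) then
        V5_pen τ t L u * (V5_nd (te v u.flatten)) ^ (-γ) else 0) := by
  intro i
  induction i with
  | zero =>
    intro v hv
    rw [zero_mul]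
    have : bws A L 0 = {[]} := rfl
    rw [this, sum_singleton]
    have hpen : V5_pen τ t L [] = 1 := by simp [V5_pen, texc]
    simp only [V5_V, List.flatten_nil, adm, te, true_and, hpen, one_mul]
    exact le_rfl
  | succ i ih =>
    intro v hv
    have hnn : ∀ (n : ℕ) (u : List (List ℕ)), u ∈ bws A L n →
        0 ≤ (if adm v u.flatten ∧ P (te v u.flatten) then
          V5_pen τ t L u * (V5_nd (te v u.flatten)) ^ (-γ) else 0) := by
      intro n u hu
      split_ifs with h
      · exact (mul_pos (pen_pos _ _ _ _)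
          (Real.rpow_pos_of_pos (nd_pos (te_nonneg hv (flat_mem hu) h.1)) _)).le
      · exact le_rfl
    have e : (i + 1) * m = m + i * m := by ring
    rw [e]
    simp only [V5_V]
    by_cases hK : 2 ^ (A * (m * L)) * (2 + 3 * v) ≤ (x : ℤ)
    · rw [if_pos hK, sum_bws_add]
      apply sum_le_sum
      intro u hu
      by_cases ha : adm v u.flatten
      · rw [if_pos ha]
        refine (mul_le_mul_of_nonneg_left (ih (te v u.flatten)
          (te_nonneg hv (flat_mem hu) ha)) (pen_pos τ t L u).le).trans (le_of_eq ?_)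
        rw [mul_sum]
        apply sum_congr rfl
        intro w _
        simp only [List.flatten_append, te_append, adm_append, ha, true_and, pen_append, mul_ite,
          mul_zero, mul_assoc]
      · rw [if_neg ha]
        apply sum_nonneg
        intro w _
        simp [List.flatten_append, adm_append, ha]
    · rw [if_neg hK]
      exact sum_nonneg (fun w hw => hnn _ w hw)

/-- the number of admissible block words whose end node lies in a set -/
private theorem card_le {A L n : ℕ} {v : ℤ} (hv : 0 ≤ v) (T : Finset ℕ)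
    (F : Finset (List (List ℕ)))
    (hF : ∀ u ∈ F, u ∈ bws A L n ∧ adm v u.flatten ∧ (2 + 3 * te v u.flatten).toNat ∈ T) :
    F.card ≤ T.card := by
  apply card_le_card_of_injOn (fun u => (2 + 3 * te v u.flatten).toNat)
  · intro u hu
    exact (hF u hu).2.2
  · intro u hu u' hu' huu
    obtain ⟨h1, h2, h3⟩ := hF u hu
    obtain ⟨h1', h2', h3'⟩ := hF u' hu'
    have f1 := flat_mem h1
    have f2 := flat_mem h1'
    have k1 := te_nonneg hv f1 h2
    have k2 := te_nonneg hv f2 h2'
    have k3 : te v u.flatten = te v u'.flatten := by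
      have : (2 + 3 * te v u.flatten).toNat = (2 + 3 * te v u'.flatten).toNat := huu
      omega
    exact flat_inj h1 h1' (node_inj hv (fun j hj => ((mem_lw.1 f1).2 j hj).1)
      (fun j hj => ((mem_lw.1 f2).2 j hj).1)
      ((mem_lw.1 f1).1.trans (mem_lw.1 f2).1.symm) h2 h2' k3)

private theorem rpow_small {e γ δ : ℝ} (he : e < γ) (hδ : 0 < δ) :
    ∃ X : ℕ, ∀ x : ℕ, X ≤ x → (x : ℝ) ^ e ≤ δ * (x : ℝ) ^ γ := by
  have h1 : Filter.Tendsto (fun x : ℝ => x ^ (-(γ - e))) Filter.atTop (nhds 0) :=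
    tendsto_rpow_neg_atTop (by linarith)
  have h2 : Filter.Tendsto (fun x : ℕ => (x : ℝ) ^ (-(γ - e))) Filter.atTop (nhds 0) :=
    h1.comp tendsto_natCast_atTop_atTop
  have h3 := (h2.eventually (gt_mem_nhds hδ)).and (Filter.eventually_ge_atTop 1)
  obtain ⟨X, hX⟩ := Filter.eventually_atTop.1 h3
  refine ⟨X, fun x hx => ?_⟩
  obtain ⟨g1, g2⟩ := hX x hx
  have hx0 : (0 : ℝ) < x := by
    have : 0 < x := by omega
    exact_mod_cast this
  have e1 : (x : ℝ) ^ e = (x : ℝ) ^ (-(γ - e)) * (x : ℝ) ^ γ := by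
    rw [← Real.rpow_add hx0]
    congr 1
    ring
  rw [e1]
  exact mul_le_mul_of_nonneg_right g1.le (Real.rpow_nonneg hx0.le _)

private theorem pen_le_one {τ t : ℝ} (hτ : 0 < τ) (ht : 0 < t) (L : ℕ) (u : List (List ℕ)) :
    V5_pen τ t L u ≤ 1 := by
  unfold V5_pen
  have h1 : Real.exp (-(τ * ((u.flatten.sum : ℝ) + u.flatten.length))) ≤ 1 := by
    rw [Real.exp_le_one_iff]
    have : 0 ≤ τ * ((u.flatten.sum : ℝ) + u.flatten.length) := by positivity
    linarith
  have h2 : Real.exp (-(t * texc L u)) ≤ 1 := by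
    rw [Real.exp_le_one_iff]
    have := mul_nonneg ht.le (texc_nonneg L u)
    linarith
  exact mul_le_one₀ h1 (Real.exp_pos _).le h2

/-- the penalty is small for a bad word -/
private theorem pen_le {τ t C kap : ℝ} (hτ : 0 < τ) (ht : 0 < t) (L : ℕ) (u : List (List ℕ))
    {x : ℕ} (hx : 1 ≤ x) :
    V5_pen τ t L u ≤ (if (((u.flatten.sum : ℝ) + u.flatten.length ≤ C * Real.log x) ∧
      texc L u ≤ kap * Real.log x) then 1 else 0) + ((x : ℝ) ^ (-(τ * C)) +
      (x : ℝ) ^ (-(t * kap))) := by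
  have hx0 : (0 : ℝ) < x := by exact_mod_cast hx
  have p1 : 0 < (x : ℝ) ^ (-(τ * C)) := Real.rpow_pos_of_pos hx0 _
  have p2 : 0 < (x : ℝ) ^ (-(t * kap)) := Real.rpow_pos_of_pos hx0 _
  split_ifs with h
  · have := pen_le_one hτ ht L u
    linarith
  · have h1 : Real.exp (-(τ * ((u.flatten.sum : ℝ) + u.flatten.length))) ≤ 1 := by
      rw [Real.exp_le_one_iff]
      have : 0 ≤ τ * ((u.flatten.sum : ℝ) + u.flatten.length) := by positivity
      linarith
    have h2 : Real.exp (-(t * texc L u)) ≤ 1 := by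
      rw [Real.exp_le_one_iff]
      have := mul_nonneg ht.le (texc_nonneg L u)
      linarith
    rw [not_and_or, not_le, not_le] at h
    rcases h with h | h
    · have h3 : Real.exp (-(τ * ((u.flatten.sum : ℝ) + u.flatten.length))) ≤
          (x : ℝ) ^ (-(τ * C)) := by
        rw [Real.rpow_def_of_pos hx0, Real.exp_le_exp]
        nlinarith
      have h4 : V5_pen τ t L u ≤ (x : ℝ) ^ (-(τ * C)) := by
        unfold V5_pen
        calc _ ≤ (x : ℝ) ^ (-(τ * C)) * 1 :=
              mul_le_mul h3 h2 (Real.exp_pos _).le p1.le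
          _ = _ := mul_one _
      linarith
    · have h3 : Real.exp (-(t * texc L u)) ≤ (x : ℝ) ^ (-(t * kap)) := by
        rw [Real.rpow_def_of_pos hx0, Real.exp_le_exp]
        nlinarith
      have h4 : V5_pen τ t L u ≤ (x : ℝ) ^ (-(t * kap)) := by
        unfold V5_pen
        calc _ ≤ 1 * (x : ℝ) ^ (-(t * kap)) :=
              mul_le_mul h1 h3 (Real.exp_pos _).le zero_le_one
          _ = _ := one_mul _
      linarith

open Classical in
private theorem U_bound {γ τ t : ℝ} (h0 : 0 < γ) (hτ : 0 < τ) (ht : 0 < t) {A L m : ℕ} (x : ℕ)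
    (P : ℤ → Prop) (hP : ∀ y : ℤ, 0 ≤ y → P y → 2 + 3 * y ≤ (x : ℤ)) (i : ℕ) {v : ℤ}
    (hv : 0 ≤ v) : V5_V A L m γ τ t x P i v ≤ x := by
  refine (V_le (γ := γ) (τ := τ) (t := t) (A := A) (L := L) (m := m) x P i v hv).trans ?_
  rw [← sum_filter]
  calc _ ≤ ∑ _u ∈ (bws A L (i * m)).filter (fun u => adm v u.flatten ∧ P (te v u.flatten)),
          (1 : ℝ) := by
        apply sum_le_sum
        intro u hu
        obtain ⟨g1, g2, g3⟩ := mem_filter.1 hu
        have g4 := te_nonneg hv (flat_mem g1) g2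
        exact mul_le_one₀ (pen_le_one hτ ht L u) (Real.rpow_nonneg (nd_pos g4).le _)
          (Real.rpow_le_one_of_one_le_of_nonpos (one_le_nd g4) (by linarith))
    _ = ((bws A L (i * m)).filter (fun u => adm v u.flatten ∧ P (te v u.flatten))).card := by
        simp
    _ ≤ x := by
        have : ((bws A L (i * m)).filter
            (fun u => adm v u.flatten ∧ P (te v u.flatten))).card ≤ x := by
          refine (card_le (A := A) (L := L) (n := i * m) hv (Icc 1 x) _ ?_).trans (by simp)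
          intro u hu
          obtain ⟨g1, ha, hP'⟩ := mem_filter.1 hu
          have h1 := te_nonneg hv (flat_mem g1) ha
          have h2 := hP _ h1 hP'
          refine ⟨g1, ha, ?_⟩
          rw [mem_Icc]
          omega
        exact_mod_cast this

open Classical in
private theorem R_bound {γ τ t C kap B E : ℝ} (hτ : 0 < τ) (ht : 0 < t)
    {A L m : ℕ} {x : ℕ} (hx : 1 ≤ x) (hB : 0 < B) (hE : 0 ≤ E)
    (hE' : (x : ℝ) ^ (-(τ * C)) + (x : ℝ) ^ (-(t * kap)) = E)
    (P : ℤ → Prop) (hP : ∀ y : ℤ, 0 ≤ y → P y → 2 + 3 * y ≤ (x : ℤ))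
    (hPB : ∀ y : ℤ, 0 ≤ y → P y → (V5_nd y) ^ (-γ) ≤ B) (T : Finset ℕ) (i : ℕ) {v : ℤ}
    (hv : 0 ≤ v) (hT : ∀ u ∈ bws A L (i * m), adm v u.flatten → P (te v u.flatten) →
      ((u.flatten.sum : ℝ) + u.flatten.length ≤ C * Real.log x) → texc L u ≤ kap * Real.log x →
      (2 + 3 * te v u.flatten).toNat ∈ T) :
    V5_V A L m γ τ t x P i v ≤ (T.card + x * E) * B := by
  refine (V_le (γ := γ) (τ := τ) (t := t) (A := A) (L := L) (m := m) x P i v hv).trans ?_
  rw [← sum_filter]
  set F := (bws A L (i * m)).filter (fun u => adm v u.flatten ∧ P (te v u.flatten)) with hF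
  calc _ ≤ ∑ u ∈ F, ((if (((u.flatten.sum : ℝ) + u.flatten.length ≤ C * Real.log x) ∧
          texc L u ≤ kap * Real.log x) then 1 else 0) + E) * B := by
        apply sum_le_sum
        intro u hu
        obtain ⟨g1, g2, g3⟩ := mem_filter.1 hu
        have g4 := te_nonneg hv (flat_mem g1) g2
        have g7 := pen_le (C := C) (kap := kap) hτ ht L u hx
        rw [hE'] at g7
        refine mul_le_mul g7 (hPB _ g4 g3) (Real.rpow_nonneg (nd_pos g4).le _) ?_
        split_ifs <;> linarith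
    _ = (((F.filter (fun u => ((u.flatten.sum : ℝ) + u.flatten.length ≤ C * Real.log x) ∧
          texc L u ≤ kap * Real.log x)).card : ℝ) + F.card * E) * B := by
        rw [← sum_mul, sum_add_distrib, sum_const, nsmul_eq_mul, sum_boole]
    _ ≤ _ := by
        apply mul_le_mul_of_nonneg_right _ hB.le
        apply add_le_add
        · rw [hF, filter_filter]
          apply Nat.cast_le.2
          apply card_le (A := A) (L := L) (n := i * m) hv T
          intro u hu
          obtain ⟨g1, ⟨g2, g3⟩, g4, g5⟩ := mem_filter.1 hu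
          exact ⟨g1, g2, hT u g1 g2 g3 g4 g5⟩
        · apply mul_le_mul_of_nonneg_right _ hE
          have : F.card ≤ x := by
            refine (card_le (A := A) (L := L) (n := i * m) hv (Icc 1 x) _ ?_).trans (by simp)
            intro u hu
            obtain ⟨g1, ha, hP'⟩ := mem_filter.1 hu
            have h1 := te_nonneg hv (flat_mem g1) ha
            have h2 := hP _ h1 hP'
            refine ⟨g1, ha, ?_⟩
            rw [mem_Icc]
            omega
          exact_mod_cast this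

open Classical in
theorem count_block {γ τ t C kap : ℝ} (h0 : 0 < γ) (h1 : γ < 1) (hτ : 0 < τ) (ht : 0 < t)
    (hC : 1 - γ < τ * C) (hkap : 1 - γ < t * kap) {A L m : ℕ} (hA : 1 ≤ A) (hL : 1 ≤ L)
    (hm : 1 ≤ m) (h : ∀ v : ℤ, 2 ≤ Bw A L (OB γ τ t L) m v) :
    ∃ K : ℕ, 1 ≤ K ∧ ∀ v : ℤ, 0 ≤ v → ∃ c : ℝ, 0 < c ∧ ∃ X : ℕ, ∀ x : ℕ, X ≤ x →
      c * (x : ℝ) ^ γ ≤ (((Icc 1 x).filter (fun n => x ≤ K * n ∧ n % 3 = 2 ∧
        ∃ i : ℕ, ∃ u ∈ bws A L i, adm v u.flatten ∧ (2 + 3 * te v u.flatten).toNat = n ∧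
          ((u.flatten.sum : ℝ) + u.flatten.length ≤ C * Real.log x) ∧
          texc L u ≤ kap * Real.log x)).card : ℝ) := by
  have hlog2 : 0 < Real.log 2 := Real.log_pos (by norm_num)
  refine ⟨2 ^ (A * (m * L)), Nat.one_le_two_pow, ?_⟩
  intro v hv
  have hb0 : 0 < V5_nd v := nd_pos hv
  set K : ℝ := 2 ^ (A * (m * L)) with hK
  have hKpos : 0 < K := by positivity
  set q : ℝ := (V5_nd v) ^ (-γ) with hq
  have hqpos : 0 < q := Real.rpow_pos_of_pos hb0 _
  have hKγ : 0 < K ^ γ := Real.rpow_pos_of_pos hKpos _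
  refine ⟨q / 8 / K ^ γ, by positivity, ?_⟩
  obtain ⟨X1, hX1⟩ := rpow_small (e := 1 - τ * C) (γ := γ) (δ := q / 16 / K ^ γ) (by linarith)
    (by positivity)
  obtain ⟨X2, hX2⟩ := rpow_small (e := 1 - t * kap) (γ := γ) (δ := q / 16 / K ^ γ) (by linarith)
    (by positivity)
  obtain ⟨X, hX⟩ := exists_nat_gt (max 3 (max (V5_nd v) (2 * (V5_nd v) ^ γ)))
  refine ⟨max X (max X1 X2), fun x hx => ?_⟩
  have hx' : X ≤ x := (le_max_left _ _).trans hx
  have hx1 := hX1 x ((le_max_left _ _).trans ((le_max_right _ _).trans hx))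
  have hx2' := hX2 x ((le_max_right _ _).trans ((le_max_right _ _).trans hx))
  have hxX : (X : ℝ) ≤ x := by exact_mod_cast hx'
  have hx3 : (3 : ℝ) < x := lt_of_lt_of_le (lt_of_le_of_lt (le_max_left _ _) hX) hxX
  have hxb : V5_nd v < x := lt_of_lt_of_le (lt_of_le_of_lt
    ((le_max_left _ _).trans (le_max_right _ _)) hX) hxX
  have hx2 : 2 * (V5_nd v) ^ γ < x := lt_of_lt_of_le (lt_of_le_of_lt
    ((le_max_right _ _).trans (le_max_right _ _)) hX) hxX
  have hx0 : (0 : ℝ) < x := by linarith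
  have hxone : 1 ≤ x := by
    have : (0 : ℝ) < x := hx0
    exact_mod_cast this
  set i : ℕ := ⌈2 * Real.log x / Real.log 2⌉₊ with hi
  have ht1 : 2 * Real.log x / Real.log 2 ≤ i := Nat.le_ceil _
  have hpow : (x : ℝ) ^ 2 ≤ 2 ^ i := by
    rw [← Real.log_le_log_iff (by positivity) (by positivity), Real.log_pow, Real.log_pow]
    rw [div_le_iff₀ hlog2] at ht1
    exact_mod_cast ht1
  have hbx : 2 + 3 * v ≤ (x : ℤ) := by
    have : ((2 + 3 * v : ℤ) : ℝ) ≤ x := hxb.le
    exact_mod_cast this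
  have hgrow := grow h0 h x i v hv hbx
  rw [← hq] at hgrow
  -- the hits
  set T : Finset ℕ := (Icc 1 x).filter (fun n => x ≤ 2 ^ (A * (m * L)) * n ∧ n % 3 = 2 ∧
        ∃ i : ℕ, ∃ u ∈ bws A L i, adm v u.flatten ∧ (2 + 3 * te v u.flatten).toNat = n ∧
          ((u.flatten.sum : ℝ) + u.flatten.length ≤ C * Real.log x) ∧
          texc L u ≤ kap * Real.log x) with hT
  -- upper bound for `U`
  have hU : V5_V A L m γ τ t x (fun v => 2 ^ (A * (m * L)) * (2 + 3 * v) ≤ (x : ℤ)) i v ≤ x := by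
    apply U_bound h0 hτ ht x _ _ i hv
    intro y hy hP
    have h2 : (1 : ℤ) ≤ 2 ^ (A * (m * L)) := by
      have := Nat.one_le_two_pow (n := A * (m * L))
      exact_mod_cast this
    have hP' : 2 ^ (A * (m * L)) * (2 + 3 * y) ≤ (x : ℤ) := hP
    nlinarith
  set B : ℝ := ((x : ℝ) / K) ^ (-γ) with hB
  have hBpos : 0 < B := by
    rw [hB]
    exact Real.rpow_pos_of_pos (by positivity) _
  set E : ℝ := (x : ℝ) ^ (-(τ * C)) + (x : ℝ) ^ (-(t * kap)) with hE
  have hEpos : 0 < E := by
    rw [hE]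
    have p1 : 0 < (x : ℝ) ^ (-(τ * C)) := Real.rpow_pos_of_pos hx0 _
    have p2 : 0 < (x : ℝ) ^ (-(t * kap)) := Real.rpow_pos_of_pos hx0 _
    linarith
  -- upper bound for `R`
  have hR : ∀ j ∈ range (i + 1), V5_V A L m γ τ t x (fun v => 2 + 3 * v ≤ (x : ℤ) ∧
      ¬ 2 ^ (A * (m * L)) * (2 + 3 * v) ≤ (x : ℤ)) j v ≤ (T.card + x * E) * B := by
    intro j _
    apply R_bound (C := C) (kap := kap) hτ ht hxone hBpos hEpos.le rfl _ _ _ T j hv
    · intro u hu ha hP p3 p4
      obtain ⟨p1, p2⟩ : 2 + 3 * te v u.flatten ≤ (x : ℤ) ∧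
        ¬ 2 ^ (A * (m * L)) * (2 + 3 * te v u.flatten) ≤ (x : ℤ) := hP
      have g4 := te_nonneg hv (flat_mem hu) ha
      rw [hT, mem_filter, mem_Icc]
      refine ⟨by omega, ?_, by omega, j * m, u, hu, ha, rfl, p3, p4⟩
      have e1 : (((2 + 3 * te v u.flatten).toNat : ℕ) : ℤ) = 2 + 3 * te v u.flatten :=
        Int.toNat_of_nonneg (by omega)
      have e2 : (x : ℤ) ≤ 2 ^ (A * (m * L)) *
          (((2 + 3 * te v u.flatten).toNat : ℕ) : ℤ) := by
        rw [e1]
        exact (not_le.1 p2).le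
      exact_mod_cast e2
    · intro y _ hP
      exact hP.1
    · intro y hy hP
      obtain ⟨p1, p2⟩ : 2 + 3 * y ≤ (x : ℤ) ∧
        ¬ 2 ^ (A * (m * L)) * (2 + 3 * y) ≤ (x : ℤ) := hP
      rw [hB]
      apply Real.rpow_le_rpow_of_nonpos (by positivity) _ (by linarith)
      rw [div_le_iff₀ hKpos]
      have h5 : (x : ℤ) ≤ (2 + 3 * y) * 2 ^ (A * (m * L)) := by
        have := (not_le.1 p2).le
        linarith
      rw [hK]
      unfold V5_nd
      exact_mod_cast h5
  -- combine
  have hsum : ∑ j ∈ range (i + 1), (2 : ℝ) ^ (i - j) *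
        V5_V A L m γ τ t x (fun v => 2 + 3 * v ≤ (x : ℤ) ∧
          ¬ 2 ^ (A * (m * L)) * (2 + 3 * v) ≤ (x : ℤ)) j v ≤
      2 ^ (i + 1) * ((T.card + x * E) * B) := by
    calc _ ≤ ∑ j ∈ range (i + 1), (2 : ℝ) ^ (i - j) * ((T.card + x * E) * B) :=
          sum_le_sum (fun i hi => mul_le_mul_of_nonneg_left (hR i hi) (by positivity))
      _ = (∑ j ∈ range (i + 1), (2 : ℝ) ^ (i - j)) * ((T.card + x * E) * B) := by
          rw [sum_mul]
      _ ≤ _ := by
          apply mul_le_mul_of_nonneg_right _ (by positivity)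
          have e : ∑ j ∈ range (i + 1), (2 : ℝ) ^ (i - j) = ∑ j ∈ range (i + 1), (2 : ℝ) ^ j := by
            have := sum_range_reflect (fun j => (2 : ℝ) ^ j) (i + 1)
            simpa using this
          rw [e, geom_sum_eq (by norm_num)]
          norm_num
  have hfin : 2 ^ i * q ≤ x + 2 ^ (i + 1) * ((T.card + x * E) * B) := by linarith
  have hsmall : (x : ℝ) ≤ 2 ^ i * (q / 2) := by
    have e1 : (V5_nd v) ^ γ * q = 1 := by
      rw [hq, ← Real.rpow_add hb0]
      simp
    have e2 : 1 ≤ x * (q / 2) := by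
      calc (1 : ℝ) = (2 * (V5_nd v) ^ γ) * (q / 2) := by linear_combination -e1
        _ ≤ x * (q / 2) := mul_le_mul_of_nonneg_right hx2.le (by positivity)
    calc (x : ℝ) = x * 1 := by ring
      _ ≤ x * (x * (q / 2)) := mul_le_mul_of_nonneg_left e2 hx0.le
      _ = x ^ 2 * (q / 2) := by ring
      _ ≤ 2 ^ i * (q / 2) := mul_le_mul_of_nonneg_right hpow (by positivity)
  have hq4 : q / 4 ≤ (T.card + x * E) * B := by
    have h2t : (0 : ℝ) < 2 ^ i := by positivity
    have : 2 ^ i * (q / 4) ≤ 2 ^ i * ((T.card + x * E) * B) := by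
      rw [pow_succ] at hfin
      nlinarith
    exact le_of_mul_le_mul_left this h2t
  have hxE : (x : ℝ) * E = (x : ℝ) ^ (1 - τ * C) + (x : ℝ) ^ (1 - t * kap) := by
    rw [hE, mul_add]
    have e1 : ∀ s : ℝ, (x : ℝ) * (x : ℝ) ^ (-s) = (x : ℝ) ^ (1 - s) := by
      intro s
      rw [sub_eq_add_neg, Real.rpow_add hx0, Real.rpow_one]
    rw [e1, e1]
  have hmain : q / 4 / K ^ γ * (x : ℝ) ^ γ ≤ T.card + x * E := by
    calc q / 4 / K ^ γ * (x : ℝ) ^ γ = q / 4 * ((x : ℝ) / K) ^ γ := by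
          rw [Real.div_rpow hx0.le hKpos.le]
          ring
      _ ≤ ((T.card + x * E) * B) * ((x : ℝ) / K) ^ γ :=
          mul_le_mul_of_nonneg_right hq4 (by positivity)
      _ = T.card + x * E := by
          rw [mul_assoc, hB, ← Real.rpow_add (by positivity)]
          simp
  rw [hxE] at hmain
  have e5 : q / 4 / K ^ γ * (x : ℝ) ^ γ = q / 8 / K ^ γ * (x : ℝ) ^ γ +
      q / 16 / K ^ γ * (x : ℝ) ^ γ + q / 16 / K ^ γ * (x : ℝ) ^ γ := by ring
  linarith

end Pool.Agent.Lib.MP_e43fce_nt_one
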