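import Pool.Agent.Lib.MP_e43fce_nt_one.Defs
import Pool.Agent.Lib.MP_e43fce_nt_one.Defs2
import Pool.Agent.Lib.MP_e43fce_nt_one.T01
import Pool.Agent.Lib.MP_e43fce_nt_one.T02
import Pool.Agent.Lib.MP_e43fce_nt_one.T04
import Pool.Agent.Lib.MP_e43fce_nt_one.C01
import Pool.Agent.Lib.MP_e43fce_nt_one.V2

/-!
Module V6: lower bound for every hitting time on a path of small excess.
-/

set_option autoImplicit false

open Finset

namespace Pool.Agent.Lib.MP_e43fce_nt_one

/-- halvings `b` and odd steps `o` among the first `k` Collatz steps -/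
theorem V6_steps (y k : ℕ) : ∃ b o : ℕ, b + o = k ∧ 3 ^ o * y ≤ 2 ^ b * col^[k] y := by
  induction k with
  | zero => exact ⟨0, 0, rfl, by simp⟩
  | succ k ih =>
    obtain ⟨b, o, h1, h2⟩ := ih
    rw [Function.iterate_succ_apply']
    by_cases hp : col^[k] y % 2 = 0
    · refine ⟨b + 1, o, by omega, ?_⟩
      have e : ∀ m : ℕ, m % 2 = 0 → col m = m / 2 := by
        intro m hm
        unfold col
        rw [if_pos hm]
      rw [e _ hp]
      have h3 : 2 * (col^[k] y / 2) = col^[k] y := by omega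
      calc 3 ^ o * y ≤ 2 ^ b * col^[k] y := h2
        _ = 2 ^ b * (2 * (col^[k] y / 2)) := by rw [h3]
        _ = 2 ^ (b + 1) * (col^[k] y / 2) := by ring
    · refine ⟨b, o + 1, by omega, ?_⟩
      have e : ∀ m : ℕ, ¬ m % 2 = 0 → col m = 3 * m + 1 := by
        intro m hm
        unfold col
        rw [if_neg hm]
      rw [e _ hp]
      calc 3 ^ (o + 1) * y = 3 * (3 ^ o * y) := by ring
        _ ≤ 3 * (2 ^ b * col^[k] y) := Nat.mul_le_mul_left 3 h2
        _ ≤ 2 ^ b * (3 * col^[k] y + 1) := by nlinarith [Nat.zero_le (2 ^ b)]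

/-- the structure of the first `k` steps of the path of an admissible word -/
theorem V6_path {A : ℕ} {w : List ℕ} (hw : ∀ j ∈ w, 1 ≤ j ∧ j ≤ A) {v : ℤ} (hv : 0 ≤ v)
    (h : adm v w) {k : ℕ} (hk : k ≤ w.sum + w.length) :
    ∃ b o : ℕ, b + o = k ∧
      3 ^ o * (2 + 3 * te v w).toNat ≤ 2 ^ b * col^[k] (2 + 3 * te v w).toNat ∧
      ∃ t s : List ℕ, t ++ s = w ∧ s.length ≤ o ∧ b ≤ s.sum + A := by
  have full : ∀ (w : List ℕ), (∀ j ∈ w, 1 ≤ j ∧ j ≤ A) → ∀ (v : ℤ), 0 ≤ v → adm v w →
      3 ^ w.length * (2 + 3 * te v w).toNat ≤ 2 ^ w.sum * (2 + 3 * v).toNat := by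
    intro w hw v hv h
    have h1 := te_eq h
    have h2 := Nw_nonneg w
    have h3 := (col_word hv (fun j hj => (hw j hj).1) h).1
    have h4 : (3 : ℤ) ^ w.length * (2 + 3 * te v w) ≤ 2 ^ w.sum * (2 + 3 * v) := by
      rw [h1]; linarith
    have e1 : (((2 + 3 * te v w).toNat : ℕ) : ℤ) = 2 + 3 * te v w := Int.toNat_of_nonneg (by linarith)
    have e2 : (((2 + 3 * v).toNat : ℕ) : ℤ) = 2 + 3 * v := Int.toNat_of_nonneg (by linarith)
    rw [← e1, ← e2] at h4
    exact_mod_cast h4
  induction w generalizing v k with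
  | nil =>
    simp only [List.sum_nil, List.length_nil, add_zero, nonpos_iff_eq_zero] at hk
    subst hk
    exact ⟨0, 0, rfl, by simp, [], [], rfl, by simp, by simp⟩
  | cons j w ih =>
    have hfull := full (j :: w) hw v hv h
    have hw' : ∀ i ∈ w, 1 ≤ i ∧ i ≤ A := fun i hi => hw i (by simp [hi])
    obtain ⟨h1, h2⟩ := h
    have hj := hw j (by simp)
    obtain ⟨c1, c2⟩ := col_node hv hj.1 h1
    obtain ⟨d1, d2⟩ := col_word c1 (fun i hi => (hw' i hi).1) h2
    have hy : te v (j :: w) = te (cv v j) w := rfl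
    rw [hy] at hfull ⊢
    rcases Nat.lt_or_ge (w.sum + w.length) k with hlt | hge
    · obtain ⟨k', rfl⟩ : ∃ k', k = k' + (w.sum + w.length) := ⟨k - (w.sum + w.length), by omega⟩
      have hk' : k' ≤ j + 1 := by
        simp only [List.sum_cons, List.length_cons] at hk
        omega
      rw [Function.iterate_add_apply, d2]
      rcases Nat.lt_or_ge j k' with hj' | hj'
      · -- the whole word
        have hkj : k' = j + 1 := by omega
        subst hkj
        rw [c2]
        refine ⟨(j :: w).sum, (j :: w).length, ?_, hfull, [], j :: w, rfl, le_rfl, by omega⟩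
        simp only [List.sum_cons, List.length_cons]
        omega
      · obtain ⟨b', o', e1, e2⟩ := V6_steps (2 + 3 * cv v j).toNat k'
        have hfull' := full w hw' (cv v j) c1 h2
        refine ⟨w.sum + b', w.length + o', by omega, ?_, [j], w, rfl, by omega, by omega⟩
        calc 3 ^ (w.length + o') * (2 + 3 * te (cv v j) w).toNat
            = 3 ^ o' * (3 ^ w.length * (2 + 3 * te (cv v j) w).toNat) := by ring
          _ ≤ 3 ^ o' * (2 ^ w.sum * (2 + 3 * cv v j).toNat) := Nat.mul_le_mul_left _ hfull'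
          _ = 2 ^ w.sum * (3 ^ o' * (2 + 3 * cv v j).toNat) := by ring
          _ ≤ 2 ^ w.sum * (2 ^ b' * col^[k'] (2 + 3 * cv v j).toNat) := Nat.mul_le_mul_left _ e2
          _ = 2 ^ (w.sum + b') * col^[k'] (2 + 3 * cv v j).toNat := by ring
    · obtain ⟨b, o, e1, e2, t, s, e3, e4, e5⟩ := ih hw' c1 h2 hge
      exact ⟨b, o, e1, e2, j :: t, s, by rw [List.cons_append, e3], e4, e5⟩

theorem exc_nonneg (L : ℕ) (w : List ℕ) : 0 ≤ exc L w := le_max_right _ _

theorem texc_nonneg (L : ℕ) (u : List (List ℕ)) : 0 ≤ texc L u := by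
  unfold texc
  apply List.sum_nonneg
  intro x hx
  obtain ⟨w, _, rfl⟩ := List.mem_map.1 hx
  exact exc_nonneg L w

theorem texc_cons (L : ℕ) (w : List ℕ) (u : List (List ℕ)) :
    texc L (w :: u) = exc L w + texc L u := by
  unfold texc
  rw [List.map_cons, List.sum_cons]

theorem V6_sum_le {A : ℕ} (w : List ℕ) (hw : ∀ j ∈ w, 1 ≤ j ∧ j ≤ A) : w.sum ≤ A * w.length := by
  have := List.sum_le_card_nsmul w A (fun j hj => (hw j hj).2)
  rw [smul_eq_mul] at this
  linarith [Nat.mul_comm w.length A]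

/-- full block words -/
theorem V6_full {A L : ℕ} (u : List (List ℕ)) (hu : ∀ w ∈ u, w ∈ lw A L) :
    (u.flatten.sum : ℝ) ≤ 2 * u.flatten.length + texc L u := by
  induction u with
  | nil => simp [texc]
  | cons w u ih =>
    have h1 := ih (fun x hx => hu x (by simp [hx]))
    have h2 := (mem_lw.1 (hu w (by simp))).1
    have h3 : (w.sum : ℝ) - 2 * L ≤ exc L w := le_max_left _ _
    rw [texc_cons, List.flatten_cons, List.sum_append, List.length_append, h2, Nat.cast_add,
      Nat.cast_add]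
    linarith

/-- suffixes of block words -/
theorem V6_suffix {A L : ℕ} (u : List (List ℕ)) (hu : ∀ w ∈ u, w ∈ lw A L) (t s : List ℕ)
    (h : t ++ s = u.flatten) : (s.sum : ℝ) ≤ 2 * s.length + texc L u + A * L := by
  induction u generalizing t with
  | nil =>
    simp only [List.flatten_nil, List.append_eq_nil_iff] at h
    obtain ⟨-, rfl⟩ := h
    simp only [List.sum_nil, List.length_nil, texc, List.map_nil, Nat.cast_zero]
    positivity
  | cons w u ih =>
    have hu' : ∀ x ∈ u, x ∈ lw A L := fun x hx => hu x (by simp [hx])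
    have hw := mem_lw.1 (hu w (by simp))
    rw [List.flatten_cons] at h
    have he := exc_nonneg L w
    rw [texc_cons]
    rcases List.append_eq_append_iff.1 h with ⟨a', h1, h2⟩ | ⟨c', h1, h2⟩
    · -- w = t ++ a', s = a' ++ u.flatten
      have h3 := V6_full u hu'
      have h4 : a'.sum ≤ A * L := by
        have h5 := V6_sum_le w hw.2
        rw [hw.1, h1, List.sum_append] at h5
        omega
      have h4' : (a'.sum : ℝ) ≤ A * L := by exact_mod_cast h4
      rw [h2, List.sum_append, List.length_append, Nat.cast_add, Nat.cast_add]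
      have h6 : (0 : ℝ) ≤ a'.length := by positivity
      linarith
    · have h3 := ih hu' c' h2.symm
      linarith

/-- lower bound for every hitting time on a path of small excess -/
theorem hit_lower {A L : ℕ} (hL : 1 ≤ L) {v : ℤ} (hv : 0 ≤ v) {i : ℕ} {u : List (List ℕ)}
    (hu : u ∈ bws A L i) (h : adm v u.flatten) {k a : ℕ} (ha : 1 ≤ a)
    (hk : k ≤ u.flatten.sum + u.flatten.length)
    (hka : col^[k] (2 + 3 * te v u.flatten).toNat = a) :
    cstar * (Real.log (2 + 3 * te v u.flatten) - Real.log a) -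
      20 * (texc L u + A * (L + 1) + 2) ≤ k := by
  have hu2 := (mem_bws.1 hu).2
  have hw : ∀ j ∈ u.flatten, 1 ≤ j ∧ j ≤ A := by
    intro j hj
    obtain ⟨w, hw, hjw⟩ := List.mem_flatten.1 hj
    exact (mem_lw.1 (hu2 w hw)).2 j hjw
  obtain ⟨b, o, e1, e2, t, s, e3, e4, e5⟩ := V6_path hw hv h hk
  rw [hka] at e2
  have hte := (col_word hv (fun j hj => (hw j hj).1) h).1
  obtain ⟨y, hy⟩ : ∃ y : ℕ, 2 + 3 * te v u.flatten = (y : ℤ) :=
    ⟨(2 + 3 * te v u.flatten).toNat, by omega⟩
  have hy2 : 2 ≤ y := by omega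
  have hyr : (2 + 3 * (te v u.flatten : ℝ)) = (y : ℝ) := by exact_mod_cast hy
  rw [hy, Int.toNat_natCast] at e2
  rw [hyr]
  have hs := V6_suffix u hu2 t s e3
  have hE : (b : ℝ) ≤ 2 * o + (texc L u + A * (L + 1)) := by
    have h1 : (b : ℝ) ≤ s.sum + A := by exact_mod_cast e5
    have h2 : (s.length : ℝ) ≤ o := by exact_mod_cast e4
    linarith
  have hT := texc_nonneg L u
  set E : ℝ := texc L u + A * (L + 1) with hEd
  have hE0 : 0 ≤ E := by rw [hEd]; positivity
  have hapos : (0 : ℝ) < a := by exact_mod_cast ha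
  have hypos : (0 : ℝ) < y := by exact_mod_cast (by omega : 0 < y)
  have hlog : o * Real.log 3 + Real.log y ≤ b * Real.log 2 + Real.log a := by
    have h1 : ((3 : ℝ) ^ o * y) ≤ 2 ^ b * a := by exact_mod_cast e2
    have h2 := Real.log_le_log (by positivity) h1
    rw [Real.log_mul (by positivity) hypos.ne', Real.log_mul (by positivity) hapos.ne',
      Real.log_pow, Real.log_pow] at h2
    exact h2
  have hl2 : 0 < Real.log 2 := Real.log_pos (by norm_num)
  have hl3 : 0 < Real.log 3 := Real.log_pos (by norm_num)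
  have hθ : Real.log (4 / 3) = 2 * Real.log 2 - Real.log 3 := by
    rw [Real.log_div (by norm_num) (by norm_num), show (4 : ℝ) = 2 ^ 2 by norm_num, Real.log_pow]
    norm_num
  have hθpos : 0 < Real.log (4 / 3) := Real.log_pos (by norm_num)
  have h7 : Real.log 2 + Real.log 3 ≤ 7 * Real.log (4 / 3) := by
    rw [← Real.log_mul (by norm_num) (by norm_num)]
    have h8 : 7 * Real.log (4 / 3) = Real.log ((4 / 3) ^ 7) := by
      rw [Real.log_pow]; norm_num
    rw [h8]
    exact Real.log_le_log (by norm_num) (by norm_num)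
  have hk' : (k : ℝ) = b + o := by rw [← e1]; push_cast; ring
  set Y : ℝ := Real.log y - Real.log a with hY
  have hYle : Y ≤ b * Real.log 2 - o * Real.log 3 := by rw [hY]; linarith
  -- multiply by log (4/3)
  have key : 3 * Y - 7 * Real.log (4 / 3) * E ≤ Real.log (4 / 3) * k := by
    have h9 : (Real.log 2 + Real.log 3) * (2 * o - b) ≥ -(7 * Real.log (4 / 3) * E) := by
      have h10 : 2 * (o : ℝ) - b ≥ -E := by linarith
      have h11 : (Real.log 2 + Real.log 3) * (2 * o - b) ≥ (Real.log 2 + Real.log 3) * (-E) :=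
        mul_le_mul_of_nonneg_left h10 (by linarith)
      have h12 : (Real.log 2 + Real.log 3) * E ≤ 7 * Real.log (4 / 3) * E :=
        mul_le_mul_of_nonneg_right h7 hE0
      linarith
    rw [hk', hθ] at *
    nlinarith
  have hc : cstar * Y - 7 * E ≤ k := by
    unfold cstar
    have h13 : 3 / Real.log (4 / 3) * Y - 7 * E = (3 * Y - 7 * Real.log (4 / 3) * E) /
        Real.log (4 / 3) := by
      field_simp
    rw [h13, div_le_iff₀ hθpos]
    linarith
  linarith

end Pool.Agent.Lib.MP_e43fce_nt_one
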