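import Pool.Agent.Lib.MP_e43fce_nt_one.Defs
import Pool.Agent.Lib.MP_e43fce_nt_one.Defs2
import Pool.Agent.Lib.MP_e43fce_nt_one.V3
import Pool.Agent.Lib.MP_e43fce_nt_one.V4
import Pool.Agent.Lib.MP_e43fce_nt_one.V5
import Pool.Agent.Lib.MP_e43fce_nt_one.V6

/-!
Module V7: assembly of the sharp count.
-/

set_option autoImplicit false

open Finset

namespace Pool.Agent.Lib.MP_e43fce_nt_one

theorem V7_root (a : ℕ) (ha : ¬ 3 ∣ a) : ∃ b e : ℕ, b % 3 = 2 ∧ 1 ≤ b ∧ b ≤ 2 * a ∧ e ≤ 1 ∧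
    col^[e] b = a := by
  have hapos : 1 ≤ a := Nat.one_le_iff_ne_zero.2 (by rintro rfl; exact ha (dvd_zero 3))
  have h3 : a % 3 = 1 ∨ a % 3 = 2 := by omega
  rcases h3 with h | h
  · refine ⟨2 * a, 1, by omega, by omega, le_rfl, le_rfl, ?_⟩
    show col (2 * a) = a
    unfold col
    rw [if_pos (by omega)]
    omega
  · exact ⟨a, 0, h, hapos, by omega, by omega, rfl⟩

theorem V7_log_large (R : ℝ) : ∃ X : ℕ, ∀ x : ℕ, X ≤ x → R ≤ Real.log x := by
  refine ⟨⌈Real.exp R⌉₊, fun x hx => ?_⟩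
  have h1 : Real.exp R ≤ x := (Nat.le_ceil _).trans (by exact_mod_cast hx)
  have h2 := Real.log_le_log (Real.exp_pos R) h1
  rwa [Real.log_exp] at h2

open Classical in
theorem main_sharp {γ ε : ℝ} (h1 : γ < 1) (hε : 0 < ε) : ∀ a : ℕ, ¬ 3 ∣ a → ∃ c : ℝ, 0 < c ∧
    ∃ X : ℕ, ∀ x : ℕ, X ≤ x → c * (x : ℝ) ^ γ ≤
      (((Icc 1 x).filter (fun m : ℕ => Real.sqrt x ≤ (m : ℝ) ∧ m % 3 = 2 ∧ ∃ k : ℕ, col^[k] m = a ∧
        (∀ i < k, col^[i] m ≠ a) ∧ (cstar - ε) * Real.log m ≤ k ∧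
          (k : ℝ) ≤ (cstar + ε) * Real.log m)).card : ℝ) := by
  intro a ha
  have hapos : 1 ≤ a := Nat.one_le_iff_ne_zero.2 (by rintro rfl; exact ha (dvd_zero 3))
  obtain ⟨g, hgd⟩ : ∃ g, g = max γ (1 / 2) := ⟨_, rfl⟩
  have hg0 : 0 < g := by rw [hgd]; exact lt_of_lt_of_le (by norm_num) (le_max_right _ _)
  have hg1 : g < 1 := by rw [hgd]; exact max_lt h1 (by norm_num)
  have hγg : γ ≤ g := by rw [hgd]; exact le_max_left _ _
  have hθ : 0 < Real.log (4 / 3) := Real.log_pos (by norm_num)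
  have hcs : 0 < cstar := div_pos (by norm_num) hθ
  obtain ⟨τ, hτd⟩ : ∃ τ, τ = (1 - g) / (cstar + ε / 4) := ⟨_, rfl⟩
  have hden : 0 < cstar + ε / 4 := by positivity
  have hτ : 0 < τ := by rw [hτd]; exact div_pos (by linarith) hden
  have hτden : τ * (cstar + ε / 4) = 1 - g := by rw [hτd]; field_simp
  have hτ1 : 3 * τ < (1 - g) * Real.log (4 / 3) := by
    have h2 : cstar * Real.log (4 / 3) = 3 := by unfold cstar; field_simp
    have h3 : (1 - g) * Real.log (4 / 3) = τ * 3 + τ * (ε / 4) * Real.log (4 / 3) := by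
      linear_combination (-Real.log (4 / 3)) * hτden + τ * h2
    rw [h3]
    have h4 : 0 < τ * (ε / 4) * Real.log (4 / 3) := by positivity
    linarith
  have hC : 1 - g < τ * (cstar + ε / 2) := by
    rw [← hτden]
    exact mul_lt_mul_of_pos_left (by linarith) hτ
  have ht : (0 : ℝ) < 80 / ε := by positivity
  have hkap : 1 - g < 80 / ε * (ε / 80) := by
    have : 80 / ε * (ε / 80) = 1 := by field_simp
    rw [this]; linarith
  obtain ⟨A, hA, L, hL, hmean⟩ := pos_mean_block hg0 hg1 hτ hτ1 ht.le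
  obtain ⟨m, hm, hgrow⟩ := growth_of_mean hA hL (Ω := OB g τ (80 / ε) L)
    (fun w _ => by unfold OB; positivity) hmean
  obtain ⟨K, hK, hcount⟩ := count_block hg0 hg1 hτ ht hC hkap (by omega : 1 ≤ A) hL hm hgrow
  obtain ⟨b, e, hb3, hb1, hb2, he, hcol⟩ := V7_root a ha
  obtain ⟨q, hq⟩ : ∃ q : ℕ, b = 2 + 3 * q := ⟨b / 3, by omega⟩
  obtain ⟨c, hc, X1, hX1⟩ := hcount (q : ℤ) (by positivity)
  have hKr : (1 : ℝ) ≤ K := by exact_mod_cast hK
  have hlogK : 0 ≤ Real.log K := Real.log_nonneg hKr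
  have har : (1 : ℝ) ≤ a := by exact_mod_cast hapos
  have hlog2a : 0 ≤ Real.log (2 * a) := Real.log_nonneg (by linarith)
  obtain ⟨R1, hR1⟩ : ∃ R1, R1 = (2 / ε) * (1 + (cstar + ε) * Real.log K) := ⟨_, rfl⟩
  obtain ⟨R2, hR2⟩ : ∃ R2, R2 = (4 / (3 * ε)) * (ε * Real.log K + cstar * Real.log (2 * a) +
    20 * (A * (L + 1) + 2)) := ⟨_, rfl⟩
  obtain ⟨X2, hX2⟩ := V7_log_large (max R1 R2)
  refine ⟨c, hc, max (max X1 X2) (K ^ 2), fun x hx => ?_⟩
  have hx1 : X1 ≤ x := le_trans (le_trans (le_max_left _ _) (le_max_left _ _)) hx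
  have hx2 : X2 ≤ x := le_trans (le_trans (le_max_right _ _) (le_max_left _ _)) hx
  have hx3 : K ^ 2 ≤ x := le_trans (le_max_right _ _) hx
  have hxpos : 1 ≤ x := le_trans (Nat.one_le_pow _ _ hK) hx3
  have hxr : (1 : ℝ) ≤ x := by exact_mod_cast hxpos
  have hlogx := hX2 x hx2
  have hL1 : R1 ≤ Real.log x := (le_max_left _ _).trans hlogx
  have hL2 : R2 ≤ Real.log x := (le_max_right _ _).trans hlogx
  have hL1' : 1 + (cstar + ε) * Real.log K ≤ ε / 2 * Real.log x := by
    have h2 : ε / 2 * R1 = 1 + (cstar + ε) * Real.log K := by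
      rw [hR1]; field_simp
    rw [← h2]
    exact mul_le_mul_of_nonneg_left hL1 (by positivity)
  have hL2' : ε * Real.log K + cstar * Real.log (2 * a) + 20 * (A * (L + 1) + 2) ≤
      3 * ε / 4 * Real.log x := by
    have h2 : 3 * ε / 4 * R2 = ε * Real.log K + cstar * Real.log (2 * a) +
        20 * (A * (L + 1) + 2) := by
      rw [hR2]; field_simp
    rw [← h2]
    exact mul_le_mul_of_nonneg_left hL2 (by positivity)
  have hpow : c * (x : ℝ) ^ γ ≤ c * (x : ℝ) ^ g :=
    mul_le_mul_of_nonneg_left (Real.rpow_le_rpow_of_exponent_le hxr hγg) hc.le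
  refine le_trans hpow (le_trans (hX1 x hx1) ?_)
  have hsub : ((Icc 1 x).filter (fun n => x ≤ K * n ∧ n % 3 = 2 ∧
        ∃ i : ℕ, ∃ u ∈ bws A L i, adm (q : ℤ) u.flatten ∧
          (2 + 3 * te (q : ℤ) u.flatten).toNat = n ∧
          ((u.flatten.sum : ℝ) + u.flatten.length ≤ (cstar + ε / 2) * Real.log x) ∧
          texc L u ≤ ε / 80 * Real.log x)) ⊆
      ((Icc 1 x).filter (fun m : ℕ => Real.sqrt x ≤ (m : ℝ) ∧ m % 3 = 2 ∧ ∃ k : ℕ,
        col^[k] m = a ∧ (∀ i < k, col^[i] m ≠ a) ∧ (cstar - ε) * Real.log m ≤ k ∧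
          (k : ℝ) ≤ (cstar + ε) * Real.log m)) := by
    intro n hn
    rw [mem_filter] at hn ⊢
    obtain ⟨hnI, hxn, hn3, i, u, hu, hadm, hten, hlen, htx⟩ := hn
    have hn1 : 1 ≤ n := (mem_Icc.1 hnI).1
    have hn1r : (1 : ℝ) ≤ n := by exact_mod_cast hn1
    have hnx : n ≤ x := (mem_Icc.1 hnI).2
    have hxnr : (x : ℝ) ≤ K * n := by exact_mod_cast hxn
    have hlogn : Real.log x - Real.log K ≤ Real.log n := by
      have h2 := Real.log_le_log (by linarith : (0 : ℝ) < x) hxnr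
      rw [Real.log_mul (by linarith) (by linarith)] at h2
      linarith
    have hlogn0 : 0 ≤ Real.log n := Real.log_nonneg hn1r
    have hu2 := (mem_bws.1 hu).2
    have hw : ∀ j ∈ u.flatten, 1 ≤ j := by
      intro j hj
      obtain ⟨w, hw, hjw⟩ := List.mem_flatten.1 hj
      exact ((mem_lw.1 (hu2 w hw)).2 j hjw).1
    obtain ⟨hte, hcw⟩ := col_word (by positivity : (0 : ℤ) ≤ (q : ℤ)) hw hadm
    rw [hten] at hcw
    have hbq : (2 + 3 * (q : ℤ)).toNat = b := by omega
    rw [hbq] at hcw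
    have hnr : (2 + 3 * (te (q : ℤ) u.flatten : ℝ)) = (n : ℝ) := by
      have h2 : (2 + 3 * te (q : ℤ) u.flatten : ℤ) = (n : ℤ) := by
        rw [← hten, Int.toNat_of_nonneg (by linarith)]
      exact_mod_cast h2
    have hex : ∃ k : ℕ, col^[k] n = a :=
      ⟨e + (u.flatten.sum + u.flatten.length), by rw [Function.iterate_add_apply, hcw, hcol]⟩
    have hkspec := Nat.find_spec hex
    have hkle : Nat.find hex ≤ e + (u.flatten.sum + u.flatten.length) :=
      Nat.find_min' hex (by rw [Function.iterate_add_apply, hcw, hcol])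
    refine ⟨hnI, ?_, hn3, Nat.find hex, hkspec, fun i hi => Nat.find_min hex hi, ?_, ?_⟩
    · -- sqrt x ≤ n
      rw [Real.sqrt_le_left (by linarith)]
      have h2 : (K : ℝ) ^ 2 ≤ x := by exact_mod_cast hx3
      have h3 : (x : ℝ) ^ 2 ≤ (K * n : ℝ) ^ 2 := pow_le_pow_left₀ (by linarith) hxnr 2
      have h4 : (x : ℝ) * x ≤ x * n ^ 2 := by
        calc (x : ℝ) * x = x ^ 2 := by ring
          _ ≤ (K * n : ℝ) ^ 2 := h3
          _ = K ^ 2 * n ^ 2 := by ring
          _ ≤ x * n ^ 2 := mul_le_mul_of_nonneg_right h2 (by positivity)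
      exact le_of_mul_le_mul_left h4 (by linarith)
    · -- lower bound
      have hlow : cstar * (Real.log n - Real.log (2 * a)) -
          20 * (texc L u + A * (L + 1) + 2) ≤ Nat.find hex := by
        rcases Nat.lt_or_ge (u.flatten.sum + u.flatten.length) (Nat.find hex) with hlt | hge
        · have h2 := hit_lower hL (by positivity : (0 : ℤ) ≤ (q : ℤ)) hu hadm hb1 le_rfl
            (by rw [hten]; exact hcw)
          rw [hnr] at h2
          have h3 : Real.log b ≤ Real.log (2 * a) :=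
            Real.log_le_log (by exact_mod_cast hb1) (by exact_mod_cast hb2)
          have h4 : ((u.flatten.sum + u.flatten.length : ℕ) : ℝ) ≤ Nat.find hex := by
            exact_mod_cast hlt.le
          have h5 : cstar * Real.log b ≤ cstar * Real.log (2 * a) :=
            mul_le_mul_of_nonneg_left h3 hcs.le
          linarith
        · have h2 := hit_lower hL (by positivity : (0 : ℤ) ≤ (q : ℤ)) hu hadm hapos hge
            (by rw [hten]; exact hkspec)
          rw [hnr] at h2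
          have h3 : Real.log a ≤ Real.log (2 * a) :=
            Real.log_le_log (by linarith) (by linarith)
          have h5 : cstar * Real.log a ≤ cstar * Real.log (2 * a) :=
            mul_le_mul_of_nonneg_left h3 hcs.le
          linarith
      have h6 : ε * (Real.log x - Real.log K) ≤ ε * Real.log n :=
        mul_le_mul_of_nonneg_left hlogn hε.le
      have h7 : 20 * texc L u ≤ ε / 4 * Real.log x := by linarith
      linarith
    · -- upper bound
      have h2 : ((Nat.find hex : ℕ) : ℝ) ≤ 1 + ((u.flatten.sum : ℝ) + u.flatten.length) := by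
        have h3 : Nat.find hex ≤ 1 + (u.flatten.sum + u.flatten.length) := by omega
        exact_mod_cast h3
      have h4 : (cstar + ε) * (Real.log x - Real.log K) ≤ (cstar + ε) * Real.log n :=
        mul_le_mul_of_nonneg_left hlogn (by positivity)
      linarith
  exact_mod_cast Finset.card_le_card hsub

end Pool.Agent.Lib.MP_e43fce_nt_one
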