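import Pool.Agent.Lib.MP_e43fce_nt_one.Defs
import Pool.Agent.Lib.MP_e43fce_nt_one.Defs2
import Pool.Agent.Lib.MP_e43fce_nt_one.V7
import Pool.Agent.Lib.MP_e43fce_nt_one.RunsSharp

/-!
Module V8.
Long runs of consecutive integers in residue classes whose common first hitting time of `a` is
asymptotic to `cstar · log n`.
-/

set_option autoImplicit false

open Finset

namespace Pool.Agent.Lib.MP_e43fce_nt_one

open Classical in
theorem main_sharp_runs {γ ε : ℝ} (h1 : γ < 1) (hε : 0 < ε) : ∀ a : ℕ, ¬ 3 ∣ a →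
    ∀ Lr M r : ℕ, 0 < M → ∃ X : ℕ, ∀ x : ℕ, X ≤ x → (x : ℝ) ^ γ ≤
      (((Icc 1 x).filter (fun n : ℕ => n % M = r % M ∧ ∃ k : ℕ, k ≤ n ∧
        |(k : ℝ) - cstar * Real.log n| ≤ ε * Real.log n ∧ ∀ j ≤ Lr,
          col^[k] (n + j) = a ∧ ∀ i < k, col^[i] (n + j) ≠ a)).card : ℝ) := by
  intro a ha Lr M r hM
  have hm : max γ 0 < 1 := max_lt h1 (by norm_num)
  obtain ⟨c, hc, hcount⟩ := main_sharp (γ := (max γ 0 + 1) / 2) (ε := ε / 2) (by linarith)
    (by linarith) a ha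
  have hcs : 0 < cstar := by
    unfold cstar
    have : 0 < Real.log (4 / 3) := Real.log_pos (by norm_num)
    positivity
  obtain ⟨X, hX⟩ := Pool.Agent.Lib.MP_e43fce_nt.KL.runs_sharp_of (cs := cstar) (ε := ε)
    (γ := (max γ 0 + 1) / 2) (γ' := max γ 0) (c := c) hcs hε (le_max_right _ _) (by linarith) hc
    ha hcount Lr M r hM
  refine ⟨max X 1, fun x hx => le_trans ?_ (hX x ((le_max_left _ _).trans hx))⟩
  have hx1 : (1 : ℝ) ≤ x := by
    have : 1 ≤ x := (le_max_right _ _).trans hx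
    exact_mod_cast this
  exact Real.rpow_le_rpow_of_exponent_le hx1 (le_max_left _ _)

end Pool.Agent.Lib.MP_e43fce_nt_one
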